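import Pool.Agent.ESL.Basic

/-!
Statements of the modules of the proof of `SL R → ET R` (strongly linked form spaces are of elementary type).
-/

set_option linter.unusedVariables false

namespace Pool.Agent.ESL

/-! ### A. Linear algebra and ET -/

/-- alternating forms have even rank -/
def Stmt_EVEN : Prop := ∀ (V : Type) [AddCommGroup V] [Module (ZMod 2) V] [Finite V] (k : Fm V),
  (∀ x, k x x = 0) → Even (fr (LinearMap.range k))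

/-- a form `τ ∧ ψ` is not the sum of two nonzero alternating forms with independent supports -/
def Stmt_DEC2 : Prop := ∀ (V : Type) [AddCommGroup V] [Module (ZMod 2) V] [Finite V] (τ ψ : D V) (a b : Fm V),
  (∀ x, a x x = 0) → (∀ x, b x x = 0) → Disjoint (LinearMap.range a) (LinearMap.range b) →
  wdL τ ψ = a + b → a = 0 ∨ b = 0

def Stmt_ETALT : Prop := ∀ (V : Type) [AddCommGroup V] [Module (ZMod 2) V] (R : FS V), ET R → IsAlt R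

/-- every functional in the support of an ET space is a value -/
def Stmt_SPV : Prop := ∀ (V : Type) [AddCommGroup V] [Module (ZMod 2) V] [Finite V] (R : FS V), ET R →
  ∀ φ ∈ Sp R, ∃ k ∈ R, ∃ u, k u = φ

/-- the component of a form of rank two is a star -/
def Stmt_RK2 : Prop := ∀ (V : Type) [AddCommGroup V] [Module (ZMod 2) V] [Finite V] (R : FS V), ET R →
  ∀ τ ψ : D V, wdL τ ψ ∈ R → wdL τ ψ ≠ 0 → ∃ R₁ R₂ : FS V, R = R₁ ⊔ R₂ ∧ Disjoint (Sp R₁) (Sp R₂) ∧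
    τ ∈ Sp R₁ ∧ ψ ∈ Sp R₁ ∧ ∃ σ ∈ Sp R₁, σ ≠ 0 ∧ ∀ χ ∈ Sp R₁, wdL σ χ ∈ R₁

/-- a component (local or star) not killed by `x` -/
def Stmt_COMP : Prop := ∀ (V : Type) [AddCommGroup V] [Module (ZMod 2) V] [Finite V] (R : FS V), ET R →
  ∀ x, x ∉ rad R → ∃ R₁ R₂ : FS V, R = R₁ ⊔ R₂ ∧ Disjoint (Sp R₁) (Sp R₂) ∧ x ∉ rad R₁ ∧
    ((∃ k, R₁ = Submodule.span (ZMod 2) {k}) ∨ ∃ σ ∈ Sp R₁, σ ≠ 0 ∧ ∀ χ ∈ Sp R₁, wdL σ χ ∈ R₁)

/-- the forms killing a full `M` are a direct summand of an ET space -/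
def Stmt_MET : Prop := ∀ (V : Type) [AddCommGroup V] [Module (ZMod 2) V] [Finite V] (R : FS V), ET R →
  ∀ M : Submodule (ZMod 2) V, Full R M → ∃ R' : FS V, R = fxs R M ⊔ R' ∧ Disjoint (Sp (fxs R M)) (Sp R')

/-- ET spaces with small stars have a basis with independent supports -/
def Stmt_ATB : Prop := ∀ (V : Type) [AddCommGroup V] [Module (ZMod 2) V] [Finite V] (R : FS V), ET R →
  (∀ σ : D V, σ ≠ 0 → fr (Star R σ) ≤ 2) →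
  ∃ A : Finset (Fm V), IndB A ∧ Submodule.span (ZMod 2) (A : Set (Fm V)) = R

/-- reduction to `rad R = ⊥`, and the induction -/
def Stmt_RED : Prop :=
  (∀ (V : Type) [AddCommGroup V] [Module (ZMod 2) V] [Finite V] (R : FS V), IsAlt R → SL R → rad R = ⊥ →
    IH R → ET R) →
  ∀ (V : Type) [AddCommGroup V] [Module (ZMod 2) V] [Finite V] (R : FS V), IsAlt R → SL R → ET R

/-- a star of full dimension -/
def Stmt_EXT : Prop := ∀ (V : Type) [AddCommGroup V] [Module (ZMod 2) V] [Finite V] (R : FS V), IsAlt R → SL R →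
  rad R = ⊥ → IH R → ∀ τ : D V, τ ≠ 0 → Star R τ = ⊤ → ET R

/-! ### B. Part I: structure -/

def Stmt_F1 : Prop := ∀ (V : Type) [AddCommGroup V] [Module (ZMod 2) V] [Finite V] (R : FS V) (τ : D V)
  (M : Submodule (ZMod 2) V), CtxI R τ M → ∀ w ∈ M, w ≠ 0 → Spl R M w

def Stmt_F2 : Prop := ∀ (V : Type) [AddCommGroup V] [Module (ZMod 2) V] [Finite V] (R : FS V) (τ : D V)
  (M : Submodule (ZMod 2) V), CtxI R τ M → (∀ w ∈ M, w ≠ 0 → Spl R M w) → 2 ≤ fr M → Full R M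

/-- first half of (F3): `M = ⟨m⟩` -/
def Stmt_F3A : Prop := ∀ (V : Type) [AddCommGroup V] [Module (ZMod 2) V] [Finite V] (R : FS V) (τ : D V)
  (m : V), CtxI R τ (Submodule.span (ZMod 2) {m}) → ∃ z, τ z = 1 ∧ (∀ k ∈ R, k z m = 0) ∧
    (∀ x, (∀ k ∈ R, k z x = 0) → x = 0 ∨ x = z ∨ x = m ∨ x = z + m) ∧
    (∀ k ∈ R, k + wdL τ (k z) ∈ fx R z) ∧
    ∀ h h₁, τ h = 0 → τ h₁ = 0 → h ≠ 0 → h ≠ m → (∃ k ∈ R, k h₁ m ≠ 0) → (∃ k ∈ R, k (h₁ + h) m ≠ 0) →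
      ∃ k ∈ fx R z, k h = 0 ∧ k h₁ m = 1

/-- second step of (F3): `R^z` has only one component -/
def Stmt_F3B : Prop := ∀ (V : Type) [AddCommGroup V] [Module (ZMod 2) V] [Finite V] (R : FS V) (τ : D V)
  (m z : V), CtxI R τ (Submodule.span (ZMod 2) {m}) → τ z = 1 → (∀ k ∈ R, k z m = 0) →
    (∀ k ∈ R, k + wdL τ (k z) ∈ fx R z) →
    (∀ h h₁, τ h = 0 → τ h₁ = 0 → h ≠ 0 → h ≠ m → (∃ k ∈ R, k h₁ m ≠ 0) → (∃ k ∈ R, k (h₁ + h) m ≠ 0) →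
      ∃ k ∈ fx R z, k h = 0 ∧ k h₁ m = 1) →
    ∀ R₁ R₂ : FS V, fx R z = R₁ ⊔ R₂ → Disjoint (Sp R₁) (Sp R₂) → m ∉ rad R₁ → R₂ = ⊥ ∧ rad (fx R z) =
      Submodule.span (ZMod 2) {z}

/-- (F3) -/
def Stmt_F3 : Prop := ∀ (V : Type) [AddCommGroup V] [Module (ZMod 2) V] [Finite V] (R : FS V) (τ : D V)
  (M : Submodule (ZMod 2) V), CtxI R τ M → 2 ≤ fr M

/-- (F4), `w ∈ H \ M`, `d ≥ 3` -/
def Stmt_F4A : Prop := ∀ (V : Type) [AddCommGroup V] [Module (ZMod 2) V] [Finite V] (R : FS V) (τ : D V)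
  (M : Submodule (ZMod 2) V), CtxI R τ M → Full R M → fr M + 3 ≤ fr V → ∀ w, w ∉ M → τ w = 0 → Spl R M w

/-- (F4), `d = 2` -/
def Stmt_F4B : Prop := ∀ (V : Type) [AddCommGroup V] [Module (ZMod 2) V] [Finite V] (R : FS V) (τ : D V)
  (M : Submodule (ZMod 2) V), CtxI R τ M → Full R M → fr V = fr M + 2 → ∀ w, w ∉ M → rad (fx R w) ⊔ M = ⊤

/-- (F4), `y ∈ Y` -/
def Stmt_F4C : Prop := ∀ (V : Type) [AddCommGroup V] [Module (ZMod 2) V] [Finite V] (R : FS V) (τ : D V)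
  (M : Submodule (ZMod 2) V), CtxI R τ M → Full R M → ∀ y, τ y = 1 →
    (∀ x, x ∉ M → τ x = 0 → ∃ κ ∈ R, (∀ m ∈ M, κ m = 0) ∧ κ y = 0 ∧ κ x ≠ 0) → Spl R M y

/-! ### C. Counting -/

/-- sums over a set of functionals -/
noncomputable def sOn {X : Type} [AddCommGroup X] [Module (ZMod 2) X] [Finite X] (S : Set (D X))
    (f : D X → ℤ) : ℤ := ∑ θ ∈ (Set.toFinite S).toFinset, f θ

/-- the splitting equivalence -/
def Stmt_SPLEQ : Prop := ∀ (V : Type) [AddCommGroup V] [Module (ZMod 2) V] [Finite V] (R : FS V)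
  (M C : Submodule (ZMod 2) V) (w : V), IsAlt R → C ⊔ M = ⊤ →
  (∀ k ∈ R, k w = 0 → ∃ κ ∈ R, (∀ m ∈ M, κ m = 0) ∧ κ w = 0 ∧ ∀ c ∈ C, k c = κ c) → ∀ (α : D V),
  (∀ θ : D (V ⧸ M), ∀ c ∈ C, ∀ a ∈ M, α + θ ∘ₗ M.mkQ ∈ Lx (fx R w) (c + a) ↔
    ∃ θ' : D (V ⧸ M), θ' + θ ∈ Lx (fx (R0 R M) (M.mkQ w)) (M.mkQ c) ∧ α + θ' ∘ₗ M.mkQ ∈ Lx (fx R w) a) ∧
  (∀ θ θ' : D (V ⧸ M), ∀ a ∈ M, ∀ a' ∈ M, α + θ ∘ₗ M.mkQ ∈ Lx (fx R w) a →
    α + θ' ∘ₗ M.mkQ ∈ Lx (fx R w) a' → θ = θ')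

/-- (P0) -/
def Stmt_PZ : Prop := ∀ (V : Type) [AddCommGroup V] [Module (ZMod 2) V] [Finite V] (R : FS V)
  (M : Submodule (ZMod 2) V) (α : D V), ∀ κ ∈ R0 R M, ∀ θ x, PP R M α (θ + κ x) x = PP R M α θ x

/-- (P1) DIAG -/
def Stmt_DIAG : Prop := ∀ (V : Type) [AddCommGroup V] [Module (ZMod 2) V] [Finite V] (R : FS V)
  (M : Submodule (ZMod 2) V) (α : D V), IsAlt R → Linked R → (∀ w ∈ M, w ≠ 0 → Spl R M w) → ∀ θ x,
  ((PP R M α θ x : ℤ) ^ 2 - PP R M α θ x) =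
    sOn {θ' | θ' + θ ∈ Lx (R0 R M) x} (fun θ' => (PP R M α θ' 0 : ℤ) ^ 2 - PP R M α θ' 0)

/-- (P2) PAIR -/
def Stmt_PAIR : Prop := ∀ (V : Type) [AddCommGroup V] [Module (ZMod 2) V] [Finite V] (R : FS V)
  (M : Submodule (ZMod 2) V) (α : D V), IsAlt R → Linked R → ∀ v v' : V ⧸ M, v ≠ v' →
  (∀ w : V, M.mkQ w = v + v' → Spl R M w) → ∀ θ,
  ((PP R M α θ v : ℤ) * PP R M α θ v') =
    sOn {θ' | θ' + θ ∈ Lx (fx (R0 R M) (v + v')) v} (fun θ' => (PP R M α θ' 0 : ℤ) * PP R M α θ' (v + v'))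

/-- (P3) -/
def Stmt_P3 : Prop := ∀ (V : Type) [AddCommGroup V] [Module (ZMod 2) V] [Finite V] (R : FS V)
  (M : Submodule (ZMod 2) V) (α : D V), IsAlt R → Full R M → ∀ x : V ⧸ M,
  (∀ ψ : D (V ⧸ M), ψ x = 0 → ψ ∈ Lx (R0 R M) x) → ∀ θ, 1 ≤ PP R M α θ 0 → 1 ≤ PP R M α θ x

/-- the abstract counting context, `X = V / M` -/
structure CtxC {X : Type} [AddCommGroup X] [Module (ZMod 2) X] [Finite X] (R : FS X) (τ : D X)
    (P : D X → X → ℕ) : Prop where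
  alt : IsAlt R
  τ0 : τ ≠ 0
  star : ∀ ψ, wdL τ ψ ∈ R
  zero : ∀ κ ∈ R, ∀ θ x, P (θ + κ x) x = P θ x
  diag : ∀ θ x, ((P θ x : ℤ) ^ 2 - P θ x) =
    sOn {θ' | θ' + θ ∈ Lx R x} (fun θ' => (P θ' 0 : ℤ) ^ 2 - P θ' 0)
  pair : ∀ θ v v', v ≠ v' → τ (v + v') = 0 → ((P θ v : ℤ) * P θ v') =
    sOn {θ' | θ' + θ ∈ Lx (fx R (v + v')) v} (fun θ' => (P θ' 0 : ℤ) * P θ' (v + v'))
  pairY : (∀ y x, τ y = 1 → τ x = 0 → x ≠ 0 → ∃ κ ∈ R, κ y = 0 ∧ κ x ≠ 0) → ∀ θ v v', τ (v + v') = 1 →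
    ((P θ v : ℤ) * P θ v') =
    sOn {θ' | θ' + θ ∈ Lx (fx R (v + v')) v} (fun θ' => (P θ' 0 : ℤ) * P θ' (v + v'))
  pos : ∀ θ y, τ y = 1 → 1 ≤ P θ 0 → 1 ≤ P θ y

/-- sign -/
def sg (a : ZMod 2) : ℤ := if a = 0 then 1 else -1

/-- Fourier transform on the affine hyperplane `τ = 1` -/
def Stmt_FOUR : Prop := ∀ (X : Type) [AddCommGroup X] [Module (ZMod 2) X] [Finite X] (τ : D X) (g : D X → ℤ)
  (c : ℤ), τ ≠ 0 → (∀ y, τ y = 1 → sOn Set.univ (fun θ => sg (θ y) * g θ) = c) →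
  (∀ θ, θ ≠ 0 → θ ≠ τ → g θ = g (θ + τ)) ∧ g 0 - g τ = c

/-- a function on `τ = 1` whose products only depend on the sum is constant -/
def Stmt_CONST : Prop := ∀ (X : Type) [AddCommGroup X] [Module (ZMod 2) X] [Finite X] (τ : D X) (p Q : X → ℤ),
  3 ≤ fr X → τ ≠ 0 → (∀ y, τ y = 1 → 1 ≤ p y) →
  (∀ y y', y ≠ y' → τ y = 1 → τ y' = 1 → p y * p y' = Q (y + y')) → ∃ c, ∀ y, τ y = 1 → p y = c

/-- signs whose products only depend on the sum are given by a functional -/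
def Stmt_SIGN : Prop := ∀ (X : Type) [AddCommGroup X] [Module (ZMod 2) X] [Finite X] (τ : D X) (d Q : X → ℤ)
  (c : ℤ), τ ≠ 0 → 0 < c → (∀ y, τ y = 1 → d y ^ 2 = c ^ 2) →
  (∀ y y', y ≠ y' → τ y = 1 → τ y' = 1 → d y * d y' = Q (y + y')) →
  ∃ θ : D X, ∀ y, τ y = 1 → d y = c * sg (θ y)

/-- facts on `Y` in the counting context -/
def Stmt_C3Y : Prop := ∀ (X : Type) [AddCommGroup X] [Module (ZMod 2) X] [Finite X] (R : FS X) (τ : D X)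
  (P : D X → X → ℕ), CtxC R τ P →
  (∀ y, τ y = 1 → ∀ θ ψ : D X, ψ y = 0 → P (θ + ψ) y = P θ y) ∧
  (∀ y, τ y = 1 → ∀ θ, ((P θ y : ℤ) ^ 2 - P θ y) =
    sOn {θ' | θ' y = θ y} (fun θ' => (P θ' 0 : ℤ) ^ 2 - P θ' 0)) ∧
  (∀ y y', y ≠ y' → τ y = 1 → τ y' = 1 → ∀ θ, ((P θ y : ℤ) * P θ y') =
    sOn {θ' | θ' y = θ y ∧ θ' y' = θ y'} (fun θ' => (P θ' 0 : ℤ) * P θ' (y + y')))

/-- case `D ≠ 0` -/
def Stmt_C3D : Prop := ∀ (X : Type) [AddCommGroup X] [Module (ZMod 2) X] [Finite X] (R : FS X) (τ : D X)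
  (P : D X → X → ℕ), CtxC R τ P → 3 ≤ fr X → ∀ p d : ℤ, 0 < d →
  (∀ y, τ y = 1 → (P 0 y : ℤ) + P τ y = p ∧ (P 0 y : ℤ) - P τ y = d) → ∀ θ, 1 ≤ P θ 0 → θ = 0

/-- case `D = 0` -/
def Stmt_C3E : Prop := ∀ (X : Type) [AddCommGroup X] [Module (ZMod 2) X] [Finite X] (R : FS X) (τ : D X)
  (P : D X → X → ℕ), CtxC R τ P → 3 ≤ fr X → ∀ c : ℕ, 1 ≤ c →
  (∀ y, τ y = 1 → P 0 y = c ∧ P τ y = c) → (∃ θ, 1 ≤ P θ 0) → False

/-- (C3) -/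
def Stmt_C3 : Prop := ∀ (X : Type) [AddCommGroup X] [Module (ZMod 2) X] [Finite X] (R : FS X) (τ : D X)
  (P : D X → X → ℕ), CtxC R τ P → 3 ≤ fr X → ∀ θ θ', 1 ≤ P θ 0 → 1 ≤ P θ' 0 → θ = θ'

/-- the counting context holds in Part I, `d ≥ 3` -/
def Stmt_CTXC : Prop := ∀ (V : Type) [AddCommGroup V] [Module (ZMod 2) V] [Finite V] (R : FS V) (τ : D V)
  (M : Submodule (ZMod 2) V), CtxI R τ M → Full R M → fr M + 3 ≤ fr V → ∀ α : D V,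
  ∃ τ' : D (V ⧸ M), CtxC (R0 R M) τ' (PP R M α)

/-- (C2), counting part: two colours give four colours -/
def Stmt_C2A : Prop := ∀ (V : Type) [AddCommGroup V] [Module (ZMod 2) V] [Finite V] (R : FS V) (τ : D V)
  (M : Submodule (ZMod 2) V), CtxI R τ M → Full R M → fr V = fr M + 2 → ∀ α : D V,
  ∀ θ θ', θ ≠ θ' → 1 ≤ PP R M α θ 0 → 1 ≤ PP R M α θ' 0 → ∀ θ'' x, PP R M α θ'' x = 1

/-- four colours: forms hitting a colour are nondegenerate on `M` -/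
def Stmt_NDM : Prop := ∀ (V : Type) [AddCommGroup V] [Module (ZMod 2) V] [Finite V] (R : FS V)
  (M : Submodule (ZMod 2) V) (α : D V), IsAlt R → Full R M → (∀ θ x, PP R M α θ x = 1) →
  ∀ k ∈ R, ∀ m ∈ M, ∀ θ, k m = α + θ ∘ₗ M.mkQ → ∀ a ∈ M, (∀ b ∈ M, k a b = 0) → a = 0

/-- every form is a form with `ker + M = V` plus a form killing `M` (if `dim V / M = 2` and `R` contains
the form of `V / M`) -/
def Stmt_PHI : Prop := ∀ (V : Type) [AddCommGroup V] [Module (ZMod 2) V] [Finite V] (R : FS V) (τ : D V)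
  (M : Submodule (ZMod 2) V), CtxI R τ M → Full R M → fr V = fr M + 2 → ∀ k ∈ R,
  ∃ κ ∈ R, (∀ m ∈ M, κ m = 0) ∧ LinearMap.ker (k + κ) ⊔ M = ⊤

/-- (X) -/
def Stmt_X : Prop := ∀ (V : Type) [AddCommGroup V] [Module (ZMod 2) V] [Finite V] (R : FS V) (τ : D V)
  (M : Submodule (ZMod 2) V), CtxI R τ M → Full R M → fr V = fr M + 2 → ∀ k ∈ R, ∀ k' ∈ R, ∀ κ ∈ R,
  LinearMap.ker k ⊔ M = ⊤ → LinearMap.ker k' ⊔ M = ⊤ → (∀ m ∈ M, κ m = 0) → κ ≠ 0 →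
  LinearMap.ker (k + k' + κ) ⊔ M = ⊤ → LinearMap.ker k ⊓ M = ⊥ ∧ LinearMap.ker k' ⊓ M = ⊥

/-- four colours: the two forms -/
def Stmt_C2B : Prop := ∀ (V : Type) [AddCommGroup V] [Module (ZMod 2) V] [Finite V] (R : FS V) (τ : D V)
  (M : Submodule (ZMod 2) V), CtxI R τ M → Full R M → fr V = fr M + 2 → ∀ α : D V,
  (∀ θ x, PP R M α θ x = 1) → ∃ ρ₁ ∈ R, ∃ ρ₂ ∈ R, ∃ κ ∈ R, LinearMap.ker ρ₁ ⊔ M = ⊤ ∧
    LinearMap.ker ρ₂ ⊔ M = ⊤ ∧ LinearMap.ker ρ₁ ⊓ M = ⊥ ∧ LinearMap.ker ρ₂ ⊓ M = ⊥ ∧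
    (∀ m ∈ M, κ m = 0) ∧ κ ≠ 0 ∧ LinearMap.ker (ρ₁ + ρ₂ + κ) ⊔ M = ⊤

/-- in (C2) the context of Part II holds (atoms may have rank two) -/
def Stmt_C2II : Prop := ∀ (V : Type) [AddCommGroup V] [Module (ZMod 2) V] [Finite V] (R : FS V) (τ : D V)
  (M : Submodule (ZMod 2) V), CtxI R τ M → fr V = fr M + 2 → CtxII R

/-- `ρ₁` is the only form killing `w` -/
def Stmt_C2C : Prop := ∀ (V : Type) [AddCommGroup V] [Module (ZMod 2) V] [Finite V] (R : FS V) (τ : D V)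
  (M : Submodule (ZMod 2) V), CtxI R τ M → Full R M → fr V = fr M + 2 → ∀ ρ₁ ∈ R, ∀ ρ₂ ∈ R, ∀ κ ∈ R,
    LinearMap.ker ρ₁ ⊔ M = ⊤ →
    LinearMap.ker ρ₂ ⊔ M = ⊤ → LinearMap.ker ρ₁ ⊓ M = ⊥ → LinearMap.ker ρ₂ ⊓ M = ⊥ →
    (∀ m ∈ M, κ m = 0) → κ ≠ 0 → LinearMap.ker (ρ₁ + ρ₂ + κ) ⊔ M = ⊤ →
    ∀ w ∈ LinearMap.ker ρ₁, w ≠ 0 → fx R w = Submodule.span (ZMod 2) {ρ₁}

/-- (C2) -/
def Stmt_C2 : Prop := ∀ (V : Type) [AddCommGroup V] [Module (ZMod 2) V] [Finite V] (R : FS V) (τ : D V)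
  (M : Submodule (ZMod 2) V), CtxI R τ M → Full R M → fr V = fr M + 2 → ∀ α : D V,
  ∀ θ θ', 1 ≤ PP R M α θ 0 → 1 ≤ PP R M α θ' 0 → θ = θ'

/-! ### D. End of Part I -/

/-- `V_M` -/
def cent {V : Type} [AddCommGroup V] [Module (ZMod 2) V] (R : FS V) (M : Submodule (ZMod 2) V) :
    Submodule (ZMod 2) V where
  carrier := {v | ∀ k ∈ R, ∀ m ∈ M, k m v = 0}
  add_mem' := fun {a b} ha hb k hk m hm => by rw [map_add, ha k hk m hm, hb k hk m hm, add_zero]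
  zero_mem' := fun k hk m hm => map_zero _
  smul_mem' := fun c a ha k hk m hm => by rw [map_smul, ha k hk m hm, smul_zero]

/-- one colour -/
def OC {V : Type} [AddCommGroup V] [Module (ZMod 2) V] (R : FS V) (M : Submodule (ZMod 2) V) : Prop :=
  ∀ m ∈ M, ∀ m' ∈ M, ∀ k ∈ R, ∀ k' ∈ R, (∀ a ∈ M, k m a = k' m' a) → k m = k' m'

/-- one colour for the counting functions implies `OC` -/
def Stmt_OC : Prop := ∀ (V : Type) [AddCommGroup V] [Module (ZMod 2) V] [Finite V] (R : FS V)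
  (M : Submodule (ZMod 2) V), (∀ α : D V, ∀ θ θ', 1 ≤ PP R M α θ 0 → 1 ≤ PP R M α θ' 0 → θ = θ') → OC R M

/-- saturation: `V = M + V_M` -/
def Stmt_SAT : Prop := ∀ (V : Type) [AddCommGroup V] [Module (ZMod 2) V] [Finite V] (R : FS V)
  (M : Submodule (ZMod 2) V), IsAlt R → Linked R → OC R M → M ⊔ cent R M = ⊤

/-- `Q_m ∩ Q_v = 0` for `m ∈ M`, `v ∈ V_M` -/
def Stmt_CROSS : Prop := ∀ (V : Type) [AddCommGroup V] [Module (ZMod 2) V] [Finite V] (R : FS V) (τ : D V)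
  (M : Submodule (ZMod 2) V), IsAlt R → Linked R → rad R = ⊥ → τ ≠ 0 → (∀ ψ ∈ an M, wdL τ ψ ∈ R) →
  (∀ m ∈ M, τ m = 0) → M ⊔ cent R M = ⊤ →
  ∀ m ∈ M, ∀ a ∈ M, ∀ v ∈ cent R M, ∀ u ∈ cent R M, (∀ k ∈ R, k m a = k v u) → ∀ k ∈ R, k m a = 0

/-- decomposition -/
def Stmt_ENDD : Prop := ∀ (V : Type) [AddCommGroup V] [Module (ZMod 2) V] [Finite V] (R : FS V)
  (M : Submodule (ZMod 2) V), IsAlt R → SL R → rad R = ⊥ → IH R → M ≠ ⊥ → M ≠ ⊤ → M ⊔ cent R M = ⊤ →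
  (∀ m ∈ M, ∀ a ∈ M, ∀ v ∈ cent R M, ∀ u ∈ cent R M, (∀ k ∈ R, k m a = k v u) → ∀ k ∈ R, k m a = 0) →
  ET R

/-- Part I -/
def Stmt_PARTI : Prop := ∀ (V : Type) [AddCommGroup V] [Module (ZMod 2) V] [Finite V] (R : FS V) (τ : D V)
  (M : Submodule (ZMod 2) V), CtxI R τ M → IH R → ET R

/-! ### E. Part II -/

/-- a basis with independent supports is unique -/
def Stmt_AU : Prop := ∀ (V : Type) [AddCommGroup V] [Module (ZMod 2) V] [Finite V] (A : Finset (Fm V)) (S : FS V),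
  (∀ a ∈ A, ∀ x, a x x = 0) → IndB A → Submodule.span (ZMod 2) (A : Set (Fm V)) = S → ∀ a, a ∈ A ↔
    a ∈ S ∧ a ≠ 0 ∧ ∀ k ∈ S, LinearMap.range k ≤ LinearMap.range a → k = 0 ∨ k = a

def Stmt_AU1 : Prop := ∀ (V : Type) [AddCommGroup V] [Module (ZMod 2) V] [Finite V] (R : FS V), CtxII R →
  ∀ w, w ≠ 0 → IndB (ats R w) ∧ Submodule.span (ZMod 2) (ats R w : Set (Fm V)) = fx R w

def Stmt_AU2 : Prop := ∀ (V : Type) [AddCommGroup V] [Module (ZMod 2) V] [Finite V] (R : FS V), CtxII R →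
  ∀ v w a, v ≠ 0 → w ≠ 0 → At R w a → a v = 0 → At R v a

/-- subset sums: every `k ∈ R^w` is the sum of the atoms of `R^w` below it, with independent supports -/
def Stmt_AU3 : Prop := ∀ (V : Type) [AddCommGroup V] [Module (ZMod 2) V] [Finite V] (R : FS V), CtxII R →
  ∀ w, w ≠ 0 → ∀ k ∈ fx R w, ∃ I ⊆ ats R w, k = ∑ a ∈ I, a ∧
    (∀ a ∈ ats R w, a ∈ I ↔ LinearMap.range a ≤ LinearMap.range k) ∧
    (∀ a ∈ ats R w, a ∉ I → Disjoint (LinearMap.range a) (LinearMap.range k)) ∧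
    (∀ u, k u = 0 ↔ ∀ a ∈ I, a u = 0)

def Stmt_G1 : Prop := ∀ (V : Type) [AddCommGroup V] [Module (ZMod 2) V] [Finite V] (R : FS V), CtxII R →
  ∀ ψ : D V, ψ ≠ 0 → ∀ x y, x ≠ y → ψ ∈ Lx R x → ψ ∈ Lx R y → ∃ k, Blk R ψ k ∧ k x = ψ ∧ k y = ψ

def Stmt_G1A : Prop := ∀ (V : Type) [AddCommGroup V] [Module (ZMod 2) V] [Finite V] (R : FS V), CtxII R →
  ∀ a, Atom R a → ∀ φ ∈ LinearMap.range a, φ ≠ 0 → Blk R φ a

/-- in `y^⊥` there are at most `(n-1)/2` atoms, and a small one among any two -/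
def Stmt_G2A : Prop := ∀ (V : Type) [AddCommGroup V] [Module (ZMod 2) V] [Finite V] (R : FS V), CtxII R →
  ∀ y, y ≠ 0 → 2 * (ats R y).card + 1 ≤ fr V ∧
    (2 ≤ (ats R y).card → ∃ a, At R y a ∧ 2 * fr (LinearMap.range a) + 1 ≤ fr V)

def Stmt_G2 : Prop := ∀ (V : Type) [AddCommGroup V] [Module (ZMod 2) V] [Finite V] (R : FS V), CtxII R →
  ∀ ψ k y, Blk R ψ k → ψ ∈ Lx R y → k y ≠ ψ → fr (LinearMap.ker k) ≤ (ats R y).card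

def Stmt_G3 : Prop := ∀ (V : Type) [AddCommGroup V] [Module (ZMod 2) V] [Finite V] (R : FS V), CtxII R →
  ∀ a, Atom R a → 2 * fr (LinearMap.range a) + 1 ≤ fr V → Good R a

def Stmt_G4 : Prop := ∀ (V : Type) [AddCommGroup V] [Module (ZMod 2) V] [Finite V] (R : FS V), IsAlt R →
  ∀ a ∈ R, Good R a → ∀ ρ ∈ R, Disjoint (LinearMap.range ρ) (LinearMap.range a) ∨
    (Disjoint (LinearMap.range (ρ + a)) (LinearMap.range a) ∧ LinearMap.ker ρ ≤ LinearMap.ker a)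

def Stmt_G5 : Prop := ∀ (V : Type) [AddCommGroup V] [Module (ZMod 2) V] [Finite V] (R : FS V), CtxII R →
  ∀ a, Atom R a → Good R a → ∀ ψ k u, Blk R ψ k → ψ ∈ Lx R u → a u = 0 → ∀ z, ψ ∈ Lx R z → k z = ψ

def Stmt_GG : Prop := ∀ (V : Type) [AddCommGroup V] [Module (ZMod 2) V] [Finite V] (R : FS V), CtxII R →
  ∀ a, Atom R a → 2 ≤ fr (LinearMap.ker a) → Good R a

def Stmt_G6 : Prop := ∀ (V : Type) [AddCommGroup V] [Module (ZMod 2) V] [Finite V] (R : FS V), CtxII R →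
  Even (fr V) → ∀ a, Atom R a → Good R a

/-- combinatorics of (G7) -/
def Stmt_G7B : Prop := ∀ (V : Type) [AddCommGroup V] [Module (ZMod 2) V] [Finite V] (S : Finset V) (b : ℕ),
  0 ∉ S → 2 ≤ b → S.card + 1 = 2 ^ b →
  (∀ φ : D V, φ ≠ 0 → Nat.card {x // x ∈ S ∧ φ x = 0} ∈ ({0, 1, 3} : Set ℕ)) →
  fr V = 3 ∨ ∃ x y, x ≠ y ∧ x ∈ S ∧ y ∈ S ∧ x + y ∈ S ∧ b = 2

/-- (G7), `n` even: if there is no atom then `dim R ≤ 1` -/
def Stmt_G7A : Prop := ∀ (V : Type) [AddCommGroup V] [Module (ZMod 2) V] [Finite V] (R : FS V), CtxII R →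
  2 ≤ fr R → ∃ a, Atom R a

/-- (G7), `n` odd without good atoms -/
def Stmt_G7C : Prop := ∀ (V : Type) [AddCommGroup V] [Module (ZMod 2) V] [Finite V] (R : FS V), CtxII R →
  Odd (fr V) → (∀ a, Atom R a → ¬ Good R a) →
  (∀ k ∈ R, k ≠ 0 → Atom R k ∧ fr (LinearMap.ker k) = 1) ∧
  (∀ k ∈ R, ∀ k' ∈ R, k ≠ 0 → k' ≠ 0 → LinearMap.ker k = LinearMap.ker k' → k = k') ∧
  ∀ φ : D V, φ ≠ 0 → Nat.card {k // k ∈ R ∧ k ≠ 0 ∧ φ ∈ LinearMap.range k} ∈ ({0, 1, 3} : Set ℕ)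

def Stmt_G7 : Prop := ∀ (V : Type) [AddCommGroup V] [Module (ZMod 2) V] [Finite V] (R : FS V), CtxII R →
  (∀ k ∈ R, fr (LinearMap.range k) ≠ 2) → 2 ≤ fr R → ∃ a, Atom R a ∧ Good R a

/-- hypothesis for contradiction in (G8) -/
structure Ctx8 {V : Type} [AddCommGroup V] [Module (ZMod 2) V] (R : FS V) (a r₁ r₂ r₃ : Fm V) :
    Prop where
  ctx : CtxII R
  atom : Atom R a
  good : Good R a
  m₁ : r₁ ∈ R
  m₂ : r₂ ∈ R
  m₃ : r₃ ∈ R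
  d₁ : Disjoint (LinearMap.range r₁) (LinearMap.range a)
  d₂ : Disjoint (LinearMap.range r₂) (LinearMap.range a)
  d₃ : Disjoint (LinearMap.range r₃) (LinearMap.range a)
  sum : r₁ + r₂ + r₃ = a

def Stmt_G8A : Prop := ∀ (V : Type) [AddCommGroup V] [Module (ZMod 2) V] [Finite V] (R : FS V)
  (a r₁ r₂ r₃ : Fm V), Ctx8 R a r₁ r₂ r₃ → LinearMap.ker r₁ ⊓ LinearMap.ker r₂ = ⊥

def Stmt_G8B : Prop := ∀ (V : Type) [AddCommGroup V] [Module (ZMod 2) V] [Finite V] (R : FS V)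
  (a r₁ r₂ r₃ : Fm V), Ctx8 R a r₁ r₂ r₃ → LinearMap.ker a ⊓ LinearMap.ker r₃ = ⊥

/-- `n` is even, all atoms are good, `r₁` is an atom -/
def Stmt_G8C : Prop := ∀ (V : Type) [AddCommGroup V] [Module (ZMod 2) V] [Finite V] (R : FS V)
  (a r₁ r₂ r₃ : Fm V), Ctx8 R a r₁ r₂ r₃ → Even (fr V) ∧ Atom R r₁

/-- all atoms have rank `n / 2`, different atoms have complementary kernels -/
def Stmt_G8D : Prop := ∀ (V : Type) [AddCommGroup V] [Module (ZMod 2) V] [Finite V] (R : FS V)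
  (a r₁ r₂ r₃ : Fm V), Ctx8 R a r₁ r₂ r₃ → ∀ b, Atom R b → 2 * fr (LinearMap.range b) = fr V ∧
    ∀ c, Atom R c → c ≠ b → LinearMap.ker b ⊓ LinearMap.ker c = ⊥

/-- final count of (G8) -/
def Stmt_G8E : Prop := ∀ (V : Type) [AddCommGroup V] [Module (ZMod 2) V] [Finite V] (R : FS V)
  (a r₁ r₂ r₃ : Fm V), Ctx8 R a r₁ r₂ r₃ → False

/-- (G8) -/
def Stmt_G8 : Prop := ∀ (V : Type) [AddCommGroup V] [Module (ZMod 2) V] [Finite V] (R : FS V), CtxII R →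
  ∀ a, Atom R a → Good R a → ∀ r₁ ∈ R, ∀ r₂ ∈ R, Disjoint (LinearMap.range r₁) (LinearMap.range a) →
  Disjoint (LinearMap.range r₂) (LinearMap.range a) → Disjoint (LinearMap.range (r₁ + r₂)) (LinearMap.range a)

/-- (G9) -/
def Stmt_G9 : Prop := ∀ (V : Type) [AddCommGroup V] [Module (ZMod 2) V] [Finite V] (R : FS V), IsAlt R → SL R →
  IH R → ∀ a ∈ R, a ≠ 0 → Good R a → (∀ r₁ ∈ R, ∀ r₂ ∈ R,
    Disjoint (LinearMap.range r₁) (LinearMap.range a) → Disjoint (LinearMap.range r₂) (LinearMap.range a) →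
    Disjoint (LinearMap.range (r₁ + r₂)) (LinearMap.range a)) → ET R

/-- Part II -/
def Stmt_PARTII : Prop := ∀ (V : Type) [AddCommGroup V] [Module (ZMod 2) V] [Finite V] (R : FS V), IsAlt R →
  SL R → rad R = ⊥ → IH R → (∀ τ : D V, τ ≠ 0 → fr (Star R τ) ≤ 1) → ET R

/-- the main theorem -/
def Stmt_MAIN : Prop := ∀ (V : Type) [AddCommGroup V] [Module (ZMod 2) V] [Finite V] (R : FS V), IsAlt R →
  SL R → ET R

end Pool.Agent.ESL
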