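import Pool.Agent.Lib_MP_d26ff6_al.Defs
import Pool.Agent.ESL.Stmts

/-!
Statements of the modules connecting form spaces with quaternionic structures of level one (`-1 = 1`).
-/

set_option linter.unusedVariables false

namespace Pool.Agent.ESL

/-- The extension property: every biadditive `β : U × G → F_2`, `U` a subgroup of `G`, which vanishes on the pairs
`(u, v)` with `q (u, v) = 0` is the restriction of a biadditive `γ : G × G → F_2` with the same property. -/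
def ExtProp (S : QS.QStruct) : Prop :=
  ∀ (U : Subgroup S.G) (β : S.G → S.G → ZMod 2),
    (∀ u ∈ U, ∀ u' ∈ U, ∀ v, β (u * u') v = β u v + β u' v) →
    (∀ u ∈ U, ∀ v v', β u (v * v') = β u v + β u v') →
    (∀ u ∈ U, ∀ v, S.q u v = S.zero → β u v = 0) →
    ∃ γ : S.G → S.G → ZMod 2,
      (∀ u u' v, γ (u * u') v = γ u v + γ u' v) ∧ (∀ u v v', γ u (v * v') = γ u v + γ u v') ∧
      (∀ u v, S.q u v = S.zero → γ u v = 0) ∧ ∀ u ∈ U, ∀ v, γ u v = β u v

/-- isomorphism is decided by the pairs with `q = 0` -/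
def Stmt_ISOC : Prop := ∀ (S T : QS.QStruct) (φ : S.G ≃* T.G), φ S.neg = T.neg →
  (∀ a b, S.q a b = S.zero ↔ T.q (φ a) (φ b) = T.zero) → QS.Iso S T

/-- recognition of products -/
def Stmt_PRODREC : Prop := ∀ (S : QS.QStruct), S.neg = 1 → ∀ A B : Subgroup S.G, IsCompl A B →
  (∀ a ∈ A, ∀ b ∈ B, ∀ a' ∈ A, ∀ b' ∈ B, S.q (a * b) (a' * b') = S.zero ↔
    S.q a a' = S.zero ∧ S.q b b' = S.zero) →
  ∃ (SA SB : QS.QStruct) (f : SA.G ≃* A) (g : SB.G ≃* B), SA.neg = 1 ∧ SB.neg = 1 ∧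
    (∀ x y, SA.q x y = SA.zero ↔ S.q (f x) (f y) = S.zero) ∧
    (∀ x y, SB.q x y = SB.zero ↔ S.q (g x) (g y) = S.zero) ∧ QS.Iso (QS.prod SA SB) S

/-- recognition of extensions -/
def Stmt_EXTREC : Prop := ∀ (S : QS.QStruct), S.neg = 1 → ∀ (H : Subgroup S.G) (t : S.G), t ∉ H →
  (∀ g, g ∈ H ∨ g * t ∈ H) → (∀ h ∈ H, ∀ h' ∈ H, S.q h (h' * t) = S.zero ↔ h = 1) →
  (∀ h ∈ H, ∀ h' ∈ H, S.q (h * t) (h' * t) = S.zero ↔ h = h') →
  ∃ (SH : QS.QStruct) (f : SH.G ≃* H), SH.neg = 1 ∧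
    (∀ x y, SH.q x y = SH.zero ↔ S.q (f x) (f y) = S.zero) ∧ QS.Iso (QS.ext SH) S

/-- totally degenerate structures -/
def Stmt_DEG : Prop := ∀ S : QS.QStruct, Finite S.G → S.neg = 1 → (∀ a b, S.q a b = S.zero) → QS.ElemType S

/-- all structures whose commuting pairs are given by `R` (along `i`) are of elementary type -/
def GR {V : Type} [AddCommGroup V] [Module (ZMod 2) V] (R : FS V) : Prop :=
  ∀ S : QS.QStruct, Finite S.G → S.neg = 1 → ∀ i : S.G → V, (∀ a b, i (a * b) = i a + i b) →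
  (∀ v, ∃ a, v + i a ∈ rad R) →
  (∀ a b, S.q a b = S.zero ↔ ∀ k ∈ R, k (i a) (i b) = 0) → QS.ElemType S

/-- the same for nondegenerate structures -/
def GN {V : Type} [AddCommGroup V] [Module (ZMod 2) V] (R : FS V) : Prop :=
  ∀ S : QS.QStruct, Finite S.G → S.neg = 1 → ∀ i : S.G → V, (∀ a b, i (a * b) = i a + i b) →
  (∀ v, ∃ a, v + i a ∈ rad R) → (∀ a, i a ∈ rad R → a = 1) →
  (∀ a b, S.q a b = S.zero ↔ ∀ k ∈ R, k (i a) (i b) = 0) → QS.ElemType S

def Stmt_J2R : Prop := ∀ (V : Type) [AddCommGroup V] [Module (ZMod 2) V] [Finite V] (R : FS V), GN R → GR R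

def Stmt_J2L : Prop := ∀ (V : Type) [AddCommGroup V] [Module (ZMod 2) V] [Finite V] (k : Fm V),
  (∀ x, k x x = 0) → GN (Submodule.span (ZMod 2) {k})

def Stmt_J2S : Prop := ∀ (V : Type) [AddCommGroup V] [Module (ZMod 2) V] [Finite V] (R₁ R₂ : FS V),
  IsAlt R₁ → IsAlt R₂ → Disjoint (Sp R₁) (Sp R₂) → GR R₁ → GR R₂ → GN (R₁ ⊔ R₂)

def Stmt_J2E : Prop := ∀ (V : Type) [AddCommGroup V] [Module (ZMod 2) V] [Finite V] (R : FS V)
  (L : Submodule (ZMod 2) (D V)) (τ : D V), IsAlt R → Sp R ≤ L → τ ∉ L → GR R → GN (R ⊔ L.map (wdL τ))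

/-- from form spaces to structures -/
def Stmt_J2 : Prop := ∀ (V : Type) [AddCommGroup V] [Module (ZMod 2) V] [Finite V] (R : FS V), ET R → GR R

/-- first half of the result -/
def Stmt_J1 : Prop := ∀ S : QS.QStruct, Finite S.G → S.neg = 1 → ExtProp S → QS.ElemType S

def Stmt_J3P : Prop := ∀ S T : QS.QStruct, ExtProp S → ExtProp T → ExtProp (QS.prod S T)

def Stmt_J3E : Prop := ∀ S : QS.QStruct, S.neg = 1 → ExtProp S → ExtProp (QS.ext S)

def Stmt_J3L : Prop := ∀ S : QS.QStruct, S.neg = 1 → Finite S.G → 8 ≤ Nat.card S.G →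
  (∀ a, (∀ b, S.q a b = S.zero) → a = 1) → Nat.card S.Q = 2 → ExtProp S

def Stmt_J3I : Prop := ∀ S T : QS.QStruct, QS.Iso S T → ExtProp S → ExtProp T

/-- second half of the result -/
def Stmt_J3 : Prop := ∀ S : QS.QStruct, QS.ElemType S → S.neg = 1 → ExtProp S

end Pool.Agent.ESL
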