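import Mathlib
import Pool.Agent.ESL.StmtsJ

/-!
Squad ESL, module J1: a finite structure with `-1 = 1` and the extension property is of elementary type.
-/

set_option autoImplicit false

namespace Pool.Agent.ESL
namespace J1X

open QS

variable (S : QStruct)

theorem two_nsmul' (x : Additive S.G) : 2 • x = 0 := by
  rw [two_nsmul]
  exact S.exp_two x.toMul

/-- `G` written additively, as a space over `F_2` -/
@[reducible] def mdl : Module (ZMod 2) (Additive S.G) := AddCommGroup.zmodModule (two_nsmul' S)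

attribute [local instance] mdl

/-- the bilinear form given by a biadditive map -/
noncomputable def mk (γ : S.G → S.G → ZMod 2) (h1 : ∀ u u' v, γ (u * u') v = γ u v + γ u' v)
    (h2 : ∀ u v v', γ u (v * v') = γ u v + γ u v') : Fm (Additive S.G) :=
  AddMonoidHom.toZModLinearMap 2
    (AddMonoidHom.mk' (fun x : Additive S.G => (AddMonoidHom.toZModLinearMap 2
      (AddMonoidHom.mk' (fun v : Additive S.G => γ x.toMul v.toMul) fun v v' => h2 _ _ _) :
        D (Additive S.G))) (by
      intro u u'
      apply LinearMap.ext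
      intro v
      exact h1 u.toMul u'.toMul v.toMul))

theorem mk_apply (γ : S.G → S.G → ZMod 2) (h1 : ∀ u u' v, γ (u * u') v = γ u v + γ u' v)
    (h2 : ∀ u v v', γ u (v * v') = γ u v + γ u v') (x y : Additive S.G) :
    mk S γ h1 h2 x y = γ x.toMul y.toMul := rfl

/-- the forms vanishing on the pairs with `q = 0` -/
def RR : FS (Additive S.G) where
  carrier := {k | ∀ a b : Additive S.G, S.q a.toMul b.toMul = S.zero → k a b = 0}
  add_mem' := by
    intro k l hk hl a b h
    simp [hk a b h, hl a b h]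
  zero_mem' := fun a b _ => rfl
  smul_mem' := by
    intro c k hk a b h
    simp [hk a b h]

theorem mem_RR {k : Fm (Additive S.G)} :
    k ∈ RR S ↔ ∀ a b : Additive S.G, S.q a.toMul b.toMul = S.zero → k a b = 0 := Iff.rfl

theorem q_self (hneg : S.neg = 1) (a : S.G) : S.q a a = S.zero := by
  have := S.qs1 a
  rwa [hneg, one_mul] at this

theorem isAlt (hneg : S.neg = 1) : IsAlt (RR S) := fun _ hk x => hk x x (q_self S hneg _)

theorem sl (hE : ExtProp S) : SL (RR S) := by
  classical
  intro U b hb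
  let U' : Subgroup S.G :=
    { carrier := {g | Additive.ofMul g ∈ U}
      mul_mem' := fun {x y} hx hy => U.add_mem hx hy
      one_mem' := U.zero_mem
      inv_mem' := fun {x} hx => U.neg_mem hx }
  have hU' : ∀ g, g ∈ U' ↔ Additive.ofMul g ∈ U := fun g => Iff.rfl
  let β : S.G → S.G → ZMod 2 := fun u v =>
    if h : Additive.ofMul u ∈ U then b ⟨Additive.ofMul u, h⟩ (Additive.ofMul v) else 0
  have hβ : ∀ u (h : u ∈ U') v, β u v = b ⟨Additive.ofMul u, h⟩ (Additive.ofMul v) := by
    intro u h v
    exact dif_pos h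
  have b1 : ∀ u ∈ U', ∀ u' ∈ U', ∀ v, β (u * u') v = β u v + β u' v := by
    intro u hu u' hu' v
    rw [hβ _ hu, hβ _ hu', hβ _ (U'.mul_mem hu hu')]
    have : (⟨Additive.ofMul (u * u'), U'.mul_mem hu hu'⟩ : U) =
      ⟨Additive.ofMul u, hu⟩ + ⟨Additive.ofMul u', hu'⟩ := rfl
    rw [this, map_add]
    rfl
  have b2 : ∀ u ∈ U', ∀ v v', β u (v * v') = β u v + β u v' := by
    intro u hu v v'
    rw [hβ _ hu, hβ _ hu, hβ _ hu]
    exact map_add _ _ _
  have b3 : ∀ u ∈ U', ∀ v, S.q u v = S.zero → β u v = 0 := by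
    intro u hu v h
    rw [hβ _ hu]
    obtain ⟨k, hk, e⟩ := hb ⟨Additive.ofMul u, hu⟩
    rw [← e]
    exact hk (Additive.ofMul u) (Additive.ofMul v) h
  obtain ⟨γ, g1, g2, g3, g4⟩ := hE U' β b1 b2 b3
  refine ⟨mk S γ g1 g2, ?_, ?_⟩
  · intro a b h
    rw [mk_apply]
    exact g3 _ _ h
  · intro u
    apply LinearMap.ext
    intro v
    rw [mk_apply]
    have hu : (u : Additive S.G).toMul ∈ U' := u.2
    rw [g4 _ hu, hβ _ hu]
    rfl

/-- non-commuting pairs are separated by the forms -/
theorem sep (hE : ExtProp S) [Finite S.G] (a b : S.G)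
    (h : ∀ k ∈ RR S, k (Additive.ofMul a) (Additive.ofMul b) = 0) : S.q a b = S.zero := by
  classical
  by_contra hab
  have ha1 : a ≠ 1 := by
    rintro rfl
    apply hab
    rw [S.qs2, S.q_one]
  let W : Submodule (ZMod 2) (Additive S.G) := AddSubgroup.toZModSubmodule 2
    { carrier := {v : Additive S.G | S.q a v.toMul = S.zero}
      add_mem' := by
        intro x y hx hy
        show S.q a (x.toMul * y.toMul) = S.zero
        have hx' : S.q a x.toMul = S.zero := hx
        have hy' : S.q a y.toMul = S.zero := hy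
        rw [← S.qs3, hx', hy']
      zero_mem' := S.q_one a
      neg_mem' := by
        intro x hx
        have hx' : S.q a x.toMul = S.zero := hx
        show S.q a (x.toMul)⁻¹ = S.zero
        have : (x.toMul)⁻¹ = x.toMul := inv_eq_of_mul_eq_one_left (S.exp_two _)
        rw [this]; exact hx' }
  have hW : ∀ v : Additive S.G, v ∈ W ↔ S.q a v.toMul = S.zero := fun v => Iff.rfl
  obtain ⟨f, hf, hfb⟩ := exists_sep (W := W) (x := Additive.ofMul b) (by
    rw [hW]; exact hab)
  let U : Subgroup S.G := Subgroup.zpowers a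
  have hU : ∀ u ∈ U, u = 1 ∨ u = a := by
    intro u hu
    obtain ⟨n, rfl⟩ := hu
    show a ^ n = 1 ∨ a ^ n = a
    have h2 : a ^ (2 : ℤ) = 1 := by
      rw [zpow_two]; exact S.exp_two a
    rcases Int.even_or_odd' n with ⟨m, rfl | rfl⟩
    · left; rw [zpow_mul, h2, one_zpow]
    · right; rw [zpow_add, zpow_mul, h2, one_zpow, one_mul, zpow_one]
  let β : S.G → S.G → ZMod 2 := fun u v => if u = 1 then 0 else f (Additive.ofMul v)
  have hβ1 : ∀ v, β 1 v = 0 := fun v => if_pos rfl
  have hβa : ∀ v, β a v = f (Additive.ofMul v) := fun v => if_neg ha1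
  have haU : a ∈ U := Subgroup.mem_zpowers a
  have b1 : ∀ u ∈ U, ∀ u' ∈ U, ∀ v, β (u * u') v = β u v + β u' v := by
    intro u hu u' hu' v
    rcases hU u hu with rfl | rfl
    · rw [one_mul, hβ1, zero_add]
    · rcases hU u' hu' with rfl | rfl
      · rw [mul_one, hβ1, add_zero]
      · rw [S.exp_two, hβ1]
        exact (ZModModule.add_self _).symm
  have b2 : ∀ u ∈ U, ∀ v v', β u (v * v') = β u v + β u v' := by
    intro u hu v v'
    rcases hU u hu with rfl | rfl
    · rw [hβ1, hβ1, hβ1, add_zero]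
    · rw [hβa, hβa, hβa]
      exact map_add f _ _
  have b3 : ∀ u ∈ U, ∀ v, S.q u v = S.zero → β u v = 0 := by
    intro u hu v huv
    rcases hU u hu with rfl | rfl
    · exact hβ1 v
    · rw [hβa]
      exact hf _ ((hW _).2 huv)
  obtain ⟨γ, g1, g2, g3, g4⟩ := hE U β b1 b2 b3
  have h0 := h (mk S γ g1 g2) (by
    intro x y hxy
    rw [mk_apply]
    exact g3 _ _ hxy)
  rw [mk_apply] at h0
  have e : γ a b = β a b := g4 a haU b
  rw [hβa, hfb] at e
  have e' : γ a b = 0 := h0
  rw [e'] at e
  exact absurd e (by decide)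

end J1X

attribute [local instance] J1X.mdl

theorem j1_proof (hM : Stmt_MAIN) (h2 : Stmt_J2) : Stmt_J1 := by
  intro S hfin hneg hE
  have : Finite (Additive S.G) := hfin
  refine h2 (Additive S.G) (J1X.RR S) (hM _ _ (J1X.isAlt S hneg) (J1X.sl S hE)) S hfin hneg
    Additive.ofMul (fun a b => rfl) ?_ ?_
  · intro v
    refine ⟨v.toMul, ?_⟩
    have : v + Additive.ofMul v.toMul = 0 := ZModModule.add_self v
    rw [this]
    exact (rad (J1X.RR S)).zero_mem
  · intro a b
    constructor
    · intro h k hk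
      exact hk _ _ h
    · intro h
      exact J1X.sep S hE a b h

end Pool.Agent.ESL
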