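import Pool.Agent.ESL.StmtsJ

/-!
Module J3: structures of elementary type with `-1 = 1` have the extension property.
-/

namespace Pool.Agent.ESL

theorem j3_proof (hP : Stmt_J3P) (hE : Stmt_J3E) (hL : Stmt_J3L) (hI : Stmt_J3I) : Stmt_J3 := by
  have deg : ∀ S : QS.QStruct, (∀ a b, S.q a b = S.zero) → ExtProp S := by
    intro S h U β h1 h2 h3
    exact ⟨fun _ _ => 0, fun _ _ _ => (add_zero 0).symm, fun _ _ _ => (add_zero 0).symm,
      fun _ _ _ => rfl, fun u hu v => (h3 u hu v (h u v)).symm⟩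
  intro S hS
  induction hS with
  | L0 S h =>
    intro _
    apply deg
    intro a b
    have : Subsingleton S.G := (Nat.card_eq_one_iff_unique.1 h).1
    rw [Subsingleton.elim b 1, S.q_one]
  | L10 S h h1 h2 => intro _; exact deg S h2
  | L11 S h h1 h2 => intro _; exact deg S h2
  | L1 S h h1 h2 => intro h3; exact absurd h3 h1
  | loc S hf h h1 h2 => intro h3; exact hL S h3 hf h h1 h2
  | prod S T h1 h2 ih1 ih2 =>
    intro h3
    exact hP S T (ih1 (Prod.ext_iff.1 h3).1) (ih2 (Prod.ext_iff.1 h3).2)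
  | ext S h ih =>
    intro h3
    have h4 : S.neg = 1 := (Prod.ext_iff.1 h3).1
    exact hE S h4 (ih h4)
  | iso S T h1 h2 ih =>
    intro h3
    refine hI S T h1 (ih ?_)
    obtain ⟨φ, hn, _⟩ := h1
    rw [h3] at hn
    exact φ.injective (by rw [hn, map_one])

end Pool.Agent.ESL
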