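import Pool.Agent.ESL.StmtsJ

/-!
Module J3I: the extension property is invariant under isomorphism.
-/

namespace Pool.Agent.ESL

theorem j3i_proof : Stmt_J3I := by
  rintro S T ⟨φ, hn, hφ⟩ hS U β h1 h2 h3
  have hz : ∀ a b, S.q a b = S.zero ↔ T.q (φ a) (φ b) = T.zero := by
    intro a b
    have := hφ a b 1 1
    rw [S.q_one, map_one, T.q_one] at this
    exact this
  obtain ⟨γ, g1, g2, g3, g4⟩ := hS (U.comap φ.toMonoidHom) (fun a b => β (φ a) (φ b))
    (fun u hu u' hu' v => by
      have := h1 (φ u) hu (φ u') hu' (φ v)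
      simpa using this)
    (fun u hu v v' => by
      have := h2 (φ u) hu (φ v) (φ v')
      simpa using this)
    (fun u hu v hq => h3 (φ u) hu (φ v) ((hz u v).1 hq))
  refine ⟨fun a b => γ (φ.symm a) (φ.symm b), ?_, ?_, ?_, ?_⟩
  · intro u u' v
    simp only [map_mul]
    exact g1 _ _ _
  · intro u v v'
    simp only [map_mul]
    exact g2 _ _ _
  · intro u v hq
    apply g3
    rw [hz]
    simpa using hq
  · intro u hu v
    have := g4 (φ.symm u) (by simpa using hu) (φ.symm v)
    simpa using this

end Pool.Agent.ESL
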