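import Pool.Agent.ESL.StmtsJ

/-!
Module J3P: the extension property of products.
-/

namespace Pool.Agent.ESL

namespace J3PX

theorem z2 (a b : ZMod 2) (h : a + b = 0) : a = b := by
  revert a b; decide

theorem main (S T : QS.QStruct) (hS : ExtProp S) (hT : ExtProp T) (U : Subgroup (S.G × T.G))
    (β : S.G × T.G → S.G × T.G → ZMod 2)
    (h1 : ∀ u ∈ U, ∀ u' ∈ U, ∀ v, β (u * u') v = β u v + β u' v)
    (h2 : ∀ u ∈ U, ∀ v v', β u (v * v') = β u v + β u v')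
    (h3 : ∀ u ∈ U, ∀ v, S.q u.1 v.1 = S.zero → T.q u.2 v.2 = T.zero → β u v = 0) :
    ∃ γ : S.G × T.G → S.G × T.G → ZMod 2,
      (∀ u u' v, γ (u * u') v = γ u v + γ u' v) ∧ (∀ u v v', γ u (v * v') = γ u v + γ u v') ∧
      (∀ u v, S.q u.1 v.1 = S.zero → T.q u.2 v.2 = T.zero → γ u v = 0) ∧
      ∀ u ∈ U, ∀ v, γ u v = β u v := by
  have one1 : ∀ c : S.G, S.q 1 c = S.zero := fun c => by rw [S.qs2, S.q_one]
  have one2 : ∀ c : T.G, T.q 1 c = T.zero := fun c => by rw [T.qs2, T.q_one]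
  -- independence of the choice
  have w1 : ∀ (a : S.G) (b b' : T.G) (c : S.G), (a, b) ∈ U → (a, b') ∈ U →
      β (a, b) (c, 1) = β (a, b') (c, 1) := by
    intro a b b' c hb hb'
    apply z2
    rw [← h1 _ hb _ hb']
    apply h3 _ (U.mul_mem hb hb')
    · show S.q (a * a) c = S.zero
      rw [S.exp_two]
      exact one1 c
    · exact T.q_one _
  have w2 : ∀ (a a' : S.G) (b : T.G) (c : T.G), (a, b) ∈ U → (a', b) ∈ U →
      β (a, b) (1, c) = β (a', b) (1, c) := by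
    intro a a' b c hb hb'
    apply z2
    rw [← h1 _ hb _ hb']
    apply h3 _ (U.mul_mem hb hb')
    · exact S.q_one _
    · show T.q (b * b) c = T.zero
      rw [T.exp_two]
      exact one2 c
  classical
  let U1 : Subgroup S.G := U.map (MonoidHom.fst S.G T.G)
  let U2 : Subgroup T.G := U.map (MonoidHom.snd S.G T.G)
  have e1 : ∀ a, a ∈ U1 → ∃ b, (a, b) ∈ U := by
    rintro a ⟨⟨x, y⟩, hxy, rfl⟩
    exact ⟨y, hxy⟩
  have e2 : ∀ b, b ∈ U2 → ∃ a, (a, b) ∈ U := by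
    rintro b ⟨⟨x, y⟩, hxy, rfl⟩
    exact ⟨x, hxy⟩
  choose! f hf using e1
  choose! g hg using e2
  obtain ⟨γ1, a1, a2, a3, a4⟩ := hS U1 (fun a c => β (a, f a) (c, 1))
    (by
      intro u hu u' hu' v
      show β (u * u', f (u * u')) (v, 1) = β (u, f u) (v, 1) + β (u', f u') (v, 1)
      rw [← h1 _ (hf u hu) _ (hf u' hu')]
      exact w1 _ _ _ _ (hf _ (U1.mul_mem hu hu')) (U.mul_mem (hf u hu) (hf u' hu')))
    (by
      intro u hu v v'
      show β (u, f u) (v * v', 1) = β (u, f u) (v, 1) + β (u, f u) (v', 1)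
      rw [← h2 _ (hf u hu)]
      have e : ((v, 1) * (v', 1) : S.G × T.G) = (v * v', 1) := Prod.ext rfl (one_mul 1)
      rw [e])
    (by
      intro u hu v hq
      exact h3 _ (hf u hu) _ hq (T.q_one _))
  obtain ⟨γ2, b1, b2, b3, b4⟩ := hT U2 (fun a c => β (g a, a) (1, c))
    (by
      intro u hu u' hu' v
      show β (g (u * u'), u * u') (1, v) = β (g u, u) (1, v) + β (g u', u') (1, v)
      rw [← h1 _ (hg u hu) _ (hg u' hu')]
      exact w2 _ _ _ _ (hg _ (U2.mul_mem hu hu')) (U.mul_mem (hg u hu) (hg u' hu')))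
    (by
      intro u hu v v'
      show β (g u, u) (1, v * v') = β (g u, u) (1, v) + β (g u, u) (1, v')
      rw [← h2 _ (hg u hu)]
      have e : ((1, v) * (1, v') : S.G × T.G) = (1, v * v') := Prod.ext (one_mul 1) rfl
      rw [e])
    (by
      intro u hu v hq
      exact h3 _ (hg u hu) _ (S.q_one _) hq)
  refine ⟨fun u v => γ1 u.1 v.1 + γ2 u.2 v.2, ?_, ?_, ?_, ?_⟩
  · intro u u' v
    show γ1 (u.1 * u'.1) v.1 + γ2 (u.2 * u'.2) v.2 = _
    rw [a1, b1]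
    ring
  · intro u v v'
    show γ1 u.1 (v.1 * v'.1) + γ2 u.2 (v.2 * v'.2) = _
    rw [a2, b2]
    ring
  · intro u v hq hq'
    show γ1 u.1 v.1 + γ2 u.2 v.2 = 0
    rw [a3 _ _ hq, b3 _ _ hq', add_zero]
  · rintro ⟨u1, u2⟩ hu ⟨v1, v2⟩
    have hu1 : u1 ∈ U1 := ⟨(u1, u2), hu, rfl⟩
    have hu2 : u2 ∈ U2 := ⟨(u1, u2), hu, rfl⟩
    show γ1 u1 v1 + γ2 u2 v2 = _
    rw [a4 _ hu1, b4 _ hu2, w1 _ _ _ _ (hf _ hu1) hu, w2 _ _ _ _ (hg _ hu2) hu,
      ← h2 _ hu (v1, 1) (1, v2)]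
    have e : ((v1, 1) * (1, v2) : S.G × T.G) = (v1, v2) := Prod.ext (mul_one v1) (one_mul v2)
    rw [e]

end J3PX

theorem j3p_proof : Stmt_J3P := by
  intro S T hS hT U β h1 h2 h3
  obtain ⟨γ, g1, g2, g3, g4⟩ := J3PX.main S T hS hT U β h1 h2
    (fun u hu v h h' => h3 u hu v (Prod.ext h h'))
  exact ⟨γ, g1, g2, fun u v h => g3 u v (Prod.ext_iff.1 h).1 (Prod.ext_iff.1 h).2, g4⟩

end Pool.Agent.ESL
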