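import Pool.Agent.ESL.Stmts

set_option linter.unusedSectionVars false
set_option linter.unusedVariables false

namespace Pool.Agent.ESL

namespace ATBX

variable {V : Type} [AddCommGroup V] [Module (ZMod 2) V] [Finite V]

theorem range_le_of_span {A : Finset (Fm V)} {R : FS V}
    (h : Submodule.span (ZMod 2) (A : Set (Fm V)) = R) {a : Fm V} (ha : a ∈ A) :
    LinearMap.range a ≤ Sp R := range_le_Sp (by rw [← h]; exact Submodule.subset_span ha)

theorem half {A B C : Finset (Fm V)} {R₁ R₂ : FS V} (hC : ∀ c ∈ C, c ∈ A ∨ c ∈ B)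
    (hA : IndB A) (hB : IndB B)
    (h₁ : Submodule.span (ZMod 2) (A : Set (Fm V)) = R₁)
    (h₂ : Submodule.span (ZMod 2) (B : Set (Fm V)) = R₂) (hd : Disjoint (Sp R₁) (Sp R₂))
    {a : Fm V} (ha : a ∈ A) (haC : a ∈ C) :
    Disjoint (LinearMap.range a) (⨆ (j : C) (_ : j ≠ ⟨a, haC⟩), LinearMap.range (j : Fm V)) := by
  have h1 : (⨆ (j : C) (_ : j ≠ ⟨a, haC⟩), LinearMap.range (j : Fm V)) ≤
      (⨆ (j : A) (_ : j ≠ ⟨a, ha⟩), LinearMap.range (j : Fm V)) ⊔ Sp R₂ := by
    refine iSup₂_le fun j hj => ?_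
    rcases hC j.1 j.2 with h | h
    · exact le_sup_of_le_left (le_iSup₂_of_le ⟨j.1, h⟩
        (fun hh => hj (Subtype.ext (congrArg (fun z : A => (z : Fm V)) hh))) le_rfl)
    · exact le_sup_of_le_right (range_le_of_span h₂ h)
  refine Disjoint.mono_right h1 ?_
  rw [Submodule.disjoint_def]
  intro x hx hx2
  obtain ⟨p, hp, q, hq, rfl⟩ := Submodule.mem_sup.1 hx2
  have hp1 : p ∈ Sp R₁ := by
    have : (⨆ (j : A) (_ : j ≠ ⟨a, ha⟩), LinearMap.range (j : Fm V)) ≤ Sp R₁ :=
      iSup₂_le fun j _ => range_le_of_span h₁ j.2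
    exact this hp
  have hx1 : p + q ∈ Sp R₁ := range_le_of_span h₁ ha hx
  have hq1 : q ∈ Sp R₁ := by
    have := Submodule.add_mem _ hp1 hx1
    rwa [add_add_self] at this
  have hq0 : q = 0 := Submodule.disjoint_def.1 hd q hq1 hq
  subst hq0
  rw [add_zero] at hx ⊢
  exact Submodule.disjoint_def.1 (hA.2 ⟨a, ha⟩) p hx hp

theorem union {A B : Finset (Fm V)} {R₁ R₂ : FS V} (hA : IndB A) (hB : IndB B)
    (h₁ : Submodule.span (ZMod 2) (A : Set (Fm V)) = R₁)
    (h₂ : Submodule.span (ZMod 2) (B : Set (Fm V)) = R₂) (hd : Disjoint (Sp R₁) (Sp R₂)) :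
    ∃ C : Finset (Fm V), IndB C ∧ Submodule.span (ZMod 2) (C : Set (Fm V)) = R₁ ⊔ R₂ := by
  classical
  refine ⟨A ∪ B, ⟨fun a ha => ?_, ?_⟩, ?_⟩
  · rcases Finset.mem_union.1 ha with h | h
    · exact hA.1 a h
    · exact hB.1 a h
  · rintro ⟨a, ha⟩
    rcases Finset.mem_union.1 ha with h | h
    · exact half (fun c hc => Finset.mem_union.1 hc) hA hB h₁ h₂ hd h ha
    · exact half (fun c hc => (Finset.mem_union.1 hc).symm) hB hA h₂ h₁ hd.symm h ha
  · rw [Finset.coe_union, Submodule.span_union, h₁, h₂]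

theorem single (k : Fm V) :
    ∃ A : Finset (Fm V), IndB A ∧ Submodule.span (ZMod 2) (A : Set (Fm V)) =
      Submodule.span (ZMod 2) {k} := by
  classical
  by_cases h : k = 0
  · subst h
    refine ⟨∅, ⟨fun a ha => by simp at ha, ?_⟩, by simp⟩
    rintro ⟨a, ha⟩
    simp at ha
  · refine ⟨{k}, ⟨fun a ha => ?_, ?_⟩, by simp⟩
    · rw [Finset.mem_singleton] at ha
      rwa [ha]
    · rintro ⟨a, ha⟩
      have : (⨆ (j : ({k} : Finset (Fm V))) (_ : j ≠ ⟨a, ha⟩), LinearMap.range (j : Fm V)) = ⊥ := by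
        rw [eq_bot_iff]
        refine iSup₂_le fun j hj => ?_
        exfalso
        apply hj
        apply Subtype.ext
        exact (Finset.mem_singleton.1 j.2).trans (Finset.mem_singleton.1 ha).symm
      rw [this]
      exact disjoint_bot_right

theorem le_one {W : Submodule (ZMod 2) (D V)} (h : fr W ≤ 1) : ∃ l : D V, W = Submodule.span (ZMod 2) {l} := by
  by_cases hW : W = ⊥
  · exact ⟨0, by rw [hW]; simp⟩
  · obtain ⟨l, hl, hl0⟩ := Submodule.exists_mem_ne_zero_of_ne_bot hW
    refine ⟨l, (Submodule.eq_of_le_of_finrank_le ?_ ?_).symm⟩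
    · rw [Submodule.span_singleton_le_iff_mem]
      exact hl
    · rw [finrank_span_singleton hl0]
      exact h

end ATBX

open ATBX

theorem atb_proof (halt : Stmt_ETALT) : Stmt_ATB := by
  intro V _ _ _ R hR
  induction hR with
  | loc k h => intro _; exact single k
  | sum R₁ R₂ h₁ h₂ h ih₁ ih₂ =>
    intro hs
    have mono : ∀ R' : FS V, R' ≤ R₁ ⊔ R₂ → ∀ σ : D V, σ ≠ 0 → fr (Star R' σ) ≤ 2 := by
      intro R' hR' σ hσ
      have : Star R' σ ≤ Star (R₁ ⊔ R₂) σ := fun ψ hψ => hR' hψ
      exact (Submodule.finrank_mono this).trans (hs σ hσ)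
    obtain ⟨A, hA, hA'⟩ := ih₁ (mono R₁ le_sup_left)
    obtain ⟨B, hB, hB'⟩ := ih₂ (mono R₂ le_sup_right)
    exact union hA hB hA' hB' h
  | ext R L τ h hL hτ ih =>
    intro hs
    have hτ0 : τ ≠ 0 := by rintro rfl; exact hτ L.zero_mem
    have hle : L ⊔ Submodule.span (ZMod 2) {τ} ≤ Star (R ⊔ L.map (wdL τ)) τ := by
      apply sup_le
      · intro l hl
        exact Submodule.mem_sup_right (Submodule.mem_map_of_mem hl)
      · rw [Submodule.span_singleton_le_iff_mem]
        exact self_mem_Star _ _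
    have hdis : Disjoint L (Submodule.span (ZMod 2) {τ}) := by
      rw [Submodule.disjoint_def]
      intro x hx hx'
      obtain ⟨c, rfl⟩ := Submodule.mem_span_singleton.1 hx'
      rcases zm c with rfl | rfl
      · simp
      · rw [one_smul] at hx; exact absurd hx hτ
    have hfr : fr L + 1 ≤ 2 := by
      have h1 := Submodule.finrank_sup_add_finrank_inf_eq L (Submodule.span (ZMod 2) {τ})
      rw [hdis.eq_bot, finrank_bot, finrank_span_singleton hτ0, add_zero] at h1
      have h2 := Submodule.finrank_mono hle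
      have h3 := hs τ hτ0
      have h4 : fr L = Module.finrank (ZMod 2) L := rfl
      have h5 : fr (Star (R ⊔ L.map (wdL τ)) τ) = Module.finrank (ZMod 2) (Star (R ⊔ L.map (wdL τ)) τ) := rfl
      omega
    obtain ⟨l, hl⟩ := le_one (W := L) (by omega)
    have hR0 : R = ⊥ := by
      rw [eq_bot_iff]
      intro k hk
      rw [Submodule.mem_bot]
      have hka := halt V R h k hk
      by_contra hk0
      have hex : ∃ x, k x ≠ 0 := by
        by_contra hc
        push Not at hc
        exact hk0 (LinearMap.ext hc)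
      obtain ⟨x, hx⟩ := hex
      have hex2 : ∃ y, k x y ≠ 0 := by
        by_contra hc
        push Not at hc
        exact hx (LinearMap.ext hc)
      obtain ⟨y, hy⟩ := hex2
      have hval : ∀ z, k z ≠ 0 → k z = l := by
        intro z hz
        have : k z ∈ L := hL (mem_Sp hk z)
        rw [hl] at this
        obtain ⟨c, hc⟩ := Submodule.mem_span_singleton.1 this
        rcases zm c with rfl | rfl
        · rw [zero_smul] at hc; exact absurd hc.symm hz
        · rw [one_smul] at hc; exact hc.symm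
      have hy0 : k y ≠ 0 := by
        intro h0
        apply hy
        rw [symm_of_alt hka, h0]; rfl
      have e1 := hval x hx
      have e2 := hval y hy0
      rw [e1, ← e2, hka] at hy
      exact hy rfl
    subst hR0
    rw [bot_sup_eq, hl, Submodule.map_span, Set.image_singleton]
    exact single _

end Pool.Agent.ESL
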