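import Pool.Agent.ESL.Stmts

/-!
Module AU: a basis of a form space with independent supports is unique.
-/

set_option linter.unusedSectionVars false
set_option linter.unusedVariables false

namespace Pool.Agent.ESL

namespace AUX

variable {V : Type} [AddCommGroup V] [Module (ZMod 2) V]

theorem range_eq_bot {a : Fm V} (h : LinearMap.range a = ⊥) : a = 0 := LinearMap.range_eq_bot.1 h

/-- an element of `A` not in `I` is disjoint from the supports of the elements of `I` -/
theorem dis {A : Finset (Fm V)} (hA : IndB A) {a : Fm V} (ha : a ∈ A) {I : Finset (Fm V)} (hI : I ⊆ A)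
    (haI : a ∉ I) : Disjoint (LinearMap.range a) (⨆ b ∈ I, LinearMap.range b) := by
  refine (hA.2 ⟨a, ha⟩).mono_right ?_
  refine iSup₂_le fun b hb => ?_
  refine le_iSup₂_of_le (⟨b, hI hb⟩ : A) ?_ le_rfl
  intro h
  have h2 := congrArg Subtype.val h
  change b = a at h2
  exact haI (h2 ▸ hb)

theorem range_sum_le (I : Finset (Fm V)) :
    LinearMap.range (∑ b ∈ I, b) ≤ ⨆ b ∈ I, LinearMap.range b := by
  rintro _ ⟨x, rfl⟩
  rw [LinearMap.sum_apply]
  refine Submodule.sum_mem _ fun b hb => ?_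
  exact Submodule.mem_iSup_of_mem b (Submodule.mem_iSup_of_mem hb ⟨x, rfl⟩)

theorem mem_spanA {A : Finset (Fm V)} {k : Fm V}
    (hk : k ∈ Submodule.span (ZMod 2) (A : Set (Fm V))) : ∃ I ⊆ A, k = ∑ b ∈ I, b := by
  classical
  obtain ⟨f, -, hf⟩ := Submodule.mem_span_finset.1 hk
  refine ⟨A.filter (fun a => f a ≠ 0), Finset.filter_subset _ _, ?_⟩
  rw [← hf, Finset.sum_filter]
  refine Finset.sum_congr rfl fun a ha => ?_
  split_ifs with h
  · rw [zm_ne h, one_smul]
  · push Not at h
    rw [h, zero_smul]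

/-- the kernel of a sum is the intersection of the kernels -/
theorem ker_sum {A : Finset (Fm V)} (hA : IndB A) {I : Finset (Fm V)} (hI : I ⊆ A) (u : V) :
    (∑ b ∈ I, b) u = 0 ↔ ∀ a ∈ I, a u = 0 := by
  classical
  constructor
  · intro h a ha
    have h1 : a u = (∑ b ∈ I.erase a, b) u := by
      have h2 := Finset.add_sum_erase I (fun b => b) ha
      have h3 : a u + (∑ b ∈ I.erase a, b) u = 0 := by
        rw [← LinearMap.add_apply, h2]; exact h
      exact eq_of_add h3
    have h4 := dis hA (hI ha) ((Finset.erase_subset a I).trans hI) (Finset.notMem_erase a I)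
    have h5 : a u ∈ LinearMap.range a ⊓ ⨆ b ∈ I.erase a, LinearMap.range b := by
      refine ⟨⟨u, rfl⟩, ?_⟩
      rw [h1]
      exact range_sum_le _ ⟨u, rfl⟩
    rw [h4.eq_bot] at h5
    exact h5
  · intro h
    rw [LinearMap.sum_apply]
    exact Finset.sum_eq_zero h

theorem alt_sum {A : Finset (Fm V)} (hA : ∀ a ∈ A, ∀ x, a x x = 0) (x : V) : (∑ b ∈ A, b) x x = 0 := by
  rw [LinearMap.sum_apply, LinearMap.sum_apply]
  exact Finset.sum_eq_zero fun a ha => hA a ha x

/-- subset sums, all facts -/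
theorem main [Finite V] {A : Finset (Fm V)} (alt : ∀ a ∈ A, ∀ x, a x x = 0) (hA : IndB A) {k : Fm V}
    (hk : k ∈ Submodule.span (ZMod 2) (A : Set (Fm V))) : ∃ I ⊆ A, k = ∑ a ∈ I, a ∧
    (∀ a ∈ A, a ∈ I ↔ LinearMap.range a ≤ LinearMap.range k) ∧
    (∀ a ∈ A, a ∉ I → Disjoint (LinearMap.range a) (LinearMap.range k)) ∧
    (∀ u, k u = 0 ↔ ∀ a ∈ I, a u = 0) := by
  obtain ⟨I, hI, rfl⟩ := mem_spanA hk
  have h1 : ∀ a ∈ A, a ∉ I → Disjoint (LinearMap.range a) (LinearMap.range (∑ b ∈ I, b)) :=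
    fun a ha haI => (dis hA ha hI haI).mono_right (range_sum_le I)
  refine ⟨I, hI, rfl, fun a ha => ⟨fun haI => ?_, fun h => ?_⟩, h1, ker_sum hA hI⟩
  · rw [range_le_iff (alt a ha) (alt_sum fun b hb => alt b (hI hb))]
    intro u hu
    exact (ker_sum hA hI u).1 hu a haI
  · by_contra haI
    have h2 := (h1 a ha haI)
    exact hA.1 a ha (range_eq_bot (disjoint_self.1 (h2.mono_right h)))

end AUX

theorem au_proof : Stmt_AU := by
  classical
  intro V _ _ _ A S alt hA hS a
  subst hS
  constructor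
  · intro ha
    refine ⟨Submodule.subset_span ha, hA.1 a ha, fun k hk hka => ?_⟩
    obtain ⟨I, hI, hkI, h1, h2, h3⟩ := AUX.main alt hA hk
    have h4 : I ⊆ {a} := by
      intro b hb
      rw [Finset.mem_singleton]
      by_contra hba
      have h5 : Disjoint (LinearMap.range b) (⨆ c ∈ ({a} : Finset (Fm V)), LinearMap.range c) :=
        AUX.dis hA (hI hb) (Finset.singleton_subset_iff.2 ha) (by simpa using hba)
      have h6 : LinearMap.range b ≤ LinearMap.range a := ((h1 b (hI hb)).1 hb).trans hka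
      have h7 : Disjoint (LinearMap.range b) (LinearMap.range b) :=
        h5.mono_right (h6.trans (le_iSup₂_of_le a (Finset.mem_singleton_self a) le_rfl))
      exact hA.1 b (hI hb) (AUX.range_eq_bot (disjoint_self.1 h7))
    rcases Finset.subset_singleton_iff.1 h4 with h | h
    · left; rw [hkI, h, Finset.sum_empty]
    · right; rw [hkI, h, Finset.sum_singleton]
  · rintro ⟨ha, ha0, h⟩
    obtain ⟨I, hI, hkI, h1, h2, h3⟩ := AUX.main alt hA ha
    have hne : I.Nonempty := by
      rw [Finset.nonempty_iff_ne_empty]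
      rintro rfl
      exact ha0 (by rw [hkI, Finset.sum_empty])
    obtain ⟨b, hb⟩ := hne
    rcases h b (Submodule.subset_span (hI hb)) ((h1 b (hI hb)).1 hb) with hb0 | hba
    · exact absurd hb0 (hA.1 b (hI hb))
    · rw [← hba]; exact hI hb

end Pool.Agent.ESL
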