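import Pool.Agent.ESL.Stmts

/-!
Module AU1: the atoms of `R^w` form the basis with independent supports.
-/

set_option linter.unusedSectionVars false
set_option linter.unusedVariables false

namespace Pool.Agent.ESL

namespace AU1X

variable {V : Type} [AddCommGroup V] [Module (ZMod 2) V]

theorem mem_ats [Finite V] {R : FS V} {w : V} {a : Fm V} : a ∈ ats R w ↔ At R w a := by
  unfold ats
  rw [Set.Finite.mem_toFinset]
  exact Iff.rfl

/-- a basis with independent supports of `R^w` is the set of atoms -/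
theorem ats_eq [Finite V] (hAU : Stmt_AU) {R : FS V} (hR : IsAlt R) {w : V} {A : Finset (Fm V)}
    (hA : IndB A) (hS : Submodule.span (ZMod 2) (A : Set (Fm V)) = fx R w) : ats R w = A := by
  ext a
  rw [mem_ats, hAU V A (fx R w) (fun b hb => hR b (by
    have h1 : b ∈ fx R w := by rw [← hS]; exact Submodule.subset_span hb
    exact h1.1)) hA hS a]
  constructor
  · rintro ⟨h1, h2, h3, h4⟩
    exact ⟨⟨h1, h2⟩, h3, fun k hk => h4 k hk.1 hk.2⟩
  · rintro ⟨⟨h1, h2⟩, h3, h4⟩
    exact ⟨h1, h2, h3, fun k hk hk' => h4 k ⟨hk, hk'⟩⟩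

end AU1X

theorem au1_proof (hAU : Stmt_AU) : Stmt_AU1 := by
  intro V _ _ _ R hR w hw
  obtain ⟨A, hA, hS⟩ := hR.at' w hw
  rw [AU1X.ats_eq hAU hR.alt hA hS]
  exact ⟨hA, hS⟩

end Pool.Agent.ESL
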