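import Pool.Agent.ESL.Stmts

/-!
Blocks of `P_ψ`.
-/

set_option linter.unusedVariables false

namespace Pool.Agent.ESL

namespace G1X

variable {V : Type} [AddCommGroup V] [Module (ZMod 2) V]

/-- comparison of components -/
theorem ind_eq {A : Finset (Fm V)} (h : IndB A) (f g : Fm V → D V)
    (hf : ∀ a ∈ A, f a ∈ LinearMap.range a) (hg : ∀ a ∈ A, g a ∈ LinearMap.range a)
    (hs : ∑ a ∈ A, f a = ∑ a ∈ A, g a) : ∀ a ∈ A, f a = g a := by
  classical
  have h1 := (iSupIndep_iff_finsetSum_eq_imp_eq _).1 h.2 Finset.univ (fun a => f a) (fun a => g a)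
    (fun a _ => ⟨hf a a.2, hg a a.2⟩) (by
      have e1 := Finset.sum_coe_sort A f
      have e2 := Finset.sum_coe_sort A g
      rw [e1, e2, hs])
  intro a ha
  exact h1 ⟨a, ha⟩ (Finset.mem_univ _)

open Classical in
/-- comparison of components, sums over subsets -/
theorem ind_sub {A : Finset (Fm V)} (h : IndB A) {I J : Finset (Fm V)} (hI : I ⊆ A) (hJ : J ⊆ A)
    {x y : V} (hs : (∑ a ∈ I, a) x = (∑ a ∈ J, a) y) (a : Fm V) (ha : a ∈ A) :
    (if a ∈ I then a x else 0) = (if a ∈ J then a y else 0) := by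
  refine ind_eq h (fun a => if a ∈ I then a x else 0) (fun a => if a ∈ J then a y else 0) ?_ ?_ ?_ a ha
  · intro a _
    by_cases h1 : a ∈ I
    · simp only [h1, if_true]; exact ⟨x, rfl⟩
    · simp only [h1, if_false]; exact Submodule.zero_mem _
  · intro a _
    by_cases h1 : a ∈ J
    · simp only [h1, if_true]; exact ⟨y, rfl⟩
    · simp only [h1, if_false]; exact Submodule.zero_mem _
  · rw [← Finset.sum_filter, ← Finset.sum_filter]
    rw [LinearMap.sum_apply, LinearMap.sum_apply] at hs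
    have e1 : A.filter (· ∈ I) = I := by
      ext a; simp only [Finset.mem_filter]; exact ⟨fun h => h.2, fun h => ⟨hI h, h⟩⟩
    have e2 : A.filter (· ∈ J) = J := by
      ext a; simp only [Finset.mem_filter]; exact ⟨fun h => h.2, fun h => ⟨hJ h, h⟩⟩
    rw [e1, e2]; exact hs

/-- uniqueness of the set of summands -/
theorem sub_unique {A : Finset (Fm V)} (h : IndB A) {I J : Finset (Fm V)} (hI : I ⊆ A) (hJ : J ⊆ A)
    (hs : ∑ a ∈ I, a = ∑ a ∈ J, a) : I = J := by
  classical
  ext a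
  have key : ∀ a ∈ A, (a ∈ I ↔ a ∈ J) := by
    intro a ha
    have h0 := h.1 a ha
    obtain ⟨x, hx⟩ : ∃ x, a x ≠ 0 := by
      by_contra hc
      push Not at hc
      exact h0 (LinearMap.ext hc)
    have h1 := ind_sub h hI hJ (x := x) (y := x) (by rw [hs]) a ha
    by_cases hi : a ∈ I <;> by_cases hj : a ∈ J
    · simp [hi, hj]
    · rw [if_pos hi, if_neg hj] at h1
      exact absurd h1 hx
    · rw [if_neg hi, if_pos hj] at h1
      exact absurd h1.symm hx
    · simp [hi, hj]
  constructor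
  · intro ha; exact (key a (hI ha)).1 ha
  · intro ha; exact (key a (hJ ha)).2 ha

/-- a sum kills `u` iff all components do -/
theorem sum_ker {A : Finset (Fm V)} (h : IndB A) {I : Finset (Fm V)} (hI : I ⊆ A) {u : V}
    (hs : (∑ a ∈ I, a) u = 0) (a : Fm V) (ha : a ∈ I) : a u = 0 := by
  classical
  have h1 := ind_sub h hI (Finset.empty_subset A) (x := u) (y := u) (by
    rw [hs, Finset.sum_empty]; rfl) a (hI ha)
  rw [if_pos ha, if_neg (Finset.notMem_empty a)] at h1
  exact h1

theorem mem_ats [Finite V] {R : FS V} {w : V} {a : Fm V} : a ∈ ats R w ↔ At R w a := by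
  unfold ats
  rw [Set.Finite.mem_toFinset]; rfl

end G1X

open G1X

theorem g1_proof (h1 : Stmt_AU1) (h2 : Stmt_AU2) (h3 : Stmt_AU3) : Stmt_G1 := by
  classical
  intro V _ _ _ R hR ψ hψ x y hxy hx hy
  have hw : x + y ≠ 0 := fun h => hxy (eq_of_add h)
  obtain ⟨kx, hkx, ekx⟩ := hx
  obtain ⟨ky, hky, eky⟩ := hy
  obtain ⟨l, hl, e1, e2⟩ := hR.sl.linked kx hkx ky hky x y (ekx.trans eky.symm)
  rw [ekx] at e1 e2
  have hlw : l ∈ fx R (x + y) := ⟨hl, by rw [map_add, e1, e2, add_self']⟩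
  obtain ⟨I, hI, el, -, -, -⟩ := h3 V R hR _ hw l hlw
  have hind := (h1 V R hR _ hw).1
  set J := I.filter (fun a => a x ≠ 0) with hJ
  have hJI : J ⊆ I := Finset.filter_subset _ _
  have hJA : J ⊆ ats R (x + y) := hJI.trans hI
  set k := ∑ a ∈ J, a with hk
  have kx' : k x = ψ := by
    rw [← e1, el, hk, LinearMap.sum_apply, LinearMap.sum_apply, hJ, Finset.sum_filter]
    apply Finset.sum_congr rfl
    intro a _
    by_cases h : a x = 0
    · simp [h]
    · simp [h]
  have kw : k (x + y) = 0 := by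
    rw [hk, LinearMap.sum_apply]
    apply Finset.sum_eq_zero
    intro a ha
    exact (mem_ats.1 (hJA ha)).2.1
  have ky' : k y = ψ := by
    have : y = x + (x + y) := by rw [add_add_self]
    rw [this, map_add, kw, add_zero, kx']
  have kR : k ∈ R := Submodule.sum_mem _ (fun a ha => (mem_ats.1 (hJA ha)).1)
  -- the atoms in `J` are atoms of `R^u`
  have hJu : ∀ u, u ≠ 0 → k u = 0 → J ⊆ ats R u := by
    intro u hu hku a ha
    rw [mem_ats]
    exact h2 V R hR u (x + y) a hu hw (mem_ats.1 (hJA ha)) (sum_ker hind hJA hku a ha)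
  have hJx : ∀ a ∈ J, a x ≠ 0 := fun a ha => (Finset.mem_filter.1 ha).2
  refine ⟨k, ⟨kR, hψ, ⟨x, kx'⟩, ⟨x + y, hw, kw⟩, ?_, ?_⟩, kx', ky'⟩
  · intro u hu hku z hz hzu
    obtain ⟨k1, hk1, ek1⟩ := hz
    obtain ⟨k2, hk2, ek2⟩ := hzu
    obtain ⟨l', hl', f1, f2⟩ := hR.sl.linked k1 hk1 k2 hk2 z (z + u) (ek1.trans ek2.symm)
    rw [ek1] at f1 f2
    have hl'u : l' ∈ fx R u := by
      refine ⟨hl', ?_⟩
      rw [map_add, f1] at f2
      have := congrArg (ψ + ·) f2
      simpa [add_add_self, add_self'] using this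
    obtain ⟨I', hI', el', -, -, -⟩ := h3 V R hR u hu l' hl'u
    have hind' := (h1 V R hR u hu).1
    have hcomp := ind_sub hind' hI' (hJu u hu hku) (x := z) (y := x) (by
      rw [← el', f1, ← hk, kx'])
    rw [← kx', hk, LinearMap.sum_apply, LinearMap.sum_apply]
    apply Finset.sum_congr rfl
    intro a ha
    have h5 := hcomp a (hJu u hu hku ha)
    rw [if_pos ha] at h5
    by_cases h6 : a ∈ I'
    · rw [if_pos h6] at h5; exact h5
    · rw [if_neg h6] at h5
      exact absurd h5.symm (hJx a ha)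
  · intro u hu hku a ha har z hz
    obtain ⟨I', hI', el', hmem, -, -⟩ := h3 V R hR u hu k ⟨kR, hku⟩
    have hind' := (h1 V R hR u hu).1
    have hIJ : I' = J := sub_unique hind' hI' (hJu u hu hku) (by rw [← el', hk])
    have haJ : a ∈ J := by
      rw [← hIJ]
      exact (hmem a (mem_ats.2 ha)).2 har
    have hcomp := ind_sub hind' (hJu u hu hku) (hJu u hu hku) (x := z) (y := x) (by
      rw [← hk, kx', hz]) a (mem_ats.2 ha)
    rw [if_pos haJ, if_pos haJ] at hcomp
    rw [hcomp]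
    exact hJx a haJ

end Pool.Agent.ESL
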