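import Pool.Agent.ESL.ENDD

/-!
`Q_m` and `Q_v` are independent for `m` in `M`, `v` in the centraliser of `M`.
-/

namespace Pool.Agent.ESL

namespace CROSSX

variable {V : Type} [AddCommGroup V] [Module (ZMod 2) V]

/-- duality: a functional on `R` vanishing on the forms killing `z` is `k ↦ k z s` -/
theorem exists_slot [Finite V] (R : FS V) (z : V) (b : R →ₗ[ZMod 2] ZMod 2)
    (hb : ∀ k : R, (k : Fm V) z = 0 → b k = 0) : ∃ s : V, ∀ k : R, b k = (k : Fm V) z s := by
  let E : R →ₗ[ZMod 2] D V :=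
    { toFun := fun k => (k : Fm V) z
      map_add' := fun _ _ => rfl
      map_smul' := fun _ _ => rfl }
  have hker : LinearMap.ker E ≤ LinearMap.ker b := fun k hk => hb k hk
  obtain ⟨f, hf⟩ := (LinearMap.range_dualMap_eq_dualAnnihilator_ker E).ge
    (show b ∈ (LinearMap.ker E).dualAnnihilator from
      (Submodule.mem_dualAnnihilator b).2 fun k hk => hker hk)
  obtain ⟨s, hs⟩ := (Module.evalEquiv (ZMod 2) V).surjective f
  refine ⟨s, fun k => ?_⟩
  rw [← hf, ← hs]
  rfl

end CROSSX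

open CROSSX ENDDX

theorem cross_proof : Stmt_CROSS := by
  intro V _ _ _ R τ M ha hL hr hτ hst hτM hs m hm a haM v hv u hu hq
  have hd := disj ha hr hs
  by_contra hcon
  push Not at hcon
  obtain ⟨k0, hk0, hne⟩ := hcon
  have hone : k0 m a = 1 := zm_ne hne
  have hvu1 : k0 v u = 1 := by rw [← hq k0 hk0]; exact hone
  have hinM : ∀ x : V, (∀ ψ ∈ an M, ψ x = 0) → x ∈ M := by
    intro x hx
    rw [← co_an M]
    exact hx
  have hzero : ∀ x, x ∈ M → x ∈ cent R M → x = 0 := fun x h1 h2 => Submodule.disjoint_def.1 hd x h1 h2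
  have hMval : ∀ ψ ∈ an M, wdL τ ψ m a = 0 := by
    intro ψ hψ
    rw [wdL_apply₂, hτM m hm, hτM a haM, zero_mul, mul_zero, add_zero]
  have h1 : τ v • u + τ u • v = 0 := by
    apply hzero
    · apply hinM
      intro ψ hψ
      have h2 := hMval ψ hψ
      rw [hq _ (hst ψ hψ), wdL_apply₂] at h2
      rw [map_add, map_smul, map_smul, smul_eq_mul, smul_eq_mul]
      rw [mul_comm (τ u)]
      exact h2
    · exact Submodule.add_mem _ (Submodule.smul_mem _ _ hu) (Submodule.smul_mem _ _ hv)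
  have hv0 : v ≠ 0 := by
    rintro rfl
    rw [map_zero] at hvu1
    exact zero_ne_one hvu1
  have hτv : τ v = 0 := by
    rcases zm (τ v) with h | h
    · exact h
    · exfalso
      rw [h, one_smul] at h1
      have h2 : u = τ u • v := eq_of_add h1
      rw [h2, map_smul, ha k0 hk0, smul_zero] at hvu1
      exact zero_ne_one hvu1
  obtain ⟨z, hz, hτz⟩ : ∃ z ∈ cent R M, τ z = 1 := by
    obtain ⟨x, hx⟩ : ∃ x, τ x ≠ 0 := by
      by_contra hc
      push Not at hc
      exact hτ (LinearMap.ext hc)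
    have hx' : x ∈ M ⊔ cent R M := by rw [hs]; trivial
    obtain ⟨m', hm', z, hz, rfl⟩ := Submodule.mem_sup.1 hx'
    rw [map_add, hτM m' hm', zero_add] at hx
    exact ⟨z, hz, zm_ne hx⟩
  -- forms killing `z + m` kill `m`
  have hfx : ∀ k ∈ R, k (z + m) = 0 → k m = 0 := by
    intro k hk hkz
    rw [map_add] at hkz
    have hkz' : k z = k m := eq_of_add hkz
    ext y
    have hy : y ∈ M ⊔ cent R M := by rw [hs]; trivial
    obtain ⟨m', hm', w, hw, rfl⟩ := Submodule.mem_sup.1 hy
    rw [map_add, hw k hk m hm, add_zero, ← hkz', ha.symm hk]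
    exact hz k hk m' hm'
  obtain ⟨s0, hs0⟩ := exists_slot R (z + m)
    { toFun := fun k => (k : Fm V) m a
      map_add' := fun _ _ => rfl
      map_smul' := fun _ _ => rfl } (by
      intro k hk
      show (k : Fm V) m a = 0
      rw [hfx k k.2 hk]; rfl)
  have hs0' : ∀ k ∈ R, k (z + m) s0 = k v u := by
    intro k hk
    rw [← hq k hk]
    exact (hs0 ⟨k, hk⟩).symm
  obtain ⟨s, e1, e2, -⟩ := hL.primal ha (z + m) s0 v u hs0'
  have hsM : s + τ s • z ∈ M := by
    apply hinM
    intro ψ hψ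
    have h2 := e1 _ (hst ψ hψ)
    rw [hs0' _ (hst ψ hψ), ← hq _ (hst ψ hψ), hMval ψ hψ, wdL_apply₂, map_add, map_add, hτz,
      hτM m hm, hψ m hm, add_zero, add_zero, one_mul, mul_comm] at h2
    rw [map_add, map_smul, smul_eq_mul]
    exact h2.symm
  have h3 : ∀ k ∈ R, k v u = τ s * k v z := by
    intro k hk
    have h4 : k v (s + τ s • z) = 0 := by
      rw [ha.symm hk]
      exact hv k hk _ hsM
    rw [map_add, map_smul, smul_eq_mul, ← e2 k hk] at h4
    exact CharTwo.add_eq_zero.1 h4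
  have hτs : τ s = 1 := by
    rcases zm (τ s) with h | h
    · exfalso
      have := h3 k0 hk0
      rw [h, zero_mul, hvu1] at this
      exact one_ne_zero this
    · exact h
  apply hv0
  apply hzero v _ hv
  apply hinM
  intro ψ hψ
  have h5 := h3 _ (hst ψ hψ)
  rw [← hq _ (hst ψ hψ), hMval ψ hψ, hτs, one_mul, wdL_apply₂, hτv, hτz, zero_mul, zero_add,
    mul_one] at h5
  exact h5.symm

end Pool.Agent.ESL
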