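import Pool.Agent.ESL.StmtsJ

/-!
Common lemmas for the modules J2L, J2E, J2S, DEG: subgroups of groups of exponent two, additive maps to `V`.
-/

namespace Pool.Agent.ESL
namespace J2C

open QS

/-- subgroups of a group of exponent two form a complemented lattice -/
theorem exists_compl {G : Type} [CommGroup G] (h2 : ∀ a : G, a * a = 1) (A : Subgroup G) :
    ∃ B : Subgroup G, IsCompl A B := by
  let _ : Module (ZMod 2) (Additive G) := AddCommGroup.zmodModule (n := 2) (by
    intro x
    rw [two_nsmul]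
    exact h2 x)
  have h0 : ComplementedLattice (Submodule (ZMod 2) (Additive G)) := inferInstance
  have h1 : ComplementedLattice (AddSubgroup (Additive G)) :=
    (AddSubgroup.toZModSubmodule (M := Additive G) 2).symm.complementedLattice
  have h3 : ComplementedLattice (Subgroup G) :=
    (Subgroup.toAddSubgroup (G := G)).symm.complementedLattice
  exact ComplementedLattice.exists_isCompl A

/-- a complement inside a subgroup -/
theorem exists_compl_le {G : Type} [CommGroup G] (h2 : ∀ a : G, a * a = 1) (W T : Subgroup G)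
    (h : W ⊔ T = ⊤) : ∃ B : Subgroup G, IsCompl B W ∧ B ≤ T := by
  obtain ⟨C, hC⟩ := exists_compl h2 (W ⊓ T)
  refine ⟨C ⊓ T, ⟨?_, ?_⟩, inf_le_right⟩
  · rw [disjoint_iff]
    apply le_antisymm _ bot_le
    have h1 : (C ⊓ T) ⊓ W ≤ (W ⊓ T) ⊓ C :=
      le_inf (le_inf inf_le_right (inf_le_left.trans inf_le_right)) (inf_le_left.trans inf_le_left)
    exact h1.trans (le_of_eq hC.disjoint.eq_bot)
  · rw [codisjoint_iff]
    apply le_antisymm le_top
    have h1 : (C ⊓ T) ⊔ (W ⊓ T) = T := by
      rw [sup_comm]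
      rw [← sup_inf_assoc_of_le C (inf_le_right : W ⊓ T ≤ T)]
      rw [hC.codisjoint.eq_top, top_inf_eq]
    have h3 : T ≤ (C ⊓ T) ⊔ W := by
      conv_lhs => rw [← h1]
      exact sup_le_sup_left inf_le_left _
    rw [← h]
    exact sup_le le_sup_right h3

theorem card_zp {G : Type} [CommGroup G] (h2 : ∀ a : G, a * a = 1) {a : G} (ha : a ≠ 1) :
    Nat.card (Subgroup.zpowers a) = 2 := by
  rw [Nat.card_zpowers]
  exact orderOf_eq_prime (by rw [pow_two]; exact h2 a) ha

theorem mem_zp {G : Type} [CommGroup G] (h2 : ∀ a : G, a * a = 1) {a b : G} :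
    b ∈ Subgroup.zpowers a ↔ b = 1 ∨ b = a := by
  constructor
  · intro h
    obtain ⟨n, rfl⟩ := Subgroup.mem_zpowers_iff.1 h
    rcases Int.even_or_odd' n with ⟨m, rfl | rfl⟩
    · left
      rw [zpow_mul, zpow_two, h2, one_zpow]
    · right
      rw [zpow_add, zpow_mul, zpow_two, h2, one_zpow, one_mul, zpow_one]
  · rintro (rfl | rfl)
    · exact Subgroup.one_mem _
    · exact Subgroup.mem_zpowers _

variable {V : Type} [AddCommGroup V]

theorem i_one {G : Type} [CommGroup G] {i : G → V} (hi : ∀ a b, i (a * b) = i a + i b) : i 1 = 0 := by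
  have h := hi 1 1
  rw [mul_one] at h
  have h1 : i 1 + i 1 = i 1 + 0 := by rw [add_zero]; exact h.symm
  exact add_left_cancel h1

variable [Module (ZMod 2) V]

theorem mem_span_iff {k k' : Fm V} : k' ∈ Submodule.span (ZMod 2) {k} ↔ k' = 0 ∨ k' = k := by
  rw [Submodule.mem_span_singleton]
  constructor
  · rintro ⟨c, rfl⟩
    rcases zm c with rfl | rfl
    · left; rw [zero_smul]
    · right; rw [one_smul]
  · rintro (rfl | rfl)
    · exact ⟨0, zero_smul _ _⟩
    · exact ⟨1, one_smul _ _⟩

/-- two nonzero functionals take the value one at a common vector -/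
theorem exists_both {φ ψ : D V} (h1 : φ ≠ 0) (h2 : ψ ≠ 0) : ∃ v, φ v = 1 ∧ ψ v = 1 := by
  obtain ⟨v, hv⟩ : ∃ v, φ v = 1 := by
    by_contra hc
    push Not at hc
    exact h1 (LinearMap.ext fun v => zm_ne' (hc v))
  obtain ⟨w, hw⟩ : ∃ w, ψ w = 1 := by
    by_contra hc
    push Not at hc
    exact h2 (LinearMap.ext fun v => zm_ne' (hc v))
  rcases zm (ψ v) with h3 | h3
  · rcases zm (φ w) with h4 | h4
    · exact ⟨v + w, by rw [map_add, hv, h4, add_zero], by rw [map_add, h3, hw, zero_add]⟩
    · exact ⟨w, h4, hw⟩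
  · exact ⟨v, hv, h3⟩

end J2C
end Pool.Agent.ESL
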