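import Pool.Agent.ESL.Stmts

/-!
Fourier transform on the affine hyperplane `τ = 1`.
-/

namespace Pool.Agent.ESL

namespace FOURX

variable {X : Type} [AddCommGroup X] [Module (ZMod 2) X]

theorem sg_add (a b : ZMod 2) : sg (a + b) = sg a * sg b := by
  revert a b; decide

theorem sg_zero : sg 0 = 1 := rfl

theorem sg_one : sg 1 = -1 := rfl

theorem sg_mul_self (a : ZMod 2) : sg a * sg a = 1 := by
  revert a; decide

/-- `Σ_{τ y = 1} sg (θ y)` -/
noncomputable def S [Finite X] (τ θ : D X) : ℤ :=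
  ∑ y ∈ (Set.toFinite {y : X | τ y = 1}).toFinset, sg (θ y)

theorem S_zero [Finite X] (τ : D X) :
    S τ 0 = ((Set.toFinite {y : X | τ y = 1}).toFinset.card : ℤ) := by
  unfold S
  simp [sg_zero]

theorem S_self [Finite X] (τ : D X) :
    S τ τ = -((Set.toFinite {y : X | τ y = 1}).toFinset.card : ℤ) := by
  unfold S
  rw [Finset.sum_congr rfl (g := fun _ => (-1 : ℤ))]
  · simp
  · intro y hy
    rw [Set.Finite.mem_toFinset] at hy
    rw [show τ y = 1 from hy, sg_one]

theorem S_other [Finite X] (τ θ : D X) (h0 : θ ≠ 0) (h1 : θ ≠ τ) : S τ θ = 0 := by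
  have hT : θ ∉ Submodule.span (ZMod 2) {τ} := by
    intro hm
    obtain ⟨c, hc⟩ := Submodule.mem_span_singleton.1 hm
    rcases zm c with rfl | rfl
    · rw [zero_smul] at hc; exact h0 hc.symm
    · rw [one_smul] at hc; exact h1 hc.symm
  obtain ⟨x, hx, hx1⟩ := exists_cosep hT
  have hx0 : τ x = 0 := hx τ (Submodule.mem_span_singleton_self τ)
  have key : S τ θ = -S τ θ := by
    unfold S
    rw [← Finset.sum_neg_distrib]
    refine Finset.sum_nbij' (fun y => y + x) (fun y => y + x) ?_ ?_ ?_ ?_ ?_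
    · intro y hy
      rw [Set.Finite.mem_toFinset, Set.mem_ofPred_eq] at hy ⊢
      rw [map_add, hy, hx0, add_zero]
    · intro y hy
      rw [Set.Finite.mem_toFinset, Set.mem_ofPred_eq] at hy ⊢
      rw [map_add, hy, hx0, add_zero]
    · intro y _
      exact add_add_self' y x
    · intro y _
      exact add_add_self' y x
    · intro y _
      rw [map_add, hx1, sg_add, sg_one]
      ring
  omega

/-- the sum over the dual -/
theorem sOn_univ_eq [Finite X] [Fintype (D X)] (f : D X → ℤ) :
    sOn Set.univ f = ∑ θ, f θ := by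
  unfold sOn
  congr 1
  ext θ
  simp

theorem main [Finite X] (τ : D X) (g : D X → ℤ) (c : ℤ) (hτ : τ ≠ 0)
    (h : ∀ y, τ y = 1 → sOn Set.univ (fun θ => sg (θ y) * g θ) = c) (θ₀ : D X) :
    ((Set.toFinite {y : X | τ y = 1}).toFinset.card : ℤ) * (g θ₀ - g (θ₀ + τ)) = c * S τ θ₀ := by
  classical
  have : Fintype (D X) := Fintype.ofFinite _
  have h1 : ∀ y, τ y = 1 → ∑ θ, sg (θ y) * g θ = c := by
    intro y hy
    rw [← sOn_univ_eq]; exact h y hy
  have e1 : c * S τ θ₀ = ∑ θ, g θ * S τ (θ₀ + θ) := by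
    unfold S
    rw [Finset.mul_sum]
    simp_rw [Finset.mul_sum]
    rw [Finset.sum_comm]
    apply Finset.sum_congr rfl
    intro y hy
    rw [Set.Finite.mem_toFinset, Set.mem_ofPred_eq] at hy
    rw [← h1 y hy, Finset.sum_mul]
    apply Finset.sum_congr rfl
    intro θ _
    rw [LinearMap.add_apply, sg_add]
    ring
  rw [e1]
  have hne : θ₀ ≠ θ₀ + τ := by
    intro he
    apply hτ
    have h2 : θ₀ + θ₀ = θ₀ + (θ₀ + τ) := congrArg (fun t => θ₀ + t) he
    rw [add_self', add_add_self] at h2
    exact h2.symm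
  rw [← Finset.sum_subset (Finset.subset_univ ({θ₀, θ₀ + τ} : Finset (D X)))]
  · rw [Finset.sum_pair hne, add_self', add_add_self, S_zero, S_self]
    ring
  · intro θ _ hθ
    rw [Finset.mem_insert, Finset.mem_singleton, not_or] at hθ
    rw [S_other, mul_zero]
    · intro h0
      apply hθ.1
      exact (eq_of_add h0).symm
    · intro h0
      apply hθ.2
      rw [← h0, add_add_self]

end FOURX

open FOURX in
theorem four_proof : Stmt_FOUR := by
  intro X _ _ _ τ g c hτ h
  have hN : ((Set.toFinite {y : X | τ y = 1}).toFinset.card : ℤ) ≠ 0 := by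
    obtain ⟨y, hy⟩ : ∃ y, τ y ≠ 0 := by
      by_contra hc
      push Not at hc
      exact hτ (LinearMap.ext hc)
    have hy1 : τ y = 1 := zm_ne hy
    have : (Set.toFinite {y : X | τ y = 1}).toFinset.card ≠ 0 := by
      rw [Finset.card_ne_zero]
      exact ⟨y, by rw [Set.Finite.mem_toFinset]; exact hy1⟩
    exact_mod_cast this
  constructor
  · intro θ h0 h1
    have := main τ g c hτ h θ
    rw [S_other τ θ h0 h1, mul_zero] at this
    have h3 := (mul_eq_zero.1 this).resolve_left hN
    omega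
  · have := main τ g c hτ h 0
    rw [S_zero, zero_add, mul_comm c] at this
    exact mul_left_cancel₀ hN this

end Pool.Agent.ESL
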