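import Pool.Agent.ESL.StmtsJ

/-!
Module ISOC: equality of quaternions is decided by the pairs with `q = 0`.
-/

namespace Pool.Agent.ESL

namespace ISOCX

theorem eq_iff (S : QS.QStruct) (a b c d : S.G) :
    S.q a b = S.q c d ↔ ∃ x, S.q a (b * x) = S.zero ∧ S.q c (d * x) = S.zero ∧
      S.q (a * c) x = S.zero := by
  constructor
  · intro h
    obtain ⟨x, h1, h2⟩ := S.qs4 a b c d h
    refine ⟨x, (S.qs3 a b x).1 h1, (S.qs3 c d x).1 h2, ?_⟩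
    rw [S.qs2, ← S.qs3, S.qs2 x a, S.qs2 x c, ← h1, ← h2, h]
  · rintro ⟨x, h1, h2, h3⟩
    rw [S.qs2, ← S.qs3, S.qs2 x a, S.qs2 x c] at h3
    rw [(S.qs3 a b x).2 h1, (S.qs3 c d x).2 h2, h3]

end ISOCX

theorem isoc_proof : Stmt_ISOC := by
  intro S T φ hn h
  refine ⟨φ, hn, fun a b c d => ?_⟩
  rw [ISOCX.eq_iff, ISOCX.eq_iff]
  constructor
  · rintro ⟨x, h1, h2, h3⟩
    refine ⟨φ x, ?_, ?_, ?_⟩
    · rw [← map_mul]; exact (h _ _).1 h1
    · rw [← map_mul]; exact (h _ _).1 h2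
    · rw [← map_mul]; exact (h _ _).1 h3
  · rintro ⟨y, h1, h2, h3⟩
    refine ⟨φ.symm y, ?_, ?_, ?_⟩
    · rw [h, map_mul, φ.apply_symm_apply]; exact h1
    · rw [h, map_mul, φ.apply_symm_apply]; exact h2
    · rw [h, map_mul, φ.apply_symm_apply]; exact h3

end Pool.Agent.ESL
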