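import Pool.Agent.ESL.Stmts

set_option linter.unusedVariables false

namespace Pool.Agent.ESL

theorem oc_proof : Stmt_OC := by
  intro V _ _ _ R M h m hm m' hm' k hk k' hk' hkk
  -- `k' m' = α + θ π`
  obtain ⟨θ, hθ⟩ := exists_comp (M := M) (ψ := k m + k' m') (by
    intro a ha
    rw [LinearMap.add_apply, hkk a ha, CharTwo.add_self_eq_zero])
  have e := h (k m) 0 θ (by
    unfold PP
    have : Nonempty {z : V // M.mkQ z = 0 ∧ k m + 0 ∘ₗ M.mkQ ∈ Lx R z} :=
      ⟨⟨m, by simpa using hm, by simpa using Lx_mem hk m⟩⟩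
    exact Nat.succ_le_of_lt Nat.card_pos) (by
    unfold PP
    have : Nonempty {z : V // M.mkQ z = 0 ∧ k m + θ ∘ₗ M.mkQ ∈ Lx R z} :=
      ⟨⟨m', by simpa using hm', by rw [hθ, add_add_self]; exact Lx_mem hk' m'⟩⟩
    exact Nat.succ_le_of_lt Nat.card_pos)
  rw [← e] at hθ
  have h0 : k m + k' m' = 0 := by rw [← hθ]; simp
  exact eq_of_add h0

end Pool.Agent.ESL
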