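import Pool.Agent.ESL.Stmts

set_option linter.unusedVariables false

namespace Pool.Agent.ESL

theorem pz_proof : Stmt_PZ := by
  intro V _ _ _ R M α κ hκ θ x
  unfold PP
  apply Nat.card_congr
  apply Equiv.subtypeEquivRight
  intro z
  constructor
  · rintro ⟨rfl, k, hk, e⟩
    refine ⟨rfl, k + pull M.mkQ κ, R.add_mem hk hκ, ?_⟩
    rw [LinearMap.add_apply, e, pull_apply', LinearMap.add_comp]
    rw [add_assoc, add_add_self']
  · rintro ⟨rfl, k, hk, e⟩
    refine ⟨rfl, k + pull M.mkQ κ, R.add_mem hk hκ, ?_⟩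
    rw [LinearMap.add_apply, e, pull_apply', LinearMap.add_comp, add_assoc]

end Pool.Agent.ESL
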