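import Pool.Agent.ESL.Stmts

set_option linter.unusedVariables false

namespace Pool.Agent.ESL

namespace SIGNX

theorem sg_add (a b : ZMod 2) : sg (a + b) = sg a * sg b := by
  revert a b
  unfold sg
  decide

theorem sg_inj {a b : ZMod 2} (h : sg a = sg b) : a = b := by
  revert a b
  unfold sg
  decide

theorem exists_sg {c d : ℤ} (h : d ^ 2 = c ^ 2) : ∃ e : ZMod 2, d = c * sg e := by
  rcases sq_eq_sq_iff_eq_or_eq_neg.1 h with h | h
  · exact ⟨0, by simp [sg, h]⟩
  · exact ⟨1, by simp [sg, h]⟩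

end SIGNX

open SIGNX in
theorem sign_proof : Stmt_SIGN := by
  intro X _ _ _ τ d Q c hτ hc hd hQ
  obtain ⟨y₀, hy₀⟩ : ∃ t, τ t = 1 := by
    by_contra hc
    push Not at hc
    exact hτ (LinearMap.ext fun x => zm_ne' (hc x))
  have t1 : ∀ x : LinearMap.ker τ, τ (y₀ + x) = 1 := by
    intro x
    rw [map_add, hy₀, x.2, add_zero]
  obtain ⟨e, he⟩ := exists_sg (hd y₀ hy₀)
  choose s hs using fun x : LinearMap.ker τ => exists_sg (hd _ (t1 x))
  -- `d (y₀ + x) = c * sg (s x)`
  have hs0 : s 0 = e := by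
    apply sg_inj
    have h1 := hs 0
    rw [ZeroMemClass.coe_zero, add_zero, he] at h1
    exact (mul_left_cancel₀ hc.ne' h1).symm
  have hadd : ∀ x x' : LinearMap.ker τ, s (x + x') = s x + s x' + e := by
    intro x x'
    apply sg_inj
    rw [sg_add, sg_add]
    by_cases hxx : x = x'
    · subst hxx
      have : x + x = 0 := add_self' x
      rw [this, hs0, ← sg_add, ← sg_add, CharTwo.add_self_eq_zero, zero_add]
    have h1 := hQ (y₀ + x) (y₀ + x') (by
      intro h
      exact hxx (Subtype.ext (add_left_cancel h))) (t1 x) (t1 x')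
    have h2 := hQ y₀ (y₀ + ((x + x' : LinearMap.ker τ) : X)) (by
      intro h
      have h3 : ((x + x' : LinearMap.ker τ) : X) = 0 := by simpa using h.symm
      have h4 : x + x' = 0 := Subtype.ext h3
      exact hxx (eq_of_add h4)) hy₀ (t1 _)
    have e1 : y₀ + (x : X) + (y₀ + x') = y₀ + (y₀ + ((x + x' : LinearMap.ker τ) : X)) := by
      rw [Submodule.coe_add]
      abel
    rw [e1, ← h2, hs, hs, hs, he] at h1
    have h5 : sg (s x) * sg (s x') = sg e * sg (s (x + x')) := by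
      have hcc : c * c ≠ 0 := mul_ne_zero hc.ne' hc.ne'
      apply mul_left_cancel₀ hcc
      linarith [h1]
    have h6 : sg e * sg e = 1 := by
      rw [← sg_add, CharTwo.add_self_eq_zero]; rfl
    calc sg (s (x + x')) = (sg e * sg e) * sg (s (x + x')) := by rw [h6, one_mul]
      _ = (sg e * sg (s (x + x'))) * sg e := by ring
      _ = sg (s x) * sg (s x') * sg e := by rw [← h5]
  let f : LinearMap.ker τ →+ ZMod 2 := AddMonoidHom.mk' (fun x => s x + e) (by
    intro a b
    show s (a + b) + e = s a + e + (s b + e)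
    rw [hadd]
    ring)
  obtain ⟨θ₀, hθ₀⟩ := LinearMap.exists_extend (f.toZModLinearMap 2)
  refine ⟨θ₀ + (θ₀ y₀ + e) • τ, fun y hy => ?_⟩
  have hx : y₀ + y ∈ LinearMap.ker τ := by
    rw [LinearMap.mem_ker, map_add, hy, hy₀]; rfl
  have h1 := hs ⟨y₀ + y, hx⟩
  have h2 : θ₀ (y₀ + y) = s ⟨y₀ + y, hx⟩ + e :=
    congrArg (fun F => F ⟨y₀ + y, hx⟩) hθ₀
  rw [add_add_self] at h1
  rw [h1]
  congr 2
  rw [map_add] at h2
  rw [LinearMap.add_apply, LinearMap.smul_apply, hy, smul_eq_mul, mul_one]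
  have h3 : θ₀ y + (θ₀ y₀ + e) = (θ₀ y₀ + θ₀ y) + e := by ring
  rw [h3, h2, add_assoc, CharTwo.add_self_eq_zero, add_zero]

end Pool.Agent.ESL
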