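import Pool.Agent.ESL.Stmts

/-!
Common lemmas for the counting identities DIAG and PAIR.
-/

namespace Pool.Agent.ESL

namespace CountX

set_option linter.unusedSectionVars false

variable {V : Type} [AddCommGroup V] [Module (ZMod 2) V] [Finite V]

/-- number of `z` in the coset `v` with `α + θ ∈ L_z(R^w)` -/
noncomputable def N (R : FS V) (M : Submodule (ZMod 2) V) (α : D V) (w : V) (θ : D (V ⧸ M))
    (v : V ⧸ M) : ℕ :=
  (Set.toFinite {z : V | M.mkQ z = v ∧ α + θ ∘ₗ M.mkQ ∈ Lx (fx R w) z}).toFinset.card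

theorem PP_eq (R : FS V) (M : Submodule (ZMod 2) V) (α : D V) (θ : D (V ⧸ M)) (v : V ⧸ M) :
    PP R M α θ v = (Set.toFinite {z : V | M.mkQ z = v ∧ α + θ ∘ₗ M.mkQ ∈ Lx R z}).toFinset.card := by
  unfold PP
  rw [← Set.ncard_eq_toFinset_card]
  rfl

theorem mk_zero {M : Submodule (ZMod 2) V} {a : V} : M.mkQ a = 0 ↔ a ∈ M :=
  Submodule.Quotient.mk_eq_zero M

theorem link {R : FS V} (h : Linked R) (ψ : D V) (z w : V) :
    (ψ ∈ Lx R z ∧ ψ ∈ Lx R (z + w)) ↔ ψ ∈ Lx (fx R w) z := by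
  constructor
  · rintro ⟨⟨k, hk, h1⟩, ⟨k', hk', h2⟩⟩
    obtain ⟨l, hl, e1, e2⟩ := h k hk k' hk' z (z + w) (h1.trans h2.symm)
    refine ⟨l, ⟨hl, ?_⟩, e1.trans h1⟩
    rw [map_add, e1] at e2
    have : k z + l w = k z + 0 := by rw [e2, add_zero]
    exact add_left_cancel this
  · rintro ⟨k, ⟨hk, hkw⟩, h1⟩
    exact ⟨⟨k, hk, h1⟩, ⟨k, hk, by rw [map_add, hkw, add_zero, h1]⟩⟩

/-- the basic identity -/
theorem prod_eq {R : FS V} (h : Linked R) (M : Submodule (ZMod 2) V) (α : D V) (θ : D (V ⧸ M))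
    (v v' : V ⧸ M) :
    PP R M α θ v * PP R M α θ v' =
      ∑ w ∈ (Set.toFinite {w : V | M.mkQ w = v + v'}).toFinset, N R M α w θ v := by
  classical
  rw [PP_eq, PP_eq, ← Finset.card_product]
  rw [Finset.card_eq_sum_card_fiberwise (f := fun p : V × V => p.1 + p.2)
    (t := (Set.toFinite {w : V | M.mkQ w = v + v'}).toFinset)]
  · apply Finset.sum_congr rfl
    intro w hw
    rw [Set.Finite.mem_toFinset, Set.mem_ofPred_eq] at hw
    unfold N
    apply Finset.card_nbij' (fun p => p.1) (fun z => (z, z + w))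
    · rintro ⟨z, z'⟩ hz
      simp only [Finset.coe_filter, Finset.mem_product, Set.Finite.mem_toFinset, Set.mem_ofPred_eq] at hz
      obtain ⟨⟨⟨h1, h2⟩, ⟨h3, h4⟩⟩, h5⟩ := hz
      simp only [Finset.mem_coe, Set.Finite.mem_toFinset, Set.mem_ofPred_eq]
      refine ⟨h1, (link h _ _ _).1 ⟨h2, ?_⟩⟩
      rw [← h5, add_add_self]; exact h4
    · intro z hz
      simp only [Finset.mem_coe, Set.Finite.mem_toFinset, Set.mem_ofPred_eq] at hz
      simp only [Finset.coe_filter, Finset.mem_product, Set.Finite.mem_toFinset, Set.mem_ofPred_eq]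
      obtain ⟨h2, h3⟩ := (link h _ _ _).2 hz.2
      refine ⟨⟨⟨hz.1, h2⟩, ⟨?_, h3⟩⟩, add_add_self z w⟩
      rw [map_add, hz.1, hw, add_add_self]
    · rintro ⟨z, z'⟩ hz
      simp only [Finset.coe_filter, Finset.mem_product, Set.Finite.mem_toFinset, Set.mem_ofPred_eq] at hz
      obtain ⟨_, h5⟩ := hz
      simp only [Prod.mk.injEq, true_and]
      rw [← h5, add_add_self]
    · intro z _
      rfl
  · rintro ⟨z, z'⟩ hz
    simp only [Finset.mem_coe, Finset.mem_product, Set.Finite.mem_toFinset, Set.mem_ofPred_eq] at hz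
    simp only [Finset.mem_coe, Set.Finite.mem_toFinset, Set.mem_ofPred_eq]
    rw [map_add, hz.1.1, hz.2.1]

/-- use of the splitting equivalence -/
theorem split_eq (hS : Stmt_SPLEQ) {R : FS V} (hR : IsAlt R) (M : Submodule (ZMod 2) V) (α : D V)
    (w : V) (hw : Spl R M w) (θ : D (V ⧸ M)) (v : V ⧸ M) :
    N R M α w θ v = ∑ θ' ∈ (Set.toFinite {θ' : D (V ⧸ M) |
      θ' + θ ∈ Lx (fx (R0 R M) (M.mkQ w)) v}).toFinset, N R M α w θ' 0 := by
  classical
  obtain ⟨C, hCM, hspl⟩ := hw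
  obtain ⟨hA, hB⟩ := hS V R M C w hR hCM hspl α
  obtain ⟨c, hc, hcv⟩ : ∃ c ∈ C, M.mkQ c = v := by
    obtain ⟨y, rfl⟩ := M.mkQ_surjective v
    have hy : y ∈ C ⊔ M := by rw [hCM]; trivial
    obtain ⟨c, hc, m, hm, rfl⟩ := Submodule.mem_sup.1 hy
    exact ⟨c, hc, by rw [map_add, mk_zero.2 hm, add_zero]⟩
  unfold N
  rw [← Finset.card_biUnion]
  · apply Finset.card_nbij' (fun z => c + z) (fun a => c + a)
    · intro z hz
      simp only [Finset.mem_coe, Set.Finite.mem_toFinset, Set.mem_ofPred_eq] at hz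
      have ha : c + z ∈ M := by
        rw [← mk_zero, map_add, hcv, hz.1, add_self']
      have h1 := (hA θ c hc (c + z) ha).1 (by rw [add_add_self]; exact hz.2)
      obtain ⟨θ', h2, h3⟩ := h1
      simp only [Finset.coe_biUnion, Set.mem_iUnion, Finset.mem_coe, Set.Finite.mem_toFinset,
        Set.mem_ofPred_eq, exists_prop]
      exact ⟨θ', by rw [← hcv]; exact h2, mk_zero.2 ha, h3⟩
    · intro a ha
      simp only [Finset.coe_biUnion, Set.mem_iUnion, Finset.mem_coe, Set.Finite.mem_toFinset,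
        Set.mem_ofPred_eq, exists_prop] at ha
      obtain ⟨θ', h2, ha0, h3⟩ := ha
      simp only [Finset.mem_coe, Set.Finite.mem_toFinset, Set.mem_ofPred_eq]
      refine ⟨by rw [map_add, ha0, add_zero, hcv], ?_⟩
      exact (hA θ c hc a (mk_zero.1 ha0)).2 ⟨θ', by rw [hcv]; exact h2, h3⟩
    · intro z _
      exact add_add_self c z
    · intro z _
      exact add_add_self c z
  · intro θ₁ _ θ₂ _ hne
    rw [Function.onFun, Finset.disjoint_left]
    intro a h1 h2
    simp only [Set.Finite.mem_toFinset, Set.mem_ofPred_eq] at h1 h2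
    exact hne (hB θ₁ θ₂ a (mk_zero.1 h1.1) a (mk_zero.1 h2.1) h1.2 h2.2)

theorem N_zero (R : FS V) (M : Submodule (ZMod 2) V) (α : D V) (θ : D (V ⧸ M)) (v : V ⧸ M) :
    N R M α 0 θ v = PP R M α θ v := by
  have : fx R 0 = R := by
    ext k
    exact ⟨fun h => h.1, fun h => ⟨h, map_zero k⟩⟩
  rw [PP_eq]
  unfold N
  simp only [this]

end CountX

end Pool.Agent.ESL
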