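import Pool.Agent.ESL.Stmts

/-!
If all finite linked universal form spaces satisfy the extension property for subspaces of dimension at most three,
then all of them are strongly linked.
-/

namespace Pool.Agent.ESL

/-- `R` is determined by its commuting pairs -/
def Univ {V : Type} [AddCommGroup V] [Module (ZMod 2) V] (R : FS V) : Prop :=
  ∀ k : Fm V, (∀ x, k x x = 0) → (∀ x y, (∀ l ∈ R, l x y = 0) → k x y = 0) → k ∈ R

/-- strong linkage for subspaces of dimension at most `n` -/
def SLn {V : Type} [AddCommGroup V] [Module (ZMod 2) V] (R : FS V) (n : ℕ) : Prop :=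
  ∀ (U : Submodule (ZMod 2) V) (b : U →ₗ[ZMod 2] D V), fr U ≤ n → (∀ u : U, b u ∈ Lx R u) →
    ∃ k ∈ R, ∀ u : U, k u = b u

section
variable {V : Type} [AddCommGroup V] [Module (ZMod 2) V]

theorem Univ.fx {R : FS V} (h : Univ R) (w : V) : Univ (fx R w) := by
  intro k hk hc
  have h1 : k w = 0 := by
    ext y
    exact hc w y (fun l hl => by rw [hl.2]; rfl)
  refine ⟨h k hk (fun x y hxy => hc x y (fun l hl => hxy l hl.1)), h1⟩

/-- (S2): linked and one `R^u` strongly linked for every `u ∉ rad R` -/
theorem sl_of_fx {R : FS V} (hL : Linked R) (h : ∀ u, u ∉ rad R → SL (fx R u)) : SL R := by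
  intro U b hb
  by_cases hU : ∀ u : U, b u = 0
  · exact ⟨0, R.zero_mem, fun u => by rw [hU u]; rfl⟩
  push Not at hU
  obtain ⟨u₀, hu₀⟩ := hU
  obtain ⟨k₀, hk₀, e₀⟩ := hb u₀
  have hrad : (u₀ : V) ∉ rad R := by
    intro hr
    apply hu₀
    rw [← e₀, hr k₀ hk₀]
  obtain ⟨l, hl, hl'⟩ := h u₀ hrad U (b + (k₀ ∘ₗ U.subtype)) (by
    intro u
    obtain ⟨k, hk, ek⟩ := hb u
    obtain ⟨k', hk', ek'⟩ := hb (u + u₀)
    have e1 : (k + k₀) (u : V) = b u + k₀ u := by rw [LinearMap.add_apply, ek]
    have e2 : (k' + k₀) ((u : V) + u₀) = b u + k₀ u := by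
      have : k' ((u : V) + u₀) = b (u + u₀) := ek'
      rw [LinearMap.add_apply, this, map_add, map_add, e₀]
      calc b u + b u₀ + (k₀ u + b u₀) = b u + k₀ u + (b u₀ + b u₀) := by abel
        _ = _ := by rw [add_self', add_zero]
    obtain ⟨m, hm, m1, m2⟩ := hL _ (R.add_mem hk hk₀) _ (R.add_mem hk' hk₀) (u : V) ((u : V) + u₀)
      (e1.trans e2.symm)
    refine ⟨m, ⟨hm, ?_⟩, ?_⟩
    · rw [map_add, m1] at m2
      have := congrArg (fun t => (k + k₀) (u : V) + t) m2
      simpa [add_add_self, add_self'] using this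
    · rw [m1, e1]; rfl)
  refine ⟨l + k₀, R.add_mem hl.1 hk₀, fun u => ?_⟩
  rw [LinearMap.add_apply, hl' u, LinearMap.add_apply]
  show b u + k₀ u + k₀ u = b u
  rw [add_add_self']

theorem fr_fx_lt [Finite V] {R : FS V} {w : V} (h : w ∉ rad R) : fr (fx R w) < fr R := by
  apply Submodule.finrank_lt_finrank_of_lt
  refine lt_of_le_of_ne (fx_le R w) ?_
  intro he
  apply h
  intro k hk
  rw [← he] at hk
  exact hk.2

/-- `P_1(3)` implies that `R^w` is linked -/
theorem linked_fx [Finite V] {R : FS V} (h : SLn R 3) (w : V) : Linked (fx R w) := by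
  intro k hk k' hk' x x' hx
  set ψ := k x with hψ
  by_cases h0 : ψ = 0
  · exact ⟨0, Submodule.zero_mem _, by rw [LinearMap.zero_apply, h0], by rw [LinearMap.zero_apply, h0]⟩
  by_cases hxx : x = x' ∨ x = x' + w
  · rcases hxx with h1 | h1
    · exact ⟨k, hk, rfl, by rw [← h1]⟩
    · refine ⟨k, hk, rfl, ?_⟩
      have : k x = k x' := by rw [h1, map_add, hk.2, add_zero]
      rw [← this]
  push Not at hxx
  -- functional with value one at `x`, `x'`, zero at `w`
  obtain ⟨f, hf, hf1⟩ := exists_sep (W := Submodule.span (ZMod 2) {x + x', w}) (x := x) (by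
    intro hm
    obtain ⟨a, b, hab⟩ := Submodule.mem_span_pair.1 hm
    rcases zm a with rfl | rfl <;> rcases zm b with rfl | rfl
    · simp only [zero_smul, add_zero] at hab
      apply h0; rw [hψ, ← hab, map_zero]
    · simp only [zero_smul, zero_add, one_smul] at hab
      apply h0; rw [hψ, ← hab, hk.2]
    · simp only [zero_smul, add_zero, one_smul] at hab
      have : x' = 0 := by
        have := congrArg (x + ·) hab
        simpa [add_add_self, add_self'] using this
      apply h0; rw [hx, this, map_zero]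
    · simp only [one_smul] at hab
      have : x' + w = 0 := by
        have := congrArg (x + ·) hab
        simpa [add_assoc, add_add_self, add_self'] using this
      have hw : x' = w := eq_of_add this
      apply h0; rw [hx, hw, hk'.2])
  have hfw : f w = 0 := hf w (Submodule.subset_span (by simp))
  have hf2 : f x' = 1 := by
    have h1 := hf (x + x') (Submodule.subset_span (by simp))
    rw [map_add, hf1] at h1
    exact (CharTwo.add_eq_zero.1 h1).symm
  let U : Submodule (ZMod 2) V := Submodule.span (ZMod 2) {x, x', w}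
  have hU : fr U ≤ 3 := by
    classical
    have : U = Submodule.span (ZMod 2) (({x, x', w} : Finset V) : Set V) := by
      simp [U]
    rw [this]
    refine (finrank_span_finset_le_card _).trans ?_
    exact Finset.card_le_three
  obtain ⟨l, hl, hl'⟩ := h U ((f.smulRight ψ) ∘ₗ U.subtype) hU (by
    rintro ⟨u, hu⟩
    obtain ⟨a, b, c, rfl⟩ := Submodule.mem_span_triple.1 hu
    simp only [LinearMap.comp_apply, Submodule.subtype_apply, LinearMap.smulRight_apply, map_add,
      map_smul, hf1, hf2, hfw, smul_eq_mul, mul_one, mul_zero, add_zero]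
    rcases zm a with rfl | rfl <;> rcases zm b with rfl | rfl
    · simp
    · simp only [zero_add, one_smul, zero_smul]
      refine ⟨k', hk'.1, ?_⟩
      rw [map_add, map_smul, hk'.2, smul_zero, add_zero, hx, add_zero]
    · simp only [add_zero, one_smul, zero_smul]
      refine ⟨k, hk.1, ?_⟩
      rw [map_add, map_smul, hk.2, smul_zero, add_zero]
    · simp only [one_smul, zero_smul, smul_zero, add_zero]
      rw [ZModModule.add_self]
      exact Submodule.zero_mem _)
  have e1 := hl' ⟨x, Submodule.subset_span (by simp)⟩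
  have e2 := hl' ⟨x', Submodule.subset_span (by simp)⟩
  have e3 := hl' ⟨w, Submodule.subset_span (by simp)⟩
  simp only [LinearMap.comp_apply, Submodule.subtype_apply, LinearMap.smulRight_apply, hf1, hf2, hfw,
    one_smul, zero_smul] at e1 e2 e3
  exact ⟨l, ⟨hl, e3⟩, e1, e2⟩

end

theorem sl_of_three (H : ∀ (V : Type) [AddCommGroup V] [Module (ZMod 2) V] [Finite V] (R : FS V),
    IsAlt R → Linked R → Univ R → SLn R 3) :
    ∀ (n : ℕ) (V : Type) [AddCommGroup V] [Module (ZMod 2) V] [Finite V] (R : FS V),
      fr R < n → IsAlt R → Linked R → Univ R → SL R := by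
  intro n
  induction n with
  | zero => intro V _ _ _ R h; omega
  | succ n ih =>
    intro V _ _ _ R hn hA hL hU
    apply sl_of_fx hL
    intro u hu
    exact ih V (fx R u) (by have := fr_fx_lt hu; omega) (hA.mono (fx_le R u))
      (linked_fx (H V R hA hL hU) u) (hU.fx u)

end Pool.Agent.ESL
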