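import Pool.Agent.ESL.G1

/-!
Subset sums of atoms.
-/

set_option linter.unusedVariables false

namespace Pool.Agent.ESL

open G1X

theorem au3_proof (h1 : Stmt_AU1) : Stmt_AU3 := by
  classical
  intro V _ _ _ R hR w hw k hk
  obtain ⟨hind, hspan⟩ := h1 V R hR w hw
  have hk2 : k ∈ Submodule.span (ZMod 2) ((ats R w : Finset (Fm V)) : Set (Fm V)) := by
    rw [hspan]; exact hk
  obtain ⟨f, -, hf⟩ := Submodule.mem_span_finset.1 hk2
  set I := (ats R w).filter (fun a => f a = 1) with hI
  have hIA : I ⊆ ats R w := Finset.filter_subset _ _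
  have hsum : k = ∑ a ∈ I, a := by
    rw [← hf, hI, Finset.sum_filter]
    apply Finset.sum_congr rfl
    intro a _
    rcases zm (f a) with h | h
    · rw [h]; simp
    · rw [h]; simp
  have hker : ∀ u, k u = 0 ↔ ∀ a ∈ I, a u = 0 := by
    intro u
    constructor
    · intro hu a ha
      exact sum_ker hind hIA (by rw [← hsum]; exact hu) a ha
    · intro h
      rw [hsum, LinearMap.sum_apply]
      exact Finset.sum_eq_zero h
  have hdis : ∀ a ∈ ats R w, a ∉ I → Disjoint (LinearMap.range a) (LinearMap.range k) := by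
    intro a ha haI
    rw [Submodule.disjoint_def]
    rintro φ ⟨x, rfl⟩ ⟨y, hy⟩
    have h5 := ind_sub hind (I := {a}) (J := I) (Finset.singleton_subset_iff.2 ha) hIA (x := x)
      (y := y) (by rw [Finset.sum_singleton, ← hsum, hy]) a ha
    rw [if_pos (Finset.mem_singleton_self a), if_neg haI] at h5
    exact h5
  refine ⟨I, hIA, hsum, ?_, hdis, hker⟩
  intro a ha
  constructor
  · intro haI
    rw [range_le_iff (hR.alt a (mem_ats.1 ha).1) (hR.alt k hk.1)]
    intro u hu
    exact (hker u).1 hu a haI
  · intro hle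
    by_contra haI
    have h6 := hdis a ha haI
    have h7 : LinearMap.range a = ⊥ := by
      have := h6.mono_right hle
      exact disjoint_self.1 this
    exact (mem_ats.1 ha).2.2.1 (LinearMap.range_eq_bot.1 h7)

end Pool.Agent.ESL
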