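import Pool.Agent.ESL.C2Aux

set_option autoImplicit false

namespace Pool.Agent.ESL

open C2AuxX

namespace C2X

variable {V : Type} [AddCommGroup V] [Module (ZMod 2) V]

theorem fr_ker [Finite V] {M K : Submodule (ZMod 2) V} (h1 : K ⊔ M = ⊤) (h2 : K ⊓ M = ⊥) :
    fr K + fr M = fr V := by
  have h3 := Submodule.finrank_sup_add_finrank_inf_eq K M
  rw [h1, h2, finrank_top, finrank_bot, add_zero] at h3
  exact h3.symm

theorem mem_span_one {W : Type} [AddCommGroup W] [Module (ZMod 2) W] {k b : W}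
    (h : k ∈ Submodule.span (ZMod 2) {b}) : k = 0 ∨ k = b := by
  obtain ⟨c, rfl⟩ := Submodule.mem_span_singleton.1 h
  rcases zm c with rfl | rfl
  · left; rw [zero_smul]
  · right; rw [one_smul]

/-- the dimension of the preimage of the range of a form -/
theorem fr_comap [Finite V] (ρ ρ₁ : Fm V) :
    fr V ≤ fr ((LinearMap.range ρ₁).comap ρ) + fr (LinearMap.ker ρ₁) := by
  have h1 := LinearMap.finrank_range_add_finrank_ker ((LinearMap.range ρ₁).mkQ ∘ₗ ρ)
  have h2 : LinearMap.ker ((LinearMap.range ρ₁).mkQ ∘ₗ ρ) = (LinearMap.range ρ₁).comap ρ := by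
    rw [LinearMap.ker_comp, Submodule.ker_mkQ]
  rw [h2] at h1
  have h3 := LinearMap.finrank_range_add_finrank_ker ρ₁
  have h4 := Submodule.finrank_quotient_add_finrank (LinearMap.range ρ₁)
  have h5 := Submodule.finrank_le (LinearMap.range ((LinearMap.range ρ₁).mkQ ∘ₗ ρ))
  have h6 : Module.finrank (ZMod 2) (D V) = Module.finrank (ZMod 2) V := finrank_D
  change Module.finrank (ZMod 2) V ≤ Module.finrank (ZMod 2) ((LinearMap.range ρ₁).comap ρ) +
    Module.finrank (ZMod 2) (LinearMap.ker ρ₁)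
  omega

/-- two nonzero functionals on a plane killing the same nonzero vector are equal -/
theorem plane_eq [Finite V] (hV : fr V = 2) {m : V} (hm : m ≠ 0) {f g : D V} (hf : f ≠ 0)
    (hg : g ≠ 0) (hfm : f m = 0) (hgm : g m = 0) : f = g := by
  have h1 := finrank_an (Submodule.span (ZMod 2) {m})
  rw [finrank_span_singleton hm] at h1
  change _ + 1 = fr V at h1
  have h2 : Submodule.span (ZMod 2) {f} = an (Submodule.span (ZMod 2) {m}) := by
    apply Submodule.eq_of_le_of_finrank_le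
    · rw [Submodule.span_singleton_le_iff_mem]
      intro x hx
      rcases mem_span_one hx with rfl | rfl
      · exact map_zero f
      · exact hfm
    · rw [finrank_span_singleton hf]
      omega
  have h3 : g ∈ an (Submodule.span (ZMod 2) {m}) := by
    intro x hx
    rcases mem_span_one hx with rfl | rfl
    · exact map_zero g
    · exact hgm
  rw [← h2] at h3
  rcases mem_span_one h3 with h4 | h4
  · exact absurd h4 hg
  · exact h4.symm

end C2X

theorem c2_proof (hA : Stmt_C2A) (hB : Stmt_C2B) (hC : Stmt_C2C) (hII : Stmt_C2II)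
    (hG : Stmt_GG) (hF3 : Stmt_F3) : Stmt_C2 := by
  intro V _ _ _ R τ M h hF hd α θ θ' hθ hθ'
  by_contra hne
  have hone := hA V R τ M h hF hd α θ θ' hne hθ hθ'
  obtain ⟨ρ₁, hr₁, ρ₂, hr₂, κ, hκ, hs₁, hs₂, hi₁, hi₂, hM, hκ0, hs⟩ := hB V R τ M h hF hd α hone
  obtain ⟨ψ, e₁, e₂, hw, hτ, hψ, h1, h2, h3, h4, hv⟩ := basis2 h hd
  have hk2 : fr (LinearMap.ker ρ₁) = 2 := by
    have := C2X.fr_ker hs₁ hi₁
    omega
  have hk2' : fr (LinearMap.ker ρ₂) = 2 := by
    have := C2X.fr_ker hs₂ hi₂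
    omega
  have hρ0 : ρ₁ ≠ 0 := by
    intro h0
    rw [h0, LinearMap.ker_zero, top_inf_eq] at hi₁
    exact h.ne hi₁
  -- `ρ₁` is an atom
  obtain ⟨w, hw', hw0⟩ : ∃ w ∈ LinearMap.ker ρ₁, w ≠ 0 := by
    by_contra hcon
    push Not at hcon
    have h5 : LinearMap.ker ρ₁ = ⊥ := by
      rw [eq_bot_iff]
      exact hcon
    rw [h5] at hk2
    change Module.finrank (ZMod 2) (⊥ : Submodule (ZMod 2) V) = 2 at hk2
    rw [finrank_bot] at hk2
    omega
  have hfx := hC V R τ M h hF hd ρ₁ hr₁ ρ₂ hr₂ κ hκ hs₁ hs₂ hi₁ hi₂ hM hκ0 hs w hw' hw0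
  have hatom : Atom R ρ₁ := by
    refine ⟨w, hw0, hr₁, hw', hρ0, fun k hk hkw _ => ?_⟩
    have : k ∈ fx R w := ⟨hk, hkw⟩
    rw [hfx] at this
    exact C2X.mem_span_one this
  have hgood : Good R ρ₁ := hG V R (hII V R τ M h hd) ρ₁ hatom hk2.ge
  have hρR : ρ₁ + ρ₂ ∈ R := R.add_mem hr₁ hr₂
  have hkill : (∀ m ∈ M, (ρ₁ + ρ₂) m = 0) → False := by
    intro hk
    have h5 : ρ₁ + ρ₂ = 0 := by
      apply uniq h.alt hF hr₁ hρR hk hs₁
      rw [add_add_self]
      exact hs₂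
    rw [h5] at hs
    apply hκ0
    apply uniq h.alt hF R.zero_mem hκ hM _ hs
    rw [LinearMap.ker_zero, top_sup_eq]
  have hZ := C2X.fr_comap (ρ₁ + ρ₂) ρ₁
  by_cases hcase : ∃ x ∈ (LinearMap.range ρ₁).comap (ρ₁ + ρ₂), (ρ₁ + ρ₂) x ≠ 0
  · obtain ⟨x₀, hx₀, hx₀'⟩ := hcase
    have hstep : ∀ x ∈ (LinearMap.range ρ₁).comap (ρ₁ + ρ₂), (ρ₁ + ρ₂) x ≠ 0 → ρ₂ x = 0 := by
      intro x hx hx'
      have h5 := hgood ((ρ₁ + ρ₂) x) hx hx' x ⟨_, hρR, rfl⟩
      rw [LinearMap.add_apply] at h5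
      have h6 : ρ₁ x + ρ₁ x = ρ₁ x + (ρ₁ x + ρ₂ x) := congrArg (ρ₁ x + ·) h5
      rw [add_self', add_add_self] at h6
      exact h6.symm
    have hle : (LinearMap.range ρ₁).comap (ρ₁ + ρ₂) ≤ LinearMap.ker ρ₂ := by
      intro x hx
      rw [LinearMap.mem_ker]
      by_cases hx' : (ρ₁ + ρ₂) x = 0
      · have h5 := hstep (x + x₀) (Submodule.add_mem _ hx hx₀) (by
          rw [map_add, hx', zero_add]
          exact hx₀')
        rw [map_add, hstep x₀ hx₀ hx₀', add_zero] at h5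
        exact h5
      · exact hstep x hx hx'
    have h5 := Submodule.finrank_mono hle
    change fr _ ≤ fr _ at h5
    have h6 := hF3 V R τ M h
    have hM2 : fr M = 2 := by omega
    apply hkill
    intro m hm
    apply hF m hm _ hρR
    intro b hb
    by_cases hm0 : m = 0
    · rw [hm0, map_zero]
      rfl
    have hnd : ∀ ρ ∈ R, LinearMap.ker ρ ⊓ M = ⊥ → (ρ m) ∘ₗ M.subtype ≠ 0 := by
      intro ρ hρ hi h0
      have h7 : ρ m = 0 := by
        apply hF m hm ρ hρ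
        intro a ha
        exact congrArg (fun f : D M => f ⟨a, ha⟩) h0
      have h8 : m ∈ LinearMap.ker ρ ⊓ M := ⟨h7, hm⟩
      rw [hi, Submodule.mem_bot] at h8
      exact hm0 h8
    have h7 := C2X.plane_eq hM2 (m := (⟨m, hm⟩ : M)) (by
      intro h8
      exact hm0 (congrArg Subtype.val h8)) (hnd ρ₁ hr₁ hi₁) (hnd ρ₂ hr₂ hi₂)
      (h.alt ρ₁ hr₁ m) (h.alt ρ₂ hr₂ m)
    have h8 : ρ₁ m b = ρ₂ m b := congrArg (fun f : D M => f ⟨b, hb⟩) h7
    rw [LinearMap.add_apply, LinearMap.add_apply, h8]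
    exact CharTwo.add_self_eq_zero _
  · push Not at hcase
    have hle : LinearMap.ker (ρ₁ + ρ₂) ≤ M := by
      intro u hu
      rw [LinearMap.mem_ker] at hu
      obtain ⟨a, ha, hau⟩ := ker_sup_lift hs u
      rw [LinearMap.add_apply, hu, zero_add, LinearMap.add_apply, hM a ha, add_zero] at hau
      have h5 : (ρ₁ + ρ₂) a = 0 := by
        apply hF a ha _ hρR
        intro b hb
        rw [← hau, h.alt.symm hκ, hM b hb]
        rfl
      rw [h5] at hau
      exact kill_ker (h.alt κ hκ) hM hv h1 h2 h3 h4 hκ0 hau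
    have hle2 : (LinearMap.range ρ₁).comap (ρ₁ + ρ₂) ≤ LinearMap.ker (ρ₁ + ρ₂) := hcase
    have h5 := Submodule.finrank_mono hle2
    change fr _ ≤ fr _ at h5
    have h6 : LinearMap.ker (ρ₁ + ρ₂) = M := by
      apply Submodule.eq_of_le_of_finrank_le hle
      change fr M ≤ fr (LinearMap.ker (ρ₁ + ρ₂))
      omega
    apply hkill
    intro m hm
    rw [← h6] at hm
    exact hm

end Pool.Agent.ESL
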