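import Pool.Agent.ESL.Stmts

/-! Module C2A: two colours give four colours. -/

set_option linter.unusedSectionVars false
set_option linter.unusedVariables false

namespace Pool.Agent.ESL.C2AX

open Pool.Agent.ESL

variable {X : Type} [AddCommGroup X] [Module (ZMod 2) X] [Finite X]

theorem four (h : fr X = 2) {x y : X} (hx : x ≠ 0) (hy : y ≠ 0) (hxy : x ≠ y) (u : X) :
    u = 0 ∨ u = x ∨ u = y ∨ u = x + y := by
  classical
  have : Fintype X := Fintype.ofFinite X
  have hcard : Fintype.card X = 4 := by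
    have h' : Module.finrank (ZMod 2) X = 2 := h
    rw [← Nat.card_eq_fintype_card, card_V (V := X), h']
    rfl
  have h1 : ({0, x, y, x + y} : Finset X).card = Fintype.card X := by
    rw [hcard]
    rw [Finset.card_insert_of_notMem, Finset.card_insert_of_notMem, Finset.card_insert_of_notMem,
      Finset.card_singleton]
    · rw [Finset.mem_singleton]
      intro h2
      apply hx
      have := congrArg (· + y) h2
      simpa [add_add_self', add_self'] using this.symm
    · rw [Finset.mem_insert, Finset.mem_singleton, not_or]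
      refine ⟨hxy, fun h2 => ?_⟩
      apply hy
      have := congrArg (x + ·) h2
      simpa [add_add_self, add_self'] using this.symm
    · rw [Finset.mem_insert, Finset.mem_insert, Finset.mem_singleton, not_or, not_or]
      refine ⟨Ne.symm hx, Ne.symm hy, fun h2 => ?_⟩
      exact hxy (eq_of_add h2.symm)
  have h2 := Finset.eq_univ_of_card _ h1
  have h3 : u ∈ ({0, x, y, x + y} : Finset X) := by rw [h2]; exact Finset.mem_univ u
  simpa using h3

theorem exists_third (h : fr X = 2) (x : X) : ∃ y : X, y ≠ 0 ∧ y ≠ x := by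
  classical
  have : Fintype X := Fintype.ofFinite X
  have hcard : Fintype.card X = 4 := by
    have h' : Module.finrank (ZMod 2) X = 2 := h
    rw [← Nat.card_eq_fintype_card, card_V (V := X), h']
    rfl
  by_contra hcon
  push Not at hcon
  have h1 : (Finset.univ : Finset X) ⊆ {0, x} := by
    intro y _
    rw [Finset.mem_insert, Finset.mem_singleton]
    by_cases hy : y = 0
    · exact Or.inl hy
    · exact Or.inr (hcon y hy)
  have h2 := Finset.card_le_card h1
  rw [Finset.card_univ, hcard] at h2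
  have h3 := Finset.card_le_two (a := (0 : X)) (b := x)
  omega

theorem alt_zero (h : fr X = 2) {κ : Fm X} (ha : ∀ x, κ x x = 0) {x y : X} (hx : x ≠ 0)
    (hy : y ≠ 0) (hxy : x ≠ y) (h0 : κ x y = 0) : κ = 0 := by
  have h0' : κ y x = 0 := by rw [symm_of_alt ha]; exact h0
  ext u v
  show κ u v = 0
  rcases four h hx hy hxy u with rfl | rfl | rfl | rfl <;>
  rcases four h hx hy hxy v with rfl | rfl | rfl | rfl <;>
  simp [ha, h0, h0']

/-- the abstract counting argument -/
theorem abstract (h : fr X = 2) (P : D X → X → ℕ) (ω : Fm X) (hω : ∀ x, ω x = 0 → x = 0)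
    (ha : ∀ θ x, P (θ + ω x) x = P θ x)
    (hb : ∀ θ x, x ≠ 0 → ((P θ x : ℤ) ^ 2 - P θ x) =
      ((P θ 0 : ℤ) ^ 2 - P θ 0) + ((P (θ + ω x) 0 : ℤ) ^ 2 - P (θ + ω x) 0))
    (hc : ∀ θ v v', v ≠ v' → (P θ v : ℤ) * P θ v' = P θ 0 * P θ (v + v'))
    (hd : ∀ θ x, 1 ≤ P θ 0 → 1 ≤ P θ x) (θ θ' : D X) (hne : θ ≠ θ') (h1 : 1 ≤ P θ 0)
    (h1' : 1 ≤ P θ' 0) (θ'' : D X) (x : X) : P θ'' x = 1 := by
  have e1 : ∀ θ, 1 ≤ P θ 0 → ∀ x, P θ x = P θ 0 := by
    intro θ hθ x
    by_cases hx : x = 0
    · rw [hx]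
    · obtain ⟨y, hy, hyx⟩ := exists_third h x
      have c1 := hc θ x y (Ne.symm hyx)
      have c2 := hc θ x (x + y) (by
        intro h2
        apply hy
        have := congrArg (x + ·) h2
        simpa [add_add_self, add_self'] using this.symm)
      rw [add_add_self] at c2
      have p1 := hd θ x hθ
      have p2 := hd θ y hθ
      have p3 := hd θ (x + y) hθ
      generalize P θ x = a at *
      generalize P θ y = b at *
      generalize P θ (x + y) = c at *
      generalize P θ 0 = p at *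
      have q1 : ((a : ℤ) * a - p * p) * (b * c) = 0 := by
        linear_combination (a : ℤ) * c * c1 + (p : ℤ) * c * c2
      have q2 : ((b : ℤ) * c) ≠ 0 := by positivity
      have q3 : (a : ℤ) * a = p * p := by
        have := (mul_eq_zero.1 q1).resolve_right q2
        linarith
      have q4 : a * a = p * p := by exact_mod_cast q3
      exact Nat.mul_self_inj.1 q4
  have e2 : ∀ θ, 1 ≤ P θ 0 → ∀ x, x ≠ 0 → 1 ≤ P (θ + ω x) 0 → P (θ + ω x) 0 = 1 := by
    intro θ hθ x hx h2
    have b1 := hb θ x hx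
    rw [e1 θ hθ x] at b1
    generalize P (θ + ω x) 0 = a at *
    have : (a : ℤ) * (a - 1) = 0 := by linear_combination -b1
    rcases mul_eq_zero.1 this with h3 | h3
    · have : a = 0 := by exact_mod_cast h3
      omega
    · have : (a : ℤ) = 1 := by linarith
      exact_mod_cast this
  have hinj : Function.Injective ω := by
    intro a b hab
    have h2 : ω (a + b) = 0 := by rw [map_add, hab]; exact add_self' (V := D X) _
    exact eq_of_add (hω _ h2)
  have hsurj : ∀ φ : D X, ∃ x, ω x = φ := by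
    have hfin : Nat.card X = Nat.card (D X) := by
      rw [card_V (V := X), card_V (V := D X), finrank_D]
    exact ((Function.Injective.bijective_of_nat_card_le hinj hfin.ge).2)
  have hθ' : ∀ θ θ' : D X, ∃ x, θ' = θ + ω x := by
    intro θ θ'
    obtain ⟨x, hx⟩ := hsurj (θ + θ')
    exact ⟨x, by rw [hx, add_add_self (V := D X)]⟩
  obtain ⟨i, hi⟩ := hθ' θ θ'
  have hi0 : i ≠ 0 := by
    rintro rfl
    rw [map_zero, add_zero] at hi
    exact hne hi.symm
  have hpθ' : P θ' 0 = 1 := by
    rw [hi]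
    exact e2 θ h1 i hi0 (by rw [← hi]; exact h1')
  have hθi : θ = θ' + ω i := by rw [hi, add_add_self' (V := D X)]
  have hpθ : P θ 0 = 1 := by
    rw [hθi]
    exact e2 θ' h1' i hi0 (by rw [← hθi]; exact h1)
  have hall : P θ'' 0 = 1 := by
    obtain ⟨j, hj⟩ := hθ' θ θ''
    by_cases hj0 : j = 0
    · rw [hj, hj0, map_zero, add_zero]; exact hpθ
    by_cases hji : j = i
    · rw [hj, hji, ← hi]; exact hpθ'
    have hk : θ'' = θ' + ω (i + j) := by
      rw [hj, hi, map_add, add_assoc, ← add_assoc (ω i), add_self' (V := D X), zero_add]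
    have a1 : P θ'' j = 1 := by rw [hj, ha, e1 θ h1, hpθ]
    have a2 : P θ'' (i + j) = 1 := by rw [hk, ha, e1 θ' h1', hpθ']
    have c1 := hc θ'' j (i + j) (by
      intro h2
      apply hi0
      have := congrArg (· + j) h2
      simpa [add_add_self', add_self'] using this.symm)
    rw [a1, a2] at c1
    have c2 : P θ'' 0 * P θ'' (j + (i + j)) = 1 := by
      have : ((P θ'' 0 * P θ'' (j + (i + j)) : ℕ) : ℤ) = 1 := by
        push_cast
        push_cast at c1
        linarith
      exact_mod_cast this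
    exact Nat.eq_one_of_mul_eq_one_right c2
  rw [e1 θ'' (by omega), hall]

end Pool.Agent.ESL.C2AX

namespace Pool.Agent.ESL

open C2AX

theorem c2a_proof (hPZ : Stmt_PZ) (hDIAG : Stmt_DIAG) (hPAIR : Stmt_PAIR) (hP3 : Stmt_P3)
    (hF1 : Stmt_F1) (hF4B : Stmt_F4B) : Stmt_C2A := by
  classical
  intro V _ _ _ R τ M hC hfull hdim α θ θ' hne h1 h1' θ'' x
  have hX : fr (V ⧸ M) = 2 := by
    have := Submodule.finrank_quotient_add_finrank M
    have h2 : fr (V ⧸ M) + fr M = fr V := this
    omega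
  have hDX : fr (D (V ⧸ M)) = 2 := by
    have := finrank_D (V := V ⧸ M)
    have h2 : fr (D (V ⧸ M)) = fr (V ⧸ M) := this
    omega
  -- the form
  have hτM : ∀ m ∈ M, τ m = 0 := (hC.star τ).1 (by rw [wdL_self]; exact R.zero_mem)
  obtain ⟨τ', hτ'⟩ := exists_comp hτM
  have hτ'0 : τ' ≠ 0 := by
    rintro rfl
    apply hC.τ0
    rw [← hτ']
    rfl
  obtain ⟨ψ', hψ0, hψτ⟩ := exists_third hDX τ'
  let ω : Fm (V ⧸ M) := wdL τ' ψ'
  have hωR : ω ∈ R0 R M := by
    rw [mem_R0]
    have h2 : pull M.mkQ ω = wdL τ (ψ' ∘ₗ M.mkQ) := by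
      rw [← hτ']
      ext a b
      rfl
    rw [h2, hC.star]
    intro m hm
    show ψ' (M.mkQ m) = 0
    have : M.mkQ m = 0 := (Submodule.Quotient.mk_eq_zero M).2 hm
    rw [this, map_zero]
  have hωalt : ∀ a, ω a a = 0 := wdL_alt τ' ψ'
  have hall : ∀ f : D (V ⧸ M), f = 0 ∨ f = τ' ∨ f = ψ' ∨ f = τ' + ψ' :=
    four hDX hτ'0 hψ0 (Ne.symm hψτ)
  have hωinj : ∀ a, ω a = 0 → a = 0 := by
    intro a ha
    have h2 : τ' a = 0 ∧ ψ' a = 0 := by
      have h3 : τ' a • ψ' + ψ' a • τ' = 0 := ha
      rcases zm (τ' a) with h4 | h4 <;> rcases zm (ψ' a) with h5 | h5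
      · exact ⟨h4, h5⟩
      · exfalso
        rw [h4, h5, zero_smul, one_smul, zero_add] at h3
        exact hτ'0 h3
      · exfalso
        rw [h4, h5, zero_smul, one_smul, add_zero] at h3
        exact hψ0 h3
      · exfalso
        rw [h4, h5, one_smul, one_smul] at h3
        exact hψτ (eq_of_add (V := D (V ⧸ M)) h3)
    by_contra ha0
    obtain ⟨f, hf⟩ := exists_dual ha0
    rcases hall f with rfl | rfl | rfl | rfl
    · exact zero_ne_one hf
    · rw [h2.1] at hf; exact zero_ne_one hf
    · rw [h2.2] at hf; exact zero_ne_one hf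
    · rw [LinearMap.add_apply, h2.1, h2.2, add_zero] at hf; exact zero_ne_one hf
  have hR0alt : IsAlt (R0 R M) := by
    intro κ hκ a
    obtain ⟨a, rfl⟩ := M.mkQ_surjective a
    exact hC.alt _ (mem_R0.1 hκ) a
  have hR0 : ∀ κ ∈ R0 R M, κ = 0 ∨ κ = ω := by
    intro κ hκ
    obtain ⟨a, ha, -⟩ := exists_third hX 0
    obtain ⟨b, hb, hba⟩ := exists_third hX a
    have h2 : ω a b = 1 := by
      apply zm_ne
      intro h3
      have h4 := alt_zero hX hωalt ha hb (Ne.symm hba) h3
      apply ha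
      apply hωinj
      rw [h4]; rfl
    rcases zm (κ a b) with h3 | h3
    · left
      exact alt_zero hX (hR0alt κ hκ) ha hb (Ne.symm hba) h3
    · right
      have h4 : κ + ω = 0 := by
        apply alt_zero hX _ ha hb (Ne.symm hba)
        · show κ a b + ω a b = 0
          rw [h3, h2, CharTwo.add_self_eq_zero]
        · intro c
          show κ c c + ω c c = 0
          rw [hR0alt κ hκ c, hωalt c, add_zero]
      exact eq_of_add (V := Fm (V ⧸ M)) h4
  have hLx : ∀ a ψ, ψ ∈ Lx (R0 R M) a ↔ ψ = 0 ∨ ψ = ω a := by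
    intro a ψ
    rw [mem_Lx]
    constructor
    · rintro ⟨κ, hκ, rfl⟩
      rcases hR0 κ hκ with rfl | rfl
      · left; rfl
      · right; rfl
    · rintro (rfl | rfl)
      · exact ⟨0, Submodule.zero_mem _, rfl⟩
      · exact ⟨ω, hωR, rfl⟩
  have hspl : ∀ w, w ∉ M → Spl R M w := by
    intro w hw
    refine ⟨rad (fx R w), hF4B V R τ M hC hfull hdim w hw, ?_⟩
    intro k hk hkw
    refine ⟨0, R.zero_mem, fun m _ => rfl, rfl, ?_⟩
    intro c hc
    rw [mem_rad.1 hc k ⟨hk, hkw⟩]
    rfl
  refine abstract hX (PP R M α) ω hωinj ?_ ?_ ?_ ?_ θ θ' hne h1 h1' θ'' x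
  · intro θ a
    exact hPZ V R M α ω hωR θ a
  · intro θ a ha
    rw [hDIAG V R M α hC.alt hC.sl.linked (hF1 V R τ M hC) θ a]
    unfold sOn
    have h2 : (Set.toFinite {θ' | θ' + θ ∈ Lx (R0 R M) a}).toFinset = {θ, θ + ω a} := by
      ext ψ
      rw [Set.Finite.mem_toFinset, Finset.mem_insert, Finset.mem_singleton]
      show ψ + θ ∈ Lx (R0 R M) a ↔ _
      rw [hLx]
      constructor
      · rintro (h3 | h3)
        · left; exact eq_of_add (V := D (V ⧸ M)) h3
        · right
          rw [← h3, add_comm ψ θ, add_add_self (V := D (V ⧸ M))]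
      · rintro (rfl | rfl)
        · left; exact add_self' (V := D (V ⧸ M)) _
        · right
          rw [add_comm θ, add_add_self' (V := D (V ⧸ M))]
    rw [h2, Finset.sum_pair]
    intro h3
    apply ha
    apply hωinj
    have := congrArg (θ + ·) h3
    simpa [add_add_self (V := D (V ⧸ M)), add_self' (V := D (V ⧸ M))] using this.symm
  · intro θ v v' hvv
    have hne0 : v + v' ≠ 0 := fun h2 => hvv (eq_of_add h2)
    rw [hPAIR V R M α hC.alt hC.sl.linked v v' hvv ?_ θ]
    · unfold sOn
      have h2 : (Set.toFinite {θ' | θ' + θ ∈ Lx (fx (R0 R M) (v + v')) v}).toFinset = {θ} := by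
        ext ψ
        rw [Set.Finite.mem_toFinset, Finset.mem_singleton]
        show ψ + θ ∈ Lx (fx (R0 R M) (v + v')) v ↔ _
        rw [mem_Lx]
        constructor
        · rintro ⟨κ, ⟨hκ, hκv⟩, hκ2⟩
          rcases hR0 κ hκ with rfl | rfl
          · exact eq_of_add (V := D (V ⧸ M)) hκ2.symm
          · exact absurd (hωinj _ hκv) hne0
        · rintro rfl
          exact ⟨0, Submodule.zero_mem _, (add_self' (V := D (V ⧸ M)) _).symm⟩
      rw [h2, Finset.sum_singleton]
    · intro w hw
      apply hspl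
      intro hwM
      apply hne0
      rw [← hw]
      exact (Submodule.Quotient.mk_eq_zero M).2 hwM
  · intro θ a hθ
    by_cases ha : a = 0
    · rw [ha]; exact hθ
    apply hP3 V R M α hC.alt hfull a _ θ hθ
    intro ψ hψ
    rw [hLx]
    have hωa : ω a ≠ 0 := fun h2 => ha (hωinj a h2)
    obtain ⟨g, hg0, hga⟩ := exists_third hDX (ω a)
    have hg1 : g a = 1 := by
      apply zm_ne
      intro h3
      obtain ⟨f, hf⟩ := exists_dual ha
      rcases four hDX hωa hg0 (Ne.symm hga) f with rfl | rfl | rfl | rfl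
      · exact zero_ne_one hf
      · rw [hωalt] at hf; exact zero_ne_one hf
      · rw [h3] at hf; exact zero_ne_one hf
      · rw [LinearMap.add_apply, hωalt, h3, add_zero] at hf; exact zero_ne_one hf
    rcases four hDX hωa hg0 (Ne.symm hga) ψ with rfl | rfl | rfl | rfl
    · exact Or.inl rfl
    · exact Or.inr rfl
    · rw [hg1] at hψ; exact absurd hψ one_ne_zero
    · rw [LinearMap.add_apply, hωalt, hg1, zero_add] at hψ; exact absurd hψ one_ne_zero

end Pool.Agent.ESL
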