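import Pool.Agent.ESL.C2Aux

set_option autoImplicit false

namespace Pool.Agent.ESL

open C2AuxX

theorem c2b_proof (hN : Stmt_NDM) (hP : Stmt_PHI) : Stmt_C2B := by
  intro V _ _ _ R τ M h hF hd α hone
  obtain ⟨ψ, e₁, e₂, hw, hτ, hψ, h1, h2, h3, h4, hv⟩ := basis2 h hd
  obtain ⟨θ, hθ⟩ := exists_comp (M := M) (ψ := τ) hτ
  obtain ⟨m₁, hm₁, k₁, hk₁, hkm₁⟩ := pp_exists (hone 0 0).ge
  obtain ⟨m₂, hm₂, k₂, hk₂, hkm₂⟩ := pp_exists (hone θ 0).ge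
  rw [mkQ_zero] at hm₁ hm₂
  obtain ⟨κ₁, hκ₁, hM₁, hs₁⟩ := hP V R τ M h hF hd k₁ hk₁
  obtain ⟨κ₂, hκ₂, hM₂, hs₂⟩ := hP V R τ M h hF hd k₂ hk₂
  set ρ₁ := k₁ + κ₁ with hρ₁
  set ρ₂ := k₂ + κ₂ with hρ₂
  have hr₁ : ρ₁ ∈ R := R.add_mem hk₁ hκ₁
  have hr₂ : ρ₂ ∈ R := R.add_mem hk₂ hκ₂
  have e₁' : ρ₁ m₁ = α + (0 : D (V ⧸ M)) ∘ₗ M.mkQ := by
    rw [hρ₁, LinearMap.add_apply, hM₁ _ hm₁, add_zero, hkm₁]
  have e₂' : ρ₂ m₂ = α + θ ∘ₗ M.mkQ := by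
    rw [hρ₂, LinearMap.add_apply, hM₂ _ hm₂, add_zero, hkm₂]
  obtain ⟨κ, hκ, hM, hs⟩ := hP V R τ M h hF hd (ρ₁ + ρ₂) (R.add_mem hr₁ hr₂)
  refine ⟨ρ₁, hr₁, ρ₂, hr₂, κ, hκ, hs₁, hs₂, ?_, ?_, hM, ?_, hs⟩
  · rw [eq_bot_iff]
    rintro b ⟨hb1, hb2⟩
    rw [Submodule.mem_bot]
    refine hN V R M α h.alt hF hone ρ₁ hr₁ m₁ hm₁ 0 e₁' b hb2 fun c _ => ?_
    rw [LinearMap.mem_ker.1 hb1]
    rfl
  · rw [eq_bot_iff]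
    rintro b ⟨hb1, hb2⟩
    rw [Submodule.mem_bot]
    refine hN V R M α h.alt hF hone ρ₂ hr₂ m₂ hm₂ θ e₂' b hb2 fun c _ => ?_
    rw [LinearMap.mem_ker.1 hb1]
    rfl
  · intro h0
    rw [h0, add_zero] at hs
    obtain ⟨c₁, hc₁, hc₁'⟩ := ker_sup_lift' hs₁ (M.mkQ e₂)
    obtain ⟨c₂, hc₂, hc₂'⟩ := ker_sup_lift' hs₂ (M.mkQ e₂)
    have x1 : M.mkQ (m₁ + c₁) = M.mkQ e₂ := by rw [map_add, mkQ_zero.2 hm₁, zero_add, hc₁]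
    have x2 : M.mkQ (m₂ + c₂) = M.mkQ e₂ := by rw [map_add, mkQ_zero.2 hm₂, zero_add, hc₂]
    have z1 : ρ₁ (m₁ + c₁) = α := by
      rw [map_add, hc₁', add_zero, e₁', LinearMap.zero_comp, add_zero]
    have z2 : ρ₂ (m₂ + c₂) = α + θ ∘ₗ M.mkQ := by rw [map_add, hc₂', add_zero, e₂']
    have w1 : wdL τ ψ (m₁ + c₁) = τ := by
      have hM' : m₁ + c₁ + e₂ ∈ M := by
        rw [← mkQ_zero, map_add, x1]
        exact add_self' _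
      have t1 : τ (m₁ + c₁) = 0 := by
        have := hτ _ hM'
        rw [map_add, h3, add_zero] at this
        exact this
      have t2 : ψ (m₁ + c₁) = 1 := by
        have := hψ _ hM'
        rw [map_add, h4] at this
        exact CharTwo.add_eq_zero.1 this
      rw [wdL_apply, t1, t2, zero_smul, one_smul, zero_add]
    have heq : m₁ + c₁ = m₂ + c₂ := by
      refine pp_unique (hone θ (M.mkQ e₂)) x1 x2 ⟨ρ₁ + wdL τ ψ, R.add_mem hr₁ hw, ?_⟩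
        ⟨ρ₂, hr₂, z2⟩
      rw [LinearMap.add_apply, z1, w1, hθ]
    obtain ⟨a, ha, haz⟩ := ker_sup_lift hs (m₁ + c₁)
    have hz : (ρ₁ + ρ₂) (m₁ + c₁) = τ := by
      rw [LinearMap.add_apply, z1, heq, z2, hθ, add_add_self]
    have h5 := hF a ha (ρ₁ + ρ₂) (R.add_mem hr₁ hr₂) (by
      intro b hb
      rw [← haz, hz, hτ b hb])
    rw [← haz, hz] at h5
    exact h.τ0 h5

end Pool.Agent.ESL
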