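import Pool.Agent.ESL.C2Aux

set_option autoImplicit false

namespace Pool.Agent.ESL

open C2AuxX

namespace C2CX

variable {V : Type} [AddCommGroup V] [Module (ZMod 2) V]

theorem fr_ker [Finite V] {M K : Submodule (ZMod 2) V} (h1 : K ⊔ M = ⊤) (h2 : K ⊓ M = ⊥) :
    fr K + fr M = fr V := by
  have h3 := Submodule.finrank_sup_add_finrank_inf_eq K M
  rw [h1, h2, finrank_top, finrank_bot, add_zero] at h3
  exact h3.symm

theorem mem_span_one {k b : Fm V} (h : k ∈ Submodule.span (ZMod 2) {b}) : k = 0 ∨ k = b := by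
  obtain ⟨c, rfl⟩ := Submodule.mem_span_singleton.1 h
  rcases zm c with rfl | rfl
  · left; rw [zero_smul]
  · right; rw [one_smul]

end C2CX

theorem c2c_proof (hII : Stmt_C2II) (hF4 : Stmt_F4B) (hP : Stmt_PHI) (hX : Stmt_X) :
    Stmt_C2C := by
  intro V _ _ _ R τ M h hF hd ρ₁ hr₁ ρ₂ hr₂ κ hκ hs₁ hs₂ hi₁ hi₂ hM hκ0 hs w hw hw0
  have hwM : w ∉ M := by
    intro hwM
    have : w ∈ LinearMap.ker ρ₁ ⊓ M := ⟨hw, hwM⟩
    rw [hi₁, Submodule.mem_bot] at this
    exact hw0 this
  have h4 := hF4 V R τ M h hF hd w hwM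
  have hk2 : fr (LinearMap.ker ρ₁) = 2 := by
    have := C2CX.fr_ker hs₁ hi₁
    omega
  have hrad : rad (fx R w) = LinearMap.ker ρ₁ := by
    apply Submodule.eq_of_le_of_finrank_le
    · intro x hx
      exact hx ρ₁ ⟨hr₁, hw⟩
    · have h5 := Submodule.finrank_sup_add_finrank_inf_eq (rad (fx R w)) M
      rw [h4, finrank_top] at h5
      change fr V + _ = fr (rad (fx R w)) + fr M at h5
      change fr (LinearMap.ker ρ₁) ≤ fr (rad (fx R w))
      omega
  obtain ⟨A, ⟨hA0, hAi⟩, hAs⟩ := (hII V R τ M h hd).at' w hw0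
  have hAR : ∀ b ∈ A, b ∈ fx R w := by
    intro b hb
    rw [← hAs]
    exact Submodule.subset_span hb
  have hAk : ∀ b ∈ A, LinearMap.ker ρ₁ ≤ LinearMap.ker b := by
    intro b hb x hx
    rw [← hrad] at hx
    exact hx b (hAR b hb)
  have hρ0 : ρ₁ ≠ 0 := by
    intro h0
    rw [h0, LinearMap.ker_zero, top_inf_eq] at hi₁
    exact h.ne hi₁
  have hρs : ρ₁ ∈ fx R w := ⟨hr₁, hw⟩
  by_cases hcase : ∃ b ∈ A, LinearMap.ker b ⊓ M = ⊥
  · obtain ⟨b, hb, hbM⟩ := hcase
    have hbs : LinearMap.ker b ⊔ M = ⊤ := by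
      rw [eq_top_iff, ← hs₁]
      exact sup_le_sup_right (hAk b hb) M
    have hb2 : fr (LinearMap.ker b) = 2 := by
      have := C2CX.fr_ker hbs hbM
      omega
    have hkeq : LinearMap.ker ρ₁ = LinearMap.ker b := by
      apply Submodule.eq_of_le_of_finrank_le (hAk b hb)
      change fr (LinearMap.ker b) ≤ fr (LinearMap.ker ρ₁)
      omega
    have hAb : ∀ b' ∈ A, b' = b := by
      intro b' hb'
      by_contra hne
      have h6 : LinearMap.range b' ≤ LinearMap.range b := by
        rw [range_le_iff (h.alt b' (fx_le R w (hAR b' hb'))) (h.alt b (fx_le R w (hAR b hb))),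
          ← hkeq]
        exact hAk b' hb'
      have h7 : Disjoint (LinearMap.range b') (LinearMap.range b) := by
        have h8 := hAi.pairwiseDisjoint (show (⟨b', hb'⟩ : A) ≠ ⟨b, hb⟩ by
          intro h9
          exact hne (congrArg Subtype.val h9))
        exact h8
      have h8 : LinearMap.range b' = ⊥ := by
        rw [eq_bot_iff]
        exact h7 le_rfl h6
      exact hA0 b' hb' (LinearMap.range_eq_bot.1 h8)
    have hAe : (A : Set (Fm V)) = {b} := by
      ext b'
      constructor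
      · intro hb'
        exact hAb b' hb'
      · rintro rfl
        exact hb
    rw [← hAs, hAe]
    rw [← hAs, hAe] at hρs
    rcases C2CX.mem_span_one hρs with h9 | h9
    · exact absurd h9 hρ0
    · rw [h9]
  · push Not at hcase
    exfalso
    have hstep : ∀ ρ ∈ Submodule.span (ZMod 2) (A : Set (Fm V)), ρ ∈ R ∧ ∀ σ ∈ R,
        LinearMap.ker σ ⊔ M = ⊤ → LinearMap.ker (σ + ρ) ⊔ M = ⊤ := by
      intro ρ hρ
      induction hρ using Submodule.span_induction with
      | mem b hb =>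
        refine ⟨fx_le R w (hAR b hb), fun σ hσ hσs => ?_⟩
        have hbR : b ∈ R := fx_le R w (hAR b hb)
        obtain ⟨κ', hκ', hM', hs'⟩ := hP V R τ M h hF hd (σ + b) (R.add_mem hσ hbR)
        by_cases h0 : κ' = 0
        · rw [h0, add_zero] at hs'
          exact hs'
        · exfalso
          have hbs : LinearMap.ker b ⊔ M = ⊤ := by
            rw [eq_top_iff, ← hs₁]
            exact sup_le_sup_right (hAk b hb) M
          exact hcase b hb (hX V R τ M h hF hd σ hσ b hbR κ' hκ' hσs hbs hM' h0 hs').2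
      | zero => exact ⟨R.zero_mem, fun σ _ hσ => by rwa [add_zero]⟩
      | add x y _ _ hx hy =>
        refine ⟨R.add_mem hx.1 hy.1, fun σ hσ hσs => ?_⟩
        rw [← add_assoc]
        exact hy.2 (σ + x) (R.add_mem hσ hx.1) (hx.2 σ hσ hσs)
      | smul c x _ hx =>
        rcases zm c with rfl | rfl
        · rw [zero_smul]
          exact ⟨R.zero_mem, fun σ _ hσ => by rwa [add_zero]⟩
        · rw [one_smul]
          exact hx
    have h5 := (hstep ρ₁ (by rw [hAs]; exact hρs)).2 ρ₂ hr₂ hs₂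
    rw [add_comm] at h5
    exact hκ0 (uniq h.alt hF (R.add_mem hr₁ hr₂) hκ hM h5 hs)

end Pool.Agent.ESL
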