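import Pool.Agent.ESL.C2Aux

set_option autoImplicit false

namespace Pool.Agent.ESL

open C2AuxX

theorem c2ii_proof (hA : Stmt_ATB) : Stmt_C2II := by
  intro V _ _ _ R τ M h hd
  refine ⟨h.alt, h.sl, h.nd, fun w hw => ?_⟩
  apply hA V (fx R w) (h.et w hw)
  intro σ hσ
  have h1 := h.max σ hσ
  have h2 : Star (fx R w) σ ≤ Star R σ := fun ψ hψ => fx_le R w hψ
  have h3 := Submodule.finrank_mono h2
  change fr (Star (fx R w) σ) ≤ fr (Star R σ) at h3
  omega

end Pool.Agent.ESL
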