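import Pool.Agent.ESL.Stmts

/-!
Module C3: one colour for `d ≥ 3`.
-/

set_option linter.unusedVariables false
set_option linter.unusedSectionVars false

namespace Pool.Agent.ESL

namespace C3X

variable {X : Type} [AddCommGroup X] [Module (ZMod 2) X] [Finite X]

open Classical in
theorem sOn_eq_sum [Fintype (D X)] (S : Set (D X)) (f : D X → ℤ) :
    sOn S f = ∑ θ : D X, if θ ∈ S then f θ else 0 := by
  unfold sOn
  rw [← Finset.sum_filter]
  apply Finset.sum_congr _ (fun _ _ => rfl)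
  ext θ
  simp
  rfl

theorem sOn_congr {S S' : Set (D X)} (h : S = S') (f : D X → ℤ) : sOn S f = sOn S' f := by
  subst h; rfl

theorem sOn_translate (L : Submodule (ZMod 2) (D X)) (θ s : D X) (f : D X → ℤ) :
    sOn {θ' | θ' + (θ + s) ∈ L} f = sOn {θ' | θ' + θ ∈ L} (fun θ' => f (θ' + s)) := by
  classical
  haveI := Fintype.ofFinite (D X)
  rw [sOn_eq_sum, sOn_eq_sum, ← Equiv.sum_comp (Equiv.addRight s)]
  apply Finset.sum_congr rfl
  intro θ' _
  have e : θ' + s + (θ + s) = θ' + θ := by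
    calc θ' + s + (θ + s) = θ' + θ + (s + s) := by abel
      _ = θ' + θ := by rw [ZModModule.add_self, add_zero]
  simp only [Equiv.coe_addRight, Set.mem_setOf_eq, e]

theorem ctx_translate {R : FS X} {τ : D X} {P : D X → X → ℕ} (h : CtxC R τ P) (s : D X) :
    CtxC R τ (fun θ x => P (θ + s) x) where
  alt := h.alt
  τ0 := h.τ0
  star := h.star
  zero := by
    intro κ hκ θ x
    have := h.zero κ hκ (θ + s) x
    rw [← this]
    show P (θ + κ x + s) x = P (θ + s + κ x) x
    rw [add_right_comm]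
  diag := by
    intro θ x
    have := h.diag (θ + s) x
    rw [sOn_translate] at this
    exact this
  pair := by
    intro θ v v' hv hτ
    have := h.pair (θ + s) v v' hv hτ
    rw [sOn_translate] at this
    exact this
  pairY := by
    intro hyp θ v v' hτ
    have := h.pairY hyp (θ + s) v v' hτ
    rw [sOn_translate] at this
    exact this
  pos := fun θ y hy h1 => h.pos (θ + s) y hy h1

theorem exists_chi {τ : D X} {y y' : X} (hne : y ≠ y') (hy : τ y = 1) (hy' : τ y' = 1) :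
    ∃ χ : D X, χ y = 0 ∧ χ y' = 1 := by
  obtain ⟨f, hf, hf1⟩ := exists_sep (W := Submodule.span (ZMod 2) {y}) (x := y') (by
    intro hm
    obtain ⟨c, hc⟩ := Submodule.mem_span_singleton.1 hm
    rcases zm c with rfl | rfl
    · rw [zero_smul] at hc
      rw [← hc, map_zero] at hy'
      exact zero_ne_one hy'
    · rw [one_smul] at hc
      exact hne hc)
  exact ⟨f, hf y (Submodule.mem_span_singleton_self y), hf1⟩

/-- the four classes -/
theorem four_classes (y y' : X) (F : D X → ℤ) :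
    sOn Set.univ F = sOn {θ' | θ' y = 0 ∧ θ' y' = 0} F + sOn {θ' | θ' y = 1 ∧ θ' y' = 1} F +
      sOn {θ' | θ' y = 0 ∧ θ' y' = 1} F + sOn {θ' | θ' y = 1 ∧ θ' y' = 0} F := by
  classical
  haveI := Fintype.ofFinite (D X)
  simp only [sOn_eq_sum]
  rw [← Finset.sum_add_distrib, ← Finset.sum_add_distrib, ← Finset.sum_add_distrib]
  apply Finset.sum_congr rfl
  intro θ _
  rcases zm (θ y) with h1 | h1 <;> rcases zm (θ y') with h2 | h2 <;> simp [h1, h2]

theorem four_classes' (y y' : X) (F : D X → ℤ) :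
    sOn Set.univ (fun θ => sg (θ (y + y')) * F θ) = sOn {θ' | θ' y = 0 ∧ θ' y' = 0} F +
      sOn {θ' | θ' y = 1 ∧ θ' y' = 1} F -
      sOn {θ' | θ' y = 0 ∧ θ' y' = 1} F - sOn {θ' | θ' y = 1 ∧ θ' y' = 0} F := by
  classical
  haveI := Fintype.ofFinite (D X)
  simp only [sOn_eq_sum]
  rw [← Finset.sum_add_distrib, ← Finset.sum_sub_distrib, ← Finset.sum_sub_distrib]
  apply Finset.sum_congr rfl
  intro θ _
  rcases zm (θ y) with h1 | h1 <;> rcases zm (θ y') with h2 | h2 <;>
    simp [h1, h2, sg, CharTwo.add_self_eq_zero]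

theorem two_classes (y : X) (F : D X → ℤ) :
    sOn Set.univ F = sOn {θ' | θ' y = 0} F + sOn {θ' | θ' y = 1} F := by
  classical
  haveI := Fintype.ofFinite (D X)
  simp only [sOn_eq_sum]
  rw [← Finset.sum_add_distrib]
  apply Finset.sum_congr rfl
  intro θ _
  rcases zm (θ y) with h1 | h1 <;> simp [h1]

end C3X

open C3X in
theorem c3_proof (hC3Y : Stmt_C3Y) (hCONST : Stmt_CONST) (hSIGN : Stmt_SIGN) (hC3D : Stmt_C3D)
    (hC3E : Stmt_C3E) : Stmt_C3 := by
  intro X _ _ _ R τ P h h3 θ θ' h1 h1'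
  obtain ⟨a1, a2, a3⟩ := hC3Y X R τ P h
  -- values on `Y`
  have v0 : ∀ y, τ y = 1 → ∀ χ : D X, χ y = 0 → P χ y = P 0 y := by
    intro y hy χ hχ
    have := a1 y hy 0 χ hχ
    rwa [zero_add] at this
  have v1 : ∀ y, τ y = 1 → ∀ χ : D X, χ y = 1 → P χ y = P τ y := by
    intro y hy χ hχ
    have := a1 y hy τ (χ + τ) (by rw [LinearMap.add_apply, hχ, hy, CharTwo.add_self_eq_zero])
    have e : τ + (χ + τ) = χ := by
      rw [add_comm χ τ, add_add_self]
    rwa [e] at this
  have prods : ∀ y y', y ≠ y' → τ y = 1 → τ y' = 1 → ∀ F : D X → ℤ,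
      (∀ θ', F θ' = (P θ' 0 : ℤ) * P θ' (y + y')) →
      (P 0 y : ℤ) * P 0 y' = sOn {θ' | θ' y = 0 ∧ θ' y' = 0} F ∧
      (P τ y : ℤ) * P τ y' = sOn {θ' | θ' y = 1 ∧ θ' y' = 1} F ∧
      (P 0 y : ℤ) * P τ y' = sOn {θ' | θ' y = 0 ∧ θ' y' = 1} F ∧
      (P τ y : ℤ) * P 0 y' = sOn {θ' | θ' y = 1 ∧ θ' y' = 0} F := by
    intro y y' hne hy hy' F hF
    obtain ⟨χ, hχ, hχ'⟩ := exists_chi hne hy hy'
    have hFF : F = fun θ' => (P θ' 0 : ℤ) * P θ' (y + y') := funext hF
    rw [hFF]
    have b0 := a3 y y' hne hy hy' 0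
    have b1 := a3 y y' hne hy hy' τ
    have b2 := a3 y y' hne hy hy' χ
    have b3 := a3 y y' hne hy hy' (χ + τ)
    have w2 : (χ + τ) y = 1 := by rw [LinearMap.add_apply, hχ, hy, zero_add]
    have w3 : (χ + τ) y' = 0 := by
      rw [LinearMap.add_apply, hχ', hy', CharTwo.add_self_eq_zero]
    simp only [hy, hy', LinearMap.zero_apply] at b0 b1
    rw [v0 y hy χ hχ, v1 y' hy' χ hχ'] at b2
    simp only [hχ, hχ'] at b2
    rw [v1 y hy _ w2, v0 y' hy' _ w3] at b3
    simp only [w2, w3] at b3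
    exact ⟨b0, b1, b2, b3⟩
  obtain ⟨y₀, hy₀⟩ : ∃ y, τ y = 1 := by
    by_contra hc
    push Not at hc
    apply h.τ0
    ext y
    exact zm_ne' (hc y)
  -- `p` is constant
  obtain ⟨p, hp⟩ := hCONST X τ (fun y => (P 0 y : ℤ) + P τ y)
    (fun u => sOn Set.univ (fun θ' => (P θ' 0 : ℤ) * P θ' u)) h3 h.τ0 (by
      intro y hy
      have hpos := h.pos θ y hy h1
      rcases zm (θ y) with e | e
      · rw [v0 y hy θ e] at hpos
        have : (1 : ℤ) ≤ P 0 y := by exact_mod_cast hpos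
        have h0 : (0 : ℤ) ≤ P τ y := Int.natCast_nonneg _
        linarith
      · rw [v1 y hy θ e] at hpos
        have : (1 : ℤ) ≤ P τ y := by exact_mod_cast hpos
        have h0 : (0 : ℤ) ≤ P 0 y := Int.natCast_nonneg _
        linarith) (by
      intro y y' hne hy hy'
      obtain ⟨b0, b1, b2, b3⟩ := prods y y' hne hy hy' _ (fun _ => rfl)
      show ((P 0 y : ℤ) + P τ y) * ((P 0 y' : ℤ) + P τ y') = sOn Set.univ _
      rw [four_classes y y', ← b0, ← b1, ← b2, ← b3]
      ring)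
  -- `D ^ 2` is constant
  have hDsq : ∀ y, τ y = 1 → ((P 0 y : ℤ) - P τ y) ^ 2 =
      2 * (sOn Set.univ (fun θ' => (P θ' 0 : ℤ) ^ 2 - P θ' 0) + p) - p ^ 2 := by
    intro y hy
    have c0 := a2 y hy 0
    have c1 := a2 y hy τ
    simp only [hy, LinearMap.zero_apply] at c0 c1
    rw [two_classes y, ← c0, ← c1]
    have := hp y hy
    rw [← this]
    ring
  by_cases hD0 : (P 0 y₀ : ℤ) - P τ y₀ = 0
  · -- `D = 0`
    exfalso
    have hD : ∀ y, τ y = 1 → P 0 y = P τ y := by
      intro y hy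
      have e := (hDsq y hy).trans (hDsq y₀ hy₀).symm
      rw [hD0] at e
      have e2 : (P 0 y : ℤ) - P τ y = 0 := by
        have : ((P 0 y : ℤ) - P τ y) ^ 2 = 0 := by rw [e]; ring
        exact pow_eq_zero_iff (two_ne_zero) |>.1 this
      have e3 : (P 0 y : ℤ) = P τ y := by linarith
      exact_mod_cast e3
    have hconst : ∀ y, τ y = 1 → P 0 y = P 0 y₀ := by
      intro y hy
      have e1 := hp y hy
      have e2 := hp y₀ hy₀
      simp only [← hD y hy, ← hD y₀ hy₀] at e1 e2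
      have : (P 0 y : ℤ) = P 0 y₀ := by linarith
      exact_mod_cast this
    have hc1 : 1 ≤ P 0 y₀ := by
      have hpos := h.pos θ y₀ hy₀ h1
      rcases zm (θ y₀) with e | e
      · rwa [v0 y₀ hy₀ θ e] at hpos
      · rwa [v1 y₀ hy₀ θ e, ← hD y₀ hy₀] at hpos
    exact hC3E X R τ P h h3 (P 0 y₀) hc1 (fun y hy => ⟨hconst y hy, by
      rw [← hD y hy]; exact hconst y hy⟩) ⟨θ, h1⟩
  · -- `D ≠ 0`
    obtain ⟨s, hs⟩ := hSIGN X τ (fun y => (P 0 y : ℤ) - P τ y)
      (fun u => sOn Set.univ (fun θ' => sg (θ' u) * ((P θ' 0 : ℤ) * P θ' u)))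
      |(P 0 y₀ : ℤ) - P τ y₀| h.τ0 (abs_pos.2 hD0) (by
        intro y hy
        show ((P 0 y : ℤ) - P τ y) ^ 2 = _
        rw [sq_abs, hDsq y hy, hDsq y₀ hy₀]) (by
        intro y y' hne hy hy'
        obtain ⟨b0, b1, b2, b3⟩ := prods y y' hne hy hy' _ (fun _ => rfl)
        show ((P 0 y : ℤ) - P τ y) * ((P 0 y' : ℤ) - P τ y') = sOn Set.univ _
        rw [four_classes' y y', ← b0, ← b1, ← b2, ← b3]
        ring)
    have hfin := hC3D X R τ (fun θ x => P (θ + s) x) (ctx_translate h s) h3 p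
      |(P 0 y₀ : ℤ) - P τ y₀| (abs_pos.2 hD0) (by
        intro y hy
        have e1 := hp y hy
        have e2 := hs y hy
        show (P (0 + s) y : ℤ) + P (τ + s) y = p ∧ (P (0 + s) y : ℤ) - P (τ + s) y = _
        rw [zero_add]
        rcases zm (s y) with e | e
        · rw [v0 y hy s e, v1 y hy (τ + s) (by rw [LinearMap.add_apply, hy, e, add_zero])]
          rw [e] at e2
          simp only [sg, if_true, mul_one] at e2
          exact ⟨e1, e2⟩
        · rw [v1 y hy s e, v0 y hy (τ + s) (by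
            rw [LinearMap.add_apply, hy, e, CharTwo.add_self_eq_zero])]
          rw [e] at e2
          simp only [sg, one_ne_zero, if_false] at e2
          constructor
          · linarith
          · linarith)
    have key : ∀ χ : D X, 1 ≤ P χ 0 → χ = s := by
      intro χ hχ
      have := hfin (χ + s) (by
        show 1 ≤ P (χ + s + s) 0
        rwa [add_assoc, ZModModule.add_self, add_zero])
      exact eq_of_add this
    rw [key θ h1, key θ' h1']

end Pool.Agent.ESL
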