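import Pool.Agent.ESL.C3D

/-!
The counting argument (C3), case `D = 0`.
-/

namespace Pool.Agent.ESL

namespace C3EX

open C3DX

variable {X : Type} [AddCommGroup X] [Module (ZMod 2) X] [Finite X]
variable {R : FS X} {τ : D X} {P : D X → X → ℕ}

/-- `κ + τ ∧ (κ y)` kills `y` -/
theorem adj (h : CtxC R τ P) {y : X} (hy : τ y = 1) {κ : Fm X} (hκ : κ ∈ R) :
    κ + wdL τ (κ y) ∈ fx R y := by
  refine ⟨R.add_mem hκ (h.star _), ?_⟩
  rw [LinearMap.add_apply, wdL_apply, hy, h.alt κ hκ y, one_smul, zero_smul, add_zero, add_self']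

theorem adj_apply (_h : CtxC R τ P) {x y : X} (hx : τ x = 0) (κ : Fm X) :
    κ x = (κ + wdL τ (κ y)) x + κ y x • τ := by
  rw [LinearMap.add_apply, wdL_apply, hx, zero_smul, zero_add, add_add_self']

theorem tau_not (h : CtxC R τ P) {x y : X} (hy : τ y = 1) : τ ∉ Lx (fx R y) x := by
  rintro ⟨κ, ⟨hκ, hκy⟩, hκx⟩
  have h1 : κ x y = 1 := by rw [hκx]; exact hy
  rw [h.alt.symm hκ, hκy] at h1
  exact zero_ne_one h1

end C3EX

open C3DX C3EX in
theorem c3e_proof (hY : Stmt_C3Y) (hF : Stmt_FOUR) : Stmt_C3E := by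
  classical
  intro X _ _ _ R τ P h h3 c hc hc' hex
  obtain ⟨y, hy⟩ := exists_Y h
  have hA : ∀ y, τ y = 1 → P 0 y = c := fun y hy => (hc' y hy).1
  have hB : ∀ y, τ y = 1 → P τ y = c := fun y hy => (hc' y hy).2
  have hC : ∀ θ y, τ y = 1 → P θ y = c := by
    intro θ y hy
    rcases zm (θ y) with hv | hv
    · rw [(val hY h hy θ).1 hv, hA y hy]
    · rw [(val hY h hy θ).2 hv, hB y hy]
  obtain ⟨-, y2, y3⟩ := hY X R τ P h
  -- Fourier
  have f1 : ∀ x, τ x = 0 → x ≠ 0 → ∀ θ, (P θ 0 : ℤ) * P θ x = P (θ + τ) 0 * P θ x := by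
    intro x hx h0 θ
    obtain ⟨g1, g2⟩ := fourA hF hY h hA hB hx h0
    by_cases hθ : θ = 0
    · rw [hθ, zero_add]
      rw [sub_self, zero_mul] at g2
      omega
    by_cases hθ' : θ = τ
    · rw [hθ', add_self']
      rw [sub_self, zero_mul] at g2
      have e := inv h hx h0 0
      rw [zero_add] at e
      rw [e]
      omega
    · exact g1 θ hθ hθ'
  have f2 : ∀ θ, s (P θ 0) = s (P (θ + τ) 0) := by
    intro θ
    obtain ⟨g1, g2⟩ := fourB hF hY h hA hB
    rw [sub_self] at g2
    by_cases hθ : θ = 0
    · rw [hθ, zero_add]; omega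
    by_cases hθ' : θ = τ
    · rw [hθ', add_self']; omega
    · exact g1 θ hθ hθ'
  by_cases hall : ∀ θ, P θ 0 ≤ 1
  · -- case (A)
    have hs : ∀ θ, s (P θ 0) = 0 := by
      intro θ
      have := hall θ
      unfold s
      interval_cases (P θ 0) <;> norm_num
    have hc1 : c = 1 := by
      have k0 := y2 y hy 0
      rw [hA y hy] at k0
      change s c = sOn {θ' | θ' y = (0 : D X) y} (fun θ' => s (P θ' 0)) at k0
      rw [sOn_eq _ _ ∅ (by simp) (fun θ _ _ => hs θ), Finset.sum_empty] at k0
      unfold s at k0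
      have : (c : ℤ) * (c - 1) = 0 := by linarith
      rcases mul_eq_zero.1 this with hz | hz <;> omega
    have ha : ∀ θ x, P θ x ≤ 1 := by
      intro θ x
      have k0 := h.diag θ x
      change s (P θ x) = sOn {θ' | θ' + θ ∈ Lx R x} (fun θ' => s (P θ' 0)) at k0
      rw [sOn_eq _ _ ∅ (by simp) (fun θ _ _ => hs θ), Finset.sum_empty] at k0
      unfold s at k0
      have : (P θ x : ℤ) * (P θ x - 1) = 0 := by linarith
      rcases mul_eq_zero.1 this with hz | hz <;> omega
    -- all products vanish
    have hz : ∀ θ x, τ x = 0 → x ≠ 0 → P θ 0 * P θ x = 0 := by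
      intro θ x hx h0
      by_contra hne
      rw [Nat.mul_eq_zero, not_or] at hne
      have e1 : P θ 0 = 1 := by have := hall θ; omega
      have e2 : P θ x = 1 := by have := ha θ x; omega
      obtain ⟨x', hx', h0', hne'⟩ := exists_two h3 τ x
      have ht : τ (x + x') = 0 := by rw [map_add, hx, hx', zero_add]
      have hs' : x + x' ≠ 0 := fun hc => hne' (eq_of_add hc).symm
      have hne2 : x + x' ≠ x' := by
        intro he
        apply h0
        have := congrArg (· + x') he
        simp only [add_add_self', add_self'] at this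
        exact this
      have pl := pair_le h θ ht hx' hs' h0' hne2
      rw [add_add_self'] at pl
      have e3 := f1 x hx h0 θ
      rw [e1, e2] at e3
      rw [e1, e2] at pl
      have e4 : P (θ + τ) 0 = 1 := by
        have : ((1 : ℕ) : ℤ) * ((1 : ℕ) : ℤ) = 1 := by norm_num
        rw [this] at e3
        have : (P (θ + τ) 0 : ℤ) = 1 := by
          rw [Nat.cast_one, mul_one] at e3
          exact e3.symm
        exact_mod_cast this
      rw [e4] at pl
      have b1 := ha θ (x + x')
      have b2 := ha θ x'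
      have : P θ (x + x') * P θ x' ≤ 1 := by
        calc P θ (x + x') * P θ x' ≤ 1 * 1 := Nat.mul_le_mul b1 b2
          _ = 1 := rfl
      have : ((P θ (x + x') : ℤ) * P θ x') ≤ 1 := by exact_mod_cast this
      norm_num at pl
      omega
    -- contradiction
    obtain ⟨x, hx, h0, -⟩ := exists_two h3 τ 0
    have hne : y ≠ x + y := by
      intro he
      apply h0
      have := congrArg (· + y) he
      simp only [add_add_self', add_self'] at this
      exact this.symm
    have hy' : τ (x + y) = 1 := by rw [map_add, hx, hy, zero_add]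
    have hsum : y + (x + y) = x := by
      rw [add_comm x y, add_add_self]
    have k := y3 y (x + y) hne hy hy' 0
    rw [hsum, hA y hy, hA _ hy', hc1] at k
    rw [sOn_eq _ _ ∅ (by simp) (fun θ _ _ => by
      have := hz θ x hx h0
      exact_mod_cast this), Finset.sum_empty] at k
    norm_num at k
  · -- case (B)
    push Not at hall
    obtain ⟨θ₀, hθ₀⟩ := hall
    -- the lower bound
    have hlow : ∀ θ, 2 ≤ P θ 0 → P (θ + τ) 0 = P θ 0 ∧ ∀ x, τ x = 0 → x ≠ 0 → 2 * P θ 0 ≤ P θ x := by
      intro θ hθ
      have e1 : P (θ + τ) 0 = P θ 0 := by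
        have e := f2 θ
        unfold s at e
        have b : (2 : ℤ) ≤ P θ 0 := by exact_mod_cast hθ
        have b' : (0 : ℤ) ≤ P (θ + τ) 0 := by positivity
        have : ((P θ 0 : ℤ) - P (θ + τ) 0) * (P θ 0 + P (θ + τ) 0 - 1) = 0 := by linarith
        rcases mul_eq_zero.1 this with hz | hz <;> omega
      refine ⟨e1, ?_⟩
      have hpos : ∀ x, τ x = 0 → x ≠ 0 → 1 ≤ P θ x := by
        intro x hx h0
        have k0 := h.diag θ x
        change s (P θ x) = sOn {θ' | θ' + θ ∈ Lx R x} (fun θ' => s (P θ' 0)) at k0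
        have := le_sOn {θ' | θ' + θ ∈ Lx R x} (fun θ' => s (P θ' 0)) (fun _ _ => s_nonneg _) {θ} (by
          intro θ' hθ'
          rw [Finset.mem_singleton] at hθ'
          rw [hθ']
          show θ + θ ∈ Lx R x
          rw [add_self']
          exact Submodule.zero_mem _)
        rw [Finset.sum_singleton, ← k0] at this
        by_contra hc0
        have hz : P θ x = 0 := by omega
        have b : (2 : ℤ) ≤ P θ 0 := by exact_mod_cast hθ
        rw [hz] at this
        unfold s at this
        push_cast at this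
        nlinarith
      intro x hx h0
      obtain ⟨z, hz, h0z, hnez⟩ := exists_two h3 τ x
      have ht : τ (x + z) = 0 := by rw [map_add, hx, hz, zero_add]
      have hs' : x + z ≠ 0 := fun hc => hnez (eq_of_add hc).symm
      -- choose x' with a(x') ≤ a(x+x')
      obtain ⟨x', hx', h0', hne', hle⟩ : ∃ x', τ x' = 0 ∧ x' ≠ 0 ∧ x' ≠ x ∧ P θ x' ≤ P θ (x + x') := by
        rcases le_total (P θ z) (P θ (x + z)) with hle | hle
        · exact ⟨z, hz, h0z, hnez, hle⟩
        · refine ⟨x + z, ht, hs', ?_, ?_⟩
          · intro he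
            apply h0z
            have := congrArg (x + ·) he
            simp only [add_add_self, add_self'] at this
            exact this
          · rw [add_add_self]; exact hle
      have pl := pair_le h θ hx hx' h0 h0' (Ne.symm hne')
      rw [e1] at pl
      have b1 : (P θ x' : ℤ) ≤ P θ (x + x') := by exact_mod_cast hle
      have b2 : (1 : ℤ) ≤ P θ x' := by exact_mod_cast hpos x' hx' h0'
      have b3 : (0 : ℤ) ≤ P θ 0 := by positivity
      have b4 : ((P θ 0 : ℤ) + P θ 0) * P θ x' ≤ P θ x * P θ x' := by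
        refine le_trans ?_ pl
        apply mul_le_mul_of_nonneg_left b1
        omega
      have b5 := le_of_mul_le_mul_right b4 (by omega)
      omega
    obtain ⟨hθ₀', hlow₀⟩ := hlow θ₀ hθ₀
    by_cases hB1 : ∃ y x, τ y = 1 ∧ τ x = 0 ∧ x ≠ 0 ∧ ∀ κ ∈ R, κ y = 0 → κ x = 0
    · -- (B1)
      obtain ⟨y, x, hy, hx, h0, hk⟩ := hB1
      have k0 := h.diag θ₀ x
      change s (P θ₀ x) = sOn {θ' | θ' + θ₀ ∈ Lx R x} (fun θ' => s (P θ' 0)) at k0
      rw [sOn_eq _ _ {θ₀, θ₀ + τ}, Finset.sum_pair (ne_tau h θ₀), hθ₀'] at k0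
      · have b1 : (2 : ℤ) * P θ₀ 0 ≤ P θ₀ x := by exact_mod_cast hlow₀ x hx h0
        have b2 : (2 : ℤ) ≤ P θ₀ 0 := by exact_mod_cast hθ₀
        unfold s at k0
        nlinarith
      · intro θ' hθ'
        rw [Finset.mem_insert, Finset.mem_singleton] at hθ'
        rcases hθ' with rfl | rfl
        · show θ' + θ' ∈ Lx R x
          rw [add_self']
          exact Submodule.zero_mem _
        · show θ₀ + τ + θ₀ ∈ Lx R x
          rw [add_comm θ₀ τ, add_add_self']
          exact tau_mem h hx h0
      · intro θ' hθ' hn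
        exfalso
        rw [Finset.mem_insert, Finset.mem_singleton, not_or] at hn
        obtain ⟨κ, hκ, hκ'⟩ := hθ'
        have e1 := adj_apply h (y := y) hx κ
        have e2 := adj h hy hκ
        rw [hk _ e2.1 e2.2, zero_add, hκ'] at e1
        rcases zm (κ y x) with hv | hv
        · rw [hv, zero_smul] at e1
          exact hn.1 (eq_of_add e1)
        · rw [hv, one_smul] at e1
          apply hn.2
          have := congrArg (· + θ₀) e1
          simp only [add_add_self'] at this
          rw [this, add_comm]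
    · -- (B2)
      push Not at hB1
      obtain ⟨x, hx, h0, -⟩ := exists_two h3 τ 0
      have kY := h.pairY (fun y x hy hx h0 => hB1 y x hy hx h0) θ₀ x (x + y) (by
        rw [add_add_self]; exact hy)
      rw [add_add_self] at kY
      have hy' : τ (x + y) = 1 := by rw [map_add, hx, hy, zero_add]
      rw [hC θ₀ _ hy'] at kY
      have hfin : Fintype (D X) := Fintype.ofFinite _
      -- a(x) = Σ_{θ₀ + Λ} p
      have hcz : (c : ℤ) ≠ 0 := by
        have : (1 : ℤ) ≤ c := by exact_mod_cast hc
        omega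
      have q1 : (P θ₀ x : ℤ) = sOn {θ' | θ' + θ₀ ∈ Lx (fx R y) x} (fun θ' => (P θ' 0 : ℤ)) := by
        apply mul_right_cancel₀ hcz
        rw [kY, sOn_ite, sOn_ite, Finset.sum_mul]
        apply Finset.sum_congr rfl
        intro θ' _
        rw [hC θ' y hy, ite_mul, zero_mul]
      have q2 : s (P θ₀ x) = 2 * sOn {θ' | θ' + θ₀ ∈ Lx (fx R y) x} (fun θ' => s (P θ' 0)) := by
        have k0 := h.diag θ₀ x
        change s (P θ₀ x) = sOn {θ' | θ' + θ₀ ∈ Lx R x} (fun θ' => s (P θ' 0)) at k0
        rw [k0]
        have e : sOn {θ' | θ' + θ₀ ∈ Lx R x} (fun θ' => s (P θ' 0)) =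
            sOn {θ' | θ' + θ₀ ∈ Lx (fx R y) x} (fun θ' => s (P θ' 0)) +
            sOn {θ' | θ' + τ + θ₀ ∈ Lx (fx R y) x} (fun θ' => s (P θ' 0)) := by
          rw [sOn_ite, sOn_ite, sOn_ite, ← Finset.sum_add_distrib]
          apply Finset.sum_congr rfl
          intro θ' _
          have m1 : θ' + θ₀ ∈ Lx R x ↔ (θ' + θ₀ ∈ Lx (fx R y) x ∨ θ' + τ + θ₀ ∈ Lx (fx R y) x) := by
            constructor
            · rintro ⟨κ, hκ, hκ'⟩
              have e1 := adj_apply h (y := y) hx κ
              have e2 := adj h hy hκ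
              rcases zm (κ y x) with hv | hv
              · left
                rw [hv, zero_smul, add_zero, hκ'] at e1
                rw [e1]
                exact Lx_mem e2 x
              · right
                rw [hv, one_smul, hκ'] at e1
                have e3 : θ' + τ + θ₀ = (κ + wdL τ (κ y)) x := by
                  have := congrArg (· + τ) e1
                  simp only [add_add_self'] at this
                  rw [← this]
                  abel
                rw [e3]
                exact Lx_mem e2 x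
            · rintro (hm | hm)
              · exact Lx_mono (fx_le R y) x hm
              · have := Submodule.add_mem _ (Lx_mono (fx_le R y) x hm) (tau_mem h hx h0)
                have e3 : θ' + τ + θ₀ + τ = θ' + θ₀ := by
                  rw [add_right_comm θ' τ θ₀, add_add_self']
                rwa [e3] at this
          have m2 : ¬ (θ' + θ₀ ∈ Lx (fx R y) x ∧ θ' + τ + θ₀ ∈ Lx (fx R y) x) := by
            rintro ⟨hm, hm'⟩
            apply tau_not h (x := x) hy
            have := Submodule.add_mem _ hm hm'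
            have e3 : θ' + θ₀ + (θ' + τ + θ₀) = τ := by
              rw [add_right_comm θ' τ θ₀, add_add_self]
            rwa [e3] at this
          simp only [Set.mem_ofPred_eq]
          by_cases c1 : θ' + θ₀ ∈ Lx (fx R y) x
          · have c2 : θ' + τ + θ₀ ∉ Lx (fx R y) x := fun hc2 => m2 ⟨c1, hc2⟩
            rw [if_pos c1, if_neg c2, if_pos (m1.2 (Or.inl c1)), add_zero]
          · by_cases c2 : θ' + τ + θ₀ ∈ Lx (fx R y) x
            · rw [if_neg c1, if_pos c2, if_pos (m1.2 (Or.inr c2)), zero_add]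
            · rw [if_neg c1, if_neg c2, if_neg (fun hm => (m1.1 hm).elim c1 c2), add_zero]
        have e' : sOn {θ' | θ' + τ + θ₀ ∈ Lx (fx R y) x} (fun θ' => s (P θ' 0)) =
            sOn {θ' | θ' + θ₀ ∈ Lx (fx R y) x} (fun θ' => s (P θ' 0)) := by
          rw [sOn_ite, sOn_ite]
          refine Finset.sum_nbij' (fun θ => θ + τ) (fun θ => θ + τ) ?_ ?_ ?_ ?_ ?_
          · intro θ _; exact Finset.mem_univ _
          · intro θ _; exact Finset.mem_univ _
          · intro θ _; exact add_add_self' θ τ
          · intro θ _; exact add_add_self' θ τ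
          · intro θ _
            simp only [Set.mem_ofPred_eq]
            rw [← f2 θ]
        rw [e, e']; ring
      -- the bound
      have q3 : 2 * sOn {θ' | θ' + θ₀ ∈ Lx (fx R y) x} (fun θ' => s (P θ' 0)) ≤
          (P θ₀ x : ℤ) * P θ₀ x - 2 * P θ₀ x := by
        have b : (P θ₀ x : ℤ) * P θ₀ x - 2 * P θ₀ x = ((P θ₀ x : ℤ) - 2) *
            sOn {θ' | θ' + θ₀ ∈ Lx (fx R y) x} (fun θ' => (P θ' 0 : ℤ)) := by
          rw [← q1]; ring
        rw [b]
        rw [sOn_ite, sOn_ite, Finset.mul_sum, Finset.mul_sum]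
        apply Finset.sum_le_sum
        intro θ' _
        simp only [Set.mem_ofPred_eq]
        by_cases c1 : θ' + θ₀ ∈ Lx (fx R y) x
        · rw [if_pos c1, if_pos c1]
          -- a_θ'(x) = a_θ₀(x)
          have e1 : P θ' x = P θ₀ x := by
            obtain ⟨κ, ⟨hκ, -⟩, hκ'⟩ := c1
            have := h.zero κ hκ θ₀ x
            rw [hκ', add_comm θ' θ₀, add_add_self] at this
            exact this
          have e2 : 2 * P θ' 0 ≤ P θ₀ x := by
            rcases Nat.lt_or_ge (P θ' 0) 2 with hlt | hge
            · have := hlow₀ x hx h0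
              omega
            · rw [← e1]; exact (hlow θ' hge).2 x hx h0
          have e3 : (2 : ℤ) * P θ' 0 ≤ P θ₀ x := by exact_mod_cast e2
          have e4 : (0 : ℤ) ≤ P θ' 0 := by positivity
          unfold s
          nlinarith
        · rw [if_neg c1, if_neg c1]; norm_num
      rw [← q2] at q3
      unfold s at q3
      have b1 := hlow₀ x hx h0
      have b2 : (4 : ℤ) ≤ P θ₀ x := by
        have : 4 ≤ P θ₀ x := by omega
        exact_mod_cast this
      nlinarith

end Pool.Agent.ESL
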