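import Pool.Agent.ESL.ETALT

/-!
Module COMP: a component (local or star) not killed by `x`.
-/

namespace Pool.Agent.ESL

namespace COMPX

variable {V : Type} [AddCommGroup V] [Module (ZMod 2) V]

theorem disj {R' R'' R₁ R₂ : FS V} (h : Disjoint (Sp R') (Sp R'')) (hR : R' = R₁ ⊔ R₂)
    (h' : Disjoint (Sp R₁) (Sp R₂)) : Disjoint (Sp R₁) (Sp (R₂ ⊔ R'')) := by
  rw [Sp_sup]
  apply Disjoint.disjoint_sup_right_of_disjoint_sup_left h'
  rw [← Sp_sup, ← hR]
  exact h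

end COMPX

open ETALTX COMPX in
theorem comp_proof : Stmt_COMP := by
  intro V _ _ _ R h
  induction h with
  | loc k h =>
    intro x hx
    exact ⟨_, ⊥, (sup_bot_eq _).symm, by rw [Sp_bot]; exact disjoint_bot_right, hx, Or.inl ⟨k, rfl⟩⟩
  | sum R' R'' h' h'' hd ih' ih'' =>
    intro x hx
    by_cases hx1 : x ∈ rad R'
    · have hx2 : x ∉ rad R'' := by
        intro hx2
        apply hx
        intro k hk
        obtain ⟨a, ha, b, hb, rfl⟩ := Submodule.mem_sup.1 hk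
        rw [LinearMap.add_apply, hx1 a ha, hx2 b hb, add_zero]
      obtain ⟨R₁, R₂, hR, hd', hr, ho⟩ := ih'' x hx2
      refine ⟨R₁, R₂ ⊔ R', ?_, disj hd.symm hR hd', hr, ho⟩
      rw [← sup_assoc, ← hR, sup_comm]
    · obtain ⟨R₁, R₂, hR, hd', hr, ho⟩ := ih' x hx1
      refine ⟨R₁, R₂ ⊔ R'', ?_, disj hd hR hd', hr, ho⟩
      rw [← sup_assoc, ← hR]
  | ext R L τ h hL hτ ih =>
    intro x hx
    have hL0 : L ≠ ⊥ := by
      intro hL0
      apply hx
      rw [ext_bot R L τ hL hL0]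
      intro k hk
      rw [Submodule.mem_bot] at hk
      rw [hk]; rfl
    exact ⟨_, ⊥, (sup_bot_eq _).symm, by rw [Sp_bot]; exact disjoint_bot_right, hx,
      Or.inr ⟨τ, tau_mem_Sp R L τ hτ hL0, tau_ne L τ hτ, star_ext R L τ hL⟩⟩

end Pool.Agent.ESL
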