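import Pool.Agent.ESL.Stmts

set_option linter.unusedVariables false

namespace Pool.Agent.ESL

theorem const_proof : Stmt_CONST := by
  intro X _ _ _ τ p Q h3 hτ hp hQ
  obtain ⟨y₀, hy₀⟩ : ∃ t, τ t = 1 := by
    by_contra hc
    push Not at hc
    exact hτ (LinearMap.ext fun x => zm_ne' (hc x))
  refine ⟨p y₀, fun y hy => ?_⟩
  by_cases hyy : y = y₀
  · rw [hyy]
  -- `u = y₀ + y`
  obtain ⟨u, hu⟩ : ∃ u, u = y₀ + y := ⟨_, rfl⟩
  have hτu : τ u = 0 := by rw [hu, map_add, hy, hy₀]; rfl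
  have hu0 : u ≠ 0 := fun h => hyy (eq_of_add (hu.symm.trans h)).symm
  have hyu : y = y₀ + u := by rw [hu, add_add_self]
  obtain ⟨v, hv, hv'⟩ : ∃ v, τ v = 0 ∧ v ∉ Submodule.span (ZMod 2) {u} := by
    by_contra hc
    push Not at hc
    have hle : LinearMap.ker τ ≤ Submodule.span (ZMod 2) {u} := fun v hv => hc v hv
    have h1 := Submodule.finrank_mono hle
    rw [finrank_span_singleton hu0] at h1
    have h2 := LinearMap.finrank_range_add_finrank_ker τ
    have h4 := Submodule.finrank_le (LinearMap.range τ)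
    rw [Module.finrank_self] at h4
    have h3' : 3 ≤ Module.finrank (ZMod 2) X := h3
    omega
  have hv0 : v ≠ 0 := by
    rintro rfl
    exact hv' (Submodule.zero_mem _)
  have hvu : v ≠ u := by
    rintro rfl
    exact hv' (Submodule.mem_span_singleton_self _)
  have huv : u + v ≠ 0 := fun h => hvu (eq_of_add h).symm
  have ne : ∀ a b : X, b ≠ 0 → a ≠ a + b := by
    intro a b hb h
    exact hb (by simpa using h.symm)
  have t1 : τ (y₀ + u) = 1 := by rw [map_add, hτu, hy₀, add_zero]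
  have t2 : τ (y₀ + v) = 1 := by rw [map_add, hv, hy₀, add_zero]
  have t3 : τ (y₀ + (u + v)) = 1 := by rw [map_add, map_add, hv, hτu, hy₀, add_zero, add_zero]
  have e2 := hQ y₀ (y₀ + v) (ne _ _ hv0) hy₀ t2
  have e3 := hQ y₀ (y₀ + (u + v)) (ne _ _ huv) hy₀ t3
  have e5 := hQ (y₀ + u) (y₀ + (u + v)) (by
    intro h
    exact hv0 (by simpa using h.symm)) t1 t3
  have e6 := hQ (y₀ + u) (y₀ + v) (by
    intro h
    exact hvu (by simpa using h.symm)) t1 t2
  have s2 : y₀ + u + (y₀ + (u + v)) = y₀ + (y₀ + v) := by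
    calc y₀ + u + (y₀ + (u + v)) = y₀ + (y₀ + v) + (u + u) := by abel
      _ = y₀ + (y₀ + v) := by rw [add_self' u, add_zero]
  have s3 : y₀ + u + (y₀ + v) = y₀ + (y₀ + (u + v)) := by abel
  rw [s2, ← e2] at e5
  rw [s3, ← e3] at e6
  have q0 := hp y₀ hy₀
  have q1 := hp _ t1
  have q2 := hp _ t2
  have q3 := hp _ t3
  rw [hyu]
  -- `p₁ p₄ = p₀ p₂`, `p₁ p₂ = p₀ p₄`
  have hsq : p (y₀ + u) ^ 2 = p y₀ ^ 2 := by
    have hpos : 0 < p (y₀ + v) * p (y₀ + (u + v)) := by positivity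
    apply mul_right_cancel₀ hpos.ne'
    calc p (y₀ + u) ^ 2 * (p (y₀ + v) * p (y₀ + (u + v)))
        = (p (y₀ + u) * p (y₀ + (u + v))) * (p (y₀ + u) * p (y₀ + v)) := by ring
      _ = (p y₀ * p (y₀ + v)) * (p y₀ * p (y₀ + (u + v))) := by rw [e5, e6]
      _ = p y₀ ^ 2 * (p (y₀ + v) * p (y₀ + (u + v))) := by ring
  rcases sq_eq_sq_iff_eq_or_eq_neg.1 hsq with h | h
  · exact h
  · omega

end Pool.Agent.ESL
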