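import Pool.Agent.ESL.ETALT

/-!
Module DEC2: `τ ∧ ψ` is not the sum of two nonzero alternating forms with independent supports.
-/

namespace Pool.Agent.ESL

namespace DEC2X

variable {V : Type} [AddCommGroup V] [Module (ZMod 2) V]

/-- if `ker a + ker b = V` and `a ≠ 0`, then `a` is nonzero on `ker b` -/
theorem pair_in_ker {a b : Fm V} (ha : ∀ x, a x x = 0)
    (h : LinearMap.ker a ⊔ LinearMap.ker b = ⊤) (h0 : a ≠ 0) : ∃ x y, b x = 0 ∧ b y = 0 ∧ a x y = 1 := by
  obtain ⟨x0, hx0⟩ : ∃ x0, a x0 ≠ 0 := by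
    by_contra hc
    push Not at hc
    exact h0 (LinearMap.ext hc)
  obtain ⟨y0, hy0⟩ : ∃ y0, a x0 y0 ≠ 0 := by
    by_contra hc
    push Not at hc
    exact hx0 (LinearMap.ext hc)
  have h1 := zm_ne hy0
  obtain ⟨xa, hxa, xb, hxb, rfl⟩ := Submodule.mem_sup.1 (show x0 ∈ _ by rw [h]; trivial)
  obtain ⟨ya, hya, yb, hyb, rfl⟩ := Submodule.mem_sup.1 (show y0 ∈ _ by rw [h]; trivial)
  rw [LinearMap.mem_ker] at hxa hxb hya hyb
  refine ⟨xb, yb, hxb, hyb, ?_⟩
  rw [map_add a, hxa, zero_add, map_add, symm_of_alt ha xb ya, hya] at h1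
  simpa using h1

end DEC2X

open DEC2X in
theorem dec2_proof : Stmt_DEC2 := by
  intro V _ _ _ τ ψ a b ha hb hd hw
  by_contra hc
  push Not at hc
  obtain ⟨ha0, hb0⟩ := hc
  have hk := ker_sup_top ha hb hd
  obtain ⟨x, y, hx, hy, hxy⟩ := pair_in_ker ha hk ha0
  obtain ⟨x', y', hx', hy', hxy'⟩ := pair_in_ker hb (by rw [sup_comm]; exact hk) hb0
  have e : ∀ u v, τ u * ψ v + ψ u * τ v = a u v + b u v := by
    intro u v
    rw [← wdL_apply₂, hw]; rfl
  have e1 := e x y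
  have e2 := e x' y'
  have e3 := e x x'
  have e4 := e y x'
  rw [hx, hxy] at e1
  rw [hx', hxy'] at e2
  rw [hx, symm_of_alt ha x x', hx'] at e3
  rw [hy, symm_of_alt ha y x', hx'] at e4
  simp only [LinearMap.zero_apply, add_zero, zero_add] at e1 e2 e3 e4
  revert e1 e2 e3 e4
  generalize τ x = p
  generalize τ y = q
  generalize τ x' = r
  generalize τ y' = s
  generalize ψ x = p'
  generalize ψ y = q'
  generalize ψ x' = r'
  generalize ψ y' = s'
  revert p q r s p' q' r' s'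
  decide

end Pool.Agent.ESL
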