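import Pool.Agent.ESL.J2C

/-!
Module DEG: totally degenerate structures are of elementary type.
-/

namespace Pool.Agent.ESL

open QS

theorem deg_proof (hp : Stmt_PRODREC) : Stmt_DEG := by
  suffices H : ∀ n : ℕ, ∀ S : QStruct, Finite S.G → S.neg = 1 → (∀ a b, S.q a b = S.zero) →
      Nat.card S.G = n → ElemType S from fun S hf hn hq => H _ S hf hn hq rfl
  intro n
  induction n using Nat.strong_induction_on with
  | _ n ih =>
    intro S hf hn hq hc
    by_cases h1 : Nat.card S.G = 1
    · exact ElemType.L0 S h1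
    have hpos : 0 < Nat.card S.G := Nat.card_pos
    obtain ⟨a, ha⟩ : ∃ a : S.G, a ≠ 1 := by
      by_contra hcon
      push Not at hcon
      apply h1
      rw [Nat.card_eq_one_iff_unique]
      exact ⟨⟨fun x y => by rw [hcon x, hcon y]⟩, ⟨1⟩⟩
    obtain ⟨B, hB⟩ := J2C.exists_compl S.exp_two (Subgroup.zpowers a)
    obtain ⟨SA, SB, f, g, hnA, hnB, hqA, hqB, hiso⟩ := hp S hn (Subgroup.zpowers a) B hB
      (fun _ _ _ _ _ _ _ _ => by simp only [hq, and_self])
    have haB : a ∉ B := by
      intro h
      have h3 : a ∈ Subgroup.zpowers a ⊓ B := ⟨Subgroup.mem_zpowers a, h⟩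
      rw [hB.disjoint.eq_bot, Subgroup.mem_bot] at h3
      exact ha h3
    have hcB : Nat.card SB.G < n := by
      rw [Nat.card_congr g.toEquiv, ← hc]
      exact Finite.card_subtype_lt haB
    have hfB : Finite SB.G := Finite.of_equiv _ g.toEquiv.symm
    have hEB : ElemType SB := ih _ hcB SB hfB hnB (fun x y => (hqB x y).2 (hq _ _)) rfl
    have hEA : ElemType SA := ElemType.L10 SA
      (by rw [Nat.card_congr f.toEquiv]; exact J2C.card_zp S.exp_two ha) hnA
      (fun x y => (hqA x y).2 (hq _ _))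
    exact ElemType.iso _ _ hiso (ElemType.prod _ _ hEA hEB)

end Pool.Agent.ESL
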