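import Pool.Agent.ESL.CountX

namespace Pool.Agent.ESL

open CountX in
theorem diag_proof (hS : Stmt_SPLEQ) : Stmt_DIAG := by
  intro V _ _ _ R M α hR hL hspl θ x
  classical
  -- the identity for every colour and coset
  have key : ∀ (θ : D (V ⧸ M)) (x : V ⧸ M), ((PP R M α θ x : ℤ) ^ 2 - PP R M α θ x) =
      ∑ w ∈ (Set.toFinite {w : V | w ∈ M ∧ w ≠ 0}).toFinset, (N R M α w θ x : ℤ) := by
    intro θ x
    have h1 := prod_eq hL M α θ x x
    have h2 : (Set.toFinite {w : V | M.mkQ w = x + x}).toFinset =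
        insert 0 (Set.toFinite {w : V | w ∈ M ∧ w ≠ 0}).toFinset := by
      ext w
      simp only [Set.Finite.mem_toFinset, Set.mem_ofPred_eq, Finset.mem_insert, add_self', mk_zero]
      constructor
      · intro h
        by_cases hw : w = 0
        · exact Or.inl hw
        · exact Or.inr ⟨h, hw⟩
      · rintro (rfl | h)
        · exact M.zero_mem
        · exact h.1
    rw [h2, Finset.sum_insert (by simp), N_zero] at h1
    have h3 : ((PP R M α θ x * PP R M α θ x : ℕ) : ℤ) = _ := congrArg _ h1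
    push_cast at h3
    rw [sq, h3]
    ring
  rw [key θ x]
  unfold sOn
  rw [Finset.sum_congr rfl (fun θ' _ => key θ' 0), Finset.sum_comm]
  apply Finset.sum_congr rfl
  intro w hw
  simp only [Set.Finite.mem_toFinset, Set.mem_ofPred_eq] at hw
  rw [split_eq hS hR M α w (hspl w hw.1 hw.2) θ x]
  push_cast
  apply Finset.sum_congr _ (fun _ _ => rfl)
  ext θ'
  simp only [Set.Finite.mem_toFinset, Set.mem_ofPred_eq]
  have : fx (R0 R M) (M.mkQ w) = R0 R M := by
    rw [mk_zero.2 hw.1]
    ext k
    exact ⟨fun h => h.1, fun h => ⟨h, map_zero k⟩⟩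
  rw [this]

end Pool.Agent.ESL
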