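import Pool.Agent.ESL.Stmts

/-!
Decomposition at the end of Part I.
-/

namespace Pool.Agent.ESL

namespace ENDDX

variable {V : Type} [AddCommGroup V] [Module (ZMod 2) V]

theorem mem_cent {R : FS V} {M : Submodule (ZMod 2) V} {v : V} :
    v ∈ cent R M ↔ ∀ k ∈ R, ∀ m ∈ M, k m v = 0 := Iff.rfl

theorem disj {R : FS V} {M : Submodule (ZMod 2) V} (ha : IsAlt R) (hr : rad R = ⊥)
    (hs : M ⊔ cent R M = ⊤) : Disjoint M (cent R M) := by
  rw [Submodule.disjoint_def]
  intro x hxM hxN
  have h1 : x ∈ rad R := by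
    intro k hk
    ext y
    have hy : y ∈ M ⊔ cent R M := by rw [hs]; trivial
    obtain ⟨m, hm, v, hv, rfl⟩ := Submodule.mem_sup.1 hy
    rw [map_add, hv k hk x hxM, add_zero, ha.symm hk]
    exact hxN k hk m hm
  rw [hr] at h1
  simpa using h1

theorem exists_proj {M N : Submodule (ZMod 2) V} (hd : Disjoint M N) (hs : M ⊔ N = ⊤) :
    ∃ p : V →ₗ[ZMod 2] V, (∀ m ∈ M, p m = m) ∧ ∀ v ∈ N, p v = 0 := by
  have h : IsCompl M N := ⟨hd, codisjoint_iff.2 hs⟩
  obtain ⟨g, hg, hg'⟩ := extend_zero M N M.subtype (by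
    intro u hu
    have := (Submodule.disjoint_def.1 hd) u u.2 hu
    exact this)
  exact ⟨g, fun m hm => hg ⟨m, hm⟩, hg'⟩

end ENDDX

open ENDDX

theorem endd_proof : Stmt_ENDD := by
  intro V _ _ _ R M ha hSL hr hIH hM0 hM1 hs hq
  have hd := disj ha hr hs
  obtain ⟨p, hpM, hpN⟩ := exists_proj hd hs
  have key : ∀ k ∈ R, pull p k ∈ R := by
    intro k hk
    apply hSL.univ
    intro x
    rw [mem_Lx_iff]
    intro s hxs
    have hx : x ∈ M ⊔ cent R M := by rw [hs]; trivial
    have hs' : s ∈ M ⊔ cent R M := by rw [hs]; trivial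
    obtain ⟨m, hm, v, hv, rfl⟩ := Submodule.mem_sup.1 hx
    obtain ⟨a, ha', u, hu, rfl⟩ := Submodule.mem_sup.1 hs'
    have h1 : ∀ l ∈ R, l m a = l v u := by
      intro l hl
      have h2 := hxs l hl
      rw [map_add l, LinearMap.add_apply, map_add, map_add, hu l hl m hm, ha.symm hl v a,
        hv l hl a ha', add_zero, zero_add] at h2
      exact CharTwo.add_eq_zero.1 h2
    have h3 := hq m hm a ha' v hv u hu h1 k hk
    rw [pull_apply, map_add p, map_add p, hpM m hm, hpN v hv, hpM a ha', hpN u hu, add_zero, add_zero]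
    exact h3
  have hR : R = fxs R (cent R M) ⊔ fxs R M := by
    apply le_antisymm
    · intro k hk
      have h1 : pull p k ∈ fxs R (cent R M) := by
        refine ⟨key k hk, fun w hw => ?_⟩
        rw [pull_apply', hpN w hw, map_zero, LinearMap.zero_comp]
      have h2 : k + pull p k ∈ fxs R M := by
        refine ⟨R.add_mem hk (key k hk), fun m hm => ?_⟩
        ext y
        have hy : y ∈ M ⊔ cent R M := by rw [hs]; trivial
        obtain ⟨a, ha', u, hu, rfl⟩ := Submodule.mem_sup.1 hy
        rw [LinearMap.add_apply, LinearMap.add_apply, pull_apply, hpM m hm, map_add p, hpM a ha',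
          hpN u hu, add_zero, map_add, hu k hk m hm, add_zero, CharTwo.add_self_eq_zero]
        rfl
      have h3 : k = pull p k + (k + pull p k) := by
        rw [add_comm k, add_add_self]
      rw [h3]
      exact Submodule.add_mem_sup h1 h2
    · exact sup_le (fxs_le _ _) (fxs_le _ _)
  have hN : fxs R (cent R M) ≠ R := by
    intro h
    apply hM1
    have hN0 : cent R M ≤ ⊥ := by
      rw [← hr]
      intro v hv k hk
      rw [← h] at hk
      exact hk.2 v hv
    have : cent R M = ⊥ := le_bot_iff.1 hN0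
    rw [this, sup_bot_eq] at hs
    exact hs
  have hM : fxs R M ≠ R := by
    intro h
    apply hM0
    apply le_bot_iff.1
    rw [← hr]
    intro v hv k hk
    rw [← h] at hk
    exact hk.2 v hv
  have hdis : Disjoint (Sp (fxs R (cent R M))) (Sp (fxs R M)) := by
    have h1 : Sp (fxs R (cent R M)) ≤ an (cent R M) := by
      apply Sp_le.2
      intro k hk x v hv
      rw [ha.symm hk.1, hk.2 v hv]; rfl
    have h2 : Sp (fxs R M) ≤ an M := by
      apply Sp_le.2
      intro k hk x v hv
      rw [ha.symm hk.1, hk.2 v hv]; rfl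
    exact (disjoint_an hs).symm.mono h1 h2
  have e1 := hIH _ (fxs_le R (cent R M)) hN (hSL.fxs _)
  have e2 := hIH _ (fxs_le R M) hM (hSL.fxs _)
  rw [hR]
  exact ET.sum _ _ e1 e2 hdis

end Pool.Agent.ESL
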