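import Pool.Agent.ESL.Stmts

/-!
Module ETALT, and the common facts on `τ ∧ ψ` and on the constructor `ET.ext` used in SPV, RK2, COMP.
-/

namespace Pool.Agent.ESL

theorem etalt_proof : Stmt_ETALT := by
  intro V _ _ R h
  induction h with
  | loc k h =>
    intro l hl x
    obtain ⟨c, rfl⟩ := Submodule.mem_span_singleton.1 hl
    simp [h]
  | sum R₁ R₂ h₁ h₂ h ih₁ ih₂ =>
    intro l hl x
    obtain ⟨a, ha, b, hb, rfl⟩ := Submodule.mem_sup.1 hl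
    rw [LinearMap.add_apply, LinearMap.add_apply, ih₁ a ha x, ih₂ b hb x, add_zero]
  | ext R L τ h hL hτ ih =>
    intro l hl x
    obtain ⟨a, ha, b, hb, rfl⟩ := Submodule.mem_sup.1 hl
    obtain ⟨ψ, hψ, rfl⟩ := hb
    rw [LinearMap.add_apply, LinearMap.add_apply, ih a ha x, wdL_alt, add_zero]

namespace ETALTX

variable {V : Type} [AddCommGroup V] [Module (ZMod 2) V]

/-- a nonzero `τ ∧ ψ` has arguments dual to `τ, ψ` -/
theorem dual_pair {τ ψ : D V} (h : wdL τ ψ ≠ 0) :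
    ∃ x y, τ x = 1 ∧ ψ x = 0 ∧ τ y = 0 ∧ ψ y = 1 := by
  obtain ⟨x0, hx0⟩ : ∃ x0, wdL τ ψ x0 ≠ 0 := by
    by_contra hc
    push Not at hc
    exact h (LinearMap.ext hc)
  obtain ⟨y0, hy0⟩ : ∃ y0, wdL τ ψ x0 y0 ≠ 0 := by
    by_contra hc
    push Not at hc
    exact hx0 (LinearMap.ext hc)
  have h1 := zm_ne hy0
  rw [wdL_apply₂] at h1
  refine ⟨ψ y0 • x0 + ψ x0 • y0, τ y0 • x0 + τ x0 • y0, ?_, ?_, ?_, ?_⟩ <;>
    simp only [map_add, map_smul, smul_eq_mul] <;> revert h1 <;>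
    generalize τ x0 = p <;> generalize τ y0 = q <;> generalize ψ x0 = r <;> generalize ψ y0 = s <;>
    revert p q r s <;> decide

theorem left_mem_range {τ ψ : D V} (h : wdL τ ψ ≠ 0) : τ ∈ LinearMap.range (wdL τ ψ) := by
  obtain ⟨x, y, h1, h2, h3, h4⟩ := dual_pair h
  exact ⟨y, by rw [wdL_apply, h3, h4, zero_smul, one_smul, zero_add]⟩

theorem right_mem_range {τ ψ : D V} (h : wdL τ ψ ≠ 0) : ψ ∈ LinearMap.range (wdL τ ψ) := by
  obtain ⟨x, y, h1, h2, h3, h4⟩ := dual_pair h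
  exact ⟨x, by rw [wdL_apply, h1, h2, zero_smul, one_smul, add_zero]⟩

theorem left_ne {τ ψ : D V} (h : wdL τ ψ ≠ 0) : τ ≠ 0 := by
  rintro rfl
  apply h
  ext x y
  rw [wdL_apply₂]; simp

/-- two independent functionals over `F_2` -/
theorem sep2 [Finite V] {τ ψ : D V} (h : τ ≠ 0) (h' : τ ≠ ψ) : ∃ x, τ x = 1 ∧ ψ x = 0 := by
  obtain ⟨x, hx, hx1⟩ := exists_cosep (T := Submodule.span (ZMod 2) {ψ}) (φ := τ) (by
    intro hm
    obtain ⟨c, hc⟩ := Submodule.mem_span_singleton.1 hm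
    rcases zm c with rfl | rfl
    · rw [zero_smul] at hc; exact h hc.symm
    · rw [one_smul] at hc; exact h' hc.symm)
  exact ⟨x, hx1, hx ψ (Submodule.mem_span_singleton_self ψ)⟩

theorem wdL_ne [Finite V] {τ ψ : D V} (h : τ ≠ 0) (h' : ψ ≠ 0) (h'' : τ ≠ ψ) : wdL τ ψ ≠ 0 := by
  obtain ⟨x, h1, h2⟩ := sep2 h h''
  intro h0
  have h3 : wdL τ ψ x = 0 := by rw [h0]; rfl
  rw [wdL_apply, h1, h2, one_smul, zero_smul, add_zero] at h3
  exact h' h3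

section ext

variable (R : FS V) (L : Submodule (ZMod 2) (D V)) (τ : D V)

theorem Sp_ext_le (hL : Sp R ≤ L) :
    Sp (R ⊔ L.map (wdL τ)) ≤ L ⊔ Submodule.span (ZMod 2) {τ} := by
  apply Sp_le.2
  intro k hk x
  obtain ⟨a, ha, b, ⟨l, hl, rfl⟩, rfl⟩ := Submodule.mem_sup.1 hk
  rw [LinearMap.add_apply, wdL_apply, ← add_assoc]
  apply Submodule.add_mem_sup
  · exact L.add_mem (hL (mem_Sp ha x)) (L.smul_mem _ hl)
  · exact Submodule.smul_mem _ _ (Submodule.mem_span_singleton_self τ)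

theorem wd_mem {l : D V} (hl : l ∈ L) : wdL τ l ∈ R ⊔ L.map (wdL τ) :=
  Submodule.mem_sup_right (Submodule.mem_map_of_mem hl)

theorem tau_ne (hτ : τ ∉ L) : τ ≠ 0 := by
  rintro rfl
  exact hτ L.zero_mem

theorem ext_bot (hL : Sp R ≤ L) (h : L = ⊥) : R ⊔ L.map (wdL τ) = ⊥ := by
  subst h
  rw [Submodule.map_bot, sup_bot_eq, eq_bot_iff]
  intro k hk
  rw [Submodule.mem_bot]
  apply LinearMap.ext
  intro x
  exact (Submodule.mem_bot _).1 (hL (mem_Sp hk x))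

/-- if `L ≠ 0` then `τ` is in the support -/
theorem tau_mem_Sp [Finite V] (hτ : τ ∉ L) (h : L ≠ ⊥) : τ ∈ Sp (R ⊔ L.map (wdL τ)) := by
  obtain ⟨l, hl, hl0⟩ := Submodule.exists_mem_ne_zero_of_ne_bot h
  have hne : wdL τ l ≠ 0 := wdL_ne (tau_ne L τ hτ) hl0 (by rintro rfl; exact hτ hl)
  exact range_le_Sp (wd_mem R L τ hl) (left_mem_range hne)

theorem star_ext (hL : Sp R ≤ L) : ∀ χ ∈ Sp (R ⊔ L.map (wdL τ)), wdL τ χ ∈ R ⊔ L.map (wdL τ) := by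
  intro χ hχ
  obtain ⟨l, hl, m, hm, rfl⟩ := Submodule.mem_sup.1 (Sp_ext_le R L τ hL hχ)
  obtain ⟨c, rfl⟩ := Submodule.mem_span_singleton.1 hm
  rw [map_add, map_smul, wdL_self, smul_zero, add_zero]
  exact wd_mem R L τ hl

end ext

end ETALTX

end Pool.Agent.ESL
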