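import Pool.Agent.ESL.Stmts

set_option linter.unusedVariables false

namespace Pool.Agent.ESL

namespace EVENX

theorem aux {V : Type} [AddCommGroup V] [Module (ZMod 2) V] [Finite V] (n : ℕ) :
    ∀ k : Fm V, (∀ x, k x x = 0) → fr (LinearMap.range k) = n → Even n := by
  induction n using Nat.strong_induction_on with
  | _ n ih =>
    intro k hk hn
    by_cases h0 : k = 0
    · subst h0
      rw [LinearMap.range_zero] at hn
      have : fr (⊥ : Submodule (ZMod 2) (D V)) = 0 := finrank_bot _ _
      rw [this] at hn
      rw [← hn]
      exact Even.zero
    obtain ⟨x, hx⟩ : ∃ x, k x ≠ 0 := by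
      by_contra hc
      push Not at hc
      exact h0 (LinearMap.ext hc)
    obtain ⟨y, hy⟩ : ∃ y, k x y ≠ 0 := by
      by_contra hc
      push Not at hc
      exact hx (LinearMap.ext hc)
    have hxy : k x y = 1 := zm_ne hy
    have hyx : k y x = 1 := by rw [symm_of_alt hk, hxy]
    set k' : Fm V := k + wdL (k x) (k y) with hk'
    have hk'a : ∀ z, k' z z = 0 := by
      intro z
      rw [hk', LinearMap.add_apply, LinearMap.add_apply, hk, wdL_alt, add_zero]
    have hk'z : ∀ z, k' z = k z + (k x z • k y + k y z • k x) := fun z => rfl
    have hx0 : k' x = 0 := by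
      rw [hk'z, hk x, hyx, zero_smul, one_smul, zero_add, add_self']
    have hy0 : k' y = 0 := by
      rw [hk'z, hk y, hxy, zero_smul, one_smul, add_zero, add_self']
    have hker : LinearMap.ker k' = LinearMap.ker k ⊔ Submodule.span (ZMod 2) {x, y} := by
      apply le_antisymm
      · intro z hz
        rw [LinearMap.mem_ker, hk'z] at hz
        have e := eq_of_add hz
        have h1 : z + (k x z • y + k y z • x) ∈ LinearMap.ker k := by
          rw [LinearMap.mem_ker, map_add, map_add, map_smul, map_smul, ← e, add_self']
        have h2 : k x z • y + k y z • x ∈ Submodule.span (ZMod 2) {x, y} :=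
          Submodule.add_mem _ (Submodule.smul_mem _ _ (Submodule.subset_span (by simp)))
            (Submodule.smul_mem _ _ (Submodule.subset_span (by simp)))
        have h3 := Submodule.add_mem_sup h1 h2
        rwa [add_add_self'] at h3
      · apply sup_le
        · intro z hz
          rw [LinearMap.mem_ker] at hz ⊢
          rw [hk'z, hz, zero_add, symm_of_alt hk x z, symm_of_alt hk y z, hz]
          simp
        · apply Submodule.span_le.2
          rintro z (rfl | rfl)
          · exact hx0
          · exact hy0
    have hli : LinearIndependent (ZMod 2) ![x, y] := by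
      rw [LinearIndependent.pair_iff]
      intro s t hst
      have e1 : k x (s • x + t • y) = 0 := by rw [hst, map_zero]
      have e2 : k y (s • x + t • y) = 0 := by rw [hst, map_zero]
      rw [map_add, map_smul, map_smul, hk x, hxy] at e1
      rw [map_add, map_smul, map_smul, hk y, hyx] at e2
      constructor
      · simpa using e2
      · simpa using e1
    have hdim : Module.finrank (ZMod 2) (Submodule.span (ZMod 2) {x, y}) = 2 := by
      have h := finrank_span_eq_card hli
      have e : Set.range ![x, y] = {x, y} := by
        simp [Matrix.range_cons, Set.pair_comm]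
      rw [e] at h
      simpa using h
    have hdis : LinearMap.ker k ⊓ Submodule.span (ZMod 2) {x, y} = ⊥ := by
      rw [eq_bot_iff]
      rintro z ⟨hz1, hz2⟩
      obtain ⟨a, b, rfl⟩ := Submodule.mem_span_pair.1 hz2
      rw [SetLike.mem_coe, LinearMap.mem_ker] at hz1
      have e1 : k (a • x + b • y) x = 0 := by rw [hz1]; rfl
      have e2 : k (a • x + b • y) y = 0 := by rw [hz1]; rfl
      rw [map_add, map_smul, map_smul, LinearMap.add_apply, LinearMap.smul_apply,
        LinearMap.smul_apply, hk x, hyx] at e1
      rw [map_add, map_smul, map_smul, LinearMap.add_apply, LinearMap.smul_apply,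
        LinearMap.smul_apply, hk y, hxy] at e2
      have hb : b = 0 := by simpa using e1
      have ha : a = 0 := by simpa using e2
      rw [ha, hb]
      simp
    have hsum := Submodule.finrank_sup_add_finrank_inf_eq (LinearMap.ker k)
      (Submodule.span (ZMod 2) {x, y})
    rw [← hker, hdis, hdim, finrank_bot, add_zero] at hsum
    have r1 := LinearMap.finrank_range_add_finrank_ker k
    have r2 := LinearMap.finrank_range_add_finrank_ker k'
    have hn' : Module.finrank (ZMod 2) (LinearMap.range k') + 2 = n := by
      have : Module.finrank (ZMod 2) (LinearMap.range k) = n := hn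
      omega
    have := ih (Module.finrank (ZMod 2) (LinearMap.range k')) (by omega) k' hk'a rfl
    rw [← hn']
    exact this.add even_two

end EVENX

theorem even_proof : Stmt_EVEN := by
  intro V _ _ _ k hk
  exact EVENX.aux _ k hk rfl

end Pool.Agent.ESL
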