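import Pool.Agent.ESL.Stmts

set_option linter.unusedVariables false

namespace Pool.Agent.ESL

theorem ext_proof : Stmt_EXT := by
  intro V _ _ _ R hR hSL hrad hIH τ hτ hstar
  obtain ⟨t, ht⟩ : ∃ t, τ t = 1 := by
    by_contra hc
    push Not at hc
    exact hτ (LinearMap.ext fun x => zm_ne' (hc x))
  have ht0 : t ≠ 0 := by
    rintro rfl
    rw [map_zero] at ht
    exact zero_ne_one ht
  have hne : fx R t ≠ R := by
    intro h
    apply ht0
    have : t ∈ rad R := by
      intro k hk
      rw [← h] at hk
      exact hk.2
    rw [hrad] at this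
    simpa using this
  have hET := hIH (fx R t) (fx_le R t) hne (hSL.fx t)
  have hSp : Sp (fx R t) ≤ an (Submodule.span (ZMod 2) {t}) := by
    apply Sp_le.2
    intro k hk x z hz
    obtain ⟨c, rfl⟩ := Submodule.mem_span_singleton.1 hz
    rw [map_smul, hR.symm hk.1, hk.2]
    simp
  have hτn : τ ∉ an (Submodule.span (ZMod 2) {t}) := by
    intro h
    have := h t (Submodule.mem_span_singleton_self t)
    rw [ht] at this
    exact one_ne_zero this
  have key := ET.ext (fx R t) (an (Submodule.span (ZMod 2) {t})) τ hET hSp hτn
  have hEq : fx R t ⊔ (an (Submodule.span (ZMod 2) {t})).map (wdL τ) = R := by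
    apply le_antisymm
    · apply sup_le (fx_le R t)
      rintro _ ⟨ψ, -, rfl⟩
      have : ψ ∈ Star R τ := by rw [hstar]; trivial
      exact this
    · intro k hk
      have hkt : k t ∈ an (Submodule.span (ZMod 2) {t}) := by
        intro z hz
        obtain ⟨c, rfl⟩ := Submodule.mem_span_singleton.1 hz
        rw [map_smul, hR k hk]
        simp
      have h1 : wdL τ (k t) ∈ R := by
        have : k t ∈ Star R τ := by rw [hstar]; trivial
        exact this
      have h2 : k + wdL τ (k t) ∈ fx R t := by
        refine ⟨R.add_mem hk h1, ?_⟩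
        rw [LinearMap.add_apply, wdL_apply, ht, one_smul, hR k hk t, zero_smul, add_zero, add_self']
      have h3 := Submodule.add_mem_sup h2 (Submodule.mem_map_of_mem (f := wdL τ) hkt)
      rwa [add_add_self'] at h3
  rw [hEq] at key
  exact key

end Pool.Agent.ESL
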