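import Mathlib
import Pool.Agent.ESL.StmtsJ

/-!
Squad ESL, modules PRODREC and EXTREC: recognition of products and of group extensions.
-/

set_option autoImplicit false

namespace Pool.Agent.ESL
namespace PRODRECX

open QS

/-- The structure induced on a subgroup which is closed under (QS4). -/
def sub (S : QStruct) (hneg : S.neg = 1) (A : Subgroup S.G)
    (h4 : ∀ a ∈ A, ∀ b ∈ A, ∀ c ∈ A, ∀ d ∈ A, S.q a b = S.q c d →
      ∃ x ∈ A, S.q a b = S.q a x ∧ S.q c d = S.q c x) : QStruct where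
  G := A
  Q := {β : S.Q // ∃ a b : A, S.q a b = β}
  neg := 1
  zero := ⟨S.zero, 1, 1, S.q_one 1⟩
  q := fun a b => ⟨S.q a b, a, b, rfl⟩
  exp_two := fun a => Subtype.ext (S.exp_two a)
  surj := by
    rintro ⟨β, a, b, h⟩
    exact ⟨a, b, Subtype.ext h⟩
  qs1 := fun a => by
    apply Subtype.ext
    have := S.qs1 (a : S.G)
    rw [hneg] at this
    simpa using this
  qs2 := fun a b => Subtype.ext (S.qs2 a b)
  qs3 := by
    intro a b c
    rw [Subtype.mk.injEq, Subtype.mk.injEq]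
    exact S.qs3 _ _ _
  qs4 := by
    intro a b c d h
    obtain ⟨x, hx, h1, h2⟩ := h4 a a.2 b b.2 c c.2 d d.2 (congrArg Subtype.val h)
    exact ⟨⟨x, hx⟩, Subtype.ext h1, Subtype.ext h2⟩

theorem sub_zero_iff (S : QStruct) (hneg : S.neg = 1) (A : Subgroup S.G)
    (h4 : ∀ a ∈ A, ∀ b ∈ A, ∀ c ∈ A, ∀ d ∈ A, S.q a b = S.q c d →
      ∃ x ∈ A, S.q a b = S.q a x ∧ S.q c d = S.q c x) (x y : A) :
    (sub S hneg A h4).q x y = (sub S hneg A h4).zero ↔ S.q (x : S.G) (y : S.G) = S.zero := by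
  show (⟨S.q (x : S.G) (y : S.G), _⟩ : {β : S.Q // ∃ a b : A, S.q a b = β}) = ⟨S.zero, _⟩ ↔ _
  rw [Subtype.mk.injEq]

theorem one_q (S : QStruct) (b : S.G) : S.q 1 b = S.zero := by
  rw [S.qs2, S.q_one]

/-- the isomorphism `A × B ≃* G` -/
noncomputable def prodEquiv {G : Type} [CommGroup G] (A B : Subgroup G) (h : IsCompl A B) :
    A × B ≃* G :=
  MulEquiv.ofBijective (MonoidHom.coprod A.subtype B.subtype) (by
    constructor
    · rw [injective_iff_map_eq_one]
      rintro ⟨a, b⟩ hab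
      have hab' : (a : G) * (b : G) = 1 := by simpa using hab
      have ha : (a : G) ∈ B := by
        have : (a : G) = (b : G)⁻¹ := eq_inv_of_mul_eq_one_left hab'
        rw [this]; exact B.inv_mem b.2
      have ha1 : (a : G) = 1 := by
        have := (Subgroup.disjoint_def.1 h.disjoint) a.2 ha
        exact this
      have hb1 : (b : G) = 1 := by
        rw [ha1, one_mul] at hab'; exact hab'
      exact Prod.ext (Subtype.ext ha1) (Subtype.ext hb1)
    · intro g
      have : g ∈ A ⊔ B := by rw [h.sup_eq_top]; trivial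
      obtain ⟨a, ha, b, hb, hab⟩ := Subgroup.mem_sup.1 this
      exact ⟨(⟨a, ha⟩, ⟨b, hb⟩), by simpa using hab⟩)

theorem prodEquiv_apply {G : Type} [CommGroup G] (A B : Subgroup G) (h : IsCompl A B)
    (p : A × B) : prodEquiv A B h p = (p.1 : G) * (p.2 : G) := rfl

/-- the homomorphism `H × ⟨t⟩ → G` -/
noncomputable def extHom {G : Type} [CommGroup G] (H : Subgroup G) (t : G) (ht : t * t = 1) :
    H × Multiplicative (ZMod 2) →* G where
  toFun := fun p => (p.1 : G) * (if p.2 = 1 then 1 else t)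
  map_one' := by simp
  map_mul' := by
    rintro ⟨a, α⟩ ⟨b, β⟩
    have hx : (Multiplicative.ofAdd (1 : ZMod 2)) ≠ 1 := by decide
    rcases two_cases α with rfl | rfl <;> rcases two_cases β with rfl | rfl <;>
      simp only [Prod.mk_mul_mk, Subgroup.coe_mul, mul_one, one_mul, x_mul_x, if_true, hx, if_false]
    · exact mul_assoc _ _ _
    · rw [mul_assoc, mul_assoc, mul_comm t]
    · calc (a : G) * (b : G) = (a : G) * (b : G) * (t * t) := by rw [ht, mul_one]
        _ = _ := by ac_rfl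

theorem extHom_one {G : Type} [CommGroup G] (H : Subgroup G) (t : G) (ht : t * t = 1) (a : H) :
    extHom H t ht (a, 1) = (a : G) := by
  simp [extHom]

theorem extHom_x {G : Type} [CommGroup G] (H : Subgroup G) (t : G) (ht : t * t = 1) (a : H) :
    extHom H t ht (a, Multiplicative.ofAdd 1) = (a : G) * t := by
  have hx : (Multiplicative.ofAdd (1 : ZMod 2)) ≠ 1 := by decide
  show (a : G) * (if Multiplicative.ofAdd (1 : ZMod 2) = 1 then 1 else t) = _
  rw [if_neg hx]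

theorem extHom_bij {G : Type} [CommGroup G] (H : Subgroup G) (t : G) (ht : t * t = 1)
    (htH : t ∉ H) (hH : ∀ g, g ∈ H ∨ g * t ∈ H) : Function.Bijective (extHom H t ht) := by
  constructor
  · rw [injective_iff_map_eq_one]
    rintro ⟨a, α⟩ h
    rcases two_cases α with rfl | rfl
    · rw [extHom_one] at h
      exact Prod.ext (Subtype.ext h) rfl
    · rw [extHom_x] at h
      exfalso
      apply htH
      have : t = (a : G)⁻¹ := eq_inv_of_mul_eq_one_right h
      rw [this]; exact H.inv_mem a.2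
  · intro g
    rcases hH g with h | h
    · exact ⟨(⟨g, h⟩, 1), extHom_one H t ht _⟩
    · refine ⟨(⟨g * t, h⟩, Multiplicative.ofAdd 1), ?_⟩
      rw [extHom_x]
      show g * t * t = g
      rw [mul_assoc, ht, mul_one]

theorem prod_iff (S : QStruct) (hneg : S.neg = 1) (A B : Subgroup S.G)
    (h4A : ∀ a ∈ A, ∀ b ∈ A, ∀ c ∈ A, ∀ d ∈ A, S.q a b = S.q c d →
      ∃ x ∈ A, S.q a b = S.q a x ∧ S.q c d = S.q c x)
    (h4B : ∀ a ∈ B, ∀ b ∈ B, ∀ c ∈ B, ∀ d ∈ B, S.q a b = S.q c d →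
      ∃ x ∈ B, S.q a b = S.q a x ∧ S.q c d = S.q c x) (hAB : IsCompl A B)
    (hq : ∀ a ∈ A, ∀ b ∈ B, ∀ a' ∈ A, ∀ b' ∈ B, S.q (a * b) (a' * b') = S.zero ↔
      S.q a a' = S.zero ∧ S.q b b' = S.zero) (xa : A) (xb : B) (ya : A) (yb : B) :
    (QS.prod (sub S hneg A h4A) (sub S hneg B h4B)).q (xa, xb) (ya, yb) =
      (QS.prod (sub S hneg A h4A) (sub S hneg B h4B)).zero ↔
        S.q (prodEquiv A B hAB (xa, xb)) (prodEquiv A B hAB (ya, yb)) = S.zero := by
  rw [prodEquiv_apply, prodEquiv_apply, hq _ xa.2 _ xb.2 _ ya.2 _ yb.2]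
  show ((sub S hneg A h4A).q xa ya, (sub S hneg B h4B).q xb yb) =
      ((sub S hneg A h4A).zero, (sub S hneg B h4B).zero) ↔ _
  rw [Prod.mk.injEq]
  exact and_congr (sub_zero_iff S hneg A h4A xa ya) (sub_zero_iff S hneg B h4B xb yb)

theorem ext_zero_iff (S : QStruct) (hneg : S.neg = 1) (H : Subgroup S.G)
    (h4 : ∀ a ∈ H, ∀ b ∈ H, ∀ c ∈ H, ∀ d ∈ H, S.q a b = S.q c d →
      ∃ x ∈ H, S.q a b = S.q a x ∧ S.q c d = S.q c x)
    (u v : (sub S hneg H h4).G × Multiplicative (ZMod 2)) :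
    (QS.ext (sub S hneg H h4)).q u v = (QS.ext (sub S hneg H h4)).zero ↔
      extMap (sub S hneg H h4) u v = ((sub S hneg H h4).zero, (1 : (sub S hneg H h4).G)) := by
  show (⟨extMap (sub S hneg H h4) u v, _⟩ : {p : (sub S hneg H h4).Q × (sub S hneg H h4).G //
        ∃ u v, extMap (sub S hneg H h4) u v = p}) = ⟨((sub S hneg H h4).zero, 1), _⟩ ↔ _
  rw [Subtype.mk.injEq]

theorem ext_iff' (S : QStruct) (hneg : S.neg = 1) (H : Subgroup S.G)
    (h4 : ∀ a ∈ H, ∀ b ∈ H, ∀ c ∈ H, ∀ d ∈ H, S.q a b = S.q c d →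
      ∃ x ∈ H, S.q a b = S.q a x ∧ S.q c d = S.q c x) (t : S.G) (ht : t * t = 1)
    (h1 : ∀ h ∈ H, ∀ h' ∈ H, S.q h (h' * t) = S.zero ↔ h = 1)
    (h2 : ∀ h ∈ H, ∀ h' ∈ H, S.q (h * t) (h' * t) = S.zero ↔ h = h')
    (a b : H) (α β : Multiplicative (ZMod 2)) :
    extMap (sub S hneg H h4) (a, α) (b, β) =
      ((sub S hneg H h4).zero, (1 : (sub S hneg H h4).G)) ↔
        S.q (extHom H t ht (a, α)) (extHom H t ht (b, β)) = S.zero := by
  have hs := sub_zero_iff S hneg H h4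
  have hS1 : ∀ b : H, (sub S hneg H h4).q (1 : H) b = (sub S hneg H h4).zero := fun b =>
    (hs 1 b).2 (one_q S b)
  have hS1' : ∀ b : H, (sub S hneg H h4).q b (1 : H) = (sub S hneg H h4).zero := fun b =>
    (hs b 1).2 (S.q_one b)
  rcases two_cases α with rfl | rfl <;> rcases two_cases β with rfl | rfl
  · have e0 : extMap (sub S hneg H h4) (a, 1) (b, 1) = ((sub S hneg H h4).q a b, 1) :=
      extMap_one_one (sub S hneg H h4) a b
    rw [e0, extHom_one, extHom_one, Prod.mk.injEq]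
    constructor
    · rintro ⟨e, -⟩
      exact (hs a b).1 e
    · intro e
      exact ⟨(hs a b).2 e, rfl⟩
  · have e0 : extMap (sub S hneg H h4) (a, 1) (b, Multiplicative.ofAdd 1) =
      ((sub S hneg H h4).q a b, a) := extMap_one_x (sub S hneg H h4) a b
    have key : extMap (sub S hneg H h4) (a, 1) (b, Multiplicative.ofAdd 1) =
      ((sub S hneg H h4).zero, (1 : (sub S hneg H h4).G)) ↔
        ((sub S hneg H h4).q a b = (sub S hneg H h4).zero ∧ a = (1 : H)) := by
      rw [e0]; exact Prod.ext_iff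
    rw [key, extHom_one, extHom_x, h1 _ a.2 _ b.2]
    constructor
    · rintro ⟨-, e⟩
      exact congrArg Subtype.val e
    · intro e
      have e' : a = (1 : H) := Subtype.ext e
      subst e'
      exact ⟨hS1 b, rfl⟩
  · have e0 : extMap (sub S hneg H h4) (a, Multiplicative.ofAdd 1) (b, 1) =
      ((sub S hneg H h4).q a b, b) := extMap_x_one (sub S hneg H h4) a b
    have key : extMap (sub S hneg H h4) (a, Multiplicative.ofAdd 1) (b, 1) =
      ((sub S hneg H h4).zero, (1 : (sub S hneg H h4).G)) ↔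
        ((sub S hneg H h4).q a b = (sub S hneg H h4).zero ∧ b = (1 : H)) := by
      rw [e0]; exact Prod.ext_iff
    rw [key, extHom_one, extHom_x, S.qs2, h1 _ b.2 _ a.2]
    constructor
    · rintro ⟨-, e⟩
      exact congrArg Subtype.val e
    · intro e
      have e' : b = (1 : H) := Subtype.ext e
      subst e'
      exact ⟨hS1' a, rfl⟩
  · have e0 : extMap (sub S hneg H h4) (a, Multiplicative.ofAdd 1) (b, Multiplicative.ofAdd 1) =
      ((sub S hneg H h4).q a b, (1 * a * b : H)) := extMap_x_x (sub S hneg H h4) a b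
    have key : extMap (sub S hneg H h4) (a, Multiplicative.ofAdd 1) (b, Multiplicative.ofAdd 1) =
      ((sub S hneg H h4).zero, (1 : (sub S hneg H h4).G)) ↔
        ((sub S hneg H h4).q a b = (sub S hneg H h4).zero ∧ (1 * a * b : H) = 1) := by
      rw [e0]; exact Prod.ext_iff
    rw [key, extHom_x, extHom_x, h2 _ a.2 _ b.2]
    constructor
    · rintro ⟨-, e⟩
      have e' : (1 : S.G) * (a : S.G) * (b : S.G) = 1 := congrArg Subtype.val e
      rw [one_mul] at e'
      exact (eq_iff_mul S _ _).2 e'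
    · intro e
      have e' : a = b := Subtype.ext e
      subst e'
      refine ⟨(hs a a).2 ?_, ?_⟩
      · have := S.qs1 (a : S.G)
        rw [hneg, one_mul] at this
        exact this
      · apply Subtype.ext
        show (1 : S.G) * (a : S.G) * (a : S.G) = 1
        rw [one_mul]; exact S.exp_two a

end PRODRECX

open QS PRODRECX

theorem prodrec_proof (h : Stmt_ISOC) : Stmt_PRODREC := by
  intro S hneg A B hAB hq
  have keyA : ∀ a ∈ A, ∀ b ∈ A, ∀ x, S.q a b = S.q a x → ∀ xa ∈ A, ∀ xb ∈ B, xa * xb = x →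
      S.q a b = S.q a xa := by
    intro a ha b hb x hx xa hxa xb hxb e
    rw [S.qs3, ← e, ← mul_assoc] at hx
    have := (hq a ha 1 B.one_mem (b * xa) (A.mul_mem hb hxa) xb hxb).1 (by rwa [mul_one])
    rw [S.qs3]; exact this.1
  have keyB : ∀ a ∈ B, ∀ b ∈ B, ∀ x, S.q a b = S.q a x → ∀ xa ∈ A, ∀ xb ∈ B, xa * xb = x →
      S.q a b = S.q a xb := by
    intro a ha b hb x hx xa hxa xb hxb e
    rw [S.qs3, ← e, mul_left_comm] at hx
    have := (hq 1 A.one_mem a ha xa hxa (b * xb) (B.mul_mem hb hxb)).1 (by rwa [one_mul])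
    rw [S.qs3]; exact this.2
  have dec : ∀ x : S.G, ∃ xa ∈ A, ∃ xb ∈ B, xa * xb = x := by
    intro x
    have : x ∈ A ⊔ B := by rw [hAB.sup_eq_top]; trivial
    exact Subgroup.mem_sup.1 this
  have h4A : ∀ a ∈ A, ∀ b ∈ A, ∀ c ∈ A, ∀ d ∈ A, S.q a b = S.q c d →
      ∃ x ∈ A, S.q a b = S.q a x ∧ S.q c d = S.q c x := by
    intro a ha b hb c hc d hd e
    obtain ⟨x, h1, h2⟩ := S.qs4 a b c d e
    obtain ⟨xa, hxa, xb, hxb, ex⟩ := dec x
    exact ⟨xa, hxa, keyA a ha b hb x h1 xa hxa xb hxb ex, keyA c hc d hd x h2 xa hxa xb hxb ex⟩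
  have h4B : ∀ a ∈ B, ∀ b ∈ B, ∀ c ∈ B, ∀ d ∈ B, S.q a b = S.q c d →
      ∃ x ∈ B, S.q a b = S.q a x ∧ S.q c d = S.q c x := by
    intro a ha b hb c hc d hd e
    obtain ⟨x, h1, h2⟩ := S.qs4 a b c d e
    obtain ⟨xa, hxa, xb, hxb, ex⟩ := dec x
    exact ⟨xb, hxb, keyB a ha b hb x h1 xa hxa xb hxb ex, keyB c hc d hd x h2 xa hxa xb hxb ex⟩
  refine ⟨sub S hneg A h4A, sub S hneg B h4B, MulEquiv.refl A, MulEquiv.refl B, rfl, rfl,
    sub_zero_iff S hneg A h4A, sub_zero_iff S hneg B h4B, ?_⟩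
  refine h (QS.prod (sub S hneg A h4A) (sub S hneg B h4B)) S (prodEquiv A B hAB) ?_ ?_
  · rw [hneg]
    show prodEquiv A B hAB (1, 1) = 1
    exact map_one (prodEquiv A B hAB)
  · rintro ⟨xa, xb⟩ ⟨ya, yb⟩
    exact prod_iff S hneg A B h4A h4B hAB hq xa xb ya yb

end Pool.Agent.ESL
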