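import Mathlib
import Pool.Agent.ESL.PRODREC

/-!
Squad ESL, module EXTREC: recognition of group extensions.
-/

set_option autoImplicit false

namespace Pool.Agent.ESL

open QS PRODRECX

theorem extrec_proof (h : Stmt_ISOC) : Stmt_EXTREC := by
  intro S hneg H t htH hH h1 h2
  have ht : t * t = 1 := S.exp_two t
  have h4 : ∀ a ∈ H, ∀ b ∈ H, ∀ c ∈ H, ∀ d ∈ H, S.q a b = S.q c d →
      ∃ x ∈ H, S.q a b = S.q a x ∧ S.q c d = S.q c x := by
    intro a ha b hb c hc d hd e
    obtain ⟨x, e1, e2⟩ := S.qs4 a b c d e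
    rcases hH x with hx | hx
    · exact ⟨x, hx, e1, e2⟩
    · have key : ∀ a ∈ H, ∀ b ∈ H, S.q a b = S.q a x → a = 1 := by
        intro a ha b hb e
        rw [S.qs3] at e
        apply (h1 a ha (b * (x * t)) (H.mul_mem hb hx)).1
        have : b * (x * t) * t = b * x := by
          calc b * (x * t) * t = b * x * (t * t) := by ac_rfl
            _ = b * x := by rw [ht, mul_one]
        rw [this]; exact e
      have a1 := key a ha b hb e1
      have c1 := key c hc d hd e2
      subst a1 c1
      exact ⟨1, H.one_mem, by rw [one_q, one_q], by rw [one_q, one_q]⟩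
  refine ⟨sub S hneg H h4, MulEquiv.refl H, rfl, sub_zero_iff S hneg H h4, ?_⟩
  refine h (QS.ext (sub S hneg H h4)) S
    (MulEquiv.ofBijective (extHom H t ht) (extHom_bij H t ht htH hH)) ?_ ?_
  · rw [hneg]
    show extHom H t ht ((1 : H), 1) = 1
    exact map_one (extHom H t ht)
  · rintro ⟨a, α⟩ ⟨b, β⟩
    exact (ext_zero_iff S hneg H h4 _ _).trans
      (ext_iff' S hneg H h4 t ht h1 h2 a b α β)

end Pool.Agent.ESL
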