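import Pool.Agent.ESL.Stmts

/-!
F1: every `w` in `M` is split.
-/

set_option linter.unusedVariables false

namespace Pool.Agent.ESL

namespace F1X

variable {V : Type} [AddCommGroup V] [Module (ZMod 2) V] [Finite V]

theorem mem_span_sing {W : Type} [AddCommGroup W] [Module (ZMod 2) W] {x y : W} :
    x ∈ Submodule.span (ZMod 2) {y} ↔ x = 0 ∨ x = y := by
  constructor
  · intro h
    obtain ⟨c, rfl⟩ := Submodule.mem_span_singleton.1 h
    rcases zm c with rfl | rfl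
    · left; rw [zero_smul]
    · right; rw [one_smul]
  · rintro (rfl | rfl)
    · exact Submodule.zero_mem _
    · exact Submodule.mem_span_singleton_self _

theorem val_left {τ ψ : D V} (h0 : ψ ≠ 0) (hτ0 : τ ≠ 0) (h : ψ ≠ τ) : ∃ x, wdL τ ψ x = ψ := by
  obtain ⟨x, hx, h1⟩ := exists_cosep (T := Submodule.span (ZMod 2) {ψ}) (φ := τ) (by
    rw [mem_span_sing]
    rintro (h2 | h2)
    · exact hτ0 h2
    · exact h h2.symm)
  refine ⟨x, ?_⟩
  rw [wdL_apply, h1, hx ψ (Submodule.mem_span_singleton_self _), one_smul, zero_smul, add_zero]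

theorem val_right {τ ψ : D V} (h0 : ψ ≠ 0) (hτ0 : τ ≠ 0) (h : ψ ≠ τ) : ∃ x, wdL τ ψ x = τ := by
  obtain ⟨x, hx⟩ := val_left hτ0 h0 (Ne.symm h)
  refine ⟨x, ?_⟩
  rw [wdL_comm]
  exact hx

/-- a subspace of functionals `ψ` with `τ ∧ ψ ∈ R^w` lies in one component -/
theorem sub (hRK : Stmt_RK2) (hDEC : Stmt_DEC2) {R : FS V} (hR : IsAlt R) {τ : D V} (hτ0 : τ ≠ 0)
    {w : V} (het : ET (fx R w)) {T : Submodule (ZMod 2) (D V)} (hτ : τ ∈ T) (h2 : 2 ≤ fr T)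
    (hT : ∀ ψ ∈ T, wdL τ ψ ∈ fx R w) :
    ∃ R₁ R₂ : FS V, fx R w = R₁ ⊔ R₂ ∧ Disjoint (Sp R₁) (Sp R₂) ∧ T ≤ Sp R₁ ∧
      ∃ σ ∈ Sp R₁, σ ≠ 0 ∧ ∀ χ ∈ Sp R₁, wdL σ χ ∈ R₁ := by
  have hlt : Submodule.span (ZMod 2) {τ} < T := by
    refine lt_of_le_of_ne ((Submodule.span_singleton_le_iff_mem _ _).2 hτ) ?_
    intro h
    have h3 : fr (Submodule.span (ZMod 2) ({τ} : Set (D V))) = 1 :=
      finrank_span_singleton hτ0
    rw [h] at h3
    omega
  obtain ⟨ψ₀, hψ₀, hψ₀'⟩ := SetLike.exists_of_lt hlt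
  have hψ0 : ψ₀ ≠ 0 := by
    rintro rfl
    exact hψ₀' (Submodule.zero_mem _)
  have hψτ : ψ₀ ≠ τ := by
    rintro rfl
    exact hψ₀' (Submodule.mem_span_singleton_self _)
  have hne : wdL τ ψ₀ ≠ 0 := by
    intro h
    obtain ⟨x, hx⟩ := val_left hψ0 hτ0 hψτ
    rw [h] at hx
    exact hψ0 hx.symm
  obtain ⟨R₁, R₂, hsum, hdis, hτ1, -, σ, hσ, hσ0, hσs⟩ :=
    hRK V (fx R w) het τ ψ₀ (hT ψ₀ hψ₀) hne
  refine ⟨R₁, R₂, hsum, hdis, ?_, σ, hσ, hσ0, hσs⟩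
  have hle1 : R₁ ≤ R := (le_sup_left.trans hsum.symm.le).trans (fx_le R w)
  have hle2 : R₂ ≤ R := (le_sup_right.trans hsum.symm.le).trans (fx_le R w)
  intro ψ hψ
  by_cases hp0 : ψ = 0
  · rw [hp0]; exact Submodule.zero_mem _
  by_cases hpτ : ψ = τ
  · rw [hpτ]; exact hτ1
  have hmem := hT ψ hψ
  rw [hsum] at hmem
  obtain ⟨a, ha, b, hb, hab⟩ := Submodule.mem_sup.1 hmem
  have hd : Disjoint (LinearMap.range a) (LinearMap.range b) :=
    Disjoint.mono (range_le_Sp ha) (range_le_Sp hb) hdis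
  rcases hDEC V τ ψ a b (hR a (hle1 ha)) (hR b (hle2 hb)) hd hab.symm with h | h
  · exfalso
    rw [h, zero_add] at hab
    obtain ⟨x, hx⟩ := val_right hp0 hτ0 hpτ
    have h3 : τ ∈ Sp R₂ := by
      rw [← hx, ← hab]
      exact mem_Sp hb x
    exact hτ0 (Submodule.disjoint_def.1 hdis τ hτ1 h3)
  · rw [h, add_zero] at hab
    obtain ⟨x, hx⟩ := val_left hp0 hτ0 hpτ
    rw [← hx, ← hab]
    exact mem_Sp ha x

/-- splitting from a decomposition -/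
theorem step {R : FS V} (hR : IsAlt R) {M : Submodule (ZMod 2) V} {w : V} {R₁ R₂ : FS V}
    (hsum : fx R w = R₁ ⊔ R₂) (hT : Sp R₁ ≤ an M) (hd : Disjoint (Sp R₂) (an M)) : Spl R M w := by
  have hle1 : R₁ ≤ fx R w := le_sup_left.trans hsum.symm.le
  have hle2 : R₂ ≤ fx R w := le_sup_right.trans hsum.symm.le
  refine ⟨co (Sp R₂), ?_, fun k hk hkw => ?_⟩
  · have := co_sup_top hd
    rwa [co_an] at this
  · have hmem : k ∈ fx R w := ⟨hk, hkw⟩
    rw [hsum] at hmem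
    obtain ⟨a, ha, b, hb, rfl⟩ := Submodule.mem_sup.1 hmem
    refine ⟨a, (hle1 ha).1, fun m hm => ?_, (hle1 ha).2, fun c hc => ?_⟩
    · ext y
      rw [hR.symm (hle1 ha).1]
      exact hT (mem_Sp ha y) m hm
    · rw [LinearMap.add_apply]
      have : b c = 0 := by
        ext y
        rw [hR.symm (hle2 hb).1]
        exact hc _ (mem_Sp hb y)
      rw [this, add_zero]

end F1X

theorem f1_proof (hRK : Stmt_RK2) (hDEC : Stmt_DEC2) : Stmt_F1 := by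
  intro V _ _ _ R τ M hC w hwM hw0
  have hτM : τ ∈ an M := by
    rw [mem_an, ← hC.star, wdL_self]
    exact R.zero_mem
  have hfr : fr (an M) + fr M = fr V := finrank_an M
  have h2 : 2 ≤ fr (an M) := by
    have := hC.two
    omega
  have hT : ∀ ψ ∈ an M, wdL τ ψ ∈ fx R w := by
    intro ψ hψ
    refine ⟨(hC.star ψ).2 hψ, ?_⟩
    rw [wdL_apply, hτM w hwM, hψ w hwM, zero_smul, zero_smul, add_zero]
  obtain ⟨R₁, R₂, hsum, hdis, hle, σ, hσ, hσ0, hσs⟩ :=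
    F1X.sub hRK hDEC hC.alt hC.τ0 (hC.et w hw0) hτM h2 hT
  have hle1 : R₁ ≤ R := (le_sup_left.trans hsum.symm.le).trans (fx_le R w)
  have hst : Sp R₁ ≤ Star R σ := fun χ hχ => hle1 (hσs χ hχ)
  have hm := hC.max σ hσ0
  have e1 : fr (Sp R₁) ≤ fr (Star R σ) := Submodule.finrank_mono hst
  have heq : an M = Sp R₁ := by
    apply Submodule.eq_of_le_of_finrank_le hle
    show fr (Sp R₁) ≤ fr (an M)
    omega
  apply F1X.step hC.alt hsum heq.symm.le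
  rw [heq]
  exact hdis.symm

end Pool.Agent.ESL
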