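import Pool.Agent.ESL.Stmts

/-!
Module F3: `dim M = 1` is impossible.
-/

namespace Pool.Agent.ESL

namespace F3X

variable {V : Type} [AddCommGroup V] [Module (ZMod 2) V]

theorem red_apply {z : V} (τ : D V) {b : Fm V} (hz : b z = 0) (hs : ∀ v, b v z = 0) (x v : V) :
    b (x + τ x • z) (v + τ v • z) = b x v := by
  simp only [map_add, map_smul, LinearMap.add_apply, LinearMap.smul_apply, hz, hs, smul_zero,
    add_zero]

theorem tau_red {z : V} {τ : D V} (hz : τ z = 1) (x : V) : τ (x + τ x • z) = 0 := by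
  rw [map_add, map_smul, hz, smul_eq_mul, mul_one, CharTwo.add_self_eq_zero]

/-- Lemma A -/
theorem lemA [Finite V] {R : FS V} {τ : D V} {m z : V}
    (h : CtxI R τ (Submodule.span (ZMod 2) {m})) (hm0 : m ≠ 0) (hz : τ z = 1) (σ : D V)
    (hσ0 : σ ≠ 0) (hσm : σ m = 0) (hall : ∀ χ : D V, χ z = 0 → wdL σ χ ∈ R) : False := by
  have hστ : wdL σ τ ∈ R := by
    rw [wdL_comm]
    refine (h.star σ).2 ?_
    intro x hx
    obtain ⟨c, rfl⟩ := Submodule.mem_span_singleton.1 hx
    rw [map_smul, hσm, smul_zero]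
  have htop : Star R σ = ⊤ := by
    rw [eq_top_iff]
    intro φ _
    rw [mem_Star]
    have e : wdL σ φ = wdL σ (φ + φ z • τ) + φ z • wdL σ τ := by
      rw [map_add, map_smul]
      exact (add_add_self' _ _).symm
    rw [e]
    refine R.add_mem (hall _ ?_) (R.smul_mem _ hστ)
    rw [LinearMap.add_apply, LinearMap.smul_apply, hz, smul_eq_mul, mul_one,
      CharTwo.add_self_eq_zero]
  have hmax := h.max σ hσ0
  have h1 : fr (Submodule.span (ZMod 2) {m}) = 1 := finrank_span_singleton hm0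
  have h2 : fr (Star R σ) = fr V := by
    rw [htop]
    exact (finrank_top _ _).trans finrank_D
  omega

/-- Lemma B -/
theorem lemB [Finite V] {R : FS V} {τ : D V} {m z : V}
    (h : CtxI R τ (Submodule.span (ZMod 2) {m})) (hm0 : m ≠ 0) (hz : τ z = 1)
    (hq : ∀ x h, τ x = 0 → τ h = 0 → x ≠ 0 → h ≠ 0 → x ≠ h → ∃ k ∈ fx R z, k x h ≠ 0) : False := by
  have h1 : fr (Submodule.span (ZMod 2) {m}) = 1 := finrank_span_singleton hm0
  have h3 : 3 ≤ fr V := by
    have := h.two
    omega
  obtain ⟨x, hx⟩ : ∃ x, x ∉ Submodule.span (ZMod 2) ({z, m} : Set V) := by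
    by_contra hc
    push Not at hc
    have htop : Submodule.span (ZMod 2) ({z, m} : Set V) = ⊤ := eq_top_iff.2 fun x _ => hc x
    classical
    have h4 : fr (Submodule.span (ZMod 2) ({z, m} : Set V)) ≤ 2 := by
      have e := finrank_span_finset_le_card (R := ZMod 2) ({z, m} : Finset V)
      have e2 := Finset.card_le_two (a := z) (b := m)
      have e3 : Set.finrank (ZMod 2) (({z, m} : Finset V) : Set V) =
          fr (Submodule.span (ZMod 2) ({z, m} : Set V)) := by
        unfold Set.finrank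
        rw [Finset.coe_insert, Finset.coe_singleton]
      omega
    rw [htop] at h4
    have h5 : fr (⊤ : Submodule (ZMod 2) V) = fr V := finrank_top _ _
    omega
  obtain ⟨σ, hσ, hσx⟩ := exists_sep hx
  have hσ0 : σ ≠ 0 := by
    rintro rfl
    simp at hσx
  have hσz : σ z = 0 := hσ z (Submodule.subset_span (by simp))
  have hσm : σ m = 0 := hσ m (Submodule.subset_span (by simp))
  refine lemA h hm0 hz σ hσ0 hσm ?_
  intro χ hχ
  have hSL : SL (fx R z) := h.sl.fx z
  apply fx_le R z
  apply hSL.univ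
  intro x
  rw [mem_Lx_iff]
  intro v hv
  have hbz : wdL σ χ z = 0 := by
    rw [wdL_apply, hσz, hχ, zero_smul, zero_smul, add_zero]
  have hbz' : ∀ v, wdL σ χ v z = 0 := by
    intro v
    rw [wdL_apply₂, hσz, hχ, mul_zero, mul_zero, add_zero]
  rw [← red_apply τ hbz hbz' x v]
  by_cases hx0 : x + τ x • z = 0
  · rw [hx0]; simp
  by_cases hv0 : v + τ v • z = 0
  · rw [hv0, map_zero]
  by_cases hxv : x + τ x • z = v + τ v • z
  · rw [hxv, wdL_alt]
  obtain ⟨k, hk, hkx⟩ := hq _ _ (tau_red hz x) (tau_red hz v) hx0 hv0 hxv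
  exfalso
  apply hkx
  rw [red_apply τ hk.2 (fun v => by rw [h.alt.symm hk.1, hk.2]; rfl)]
  exact hv k hk

end F3X

open F3X in
theorem f3_proof (hA : Stmt_F3A) (hB : Stmt_F3B) (hC : Stmt_COMP) : Stmt_F3 := by
  intro V _ _ _ R τ M h
  by_contra hlt
  have h1 : fr M = 1 := by
    have : fr M ≠ 0 := fun h0 => h.ne (Submodule.finrank_eq_zero.1 h0)
    omega
  obtain ⟨m, hm0, hM⟩ : ∃ m, m ≠ 0 ∧ M = Submodule.span (ZMod 2) {m} := by
    obtain ⟨m, hm, hm0⟩ := Submodule.exists_mem_ne_zero_of_ne_bot h.ne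
    refine ⟨m, hm0, ?_⟩
    symm
    apply Submodule.eq_of_le_of_finrank_eq
    · rw [Submodule.span_singleton_le_iff_mem]; exact hm
    · rw [finrank_span_singleton hm0]; exact h1.symm
  subst hM
  obtain ⟨z, hz, hzm, -, hdz, hsharp⟩ := hA V R τ m h
  have hτm : τ m = 0 := (h.star τ).1 (by rw [wdL_self]; exact R.zero_mem) m
    (Submodule.mem_span_singleton_self m)
  have hz0 : z ≠ 0 := by
    rintro rfl
    rw [map_zero] at hz
    exact zero_ne_one hz
  have hmz : m ∉ rad (fx R z) := by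
    intro hm
    apply hm0
    have : m ∈ rad R := by
      intro k hk
      have e := hm _ (hdz k hk)
      rw [LinearMap.add_apply, wdL_apply, hτm, zero_smul, hzm k hk, zero_smul, add_zero,
        add_zero] at e
      exact e
    rwa [h.nd, Submodule.mem_bot] at this
  obtain ⟨R₁, R₂, hR, hd, hmR, hcase⟩ := hC V (fx R z) (h.et z hz0) m hmz
  obtain ⟨hR2, hrad⟩ := hB V R τ m z h hz hzm hdz hsharp R₁ R₂ hR hd hmR
  rw [hR2, sup_bot_eq] at hR
  rw [← hR] at hcase hmR
  have hSalt : IsAlt (fx R z) := h.alt.mono (fx_le R z)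
  have hSp : ∀ φ : D V, φ ∈ Sp (fx R z) ↔ φ z = 0 := by
    intro φ
    rw [← an_rad hSalt, hrad]
    constructor
    · intro hφ
      exact hφ z (Submodule.mem_span_singleton_self z)
    · intro hφ x hx
      obtain ⟨c, rfl⟩ := Submodule.mem_span_singleton.1 hx
      rw [map_smul, hφ, smul_zero]
  have hzR : ∀ k ∈ fx R z, ∀ v, k v z = 0 := by
    intro k hk v
    rw [hSalt.symm hk, hk.2]; rfl
  -- m commutes with everything of H only trivially => contradiction
  have keyB : (∀ x, τ x = 0 → x ≠ 0 → x ≠ m → ∃ k ∈ fx R z, k m x ≠ 0) →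
      (∀ x h, τ x = 0 → τ h = 0 → x ≠ 0 → h ≠ 0 → x ≠ h → x ≠ m → h ≠ m → x + h ≠ m →
        ∃ k ∈ fx R z, k x h ≠ 0) → False := by
    intro hm1 hm2
    apply lemB h hm0 hz
    intro x u hx hu hx0 hu0 hxu
    by_cases e1 : x = m
    · obtain ⟨k, hk, hkx⟩ := hm1 u hu hu0 (by rw [← e1]; exact Ne.symm hxu)
      exact ⟨k, hk, by rw [e1]; exact hkx⟩
    by_cases e2 : u = m
    · obtain ⟨k, hk, hkx⟩ := hm1 x hx hx0 e1
      exact ⟨k, hk, by rw [e2, hSalt.symm hk]; exact hkx⟩
    by_cases e3 : x + u = m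
    · obtain ⟨k, hk, hkx⟩ := hm1 x hx hx0 e1
      refine ⟨k, hk, ?_⟩
      rw [← e3, map_add, LinearMap.add_apply, hSalt k hk, zero_add] at hkx
      rw [hSalt.symm hk]
      exact hkx
    exact hm2 x u hx hu hx0 hu0 hxu e1 e2 e3
  rcases hcase with ⟨k, hk⟩ | ⟨σ, hσS, hσ0, hσ⟩
  · -- local case
    have hkS : k ∈ fx R z := by rw [hk]; exact Submodule.mem_span_singleton_self k
    have hkm : k m ≠ 0 := by
      intro hkm
      apply hmR
      intro l hl
      rw [hk] at hl
      obtain ⟨c, rfl⟩ := Submodule.mem_span_singleton.1 hl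
      rw [LinearMap.smul_apply, hkm, smul_zero]
    by_cases hex : ∃ u, τ u = 0 ∧ u ≠ 0 ∧ u ≠ m ∧ k u m = 0
    · obtain ⟨u, hu, hu0, hum, huk⟩ := hex
      obtain ⟨v, hv⟩ : ∃ v, k m v ≠ 0 := by
        by_contra hc
        push Not at hc
        exact hkm (LinearMap.ext hc)
      have hv' : k (v + τ v • z) m ≠ 0 := by
        rw [map_add, map_smul, hkS.2, smul_zero, add_zero, hSalt.symm hkS]
        exact hv
      obtain ⟨l, hl, hlu, hl1⟩ := hsharp u (v + τ v • z) hu (tau_red hz v) hu0 hum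
        ⟨k, hkS.1, hv'⟩ ⟨k, hkS.1, by
          rw [map_add, LinearMap.add_apply, huk, add_zero]; exact hv'⟩
      have hkl : l = k := by
        rw [hk] at hl
        obtain ⟨c, rfl⟩ := Submodule.mem_span_singleton.1 hl
        rcases zm c with rfl | rfl
        · rw [zero_smul] at hl1
          exact absurd hl1 (by simp)
        · rw [one_smul]
      have : u ∈ rad (fx R z) := by
        intro l' hl'
        rw [hk] at hl'
        obtain ⟨c, rfl⟩ := Submodule.mem_span_singleton.1 hl'
        rw [LinearMap.smul_apply, ← hkl, hlu, smul_zero]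
      rw [hrad] at this
      obtain ⟨c, hc⟩ := Submodule.mem_span_singleton.1 this
      rcases zm c with rfl | rfl
      · rw [zero_smul] at hc; exact hu0 hc.symm
      · rw [one_smul] at hc
        rw [← hc, hz] at hu
        exact one_ne_zero hu
    · push Not at hex
      apply keyB
      · intro x hx hx0 hxm
        exact ⟨k, hkS, by rw [hSalt.symm hkS]; exact hex x hx hx0 hxm⟩
      · intro x u hx hu hx0 hu0 hxu e1 e2 e3
        exfalso
        have a1 := zm_ne (hex x hx hx0 e1)
        have a2 := zm_ne (hex u hu hu0 e2)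
        have a3 := hex (x + u) (by rw [map_add, hx, hu, add_zero])
          (fun h0 => hxu (eq_of_add h0)) e3
        apply a3
        rw [map_add, LinearMap.add_apply, a1, a2, CharTwo.add_self_eq_zero]
  · -- star case
    have hσz : σ z = 0 := (hSp σ).1 hσS
    have hall : ∀ χ : D V, χ z = 0 → wdL σ χ ∈ fx R z := fun χ hχ => hσ χ ((hSp χ).2 hχ)
    by_cases hσm : σ m = 0
    · exact lemA h hm0 hz σ hσ0 hσm (fun χ hχ => fx_le R z (hall χ hχ))
    have hσm1 := zm_ne hσm
    -- V_m ∩ H = <m>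
    have hVm : ∀ x, τ x = 0 → x ≠ 0 → x ≠ m → ∃ k ∈ fx R z, k m x ≠ 0 := by
      intro x hx hx0 hxm
      by_contra hc
      push Not at hc
      have hmem : x + σ x • m ∈ Submodule.span (ZMod 2) {z} := by
        rw [← co_an (Submodule.span (ZMod 2) {z})]
        intro χ hχ
        have e := hc _ (hall χ (hχ z (Submodule.mem_span_singleton_self z)))
        rw [wdL_apply₂, hσm1, one_mul] at e
        rw [map_add, map_smul, smul_eq_mul, mul_comm]
        exact e
      obtain ⟨c, hc'⟩ := Submodule.mem_span_singleton.1 hmem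
      have e1 := congrArg τ hc'
      rw [map_smul, hz, map_add, map_smul, hx, hτm, smul_zero, add_zero, smul_eq_mul, mul_one] at e1
      rw [e1, zero_smul] at hc'
      have hxe := eq_of_add hc'.symm
      rcases zm (σ x) with h0 | h0
      · rw [h0, zero_smul] at hxe; exact hx0 hxe
      · rw [h0, one_smul] at hxe; exact hxm hxe
    apply keyB hVm
    intro x u hx hu hx0 hu0 hxu e1 e2 e3
    obtain ⟨k₁, hk₁, hk₁'⟩ := hVm x hx hx0 e1
    have hxu' : x + (m + u) ≠ 0 := by
      intro h0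
      apply e3
      have := eq_of_add h0
      rw [this, add_add_self']
    have hxu'' : x + (m + u) ≠ m := by
      intro h0
      apply hxu
      have e : x + u = 0 := by
        have h5 : x + (m + u) = m + (x + u) := by abel
        rw [h5] at h0
        exact add_eq_left.1 h0
      exact eq_of_add e
    obtain ⟨k₂, hk₂, hk₂'⟩ := hVm (x + (m + u)) (by rw [map_add, map_add, hx, hu, hτm]; simp)
      hxu' hxu''
    obtain ⟨k, hk, hku, hk1⟩ := hsharp (m + u) x (by rw [map_add, hτm, hu, add_zero]) hx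
      (fun h0 => e2 (eq_of_add h0).symm) (fun h0 => hu0 (by simpa using h0))
      ⟨k₁, hk₁.1, by rw [hSalt.symm hk₁]; exact hk₁'⟩
      ⟨k₂, hk₂.1, by rw [hSalt.symm hk₂]; exact hk₂'⟩
    refine ⟨k, hk, ?_⟩
    rw [map_add] at hku
    have hmu := eq_of_add hku
    rw [hSalt.symm hk, ← hmu, hSalt.symm hk, hk1]
    exact one_ne_zero

end Pool.Agent.ESL
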