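import Pool.Agent.ESL.Stmts

/-!
ESL module F3A: the case `M = ⟨m⟩`.
-/

set_option linter.unusedVariables false

namespace Pool.Agent.ESL

namespace F3AX

variable {V : Type} [AddCommGroup V] [Module (ZMod 2) V] [Finite V]

theorem m_ne {R : FS V} {τ : D V} {m : V} (ctx : CtxI R τ (Submodule.span (ZMod 2) {m})) : m ≠ 0 := by
  rintro rfl
  exact ctx.ne (by simp)

theorem star_iff {R : FS V} {τ : D V} {m : V} (ctx : CtxI R τ (Submodule.span (ZMod 2) {m}))
    (ψ : D V) : wdL τ ψ ∈ R ↔ ψ m = 0 := by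
  rw [ctx.star]
  constructor
  · intro h
    exact h m (Submodule.mem_span_singleton_self m)
  · intro h x hx
    obtain ⟨c, rfl⟩ := Submodule.mem_span_singleton.1 hx
    rw [map_smul, h, smul_zero]

theorem τm {R : FS V} {τ : D V} {m : V} (ctx : CtxI R τ (Submodule.span (ZMod 2) {m})) : τ m = 0 :=
  (star_iff ctx τ).1 (by rw [wdL_self]; exact R.zero_mem)

theorem not_span {m x : V} (h0 : x ≠ 0) (h1 : x ≠ m) : x ∉ Submodule.span (ZMod 2) {m} := by
  intro h
  obtain ⟨c, hc⟩ := Submodule.mem_span_singleton.1 h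
  rcases zm c with rfl | rfl
  · rw [zero_smul] at hc; exact h0 hc.symm
  · rw [one_smul] at hc; exact h1 hc.symm

/-- `V_y ≤ ⟨m, y⟩` -/
theorem Vy {R : FS V} {τ : D V} {m : V} (ctx : CtxI R τ (Submodule.span (ZMod 2) {m})) {y : V}
    (hy : τ y = 1) {v : V} (hv : ∀ k ∈ R, k y v = 0) : ∃ c d : ZMod 2, c • m + d • y = v := by
  have : v ∈ Submodule.span (ZMod 2) {m, y} := by
    by_contra hc
    obtain ⟨f, hf, hf1⟩ := exists_sep hc
    have hm : f m = 0 := hf m (Submodule.subset_span (by simp))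
    have hy' : f y = 0 := hf y (Submodule.subset_span (by simp))
    have h1 := hv _ ((star_iff ctx f).2 hm)
    rw [wdL_apply₂, hy, hf1, hy'] at h1
    simp at h1
  obtain ⟨c, d, h⟩ := Submodule.mem_span_pair.1 this
  exact ⟨c, d, h⟩

/-- `L_y = ⟨y⟩^⊥` if `y` does not commute with `m` -/
theorem Ly {R : FS V} {τ : D V} {m : V} (ctx : CtxI R τ (Submodule.span (ZMod 2) {m})) {y : V}
    (hy : τ y = 1) (hym : ∃ k ∈ R, k y m ≠ 0) {ψ : D V} (hψ : ψ y = 0) : ψ ∈ Lx R y := by
  rw [mem_Lx_iff]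
  intro v hv
  obtain ⟨c, d, rfl⟩ := Vy ctx hy hv
  obtain ⟨k, hk, hkm⟩ := hym
  have h1 := hv k hk
  rw [map_add, map_smul, map_smul, ctx.alt k hk y, smul_zero, add_zero, zm_ne hkm, smul_eq_mul,
    mul_one] at h1
  rw [h1, zero_smul, zero_add, map_smul, hψ, smul_zero]

end F3AX

open F3AX in
theorem f3a_proof : Stmt_F3A := by
  intro V _ _ _ R τ m ctx
  have hR := ctx.alt
  have hL := ctx.sl.linked
  have hm0 := m_ne ctx
  have hτm := τm ctx
  -- (ii)
  have hii : τ ∉ Lx R m := by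
    rintro ⟨k₀, hk₀, hk₀m⟩
    have hall : ∀ ρ : D V, wdL τ ρ ∈ R := by
      intro ρ
      apply ctx.sl.univ
      intro x
      rw [wdL_apply]
      rcases zm (τ x) with h | h
      · rw [h, zero_smul, zero_add]
        by_cases hx0 : x = 0
        · rw [hx0, map_zero, zero_smul]
          exact Submodule.zero_mem _
        apply Submodule.smul_mem
        by_cases hxm : x = m
        · rw [hxm]; exact ⟨k₀, hk₀, hk₀m⟩
        · obtain ⟨f, hf, hf1⟩ := exists_sep (not_span hx0 hxm)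
          refine ⟨wdL τ f, (star_iff ctx f).2 (hf m (Submodule.mem_span_singleton_self m)), ?_⟩
          rw [wdL_apply, h, hf1, zero_smul, one_smul, zero_add]
      · rw [h, one_smul]
        apply Ly ctx h
        · refine ⟨k₀, hk₀, ?_⟩
          rw [hR.symm hk₀, hk₀m, h]; exact one_ne_zero
        · rw [LinearMap.add_apply, LinearMap.smul_apply, h, smul_eq_mul, mul_one,
            CharTwo.add_self_eq_zero]
    obtain ⟨f, hf⟩ := exists_dual hm0
    have := (star_iff ctx f).1 (hall f)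
    rw [hf] at this
    exact one_ne_zero this
  -- (iii)
  rw [mem_Lx_iff] at hii
  push Not at hii
  obtain ⟨z, hz, hτz⟩ := hii
  have hτz := zm_ne hτz
  have hzm : ∀ k ∈ R, k z m = 0 := fun k hk => by rw [hR.symm hk]; exact hz k hk
  have hfx : ∀ k ∈ R, k + wdL τ (k z) ∈ fx R z := by
    intro k hk
    refine ⟨R.add_mem hk ((star_iff ctx _).2 (hzm k hk)), ?_⟩
    rw [LinearMap.add_apply, wdL_apply, hτz, one_smul, hR k hk z, zero_smul, add_zero, add_self']
  refine ⟨z, hτz, hzm, ?_, hfx, ?_⟩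
  · intro x hx
    obtain ⟨c, d, rfl⟩ := Vy ctx hτz hx
    rcases zm c with rfl | rfl <;> rcases zm d with rfl | rfl
    · left; simp
    · right; left; simp
    · right; right; left; simp
    · right; right; right
      rw [one_smul, one_smul, add_comm]
  · intro h h₁ hh hh₁ h0 hm h1 h2
    have hy1 : τ (z + h₁) = 1 := by rw [map_add, hτz, hh₁, add_zero]
    have hy2 : τ (z + h₁ + h) = 1 := by rw [map_add, hy1, hh, add_zero]
    have hk1 : ∃ k ∈ R, k (z + h₁) m ≠ 0 := by
      obtain ⟨k, hk, hkm⟩ := h1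
      refine ⟨k, hk, ?_⟩
      rw [map_add, LinearMap.add_apply, hzm k hk, zero_add]; exact hkm
    have hk2 : ∃ k ∈ R, k (z + h₁ + h) m ≠ 0 := by
      obtain ⟨k, hk, hkm⟩ := h2
      refine ⟨k, hk, ?_⟩
      rw [add_assoc, map_add, LinearMap.add_apply, hzm k hk, zero_add]; exact hkm
    have hns : m ∉ Submodule.span (ZMod 2) {z + h₁, h} := by
      intro hc
      obtain ⟨c, d, hcd⟩ := Submodule.mem_span_pair.1 hc
      have h3 := congrArg τ hcd
      rw [map_add, map_smul, map_smul, hy1, hh, hτm, smul_eq_mul, mul_one, smul_zero, add_zero] at h3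
      rw [h3, zero_smul, zero_add] at hcd
      rcases zm d with rfl | rfl
      · rw [zero_smul] at hcd; exact hm0 hcd.symm
      · rw [one_smul] at hcd; exact hm hcd
    obtain ⟨ψ, hψ, hψm⟩ := exists_sep hns
    have e1 : ψ (z + h₁) = 0 := hψ _ (Submodule.subset_span (by simp))
    have e2 : ψ h = 0 := hψ _ (Submodule.subset_span (by simp))
    obtain ⟨k₁, hk₁, f1⟩ := Ly ctx hy1 hk1 e1
    obtain ⟨k₂, hk₂, f2⟩ := Ly ctx hy2 hk2 (ψ := ψ) (by rw [map_add, e1, e2, add_zero])
    obtain ⟨l, hl, g1, g2⟩ := hL k₁ hk₁ k₂ hk₂ _ _ (f1.trans f2.symm)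
    rw [f1] at g1 g2
    have hlh : l h = 0 := by
      rw [map_add l (z + h₁) h, g1] at g2
      simpa using g2
    have hlm : l h₁ m = 1 := by
      have h5 : l (z + h₁) m = 1 := by rw [g1, hψm]
      rwa [map_add, LinearMap.add_apply, hzm l hl, zero_add] at h5
    refine ⟨l + wdL τ (l z), hfx l hl, ?_, ?_⟩
    · rw [LinearMap.add_apply, hlh, wdL_apply, hh, zero_smul, hR.symm hl, hlh, LinearMap.zero_apply,
        zero_smul, add_zero, add_zero]
    · rw [LinearMap.add_apply, LinearMap.add_apply, hlm, wdL_apply₂, hh₁, hτm, zero_mul, mul_zero,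
        add_zero, add_zero]

end Pool.Agent.ESL
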