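import Pool.Agent.ESL.Stmts

/-!
ESL module F3B: in the case `M = ⟨m⟩` the form space `R^z` has only one component.
-/

set_option linter.unusedVariables false

namespace Pool.Agent.ESL

theorem f3b_proof : Stmt_F3B := by
  intro V _ _ _ R τ m z ctx hτz hzm hfx hh R₁ R₂ hsum hdis hmR₁
  have hR := ctx.alt
  have hstar : ∀ ψ : D V, wdL τ ψ ∈ R ↔ ψ m = 0 := by
    intro ψ
    rw [ctx.star]
    constructor
    · intro h
      exact h m (Submodule.mem_span_singleton_self m)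
    · intro h x hx
      obtain ⟨c, rfl⟩ := Submodule.mem_span_singleton.1 hx
      rw [map_smul, h, smul_zero]
  have hτm : τ m = 0 := (hstar τ).1 (by rw [wdL_self]; exact R.zero_mem)
  have h1 : R₁ ≤ fx R z := by rw [hsum]; exact le_sup_left
  have h2 : R₂ ≤ fx R z := by rw [hsum]; exact le_sup_right
  have hz1 : ∀ k ∈ R₁, k z = 0 := fun k hk => (h1 hk).2
  have hz2 : ∀ k ∈ R₂, k z = 0 := fun k hk => (h2 hk).2
  have hA1 : IsAlt R₁ := hR.mono (h1.trans (fx_le R z))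
  have hA2 : IsAlt R₂ := hR.mono (h2.trans (fx_le R z))
  have htop : rad R₁ ⊔ rad R₂ = ⊤ := by
    rw [← co_Sp hA1, ← co_Sp hA2]
    exact co_sup_top hdis
  -- splitting with `τ = 0`
  have hadj1 : ∀ x ∈ rad R₁, x + τ x • z ∈ rad R₁ := by
    intro x hx k hk
    rw [map_add, map_smul, hx k hk, hz1 k hk, smul_zero, add_zero]
  have hadj2 : ∀ x ∈ rad R₂, x + τ x • z ∈ rad R₂ := by
    intro x hx k hk
    rw [map_add, map_smul, hx k hk, hz2 k hk, smul_zero, add_zero]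
  have hadjτ : ∀ x, τ (x + τ x • z) = 0 := by
    intro x
    rw [map_add, map_smul, hτz, smul_eq_mul, mul_one, CharTwo.add_self_eq_zero]
  have hdec : ∀ k ∈ R, ∃ a ∈ R₁, ∃ b ∈ R₂, a + b = k + wdL τ (k z) := by
    intro k hk
    have := hfx k hk
    rw [hsum] at this
    obtain ⟨a, ha, b, hb, hab⟩ := Submodule.mem_sup.1 this
    exact ⟨a, ha, b, hb, hab⟩
  have hrad : ∀ g ∈ rad R₁, τ g = 0 → g = 0 := by
    intro g₀ hg₀ hτg₀
    by_contra hg₀0
    obtain ⟨g, hg, hτg, hg0, hgm⟩ : ∃ g ∈ rad R₁, τ g = 0 ∧ g ≠ 0 ∧ ∀ k ∈ R, k g m = 0 := by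
      obtain ⟨m₂', hm₂', m₁', hm₁', hmm'⟩ := Submodule.mem_sup.1
        (show m ∈ rad R₁ ⊔ rad R₂ by rw [htop]; trivial)
      obtain ⟨m₁, hm₁, m₂, hm₂, hmm, hτ2⟩ : ∃ m₁ ∈ rad R₂, ∃ m₂ ∈ rad R₁, m₂ + m₁ = m ∧ τ m₂ = 0 := by
        refine ⟨m₁' + τ m₁' • z, hadj2 _ hm₁', m₂' + τ m₂' • z, hadj1 _ hm₂', ?_, hadjτ _⟩
        have h3 : τ m₂' = τ m₁' := by
          have := hτm
          rw [← hmm', map_add] at this
          exact CharTwo.add_eq_zero.1 this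
        rw [h3, add_add_add_comm, add_self', add_zero, hmm']
      have hk : ∀ g, g ∈ rad R₁ → τ g = 0 → (∀ b ∈ R₂, b g m = 0) → ∀ k ∈ R, k g m = 0 := by
        intro g hg hτg hb k hk
        obtain ⟨a, ha, b, hb', hab⟩ := hdec k hk
        have h4 := congrArg (fun F : Fm V => F g m) hab
        simp only [LinearMap.add_apply, wdL_apply₂, hg a ha, LinearMap.zero_apply, hb b hb', hτg,
          hτm, zero_mul, mul_zero, add_zero] at h4
        exact h4.symm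
      by_cases h0 : m₂ = 0
      · refine ⟨g₀, hg₀, hτg₀, hg₀0, hk g₀ hg₀ hτg₀ ?_⟩
        intro b hb
        rw [h0, zero_add] at hmm
        rw [hA2.symm hb, ← hmm, hm₁ b hb]; rfl
      · refine ⟨m₂, hm₂, hτ2, h0, hk m₂ hm₂ hτ2 ?_⟩
        intro b hb
        rw [← hmm, map_add (b m₂), hA2 b hb m₂, hA2.symm hb, hm₁ b hb, LinearMap.zero_apply, add_zero]
    have hgm' : g ≠ m := by
      rintro rfl
      exact hmR₁ hg
    -- `h₁`
    obtain ⟨k₁, hk₁, x₁, hx₁, hτx₁, hne⟩ : ∃ k₁ ∈ R₁, ∃ x ∈ rad R₂, τ x = 0 ∧ k₁ x m ≠ 0 := by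
      have h5 : ∃ k₁ ∈ R₁, k₁ m ≠ 0 := by
        by_contra hc
        push Not at hc
        exact hmR₁ hc
      obtain ⟨k₁, hk₁, hk₁m⟩ := h5
      have h6 : ∃ x, k₁ m x ≠ 0 := by
        by_contra hc
        push Not at hc
        exact hk₁m (LinearMap.ext hc)
      obtain ⟨x, hx⟩ := h6
      obtain ⟨x₂, hx₂, x₁, hx₁, rfl⟩ := Submodule.mem_sup.1
        (show x ∈ rad R₁ ⊔ rad R₂ by rw [htop]; trivial)
      refine ⟨k₁, hk₁, x₁ + τ x₁ • z, hadj2 _ hx₁, hadjτ _, ?_⟩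
      rw [map_add, map_smul, hz1 k₁ hk₁, smul_zero, add_zero]
      rw [hA1.symm hk₁, map_add, hx₂ k₁ hk₁, zero_add] at hx
      exact hx
    have hk₁R : k₁ ∈ R := (h1 hk₁).1
    obtain ⟨k, hk, hkh, hkm⟩ := hh (m + g) x₁ (by rw [map_add, hτm, hτg, add_zero]) hτx₁
      (fun h => hgm' (eq_of_add h).symm) (fun h => hg0 (by simpa using h)) ⟨k₁, hk₁R, hne⟩ ⟨k₁, hk₁R, by
        rw [map_add k₁, map_add k₁, LinearMap.add_apply, LinearMap.add_apply, hR k₁ hk₁R m,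
          hgm k₁ hk₁R, add_zero, add_zero]
        exact hne⟩
    rw [hsum] at hk
    obtain ⟨a, ha, b, hb, rfl⟩ := Submodule.mem_sup.1 hk
    rw [LinearMap.add_apply] at hkh
    have e1 : a (m + g) = 0 := by
      have h7 : a (m + g) = b (m + g) := eq_of_add hkh
      have h8 : a (m + g) ∈ Sp R₁ ⊓ Sp R₂ := ⟨mem_Sp ha _, h7 ▸ mem_Sp hb _⟩
      rw [hdis.eq_bot] at h8
      simpa using h8
    rw [map_add, hg a ha, add_zero] at e1
    rw [LinearMap.add_apply, LinearMap.add_apply, hx₁ b hb, hA1.symm ha, e1] at hkm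
    simp at hkm
  have hrad1 : rad R₁ = Submodule.span (ZMod 2) {z} := by
    apply le_antisymm
    · intro x hx
      have h3 := hrad _ (hadj1 x hx) (hadjτ x)
      rw [eq_of_add h3]
      exact Submodule.smul_mem _ _ (Submodule.mem_span_singleton_self z)
    · rw [Submodule.span_singleton_le_iff_mem]
      exact hz1
  have hSp : Sp R₂ ≤ Sp R₁ := by
    rw [← an_rad hA1, hrad1]
    apply Sp_le.2
    intro k hk x y hy
    obtain ⟨c, rfl⟩ := Submodule.mem_span_singleton.1 hy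
    rw [map_smul, hA2.symm hk, hz2 k hk, LinearMap.zero_apply, smul_zero]
  have hR2 : R₂ = ⊥ := by
    rw [eq_bot_iff]
    intro k hk
    rw [Submodule.mem_bot]
    ext x y
    have h3 : k x ∈ Sp R₁ ⊓ Sp R₂ := ⟨hSp (mem_Sp hk x), mem_Sp hk x⟩
    rw [hdis.eq_bot, Submodule.mem_bot] at h3
    rw [h3]; rfl
  refine ⟨hR2, ?_⟩
  rw [hsum, hR2, sup_bot_eq, hrad1]

end Pool.Agent.ESL
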