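import Pool.Agent.ESL.F1

/-!
F4A: every `w ∈ H \ M` is split, `d ≥ 3`.
-/

set_option linter.unusedVariables false

namespace Pool.Agent.ESL

theorem f4a_proof (hRK : Stmt_RK2) (hDEC : Stmt_DEC2) : Stmt_F4A := by
  intro V _ _ _ R τ M hC hFull h3 w hwM hτw
  have hw0 : w ≠ 0 := by
    rintro rfl
    exact hwM (Submodule.zero_mem _)
  have hτM : τ ∈ an M := by
    rw [mem_an, ← hC.star, wdL_self]
    exact R.zero_mem
  let W : Submodule (ZMod 2) V := M ⊔ Submodule.span (ZMod 2) {w}
  have hwW : w ∈ W := Submodule.mem_sup_right (Submodule.mem_span_singleton_self _)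
  have hMW : M ≤ W := le_sup_left
  have hfr : fr (an W) + fr W = fr V := finrank_an W
  have hfW : fr W ≤ fr M + 1 := by
    have h1 : fr W ≤ fr M + fr (Submodule.span (ZMod 2) ({w} : Set V)) :=
      Submodule.finrank_add_le_finrank_add_finrank _ _
    have h2 : fr (Submodule.span (ZMod 2) ({w} : Set V)) = 1 := finrank_span_singleton hw0
    omega
  have h2 : 2 ≤ fr (an W) := by omega
  have hτW : τ ∈ an W := by
    rw [an_sup]
    refine ⟨hτM, fun x hx => ?_⟩
    rcases F1X.mem_span_sing.1 hx with rfl | rfl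
    · exact map_zero _
    · exact hτw
  have hT : ∀ ψ ∈ an W, wdL τ ψ ∈ fx R w := by
    intro ψ hψ
    refine ⟨(hC.star ψ).2 fun m hm => hψ m (hMW hm), ?_⟩
    rw [wdL_apply, hτw, hψ w hwW, zero_smul, zero_smul, add_zero]
  obtain ⟨R₁, R₂, hsum, hdis, hle, σ, hσ, hσ0, hσs⟩ :=
    F1X.sub hRK hDEC hC.alt hC.τ0 (hC.et w hw0) hτW h2 hT
  have hle1' : R₁ ≤ fx R w := le_sup_left.trans hsum.symm.le
  have hle1 : R₁ ≤ R := hle1'.trans (fx_le R w)
  have hle2' : R₂ ≤ fx R w := le_sup_right.trans hsum.symm.le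
  -- the support of `R₁`
  have hσM : σ ∈ an M := by
    have h5 : wdL τ σ ∈ R := by
      rw [wdL_comm]
      exact hle1 (hσs τ (hle hτW))
    exact (hC.star σ).1 h5
  have hTM : Sp R₁ ≤ an M := by
    intro χ hχ m hm
    by_contra hne
    have h1 : χ m = 1 := zm_ne hne
    have h5 : wdL σ χ m = σ := by
      rw [wdL_apply, h1, hσM m hm, zero_smul, one_smul, zero_add]
    have h6 := hFull m hm (wdL σ χ) (hle1 (hσs χ hχ)) (fun a ha => by
      rw [h5]; exact hσM a ha)
    rw [h5] at h6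
    exact hσ0 h6
  apply F1X.step hC.alt hsum hTM
  rw [Submodule.disjoint_def]
  intro φ hφ hφM
  have hφw : φ ∈ an W := by
    rw [an_sup]
    refine ⟨hφM, fun x hx => ?_⟩
    rcases F1X.mem_span_sing.1 hx with rfl | rfl
    · exact map_zero _
    · have h7 : Sp R₂ ≤ an (Submodule.span (ZMod 2) {x}) := by
        apply Sp_le.2
        intro k hk y z hz
        rcases F1X.mem_span_sing.1 hz with rfl | rfl
        · exact map_zero _
        · rw [hC.alt.symm (hle2' hk).1, (hle2' hk).2]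
          rfl
      exact h7 hφ x (Submodule.mem_span_singleton_self _)
  exact Submodule.disjoint_def.1 hdis φ (hle hφw) hφ

end Pool.Agent.ESL
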