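import Pool.Agent.ESL.F1

/-!
F4B: the case `d = 2`.
-/

set_option linter.unusedVariables false

namespace Pool.Agent.ESL

theorem f4b_proof (hSPV : Stmt_SPV) : Stmt_F4B := by
  intro V _ _ _ R τ M hC hFull hd w hwM
  have hw0 : w ≠ 0 := by
    rintro rfl
    exact hwM (Submodule.zero_mem _)
  have hdis : Disjoint (Sp (fx R w)) (an M) := by
    rw [Submodule.disjoint_def]
    intro φ hφ hφM
    by_contra hφ0
    obtain ⟨k, hk, u, hu⟩ := hSPV V (fx R w) (hC.et w hw0) φ hφ
    let W : Submodule (ZMod 2) V := M ⊔ Submodule.span (ZMod 2) {w}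
    have hwW : w ∈ W := Submodule.mem_sup_right (Submodule.mem_span_singleton_self _)
    have hlt : M < W := by
      refine lt_of_le_of_ne le_sup_left ?_
      intro h
      exact hwM (h ▸ hwW)
    have h1 : fr M < fr W := Submodule.finrank_lt_finrank_of_lt hlt
    have hker : LinearMap.ker φ < ⊤ := by
      rw [lt_top_iff_ne_top]
      intro h
      exact hφ0 (LinearMap.ker_eq_top.1 h)
    have h2 : fr (LinearMap.ker φ) < fr V := Submodule.finrank_lt hker.ne
    have hφw : φ w = 0 := by
      rw [← hu, (hC.alt).symm hk.1, hk.2]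
      rfl
    have hle : W ≤ LinearMap.ker φ := by
      apply sup_le
      · intro m hm
        exact hφM m hm
      · intro x hx
        rcases F1X.mem_span_sing.1 hx with rfl | rfl
        · exact map_zero _
        · exact hφw
    have heq : W = LinearMap.ker φ := by
      apply Submodule.eq_of_le_of_finrank_le hle
      show fr (LinearMap.ker φ) ≤ fr W
      omega
    have huW : u ∈ W := by
      rw [heq, LinearMap.mem_ker, ← hu]
      exact hC.alt k hk.1 u
    obtain ⟨m, hm, x, hx, rfl⟩ := Submodule.mem_sup.1 huW
    have hkx : k x = 0 := by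
      rcases F1X.mem_span_sing.1 hx with rfl | rfl
      · exact map_zero _
      · exact hk.2
    rw [map_add, hkx, add_zero] at hu
    have h3 := hFull m hm k hk.1 (fun a ha => by rw [hu]; exact hφM a ha)
    rw [hu] at h3
    exact hφ0 h3
  have h := co_sup_top hdis
  rwa [co_an, co_Sp (hC.alt.mono (fx_le R w))] at h

end Pool.Agent.ESL
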