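import Pool.Agent.ESL.F1

/-!
F4C: every `y ∈ Y` is split if the forms killing `M` and `y` separate.
-/

set_option linter.unusedVariables false

namespace Pool.Agent.ESL

theorem f4c_proof (hMET : Stmt_MET) : Stmt_F4C := by
  intro V _ _ _ R τ M hC hFull y hy hsep
  have hy0 : y ≠ 0 := by
    rintro rfl
    rw [map_zero] at hy
    exact zero_ne_one hy
  have hRy : IsAlt (fx R y) := hC.alt.mono (fx_le R y)
  have hFy : Full (fx R y) M := fun m hm k hk h => hFull m hm k hk.1 h
  obtain ⟨R', hsum, hdis⟩ := hMET V (fx R y) (hC.et y hy0) M hFy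
  have hτM : τ ∈ an M := by
    rw [mem_an, ← hC.star, wdL_self]
    exact R.zero_mem
  have hle' : R' ≤ fx R y := le_sup_right.trans hsum.symm.le
  have hSalt : IsAlt (fxs (fx R y) M) := hRy.mono (fxs_le _ _)
  -- the radical of `S`
  have hrad : ∀ x ∈ rad (fxs (fx R y) M), x ∈ M ∨ x + y ∈ M := by
    intro x hx
    rcases zm (τ x) with h0 | h1
    · left
      by_contra hxM
      obtain ⟨κ, hκ, hκM, hκy, hκx⟩ := hsep x hxM h0
      exact hκx (hx κ ⟨⟨hκ, hκy⟩, hκM⟩)
    · right
      by_contra hxM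
      have h2 : τ (x + y) = 0 := by
        rw [map_add, h1, hy]
        exact CharTwo.add_self_eq_zero 1
      obtain ⟨κ, hκ, hκM, hκy, hκx⟩ := hsep (x + y) hxM h2
      apply hκx
      rw [map_add, hκy, add_zero]
      exact hx κ ⟨⟨hκ, hκy⟩, hκM⟩
  have hspS : ∀ φ ∈ an M, φ y = 0 → φ ∈ Sp (fxs (fx R y) M) := by
    intro φ hφ hφy
    rw [← an_rad hSalt]
    intro x hx
    rcases hrad x hx with h | h
    · exact hφ x h
    · have := hφ _ h
      rwa [map_add, hφy, add_zero] at this
  have hT : Sp (fxs (fx R y) M) ≤ an M := by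
    apply Sp_le.2
    intro k hk x m hm
    rw [hSalt.symm hk, hk.2 m hm]
    rfl
  apply F1X.step hC.alt hsum hT
  rw [Submodule.disjoint_def]
  intro φ hφ hφM
  have hφy : φ y = 0 := by
    have h7 : Sp R' ≤ an (Submodule.span (ZMod 2) {y}) := by
      apply Sp_le.2
      intro k hk x z hz
      rcases F1X.mem_span_sing.1 hz with rfl | rfl
      · exact map_zero _
      · rw [hC.alt.symm (hle' hk).1, (hle' hk).2]
        rfl
    exact h7 hφ y (Submodule.mem_span_singleton_self _)
  exact Submodule.disjoint_def.1 hdis φ (hspS φ hφM hφy) hφ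

end Pool.Agent.ESL
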