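import Pool.Agent.ESL.G1

/-!
Atoms are forms of blocks.
-/

set_option linter.unusedVariables false

namespace Pool.Agent.ESL

open G1X

theorem g1a_proof (h1 : Stmt_AU1) (h2 : Stmt_AU2) (h3 : Stmt_AU3) : Stmt_G1A := by
  classical
  intro V _ _ _ R hR a ha φ hφ hφ0
  obtain ⟨w, hw, haw⟩ := ha
  obtain ⟨x, rfl⟩ := hφ
  have hat : ∀ u, u ≠ 0 → a u = 0 → At R u a := fun u hu hau => h2 V R hR u w a hu hw haw hau
  refine ⟨haw.1, hφ0, ⟨x, rfl⟩, ⟨w, hw, haw.2.1⟩, ?_, ?_⟩
  · intro u hu hau z hz hzu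
    obtain ⟨k1, hk1, ek1⟩ := hz
    obtain ⟨k2, hk2, ek2⟩ := hzu
    obtain ⟨l', hl', f1, f2⟩ := hR.sl.linked k1 hk1 k2 hk2 z (z + u) (ek1.trans ek2.symm)
    rw [ek1] at f1 f2
    have hl'u : l' ∈ fx R u := by
      refine ⟨hl', ?_⟩
      rw [map_add, f1] at f2
      have := congrArg (a x + ·) f2
      simpa [add_add_self, add_self'] using this
    obtain ⟨I', hI', el', -, -, -⟩ := h3 V R hR u hu l' hl'u
    have hind' := (h1 V R hR u hu).1
    have hcomp := ind_sub hind' (I := I') (J := {a}) hI'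
      (Finset.singleton_subset_iff.2 (mem_ats.2 (hat u hu hau))) (x := z) (y := x) (by
      rw [← el', f1, Finset.sum_singleton]) a (mem_ats.2 (hat u hu hau))
    rw [if_pos (Finset.mem_singleton_self a)] at hcomp
    by_cases h6 : a ∈ I'
    · rw [if_pos h6] at hcomp; exact hcomp
    · rw [if_neg h6] at hcomp
      exact absurd hcomp.symm hφ0
  · intro u hu hau b hb hba z hz
    rcases (hat u hu hau).2.2.2 b hb.1 hb.2.1 hba with h | h
    · exact absurd h hb.2.2.1
    · rw [h, hz]; exact hφ0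

end Pool.Agent.ESL
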