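import Pool.Agent.ESL.G1

/-!
Size of the blocks.
-/

set_option linter.unusedVariables false

namespace Pool.Agent.ESL

open G1X

namespace G2X

variable {V : Type} [AddCommGroup V] [Module (ZMod 2) V]

theorem card_fx_le [Finite V] (h3 : Stmt_AU3) {R : FS V} (hR : CtxII R) {y : V} (hy : y ≠ 0) :
    Nat.card (fx R y) ≤ 2 ^ (ats R y).card := by
  classical
  have hf : ∀ k : fx R y, ∃ I ∈ (ats R y).powerset, (k : Fm V) = ∑ a ∈ I, a := by
    intro k
    obtain ⟨I, hI, hk, -⟩ := h3 V R hR y hy k k.2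
    exact ⟨I, Finset.mem_powerset.2 hI, hk⟩
  choose f hf1 hf2 using hf
  have hinj : Function.Injective (fun k => (⟨f k, hf1 k⟩ : (ats R y).powerset)) := by
    intro k l hkl
    have h5 : f k = f l := congrArg Subtype.val hkl
    apply Subtype.ext
    rw [hf2 k, hf2 l, h5]
  have h6 := Nat.card_le_card_of_injective _ hinj
  have h7 : Nat.card (ats R y).powerset = 2 ^ (ats R y).card := by
    rw [Nat.card_eq_fintype_card, Fintype.card_coe, Finset.card_powerset]
  rw [h7] at h6
  exact h6

end G2X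

open G2X

theorem g2_proof (hg1 : Stmt_G1) (h3 : Stmt_AU3) : Stmt_G2 := by
  classical
  intro V _ _ _ R hR ψ k y hB hy hky
  have hy0 : y ≠ 0 := by
    rintro rfl
    rw [Lx_zero] at hy
    exact hB.ne ((Submodule.mem_bot _).1 hy)
  obtain ⟨z0, hz0⟩ := hB.ex
  obtain ⟨ρ0, hρ0, eρ0⟩ := hy
  have key : ∀ v : LinearMap.ker k, ∃ ρ, Blk R ψ ρ ∧ ρ (z0 + v) = ψ ∧ ρ y = ψ := by
    rintro ⟨v, hv⟩
    have hv' : k v = 0 := hv
    have e1 : k (z0 + v) = ψ := by rw [map_add, hv', add_zero, hz0]
    refine hg1 V R hR ψ hB.ne (z0 + v) y ?_ ⟨k, hB.mem, e1⟩ ⟨ρ0, hρ0, eρ0⟩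
    intro h
    rw [h] at e1
    exact hky e1
  choose g hg using key
  have hinj : Function.Injective (fun v : LinearMap.ker k => (⟨g v + ρ0, by
      refine ⟨R.add_mem (hg v).1.mem hρ0, ?_⟩
      rw [LinearMap.add_apply, (hg v).2.2, eρ0, add_self']⟩ : fx R y)) := by
    intro v v' hvv
    have h5 : g v + ρ0 = g v' + ρ0 := congrArg Subtype.val hvv
    have h6 : g v = g v' := by
      have := congrArg (· + ρ0) h5
      simpa [add_add_self'] using this
    by_contra hne
    have hu : (v : V) + v' ≠ 0 := by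
      intro h
      exact hne (Subtype.ext (eq_of_add h))
    have hku : k ((v : V) + v') = 0 := by
      have e1 : k v = 0 := v.2
      have e2 : k v' = 0 := v'.2
      rw [map_add, e1, e2, add_zero]
    have hρu : g v ((v : V) + v') = 0 := by
      have e1 := (hg v).2.1
      have e2 := (hg v').2.1
      rw [← h6] at e2
      have e3 : (v : V) + v' = (z0 + v) + (z0 + v') := by
        have : (z0 + (v : V)) + (z0 + v') = (z0 + z0) + (v + v') := by abel
        rw [this, add_self', zero_add]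
      rw [e3, map_add, e1, e2, add_self']
    have := hB.all _ hu hku y ⟨ρ0, hρ0, eρ0⟩ ⟨g v, (hg v).1.mem, by
      rw [map_add, (hg v).2.2, hρu, add_zero]⟩
    exact hky this
  have h8 := Nat.card_le_card_of_injective _ hinj
  have h9 := h8.trans (card_fx_le h3 hR hy0)
  rw [card_eq] at h9
  exact (Nat.pow_le_pow_iff_right (by norm_num)).1 h9

end Pool.Agent.ESL
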