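import Pool.Agent.ESL.Stmts

/-!
Modules G2A, G3, GG.
-/

namespace Pool.Agent.ESL

namespace G2AX

variable {V : Type} [AddCommGroup V] [Module (ZMod 2) V]

theorem sum_finrank [Finite V] (A : Finset (Fm V)) (hA : IndB A) (I : Finset (Fm V)) (hI : I ⊆ A) :
    ∑ a ∈ I, fr (LinearMap.range a) = fr (I.sup (fun a : Fm V => LinearMap.range a) :
      Submodule (ZMod 2) (D V)) := by
  classical
  have hs : A.SupIndep (fun a : Fm V => (LinearMap.range a : Submodule (ZMod 2) (D V))) :=
    (Finset.supIndep_attach (s := A)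
      (f := fun a : Fm V => (LinearMap.range a : Submodule (ZMod 2) (D V)))).1
      (iSupIndep.supIndep' A.attach hA.2)
  induction I using Finset.induction_on with
  | empty =>
    rw [Finset.sum_empty, Finset.sup_empty]
    exact (finrank_bot _ _).symm
  | insert a I ha ih =>
    rw [Finset.sum_insert ha, Finset.sup_insert, ih (fun x hx => hI (Finset.mem_insert_of_mem hx))]
    have hd : Disjoint (LinearMap.range a : Submodule (ZMod 2) (D V))
        (I.sup (fun a : Fm V => LinearMap.range a)) :=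
      hs (fun x hx => hI (Finset.mem_insert_of_mem hx)) (hI (Finset.mem_insert_self _ _)) ha
    have h1 := Submodule.finrank_sup_add_finrank_inf_eq (LinearMap.range a)
      (I.sup (fun a : Fm V => (LinearMap.range a : Submodule (ZMod 2) (D V))))
    rw [hd.eq_bot, finrank_bot, add_zero] at h1
    exact h1.symm

theorem mem_ats [Finite V] {R : FS V} {w : V} {a : Fm V} : a ∈ ats R w ↔ At R w a := by
  unfold ats
  rw [Set.Finite.mem_toFinset]
  rfl

theorem rank_ge (hE : Stmt_EVEN) [Finite V] {k : Fm V} (h : ∀ x, k x x = 0) (h0 : k ≠ 0) :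
    2 ≤ fr (LinearMap.range k) := by
  obtain ⟨m, hm⟩ := hE V k h
  have : fr (LinearMap.range k) ≠ 0 := by
    intro h1
    have h2 : (LinearMap.range k : Submodule (ZMod 2) (D V)) = ⊥ := Submodule.finrank_eq_zero.1 h1
    exact h0 (LinearMap.range_eq_bot.1 h2)
  omega

theorem sum_le (h1 : Stmt_AU1) [Finite V] {R : FS V} (hR : CtxII R) {y : V} (hy : y ≠ 0)
    (I : Finset (Fm V)) (hI : I ⊆ ats R y) :
    ∑ a ∈ I, fr (LinearMap.range a) + 1 ≤ fr V := by
  rw [sum_finrank (ats R y) (h1 V R hR y hy).1 I hI]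
  have hle : (I.sup (fun a : Fm V => LinearMap.range a) : Submodule (ZMod 2) (D V)) ≤
      an (Submodule.span (ZMod 2) {y}) := by
    apply Finset.sup_le
    rintro a ha _ ⟨x, rfl⟩ z hz
    obtain ⟨c, rfl⟩ := Submodule.mem_span_singleton.1 hz
    have hat := mem_ats.1 (hI ha)
    rw [map_smul, symm_of_alt (hR.alt a hat.1), hat.2.1]
    simp
  have h2 := Submodule.finrank_mono hle
  have h3 := finrank_an (Submodule.span (ZMod 2) {y})
  rw [finrank_span_singleton hy] at h3
  have h4 : fr (I.sup (fun a : Fm V => LinearMap.range a) : Submodule (ZMod 2) (D V)) ≤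
    Module.finrank (ZMod 2) (an (Submodule.span (ZMod 2) {y})) := h2
  show _ + 1 ≤ Module.finrank (ZMod 2) V
  omega

end G2AX

open G2AX in
theorem g2a_proof (h1 : Stmt_AU1) (hE : Stmt_EVEN) : Stmt_G2A := by
  classical
  intro V _ _ _ R hR y hy
  constructor
  · have h2 := sum_le h1 hR hy (ats R y) (Finset.Subset.refl _)
    have h3 : (ats R y).card • 2 ≤ ∑ a ∈ ats R y, fr (LinearMap.range a) := by
      apply Finset.card_nsmul_le_sum
      intro a ha
      have hat := mem_ats.1 ha
      exact rank_ge hE (hR.alt a hat.1) hat.2.2.1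
    rw [smul_eq_mul] at h3
    omega
  · intro h2
    obtain ⟨a, ha, b, hb, hab⟩ := Finset.one_lt_card.1 h2
    have h3 := sum_le h1 hR hy {a, b} (by
      intro x hx
      rw [Finset.mem_insert, Finset.mem_singleton] at hx
      rcases hx with rfl | rfl
      · exact ha
      · exact hb)
    rw [Finset.sum_pair hab] at h3
    rcases le_total (fr (LinearMap.range a)) (fr (LinearMap.range b)) with h | h
    · exact ⟨a, mem_ats.1 ha, by omega⟩
    · exact ⟨b, mem_ats.1 hb, by omega⟩

theorem g3_proof (h1a : Stmt_G1A) (h2 : Stmt_G2) (h2a : Stmt_G2A) : Stmt_G3 := by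
  intro V _ _ _ R hR a ha hr φ hφ hφ0 x hx
  by_contra hax
  have hB := h1a V R hR a ha φ hφ hφ0
  have h3 := h2 V R hR φ a x hB hx hax
  have hx0 : x ≠ 0 := by
    rintro rfl
    rw [Lx_zero] at hx
    exact hφ0 hx
  have h4 := (h2a V R hR x hx0).1
  have h5 : fr (LinearMap.range a) + fr (LinearMap.ker a) = fr V := LinearMap.finrank_range_add_finrank_ker a
  omega

theorem gg_proof (h1a : Stmt_G1A) (h2 : Stmt_G2) (h2a : Stmt_G2A) (h3 : Stmt_G3) (h5 : Stmt_G5) :
    Stmt_GG := by
  intro V _ _ _ R hR a ha hr φ hφ hφ0 x hx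
  by_contra hax
  have hB := h1a V R hR a ha φ hφ hφ0
  have h6 := h2 V R hR φ a x hB hx hax
  have hx0 : x ≠ 0 := by
    rintro rfl
    rw [Lx_zero] at hx
    exact hφ0 hx
  obtain ⟨b, hb, hbr⟩ := (h2a V R hR x hx0).2 (by omega)
  have hbA : Atom R b := ⟨x, hx0, hb⟩
  have hg := h3 V R hR b hbA hbr
  exact hax (h5 V R hR b hbA hg φ a x hB hx hb.2.1 x hx)

end Pool.Agent.ESL
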