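import Pool.Agent.ESL.Stmts

/-!
Module G6: `n` even, all atoms are good.
-/

set_option linter.unusedSectionVars false
set_option linter.unusedVariables false

namespace Pool.Agent.ESL

theorem g6_proof (hGG : Stmt_GG) (hE : Stmt_EVEN) : Stmt_G6 := by
  intro V _ _ _ R hR hev a ha
  refine hGG V R hR a ha ?_
  obtain ⟨w, hw, haR, haw, -, -⟩ := ha
  have h1 : Even (fr (LinearMap.range a)) := hE V a (hR.alt a haR)
  have h2 : fr (LinearMap.range a) + fr (LinearMap.ker a) = fr V :=
    LinearMap.finrank_range_add_finrank_ker a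
  have h3 : 0 < fr (LinearMap.ker a) := by
    have : Nontrivial (LinearMap.ker a) :=
      ⟨⟨⟨w, haw⟩, 0, fun h => hw (congrArg Subtype.val h)⟩⟩
    exact Module.finrank_pos
  have h4 : Even (fr (LinearMap.ker a)) := by
    rw [← h2] at hev
    exact (Nat.even_add.1 hev).1 h1
  obtain ⟨c, hc⟩ := h4
  omega

end Pool.Agent.ESL
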