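import Pool.Agent.ESL.Stmts

set_option linter.unusedSectionVars false
set_option linter.unusedVariables false

namespace Pool.Agent.ESL

namespace G7X

variable {V : Type} [AddCommGroup V] [Module (ZMod 2) V] [Finite V]

theorem ker_one {k : Fm V} (h : fr (LinearMap.ker k) = 1) :
    ∃ x, x ≠ 0 ∧ k x = 0 ∧ ∀ y, k y = 0 → y = 0 ∨ y = x := by
  obtain ⟨v, hv, hv'⟩ := finrank_eq_one_iff'.1 h
  refine ⟨v, fun h0 => hv (Subtype.ext h0), v.2, fun y hy => ?_⟩
  obtain ⟨c, hc⟩ := hv' ⟨y, hy⟩
  have hc' : c • (v : V) = y := congrArg Subtype.val hc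
  rcases zm c with rfl | rfl
  · left; rw [← hc', zero_smul]
  · right; rw [← hc', one_smul]

end G7X

open G7X

theorem g7_proof (h6 : Stmt_G6) (h7a : Stmt_G7A) (h7b : Stmt_G7B) (h7c : Stmt_G7C) : Stmt_G7 := by
  intro V _ _ _ R ctx hno2 h2
  by_contra hcon
  push Not at hcon
  obtain ⟨a, ha⟩ := h7a V R ctx h2
  rcases Nat.even_or_odd (fr V) with hev | hodd
  · exact hcon a ha (h6 V R ctx hev a ha)
  obtain ⟨c1, c2, c3⟩ := h7c V R ctx hodd hcon
  have hx : ∀ k : {k : Fm V // k ∈ R ∧ k ≠ 0}, ∃ x, x ≠ 0 ∧ k.1 x = 0 ∧ ∀ y, k.1 y = 0 → y = 0 ∨ y = x :=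
    fun k => ker_one (c1 k.1 k.2.1 k.2.2).2
  choose f f0 f1 f2 using hx
  have finj : Function.Injective f := by
    intro k l hkl
    apply Subtype.ext
    apply c2 k.1 k.2.1 l.1 l.2.1 k.2.2 l.2.2
    ext y
    rw [LinearMap.mem_ker, LinearMap.mem_ker]
    constructor
    · intro hy
      rcases f2 k y hy with rfl | rfl
      · exact map_zero _
      · rw [hkl]; exact f1 l
    · intro hy
      rcases f2 l y hy with rfl | rfl
      · exact map_zero _
      · rw [← hkl]; exact f1 k
  classical
  have : Fintype V := Fintype.ofFinite V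
  have : Fintype {k : Fm V // k ∈ R ∧ k ≠ 0} := Fintype.ofFinite _
  let S : Finset V := Finset.univ.image f
  have hS0 : (0 : V) ∉ S := by
    intro h
    obtain ⟨k, -, hk⟩ := Finset.mem_image.1 h
    exact f0 k hk
  have hcardR : Nat.card {k : Fm V // k ∈ R ∧ k ≠ 0} + 1 = 2 ^ fr R := by
    rw [← card_eq R]
    have e : Option {k : Fm V // k ∈ R ∧ k ≠ 0} ≃ R := by
      refine Equiv.ofBijective (fun o => match o with | none => 0 | some k => ⟨k.1, k.2.1⟩) ⟨?_, ?_⟩
      · rintro (_ | k) (_ | l) h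
        · rfl
        · exact absurd (congrArg Subtype.val h).symm l.2.2
        · exact absurd (congrArg Subtype.val h) k.2.2
        · have h' : k.1 = l.1 := congrArg (fun z : R => z.1) h
          exact congrArg some (Subtype.ext h')
      · rintro ⟨k, hk⟩
        by_cases hk0 : k = 0
        · exact ⟨none, by subst hk0; rfl⟩
        · exact ⟨some ⟨k, hk, hk0⟩, rfl⟩
    rw [← Nat.card_congr e, Nat.card_eq_fintype_card, Nat.card_eq_fintype_card, Fintype.card_option]
  have hcardS : S.card + 1 = 2 ^ fr R := by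
    rw [← hcardR, Finset.card_image_of_injective _ finj, Finset.card_univ, Nat.card_eq_fintype_card]
  have hφ : ∀ φ : D V, φ ≠ 0 → Nat.card {x // x ∈ S ∧ φ x = 0} ∈ ({0, 1, 3} : Set ℕ) := by
    intro φ hφ0
    have e : {k // k ∈ R ∧ k ≠ 0 ∧ φ ∈ LinearMap.range k} ≃ {x // x ∈ S ∧ φ x = 0} := by
      refine Equiv.ofBijective (fun k => ⟨f ⟨k.1, k.2.1, k.2.2.1⟩,
        Finset.mem_image.2 ⟨_, Finset.mem_univ _, rfl⟩,
        (mem_range_iff (ctx.alt k.1 k.2.1)).1 k.2.2.2 _ (f1 ⟨k.1, k.2.1, k.2.2.1⟩)⟩) ⟨?_, ?_⟩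
      · intro k l h
        have h' := finj (congrArg Subtype.val h)
        apply Subtype.ext
        exact congrArg (fun z => z.1) h'
      · rintro ⟨x, hx, hx0⟩
        obtain ⟨k, -, rfl⟩ := Finset.mem_image.1 hx
        refine ⟨⟨k.1, k.2.1, k.2.2, (mem_range_iff (ctx.alt k.1 k.2.1)).2 fun y hy => ?_⟩, rfl⟩
        rcases f2 k y hy with rfl | rfl
        · exact map_zero _
        · exact hx0
    rw [← Nat.card_congr e]
    exact c3 φ hφ0
  have hrk : ∀ k ∈ R, k ≠ 0 → fr (LinearMap.range k) + 1 = fr V := by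
    intro k hk hk0
    have := LinearMap.finrank_range_add_finrank_ker k
    rw [← (c1 k hk hk0).2]
    exact this
  -- two elements
  obtain ⟨k0, hk0R, hk00⟩ : ∃ k ∈ R, k ≠ 0 := by
    by_contra hc
    push Not at hc
    have : R = ⊥ := by
      rw [eq_bot_iff]; intro k hk; rw [Submodule.mem_bot]; exact hc k hk
    rw [this] at h2
    simp at h2
  rcases h7b V S (fr R) hS0 h2 hcardS hφ with h3 | ⟨x, y, hxy, hxS, hyS, hxyS, hb⟩
  · have h4 := hrk k0 hk0R hk00
    exact hno2 k0 hk0R (by omega)
  · obtain ⟨k1, -, e1⟩ := Finset.mem_image.1 hxS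
    obtain ⟨k2, -, e2⟩ := Finset.mem_image.1 hyS
    obtain ⟨k3, -, e3⟩ := Finset.mem_image.1 hxyS
    have n12 : k1 ≠ k2 := by rintro rfl; exact hxy (e1.symm.trans e2)
    have x0 : x ≠ 0 := e1 ▸ f0 k1
    have y0 : y ≠ 0 := e2 ▸ f0 k2
    have n13 : k1 ≠ k3 := by
      rintro rfl
      apply y0
      have : x = x + y := e1.symm.trans e3
      have h := congrArg (x + ·) this
      simpa [add_add_self, add_self'] using h.symm
    have n23 : k2 ≠ k3 := by
      rintro rfl
      apply x0
      have : y = x + y := e2.symm.trans e3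
      have h := congrArg (· + y) this
      simpa [add_add_self', add_self'] using h.symm
    have hcard3 : Fintype.card {k : Fm V // k ∈ R ∧ k ≠ 0} = 3 := by
      rw [← Nat.card_eq_fintype_card]
      rw [hb] at hcardR
      omega
    have hall : ∀ k : {k : Fm V // k ∈ R ∧ k ≠ 0}, k = k1 ∨ k = k2 ∨ k = k3 := by
      have hsub : ({k1, k2, k3} : Finset {k : Fm V // k ∈ R ∧ k ≠ 0}) = Finset.univ := by
        apply Finset.eq_univ_of_card
        rw [hcard3, Finset.card_eq_three]
        exact ⟨k1, k2, k3, n12, n13, n23, rfl⟩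
      intro k
      have := Finset.mem_univ k
      rw [← hsub] at this
      simpa using this
    have hsum : k1.1 + k2.1 = k3.1 := by
      have hne : k1.1 + k2.1 ≠ 0 := fun h => n12 (Subtype.ext (eq_of_add h))
      rcases hall ⟨k1.1 + k2.1, R.add_mem k1.2.1 k2.2.1, hne⟩ with h | h | h
      · exfalso
        have h' : k1.1 + k2.1 = k1.1 := congrArg Subtype.val h
        exact k2.2.2 (by simpa using h')
      · exfalso
        have h' : k1.1 + k2.1 = k2.1 := congrArg Subtype.val h
        exact k1.2.2 (by simpa using h')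
      · exact congrArg Subtype.val h
    have hk3 : ∀ z, k3.1 z = k1.1 z + k2.1 z := by
      intro z; rw [← hsum]; rfl
    have hk3' : ∀ z φ, k1.1 z = φ → k2.1 z = φ → k3.1 z = 0 := by
      intro z φ h1 h2; rw [hk3, h1, h2, ZModModule.add_self]
    have hk1x : k1.1 x = 0 := e1 ▸ f1 k1
    have hk2y : k2.1 y = 0 := e2 ▸ f1 k2
    have hk3xy : k3.1 (x + y) = 0 := e3 ▸ f1 k3
    -- key
    have key : ∀ φ : D V, φ ≠ 0 → φ x = 0 → φ y = 0 → k2.1 x = φ := by
      intro φ hφ0 hφx hφy
      have r1 : φ ∈ LinearMap.range k1.1 := (mem_range_iff (ctx.alt _ k1.2.1)).2 fun z hz => by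
        rcases f2 k1 z hz with rfl | rfl
        · exact map_zero _
        · rw [e1]; exact hφx
      have r2 : φ ∈ LinearMap.range k2.1 := (mem_range_iff (ctx.alt _ k2.2.1)).2 fun z hz => by
        rcases f2 k2 z hz with rfl | rfl
        · exact map_zero _
        · rw [e2]; exact hφy
      obtain ⟨u, hu⟩ := r1
      obtain ⟨v, hv⟩ := r2
      have hne : ∀ (k : Fm V) z, k z = φ → z ≠ 0 := by
        rintro k z hz rfl
        exact hφ0 (by rw [← hz, map_zero])
      obtain ⟨l, hl, hl1, hl2⟩ := ctx.sl.linked k1.1 k1.2.1 k2.1 k2.2.1 u v (hu.trans hv.symm)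
      rw [hu] at hl1 hl2
      have hl0 : l ≠ 0 := by
        rintro rfl; exact hφ0 (by rw [← hl1]; rfl)
      have fin2 : k2.1 (x + y) = φ → k2.1 x = φ := by
        intro h; rw [map_add, hk2y, add_zero] at h; exact h
      rcases hall ⟨l, hl, hl0⟩ with h | h | h
      · have h' : l = k1.1 := congrArg Subtype.val h
        rw [h'] at hl2
        have h3 := hk3' v φ hl2 hv
        rcases f2 k3 v h3 with h4 | h4
        · exact absurd h4 (hne _ _ hv)
        · rw [e3] at h4; rw [h4] at hv; exact fin2 hv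
      · have h' : l = k2.1 := congrArg Subtype.val h
        rw [h'] at hl1
        have h3 := hk3' u φ hu hl1
        rcases f2 k3 u h3 with h4 | h4
        · exact absurd h4 (hne _ _ hu)
        · rw [e3] at h4; rw [h4] at hl1; exact fin2 hl1
      · have h' : l = k3.1 := congrArg Subtype.val h
        rw [h', hk3, hv] at hl2
        have h5 : k1.1 v = 0 := by
          have := congrArg (· + φ) hl2
          simpa [add_assoc, ZModModule.add_self] using this
        rcases f2 k1 v h5 with h4 | h4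
        · exact absurd h4 (hne _ _ hv)
        · rw [e1] at h4; rw [h4] at hv; exact hv
    -- many φ
    have hV : 4 ≤ fr V := by
      have h4 := hrk k0 hk0R hk00
      have h5 := hno2 k0 hk0R
      obtain ⟨m, hm⟩ := hodd
      have h6 : fr (LinearMap.range k0) ≠ 0 := by
        intro h0
        have : LinearMap.range k0 = ⊥ := Submodule.finrank_eq_zero.1 h0
        exact hk00 (LinearMap.range_eq_bot.1 this)
      omega
    let W : Submodule (ZMod 2) V := Submodule.span (ZMod 2) {x, y}
    have hW : fr W ≤ 2 := by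
      have := finrank_span_le_card (R := ZMod 2) ({x, y} : Set V)
      refine this.trans ?_
      rw [Set.toFinset_card]
      have : Fintype.card ({x, y} : Set V) ≤ 2 := by
        rw [← Set.toFinset_card]
        simpa using Finset.card_le_two (a := x) (b := y)
      exact this
    have hA := finrank_an W
    have hA2 : 2 ≤ fr (an W) := by
      have : fr (an W) + fr W = fr V := hA
      omega
    have hA3 : 1 < Nat.card (an W) - 1 := by
      rw [card_eq]
      have : 2 ^ 2 ≤ 2 ^ fr (an W) := Nat.pow_le_pow_right (by norm_num) hA2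
      have h3 : 2 ^ fr (an W) = 2 ^ Module.finrank (ZMod 2) (an W) := rfl
      omega
    have hall1 : ∀ φ ∈ an W, φ = 0 ∨ φ = k2.1 x := by
      intro φ hφ
      by_cases h0 : φ = 0
      · exact Or.inl h0
      · right
        exact (key φ h0 (hφ x (Submodule.subset_span (by simp)))
          (hφ y (Submodule.subset_span (by simp)))).symm
    have hle : Nat.card (an W) ≤ 2 := by
      have hsub : ((an W : Submodule (ZMod 2) (D V)) : Set (D V)) ⊆ {0, k2.1 x} := by
        intro φ hφ
        simpa using hall1 φ hφ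
      have h1 : Set.ncard ((an W : Submodule (ZMod 2) (D V)) : Set (D V)) ≤ Set.ncard ({0, k2.1 x} : Set (D V)) :=
        Set.ncard_le_ncard hsub (Set.toFinite _)
      have h2 : Set.ncard ({0, k2.1 x} : Set (D V)) ≤ 2 :=
        (Set.ncard_insert_le _ _).trans (by rw [Set.ncard_singleton])
      exact h1.trans h2
    omega

end Pool.Agent.ESL
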