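import Pool.Agent.ESL.Stmts

/-!
Module G7A: an atom exists if `dim R ≥ 2`.
-/

namespace Pool.Agent.ESL

theorem g7a_proof (h1 : Stmt_AU1) : Stmt_G7A := by
  intro V _ _ _ R hR h2
  by_contra hno
  push Not at hno
  have hfx : ∀ w, w ≠ 0 → ∀ k ∈ R, k w = 0 → k = 0 := by
    intro w hw k hk hkw
    obtain ⟨-, hs⟩ := h1 V R hR w hw
    have h3 : fx R w = ⊥ := by
      rw [← hs, Submodule.span_eq_bot]
      intro a ha
      have ha' : At R w a := by
        have h4 := Finset.mem_coe.1 ha
        unfold ats at h4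
        have h5 : a ∈ {a : Fm V | At R w a} := (Set.Finite.mem_toFinset _).1 h4
        exact h5
      exact absurd ⟨w, hw, ha'⟩ (hno a)
    have h4 : k ∈ fx R w := ⟨hk, hkw⟩
    rw [h3] at h4
    exact (Submodule.mem_bot _).1 h4
  have huniq : ∀ k ∈ R, ∀ k' ∈ R, ∀ x x', k x = k' x' → k x ≠ 0 → x = x' := by
    intro k hk k' hk' x x' he h0
    by_contra hne
    obtain ⟨l, hl, h3, h4⟩ := hR.sl.linked k hk k' hk' x x' he
    have h5 : l = 0 := by
      apply hfx (x + x') (fun h => hne (eq_of_add h)) l hl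
      rw [map_add, h3, h4]
      exact add_self' _
    apply h0
    rw [← h3, h5]; rfl
  have hsurj : ∀ k ∈ R, k ≠ 0 → Function.Surjective k := by
    intro k hk h0
    have hinj : Function.Injective k := by
      rw [injective_iff_map_eq_zero]
      intro w hw
      by_contra hw0
      exact h0 (hfx w hw0 k hk hw)
    exact (LinearMap.injective_iff_surjective_of_finrank_eq_finrank finrank_D.symm).1 hinj
  have heq : ∀ k ∈ R, ∀ k' ∈ R, k ≠ 0 → k' ≠ 0 → k = k' := by
    intro k hk k' hk' h0 h0'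
    apply LinearMap.ext
    intro x
    by_cases hx : k x = 0
    · by_cases hx0 : x = 0
      · rw [hx0, map_zero, map_zero]
      · exact absurd (hfx x hx0 k hk hx) h0
    · obtain ⟨x', hx'⟩ := hsurj k' hk' h0' (k x)
      have := huniq k hk k' hk' x x' hx'.symm hx
      rw [this] at hx' ⊢
      exact hx'.symm
  have h3 : Module.finrank (ZMod 2) R ≤ 1 := by
    rw [finrank_le_one_iff]
    by_cases h : ∃ k ∈ R, k ≠ 0
    · obtain ⟨k, hk, h0⟩ := h
      refine ⟨⟨k, hk⟩, fun w => ?_⟩
      by_cases hw : (w : Fm V) = 0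
      · refine ⟨0, ?_⟩
        rw [zero_smul]
        exact (Subtype.ext hw).symm
      · refine ⟨1, ?_⟩
        rw [one_smul]
        exact Subtype.ext (heq k hk w w.2 h0 hw)
    · push Not at h
      refine ⟨0, fun w => ⟨0, ?_⟩⟩
      rw [zero_smul]
      exact (Subtype.ext (h w w.2)).symm
  exact absurd (h2.trans h3) (by norm_num)

end Pool.Agent.ESL
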