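import Pool.Agent.ESL.Stmts

/-! Module G7B: combinatorics of (G7). -/

set_option linter.unusedSectionVars false
set_option linter.unusedVariables false

namespace Pool.Agent.ESL.G7BX

open Pool.Agent.ESL

variable {V : Type} [AddCommGroup V] [Module (ZMod 2) V] [Finite V]

theorem card_kill {x : V} (hx : x ≠ 0) (n : ℕ) (hn : fr V = n + 1) :
    Nat.card {φ : D V // φ x = 0} = 2 ^ n := by
  have h1 : Nat.card (an (Submodule.span (ZMod 2) {x})) =
      2 ^ Module.finrank (ZMod 2) (an (Submodule.span (ZMod 2) {x})) := card_eq (V := D V) _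
  have h2 := finrank_an (Submodule.span (ZMod 2) {x})
  rw [finrank_span_singleton hx] at h2
  have h3 : Module.finrank (ZMod 2) (an (Submodule.span (ZMod 2) {x})) = n := by
    have : Module.finrank (ZMod 2) V = n + 1 := hn
    omega
  rw [h3] at h1
  rw [← h1]
  apply Nat.card_congr
  refine Equiv.subtypeEquivRight fun φ => ?_
  constructor
  · intro h y hy
    obtain ⟨c, rfl⟩ := Submodule.mem_span_singleton.1 hy
    rw [map_smul, h, smul_zero]
  · intro h
    exact h x (Submodule.mem_span_singleton_self x)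

theorem count (S : Finset V) (hS : (0 : V) ∉ S) (n : ℕ) (hn : fr V = n + 1)
    (hN : ∀ φ : D V, φ ≠ 0 → Nat.card {x // x ∈ S ∧ φ x = 0} ≤ 3) :
    S.card * (2 ^ n - 1) ≤ 3 * (2 ^ (n + 1) - 1) := by
  classical
  have : Fintype (D V) := Fintype.ofFinite _
  have hcardD : Fintype.card (D V) = 2 ^ (n + 1) := by
    have h' : Module.finrank (ZMod 2) V = n + 1 := hn
    rw [← Nat.card_eq_fintype_card, card_V (V := D V), finrank_D, h']
  have hN' : ∀ φ : D V, Nat.card {x // x ∈ S ∧ φ x = 0} = (S.filter fun x => φ x = 0).card := by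
    intro φ
    apply Nat.subtype_card
    intro x
    rw [Finset.mem_filter]
  have h1 : ∑ φ : D V, (S.filter fun x => φ x = 0).card = S.card * 2 ^ n := by
    simp only [Finset.card_filter]
    rw [Finset.sum_comm]
    have h2 : ∀ x ∈ S, ∑ φ : D V, (if φ x = 0 then 1 else 0) = 2 ^ n := by
      intro x hx
      have hx0 : x ≠ 0 := fun h => hS (h ▸ hx)
      rw [← card_kill hx0 n hn, Nat.card_eq_fintype_card, Fintype.card_subtype,
        Finset.card_filter]
    rw [Finset.sum_congr rfl h2, Finset.sum_const, smul_eq_mul]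
  rw [← Finset.add_sum_erase _ _ (Finset.mem_univ (0 : D V))] at h1
  have h0 : (S.filter fun x => (0 : D V) x = 0).card = S.card := by
    congr 1
    ext x
    simp
  rw [h0] at h1
  have h3 : ∑ φ ∈ (Finset.univ : Finset (D V)).erase 0, (S.filter fun x => φ x = 0).card ≤
      ∑ φ ∈ (Finset.univ : Finset (D V)).erase 0, 3 := by
    apply Finset.sum_le_sum
    intro φ hφ
    rw [← hN']
    exact hN φ (Finset.ne_of_mem_erase hφ)
  rw [Finset.sum_const, Finset.card_erase_of_mem (Finset.mem_univ _), Finset.card_univ, hcardD,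
    smul_eq_mul] at h3
  have h4 : 1 ≤ 2 ^ n := Nat.one_le_two_pow
  have h5 : 1 ≤ 2 ^ (n + 1) := Nat.one_le_two_pow
  have h6 : S.card * (2 ^ n - 1) = S.card * 2 ^ n - S.card := by
    rw [Nat.mul_sub, mul_one]
  rw [h6]
  omega

end Pool.Agent.ESL.G7BX

namespace Pool.Agent.ESL

open G7BX

theorem g7b_proof : Stmt_G7B := by
  classical
  intro V _ _ _ S b h0 hb hcard hN
  by_cases hb3 : 3 ≤ b
  · left
    have h7 : 7 ≤ S.card := by
      have h1 : 2 ^ 3 ≤ 2 ^ b := Nat.pow_le_pow_right (by norm_num) hb3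
      omega
    have : Fintype V := Fintype.ofFinite V
    have hV : Fintype.card V = 2 ^ fr V := by
      rw [← Nat.card_eq_fintype_card]; exact card_V
    have hle : S.card + 1 ≤ 2 ^ fr V := by
      rw [← hV, ← Finset.card_insert_of_notMem h0]
      exact Finset.card_le_univ _
    obtain ⟨n, hn⟩ : ∃ n, fr V = n + 1 := by
      rcases h : fr V with _ | n
      · have h9 : 2 ^ fr V = 1 := by rw [h]; rfl
        omega
      · exact ⟨n, rfl⟩
    have h1 := count S h0 n hn (fun φ hφ => by
      have := hN φ hφ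
      simp only [Set.mem_insert_iff, Set.mem_singleton_iff] at this
      omega)
    have h2 : 7 * (2 ^ n - 1) ≤ S.card * (2 ^ n - 1) := Nat.mul_le_mul_right _ h7
    have h3 : 2 ^ (n + 1) = 2 * 2 ^ n := by rw [pow_succ]; ring
    have h4 : 1 ≤ 2 ^ n := Nat.one_le_two_pow
    have h5 : 2 ^ n ≤ 2 ^ 2 := by omega
    have h6 : n ≤ 2 := (Nat.pow_le_pow_iff_right (by norm_num)).1 h5
    have h8 : 2 ^ 3 ≤ 2 ^ (n + 1) := by rw [← hn]; omega
    have h9 : 3 ≤ n + 1 := (Nat.pow_le_pow_iff_right (by norm_num)).1 h8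
    omega
  · right
    have hb2 : b = 2 := by omega
    subst hb2
    have hc3 : S.card = 3 := by omega
    obtain ⟨x, y, z, hxy, hxz, hyz, rfl⟩ := Finset.card_eq_three.1 hc3
    by_cases hsum : x + y = z
    · exact ⟨x, y, hxy, by simp, by simp, by simp [hsum], rfl⟩
    exfalso
    have hx0 : x ≠ 0 := fun h => h0 (by simp [h])
    have hy0 : y ≠ 0 := fun h => h0 (by simp [h])
    have hz0 : z ≠ 0 := fun h => h0 (by simp [h])
    obtain ⟨φ, hφ, hφz⟩ := exists_sep (W := Submodule.span (ZMod 2) {x, y}) (x := z) (by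
      intro hz
      obtain ⟨a, b, hab⟩ := Submodule.mem_span_pair.1 hz
      rcases zm a with rfl | rfl <;> rcases zm b with rfl | rfl <;>
        simp only [zero_smul, one_smul, zero_add, add_zero] at hab
      · exact hz0 hab.symm
      · exact hyz hab
      · exact hxz hab
      · exact hsum hab)
    have hφx : φ x = 0 := hφ x (Submodule.subset_span (by simp))
    have hφy : φ y = 0 := hφ y (Submodule.subset_span (by simp))
    have hφ0 : φ ≠ 0 := by
      rintro rfl
      exact zero_ne_one hφz
    have h1 := hN φ hφ0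
    have h2 : Nat.card {u // u ∈ ({x, y, z} : Finset V) ∧ φ u = 0} = 2 := by
      have h3 : ∀ u, (u ∈ ({x, y, z} : Finset V) ∧ φ u = 0) ↔ u ∈ ({x, y} : Finset V) := by
        intro u
        simp only [Finset.mem_insert, Finset.mem_singleton]
        constructor
        · rintro ⟨rfl | rfl | rfl, h⟩
          · exact Or.inl rfl
          · exact Or.inr rfl
          · rw [hφz] at h; exact absurd h one_ne_zero
        · rintro (rfl | rfl)
          · exact ⟨Or.inl rfl, hφx⟩
          · exact ⟨Or.inr (Or.inl rfl), hφy⟩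
      rw [Nat.card_congr (Equiv.subtypeEquivRight h3), Nat.card_eq_fintype_card,
        Fintype.card_coe, Finset.card_pair hxy]
    rw [h2] at h1
    simp at h1

end Pool.Agent.ESL
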