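import Pool.Agent.ESL.Stmts

/-!
Module G7C: `n` odd without good atoms.
-/

namespace Pool.Agent.ESL.G7CX

variable {V : Type} [AddCommGroup V] [Module (ZMod 2) V] [Finite V]

theorem mem_ats {R : FS V} {w : V} {a : Fm V} : a ∈ ats R w ↔ At R w a := by
  simp [ats]

theorem one (au1 : Stmt_AU1) (g2a : Stmt_G2A) (g3 : Stmt_G3) {R : FS V} (ctx : CtxII R)
    (hg : ∀ a, Atom R a → ¬ Good R a) {x : V} (hx : x ≠ 0) {k : Fm V} (hk : k ∈ R) (hk0 : k ≠ 0)
    (hkx : k x = 0) : At R x k ∧ ∀ k' ∈ R, k' ≠ 0 → k' x = 0 → k' = k := by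
  obtain ⟨-, h2⟩ := g2a V R ctx x hx
  obtain ⟨-, hs⟩ := au1 V R ctx x hx
  have hc : (ats R x).card ≤ 1 := by
    by_contra hc
    obtain ⟨a, ha, hs⟩ := h2 (by omega)
    exact hg a ⟨x, hx, ha⟩ (g3 V R ctx a ⟨x, hx, ha⟩ hs)
  obtain ⟨a, ha⟩ := Finset.card_le_one_iff_subset_singleton.1 hc
  have key : ∀ k' ∈ R, k' ≠ 0 → k' x = 0 → k' = a ∧ a ∈ ats R x := by
    intro k' hk' h0 hx'
    have h1 : k' ∈ Submodule.span (ZMod 2) (ats R x : Set (Fm V)) := by
      rw [hs]; exact ⟨hk', hx'⟩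
    rcases Finset.subset_singleton_iff.1 ha with he | he
    · rw [he] at h1
      simp at h1
      exact absurd h1 h0
    · rw [he] at h1
      rw [Finset.coe_singleton] at h1
      obtain ⟨c, hc⟩ := Submodule.mem_span_singleton.1 h1
      rcases zm c with rfl | rfl
      · rw [zero_smul] at hc
        exact absurd hc.symm h0
      · rw [one_smul] at hc
        refine ⟨hc.symm, ?_⟩
        rw [he]; exact Finset.mem_singleton_self a
  obtain ⟨e, hm⟩ := key k hk hk0 hkx
  subst e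
  exact ⟨mem_ats.1 hm, fun k' h1 h2 h3 => (key k' h1 h2 h3).1⟩

end Pool.Agent.ESL.G7CX

namespace Pool.Agent.ESL

open G7CX

theorem g7c_proof (ev : Stmt_EVEN) (au1 : Stmt_AU1) (g2a : Stmt_G2A) (g3 : Stmt_G3)
    (gg : Stmt_GG) : Stmt_G7C := by
  intro V _ _ _ R ctx hodd hg
  -- kernels
  have hker : ∀ k ∈ R, k ≠ 0 → ∃ u, u ≠ 0 ∧ k u = 0 ∧ ∀ v, k v = 0 → v = 0 ∨ v = u := by
    intro k hk hk0
    have h1 := ev V k (ctx.alt k hk)
    have h2 := LinearMap.finrank_range_add_finrank_ker k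
    have h3 : fr (LinearMap.ker k) ≠ 0 := by
      intro h
      unfold fr at *
      rw [h, add_zero] at h2
      rw [h2] at h1
      exact (Nat.not_even_iff_odd.2 hodd) h1
    have hne : LinearMap.ker k ≠ ⊥ := by
      intro h
      apply h3
      unfold fr
      rw [h]; exact finrank_bot _ _
    obtain ⟨u, hu, hu0⟩ := Submodule.exists_mem_ne_zero_of_ne_bot hne
    have hat := (one au1 g2a g3 ctx hg hu0 hk hk0 hu).1
    have h4 : ¬ 2 ≤ fr (LinearMap.ker k) := fun h => hg k ⟨u, hu0, hat⟩ (gg V R ctx k ⟨u, hu0, hat⟩ h)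
    have h5 : fr (LinearMap.ker k) = 1 := by omega
    refine ⟨u, hu0, hu, fun v hv => ?_⟩
    obtain ⟨c, hc⟩ := (finrank_eq_one_iff_of_nonzero' (⟨u, hu⟩ : LinearMap.ker k)
      (by intro h; exact hu0 (congrArg Subtype.val h))).1 h5 ⟨v, hv⟩
    have hc' : c • u = v := congrArg Subtype.val hc
    rcases zm c with rfl | rfl
    · left; rw [← hc', zero_smul]
    · right; rw [← hc', one_smul]
  refine ⟨?_, ?_, ?_⟩
  · intro k hk hk0
    obtain ⟨u, hu0, hu, hall⟩ := hker k hk hk0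
    refine ⟨⟨u, hu0, (one au1 g2a g3 ctx hg hu0 hk hk0 hu).1⟩, ?_⟩
    apply (finrank_eq_one_iff_of_nonzero' (⟨u, hu⟩ : LinearMap.ker k)
      (by intro h; exact hu0 (congrArg Subtype.val h))).2
    rintro ⟨v, hv⟩
    rcases hall v hv with rfl | rfl
    · exact ⟨0, by rw [zero_smul]; rfl⟩
    · exact ⟨1, by rw [one_smul]⟩
  · intro k hk k' hk' hk0 hk0' he
    obtain ⟨u, hu0, hu, hall⟩ := hker k hk hk0
    have hu' : k' u = 0 := by
      have : u ∈ LinearMap.ker k' := by rw [← he]; exact hu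
      exact this
    exact ((one au1 g2a g3 ctx hg hu0 hk hk0 hu).2 k' hk' hk0' hu').symm
  · intro φ hφ
    -- forms in `R` killing the same nonzero vector are equal
    have huniq : ∀ x, x ≠ 0 → ∀ k ∈ R, ∀ k' ∈ R, k ≠ 0 → k' ≠ 0 → k x = 0 → k' x = 0 → k = k' := by
      intro x hx k hk k' hk' h0 h0' e e'
      exact ((one au1 g2a g3 ctx hg hx hk h0 e).2 k' hk' h0' e').symm
    -- two forms with the same two values
    have hpair : ∀ x y, x ≠ y → ∀ k ∈ R, ∀ k' ∈ R, k x = φ → k y = φ → k' x = φ → k' y = φ → k = k' := by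
      intro x y hxy k hk k' hk' e1 e2 e3 e4
      refine huniq (x + y) (fun h => hxy (eq_of_add h)) k hk k' hk' ?_ ?_ ?_ ?_
      · rintro rfl; exact hφ e1.symm
      · rintro rfl; exact hφ e3.symm
      · rw [map_add, e1, e2, add_self']
      · rw [map_add, e3, e4, add_self']
    -- linkage
    have hlink : ∀ x y, x ≠ y → φ ∈ Lx R x → φ ∈ Lx R y → ∃ k ∈ R, k x = φ ∧ k y = φ := by
      rintro x y - ⟨k, hk, e⟩ ⟨k', hk', e'⟩
      obtain ⟨l, hl, e1, e2⟩ := ctx.sl.linked k hk k' hk' x y (e.trans e'.symm)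
      exact ⟨l, hl, e1.trans e, e2.trans e⟩
    -- fibres have two elements
    have hfib : ∀ k ∈ R, ∀ x, k x = φ → ∃ y, y ≠ x ∧ k y = φ ∧ ∀ z, k z = φ → z = x ∨ z = y := by
      intro k hk x hx
      obtain ⟨u, hu0, hu, hall⟩ := hker k hk (by rintro rfl; exact hφ hx.symm)
      refine ⟨x + u, ?_, by rw [map_add, hx, hu, add_zero], fun z hz => ?_⟩
      · intro h
        apply hu0
        have := congrArg (x + ·) h
        simpa [add_add_self, add_self'] using this
      · rcases hall (x + z) (by rw [map_add, hx, hz, add_self']) with h | h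
        · left; exact (eq_of_add h).symm
        · right
          rw [← h, add_add_self]
    -- forms taking `y` to `φ`: at most two
    have htwo : ∀ y, ∀ k₁ ∈ R, ∀ k₂ ∈ R, ∀ k₃ ∈ R, k₁ y = φ → k₂ y = φ → k₃ y = φ → k₁ ≠ k₂ → k₁ ≠ k₃ →
        k₂ = k₃ := by
      intro y k₁ h₁ k₂ h₂ k₃ h₃ e₁ e₂ e₃ h12 h13
      have hy : y ≠ 0 := by
        rintro rfl
        rw [map_zero] at e₁
        exact hφ e₁.symm
      have := huniq y hy (k₁ + k₂) (R.add_mem h₁ h₂) (k₁ + k₃) (R.add_mem h₁ h₃)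
        (fun h => h12 (eq_of_add h)) (fun h => h13 (eq_of_add h))
        (by rw [LinearMap.add_apply, e₁, e₂, add_self']) (by rw [LinearMap.add_apply, e₁, e₃, add_self'])
      exact add_left_cancel this
    by_cases hK : ∃ k ∈ R, ∃ x, k x = φ
    swap
    · left
      have : IsEmpty {k // k ∈ R ∧ k ≠ 0 ∧ φ ∈ LinearMap.range k} := by
        constructor
        rintro ⟨k, hk, -, x, hx⟩
        exact hK ⟨k, hk, x, hx⟩
      exact Nat.card_of_isEmpty
    obtain ⟨k₁, hk₁, x, hx⟩ := hK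
    obtain ⟨y, hyx, hy, hxy⟩ := hfib k₁ hk₁ x hx
    have hne : ∀ {k : Fm V} {x : V}, k x = φ → k ≠ 0 := by
      rintro k x h rfl
      exact hφ h.symm
    have hcs : Nat.card {k // k ∈ R ∧ k ≠ 0 ∧ φ ∈ LinearMap.range k} =
        Set.ncard {k | k ∈ R ∧ k ≠ 0 ∧ φ ∈ LinearMap.range k} := Nat.card_coe_set_eq _
    rw [hcs]
    by_cases hz : ∃ z, φ ∈ Lx R z ∧ z ≠ x ∧ z ≠ y
    swap
    · right; left
      rw [Set.ncard_eq_one]
      refine ⟨k₁, ?_⟩
      ext k
      constructor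
      · rintro ⟨hk, hk0, s, hs⟩
        obtain ⟨t, hts, ht, -⟩ := hfib k hk s hs
        have h1 : s = x ∨ s = y := by
          by_contra h
          push Not at h
          exact hz ⟨s, ⟨k, hk, hs⟩, h.1, h.2⟩
        have h2 : t = x ∨ t = y := by
          by_contra h
          push Not at h
          exact hz ⟨t, ⟨k, hk, ht⟩, h.1, h.2⟩
        have h3 : k x = φ ∧ k y = φ := by
          rcases h1 with rfl | rfl <;> rcases h2 with rfl | rfl
          · exact absurd rfl hts
          · exact ⟨hs, ht⟩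
          · exact ⟨ht, hs⟩
          · exact absurd rfl hts
        exact hpair x y hyx.symm k hk k₁ hk₁ h3.1 h3.2 hx hy
      · rintro rfl
        exact ⟨hk₁, hne hx, x, hx⟩
    · right; right
      obtain ⟨z, hzφ, hzx, hzy⟩ := hz
      obtain ⟨k₂, hk₂, e2x, e2z⟩ := hlink x z hzx.symm ⟨k₁, hk₁, hx⟩ hzφ
      obtain ⟨k₃, hk₃, e3y, e3z⟩ := hlink y z hzy.symm ⟨k₁, hk₁, hy⟩ hzφ
      have h12 : k₁ ≠ k₂ := by
        rintro rfl
        rcases hxy z e2z with h | h
        · exact hzx h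
        · exact hzy h
      have h13 : k₁ ≠ k₃ := by
        rintro rfl
        rcases hxy z e3z with h | h
        · exact hzx h
        · exact hzy h
      have h23 : k₂ ≠ k₃ := by
        rintro rfl
        exact h12 (hpair x y hyx.symm k₁ hk₁ k₂ hk₂ hx hy e2x e3y)
      rw [Set.mem_singleton_iff, Set.ncard_eq_three]
      refine ⟨k₁, k₂, k₃, h12, h13, h23, ?_⟩
      -- only three points
      have hthree : ∀ w, φ ∈ Lx R w → w = x ∨ w = y ∨ w = z := by
        intro w hw
        by_contra h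
        push Not at h
        obtain ⟨k₄, hk₄, e4x, e4w⟩ := hlink x w h.1.symm ⟨k₁, hk₁, hx⟩ hw
        have h14 : k₁ ≠ k₄ := by
          rintro rfl
          rcases hxy w e4w with h' | h'
          · exact h.1 h'
          · exact h.2.1 h'
        have h24 := htwo x k₁ hk₁ k₂ hk₂ k₄ hk₄ hx e2x e4x h12 h14
        subst h24
        obtain ⟨t, -, -, ht⟩ := hfib k₂ hk₂ x e2x
        rcases ht w e4w with h' | h'
        · exact h.1 h'
        · rcases ht z e2z with h'' | h''
          · exact hzx h''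
          · exact h.2.2 (h'.trans h''.symm)
      ext k
      constructor
      · rintro ⟨hk, hk0, s, hs⟩
        obtain ⟨t, hts, ht, -⟩ := hfib k hk s hs
        have h1 := hthree s ⟨k, hk, hs⟩
        have h2 := hthree t ⟨k, hk, ht⟩
        rcases h1 with rfl | rfl | rfl <;> rcases h2 with rfl | rfl | rfl
        · exact absurd rfl hts
        · left; exact hpair _ _ hyx.symm k hk k₁ hk₁ hs ht hx hy
        · right; left; exact hpair _ _ hzx.symm k hk k₂ hk₂ hs ht e2x e2z
        · left; exact hpair _ _ hyx.symm k hk k₁ hk₁ ht hs hx hy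
        · exact absurd rfl hts
        · right; right; exact hpair _ _ hzy.symm k hk k₃ hk₃ hs ht e3y e3z
        · right; left; exact hpair _ _ hzx.symm k hk k₂ hk₂ ht hs e2x e2z
        · right; right; exact hpair _ _ hzy.symm k hk k₃ hk₃ ht hs e3y e3z
        · exact absurd rfl hts
      · rintro (rfl | rfl | rfl)
        · exact ⟨hk₁, hne hx, x, hx⟩
        · exact ⟨hk₂, hne e2x, x, e2x⟩
        · exact ⟨hk₃, hne e3y, y, e3y⟩

end Pool.Agent.ESL
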