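import Pool.Agent.ESL.Stmts

/-!
Module G8: the forms disjoint from a good atom are closed under addition.
-/

set_option linter.unusedSectionVars false
set_option linter.unusedVariables false

namespace Pool.Agent.ESL

theorem g8_proof (hE : Stmt_G8E) (h4 : Stmt_G4) : Stmt_G8 := by
  intro V _ _ _ R hR a ha hg r₁ h₁ r₂ h₂ hd₁ hd₂
  have haR : a ∈ R := ha.choose_spec.2.1
  rcases h4 V R hR.alt a haR hg (r₁ + r₂) (R.add_mem h₁ h₂) with h | ⟨h, -⟩
  · exact h
  · exfalso
    refine hE V R a r₁ r₂ (r₁ + r₂ + a) ⟨hR, ha, hg, h₁, h₂, R.add_mem (R.add_mem h₁ h₂) haR, hd₁, hd₂,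
      h, ?_⟩
    rw [← add_assoc, add_self', zero_add]

end Pool.Agent.ESL
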