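import Pool.Agent.ESL.AU

/-!
Module G8A: in the context of (G8) the kernels of `r₁`, `r₂` meet in zero.
-/

set_option linter.unusedSectionVars false
set_option linter.unusedVariables false

namespace Pool.Agent.ESL

theorem g8a_proof (h1 : Stmt_AU1) (h2 : Stmt_AU2) (h3 : Stmt_AU3) : Stmt_G8A := by
  intro V _ _ _ R a r₁ r₂ r₃ h
  rw [eq_bot_iff]
  classical
  rintro v ⟨hv1, hv2⟩
  rw [SetLike.mem_coe, LinearMap.mem_ker] at hv1 hv2
  rw [Submodule.mem_bot]
  by_contra hv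
  have e : r₃ v = a v := by
    have := congrArg (fun k : Fm V => k v) h.sum
    simpa [hv1, hv2] using this
  have ha0 : a v = 0 := by
    have h5 : a v ∈ LinearMap.range r₃ ⊓ LinearMap.range a := ⟨⟨v, e⟩, ⟨v, rfl⟩⟩
    rw [h.d₃.eq_bot] at h5
    exact h5
  have hv3 : r₃ v = 0 := by rw [e, ha0]
  obtain ⟨w, hw, hwa⟩ := h.atom
  have hat : At R v a := h2 V R h.ctx v w a hv hw hwa ha0
  have hats : a ∈ ats R v := by
    unfold ats
    rw [Set.Finite.mem_toFinset]
    exact hat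
  obtain ⟨hI, hS⟩ := h1 V R h.ctx v hv
  have key : ∀ r ∈ R, r v = 0 → Disjoint (LinearMap.range r) (LinearMap.range a) →
      LinearMap.range r ≤ ⨆ b ∈ (ats R v).erase a, LinearMap.range b := by
    intro r hr hrv hd
    obtain ⟨I, hIs, rfl, h5, -, -⟩ := h3 V R h.ctx v hv r ⟨hr, hrv⟩
    have haI : a ∉ I := by
      intro haI
      have h6 := (h5 a hats).1 haI
      exact hat.2.2.1 (AUX.range_eq_bot (disjoint_self.1 (hd.mono_left h6)))
    refine (AUX.range_sum_le I).trans ?_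
    refine iSup₂_mono' fun b hb => ⟨b, ?_, le_rfl⟩
    refine Finset.mem_erase.2 ⟨?_, hIs hb⟩
    rintro rfl
    exact haI hb
  have h7 : LinearMap.range a ≤ ⨆ b ∈ (ats R v).erase a, LinearMap.range b := by
    rintro _ ⟨x, rfl⟩
    have h9 : a x = r₁ x + r₂ x + r₃ x := by
      have := congrArg (fun k : Fm V => k x) h.sum
      exact this.symm
    rw [h9]
    exact Submodule.add_mem _ (Submodule.add_mem _ (key r₁ h.m₁ hv1 h.d₁ ⟨x, rfl⟩)
      (key r₂ h.m₂ hv2 h.d₂ ⟨x, rfl⟩)) (key r₃ h.m₃ hv3 h.d₃ ⟨x, rfl⟩)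
  have h8 := AUX.dis hI hats (Finset.erase_subset a (ats R v)) (Finset.notMem_erase a (ats R v))
  exact hat.2.2.1 (AUX.range_eq_bot (disjoint_self.1 (h8.mono_right h7)))

end Pool.Agent.ESL
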