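import Pool.Agent.ESL.Stmts

set_option linter.unusedSectionVars false
set_option linter.unusedVariables false

namespace Pool.Agent.ESL

namespace G8BX

variable {V : Type} [AddCommGroup V] [Module (ZMod 2) V] [Finite V]

theorem range_span {A : Finset (Fm V)} (hA : iSupIndep (fun a : A => LinearMap.range (a : Fm V)))
    {a : Fm V} (ha : a ∈ A) {k : Fm V} (hk : k ∈ Submodule.span (ZMod 2) {b : Fm V | b ∈ A ∧ b ≠ a}) :
    Disjoint (LinearMap.range a) (LinearMap.range k) := by
  have h := hA ⟨a, ha⟩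
  refine h.mono_right ?_
  have h2 : Submodule.span (ZMod 2) {b : Fm V | b ∈ A ∧ b ≠ a} ≤
      (show FS V from
        { carrier := {k : Fm V | ∀ x, k x ∈ ⨆ (j : A) (_ : j ≠ ⟨a, ha⟩), LinearMap.range (j : Fm V)}
          add_mem' := fun {k l} hk hl x => Submodule.add_mem _ (hk x) (hl x)
          zero_mem' := fun x => Submodule.zero_mem _
          smul_mem' := fun c k hk x => Submodule.smul_mem _ c (hk x) }) := by
    apply Submodule.span_le.2
    rintro b ⟨hb, hba⟩ x
    have : LinearMap.range b ≤ ⨆ (j : A) (_ : j ≠ ⟨a, ha⟩), LinearMap.range (j : Fm V) :=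
      le_iSup₂_of_le ⟨b, hb⟩ (fun h => hba (congrArg Subtype.val h)) le_rfl
    exact this ⟨x, rfl⟩
  rintro _ ⟨x, rfl⟩
  exact h2 hk x

end G8BX

open G8BX

theorem g8b_proof (h8a : Stmt_G8A) (h5 : Stmt_G5) (h1 : Stmt_G1) (hau1 : Stmt_AU1) (hau2 : Stmt_AU2)
    (hau3 : Stmt_AU3) : Stmt_G8B := by
  intro V _ _ _ R a r₁ r₂ r₃ c
  have ctx := c.ctx
  obtain ⟨w0, hw0, hAt0⟩ := c.atom
  have ha0 : a ≠ 0 := hAt0.2.2.1
  have haR : a ∈ R := hAt0.1
  have hk1 : ∃ z, z ≠ 0 ∧ r₁ z = 0 := by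
    by_contra hc
    push Not at hc
    have hb : LinearMap.ker r₁ = ⊥ := by
      rw [eq_bot_iff]
      intro z hz
      rw [Submodule.mem_bot]
      by_contra h
      exact hc z h hz
    have := ker_sup_top (ctx.alt r₁ c.m₁) (ctx.alt a haR) c.d₁
    rw [hb, bot_sup_eq] at this
    exact ha0 (LinearMap.ker_eq_top.1 this)
  rw [eq_bot_iff]
  rintro w ⟨hwa, hw3⟩
  rw [Submodule.mem_bot]
  by_contra hw
  have hwa : a w = 0 := hwa
  have hw3 : r₃ w = 0 := hw3
  have hsw : r₁ w + r₂ w = 0 := by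
    have := congrArg (fun k : Fm V => k w) c.sum
    simp only [LinearMap.add_apply] at this
    rw [hw3, hwa, add_zero] at this
    exact this
  have h12 : r₁ w = r₂ w := eq_of_add hsw
  have hθ : r₁ w ≠ 0 := by
    intro h
    have : w ∈ LinearMap.ker r₁ ⊓ LinearMap.ker r₂ := ⟨h, by
      show r₂ w = 0
      rw [← h12]; exact h⟩
    rw [h8a V R a r₁ r₂ r₃ c] at this
    exact hw (by simpa using this)
  obtain ⟨z, hz0, hz⟩ := hk1
  obtain ⟨k, hk, hkw, -⟩ := h1 V R ctx (r₁ w) hθ w (w + z) (by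
      intro h
      apply hz0
      have := congrArg (w + ·) h
      simpa [add_add_self, add_self'] using this.symm)
      (Lx_mem c.m₁ w) ⟨r₁, c.m₁, by rw [map_add, hz, add_zero]⟩
  have hall := h5 V R ctx a c.atom c.good (r₁ w) k w hk (Lx_mem c.m₁ w) hwa
  have hker1 : ∀ x, r₁ x = 0 → k x = 0 := by
    intro x hx
    have := hall (w + x) ⟨r₁, c.m₁, by rw [map_add, hx, add_zero]⟩
    rw [map_add, hkw] at this
    simpa using this
  have hker2 : ∀ x, r₂ x = 0 → k x = 0 := by
    intro x hx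
    have := hall (w + x) ⟨r₂, c.m₂, by rw [map_add, hx, add_zero, h12]⟩
    rw [map_add, hkw] at this
    simpa using this
  have hAw : At R w a := hau2 V R ctx w w0 a hw hw0 hAt0 hwa
  have haw : a ∈ ats R w := by
    unfold ats
    rw [Set.Finite.mem_toFinset]
    exact hAw
  -- membership in the span without `a`
  have hmem : ∀ s ∈ fx R w, ¬ LinearMap.range a ≤ LinearMap.range s →
      s ∈ Submodule.span (ZMod 2) {b : Fm V | b ∈ ats R w ∧ b ≠ a} := by
    intro s hs hn
    obtain ⟨I, hI, hsum, hiff, -, -⟩ := hau3 V R ctx w hw s hs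
    rw [hsum]
    apply Submodule.sum_mem
    intro b hb
    apply Submodule.subset_span
    refine ⟨hI hb, ?_⟩
    rintro rfl
    exact hn ((hiff _ haw).1 hb)
  have hna : ∀ s ∈ R, (∀ x, s x = 0 → (s + k) x = 0) → Disjoint (LinearMap.range s) (LinearMap.range a) →
      ¬ LinearMap.range a ≤ LinearMap.range (s + k) := by
    intro s hs hsk hd hle
    have h1 : LinearMap.ker (s + k) ≤ LinearMap.ker a :=
      (range_le_iff (ctx.alt a haR) (ctx.alt _ (R.add_mem hs hk.mem))).1 hle
    have h2 : LinearMap.range a ≤ LinearMap.range s :=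
      (range_le_iff (ctx.alt a haR) (ctx.alt s hs)).2 (fun x hx => h1 (hsk x hx))
    have h3 : LinearMap.range a = ⊥ := by
      have := hd.mono_left h2
      rwa [disjoint_self] at this
    exact ha0 (LinearMap.range_eq_bot.1 h3)
  have m1 := hmem (r₁ + k) ⟨R.add_mem c.m₁ hk.mem, by
      rw [LinearMap.add_apply, hkw, ZModModule.add_self]⟩
      (hna r₁ c.m₁ (fun x hx => by rw [LinearMap.add_apply, hx, hker1 x hx, add_zero]) c.d₁)
  have m2 := hmem (r₂ + k) ⟨R.add_mem c.m₂ hk.mem, by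
      rw [LinearMap.add_apply, hkw, ← h12, ZModModule.add_self]⟩
      (hna r₂ c.m₂ (fun x hx => by rw [LinearMap.add_apply, hx, hker2 x hx, add_zero]) c.d₂)
  have m3 := hmem r₃ ⟨c.m₃, hw3⟩ (by
    intro hle
    have := c.d₃.mono_left hle
    rw [disjoint_self] at this
    exact ha0 (LinearMap.range_eq_bot.1 this))
  have hsum : a = (r₁ + k) + (r₂ + k) + r₃ := by
    rw [← c.sum]
    have : k + k = 0 := ZModModule.add_self k
    calc r₁ + r₂ + r₃ = r₁ + r₂ + r₃ + (k + k) := by rw [this, add_zero]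
      _ = _ := by abel
  have hmemA : a ∈ Submodule.span (ZMod 2) {b : Fm V | b ∈ ats R w ∧ b ≠ a} := by
    have h := Submodule.add_mem _ (Submodule.add_mem _ m1 m2) m3
    rw [← hsum] at h
    exact h
  have hd := range_span (hau1 V R ctx w hw).1.2 haw hmemA
  rw [disjoint_self] at hd
  exact ha0 (LinearMap.range_eq_bot.1 hd)

end Pool.Agent.ESL
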