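import Pool.Agent.ESL.Stmts

/-!
Module G8C: in the context of (G8) the dimension is even and `r₁` is an atom.
-/

set_option linter.unusedVariables false
set_option linter.unusedSectionVars false

namespace Pool.Agent.ESL

namespace G8CX

variable {V : Type} [AddCommGroup V] [Module (ZMod 2) V]

theorem mem_ats [Finite V] {R : FS V} {w : V} {a : Fm V} : a ∈ ats R w ↔ At R w a := by
  unfold ats
  rw [Set.Finite.mem_toFinset]
  rfl

theorem At.alt {R : FS V} (hR : IsAlt R) {w : V} {a : Fm V} (h : At R w a) (x : V) : a x x = 0 :=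
  hR a h.1 x

/-- the range of a sum of two forms, the common upper bound -/
theorem range_add_le {k l : Fm V} {T : Submodule (ZMod 2) (D V)} (hk : LinearMap.range k ≤ T)
    (hl : LinearMap.range l ≤ T) : LinearMap.range (k + l) ≤ T := by
  rintro _ ⟨x, rfl⟩
  exact T.add_mem (hk ⟨x, rfl⟩) (hl ⟨x, rfl⟩)

/-- separation of an element of an independent family of forms -/
theorem sep [Finite V] {A : Finset (Fm V)} (hA : ∀ a ∈ A, ∀ x, a x x = 0) (h : IndB A) {b : Fm V}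
    (hb : b ∈ A) : ∃ x, b x ≠ 0 ∧ ∀ a ∈ A, a ≠ b → a x = 0 := by
  obtain ⟨h0, hi⟩ := h
  have hd := hi ⟨b, hb⟩
  set T : Submodule (ZMod 2) (D V) := ⨆ (j : A) (_ : j ≠ ⟨b, hb⟩), LinearMap.range (j : Fm V)
    with hT
  have hd' : Disjoint (LinearMap.range b) T := hd
  have h1 : LinearMap.ker b ⊔ co T = ⊤ := by
    rw [← co_range (hA b hb)]
    exact co_sup_top hd'
  obtain ⟨y, hy⟩ : ∃ y, b y ≠ 0 := by
    by_contra hc
    push Not at hc
    exact h0 b hb (LinearMap.ext hc)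
  have hyt : y ∈ LinearMap.ker b ⊔ co T := by rw [h1]; trivial
  obtain ⟨y1, hy1, y2, hy2, rfl⟩ := Submodule.mem_sup.1 hyt
  rw [map_add, LinearMap.mem_ker.1 hy1, zero_add] at hy
  refine ⟨y2, hy, fun a ha hab => ?_⟩
  have h2 : LinearMap.range a ≤ T := by
    rw [hT]
    exact le_iSup_of_le ⟨a, ha⟩ (le_iSup_of_le (fun h => hab (congrArg Subtype.val h)) le_rfl)
  have h3 := co_anti h2 hy2
  rw [co_range (hA a ha)] at h3
  exact h3

/-- the main lemma: if `k` is the form of a block which is all of `P_ψ`, then `r + k` is a sum of atoms of `R^u`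
below `r` -/
theorem sum_atoms [Finite V] (h2 : Stmt_AU2) (h3 : Stmt_AU3) {R : FS V} (hR : CtxII R) {k r : Fm V} (hk : k ∈ R)
    (hr : r ∈ R) {ψ : D V} {u v : V} (hu : u ≠ 0) (hku : k u = ψ) (hru : r u = ψ)
    (hP : ∀ z, ψ ∈ Lx R z → k z = ψ) (hv : v ≠ 0) (hrv : r v = 0) :
    ∃ S ⊆ ats R u, r + k = ∑ a ∈ S, a ∧ ∀ a ∈ S, LinearMap.range a ≤ LinearMap.range r := by
  have hker : LinearMap.ker r ≤ LinearMap.ker k := by
    intro z hz
    have h1 : ψ ∈ Lx R (u + z) := ⟨r, hr, by rw [map_add, hru, LinearMap.mem_ker.1 hz, add_zero]⟩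
    have h4 := hP _ h1
    rw [map_add, hku] at h4
    rw [LinearMap.mem_ker]
    simpa using h4
  have hle : LinearMap.range k ≤ LinearMap.range r :=
    (range_le_iff (hR.alt k hk) (hR.alt r hr)).2 hker
  have hkv : k v = 0 := hker (LinearMap.mem_ker.2 hrv)
  obtain ⟨I, hI, hs, hI2, hI3, hI4⟩ := h3 V R hR v hv (r + k)
    ⟨R.add_mem hr hk, by rw [LinearMap.add_apply, hrv, hkv, add_zero]⟩
  have h5 : ∀ a ∈ I, a u = 0 := (hI4 u).1 (by rw [LinearMap.add_apply, hku, hru, add_self'])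
  refine ⟨I, fun a ha => ?_, hs, fun a ha => ?_⟩
  · exact mem_ats.2 (h2 V R hR u v a hu hv (mem_ats.1 (hI ha)) (h5 a ha))
  · exact ((hI2 a (hI ha)).1 ha).trans (range_add_le le_rfl hle)

/-- evaluation of a sum of atoms at a separating vector -/
theorem sum_eval {A S : Finset (Fm V)} (hS : S ⊆ A) {b : Fm V} (hb : b ∉ S) {x : V}
    (hx : ∀ a ∈ A, a ≠ b → a x = 0) : (∑ a ∈ S, a) x = 0 := by
  rw [LinearMap.sum_apply]
  exact Finset.sum_eq_zero fun a ha => hx a (hS ha) (fun h => hb (h ▸ ha))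

/-! ### symmetries of the context -/

theorem _root_.Pool.Agent.ESL.Ctx8.rot {R : FS V} {a r₁ r₂ r₃ : Fm V} (h : Ctx8 R a r₁ r₂ r₃) :
    Ctx8 R a r₂ r₃ r₁ :=
  ⟨h.ctx, h.atom, h.good, h.m₂, h.m₃, h.m₁, h.d₂, h.d₃, h.d₁, by rw [← h.sum]; abel⟩

theorem _root_.Pool.Agent.ESL.Ctx8.swap {R : FS V} {a r₁ r₂ r₃ : Fm V} (h : Ctx8 R a r₁ r₂ r₃) :
    Ctx8 R a r₂ r₁ r₃ :=
  ⟨h.ctx, h.atom, h.good, h.m₂, h.m₁, h.m₃, h.d₂, h.d₁, h.d₃, by rw [← h.sum]; abel⟩

theorem ker_ne_bot_of_atom {R : FS V} {a : Fm V} (h : Atom R a) : LinearMap.ker a ≠ ⊥ := by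
  obtain ⟨w, hw, ha⟩ := h
  intro hc
  have : w ∈ LinearMap.ker a := ha.2.1
  rw [hc] at this
  exact hw this

theorem range_ne_bot {a : Fm V} (h : a ≠ 0) : LinearMap.range a ≠ ⊥ := by
  intro hc
  exact h (LinearMap.range_eq_bot.1 hc)

theorem ker_top {a : Fm V} (h : LinearMap.ker a = ⊤) : a = 0 := LinearMap.ker_eq_top.1 h

/-- complementary kernels -/
theorem compl₃ [Finite V] (hB : Stmt_G8B) {R : FS V} {a r₁ r₂ r₃ : Fm V} (h : Ctx8 R a r₁ r₂ r₃) :
    LinearMap.ker r₃ ⊔ LinearMap.ker a = ⊤ ∧ LinearMap.ker a ⊓ LinearMap.ker r₃ = ⊥ :=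
  ⟨ker_sup_top (h.ctx.alt _ h.m₃) (h.ctx.alt _ h.atom.choose_spec.2.1) h.d₃, hB V R a r₁ r₂ r₃ h⟩

theorem compl₁ [Finite V] (hB : Stmt_G8B) {R : FS V} {a r₁ r₂ r₃ : Fm V} (h : Ctx8 R a r₁ r₂ r₃) :
    LinearMap.ker r₁ ⊔ LinearMap.ker a = ⊤ ∧ LinearMap.ker a ⊓ LinearMap.ker r₁ = ⊥ :=
  compl₃ hB h.rot

theorem compl₂ [Finite V] (hB : Stmt_G8B) {R : FS V} {a r₁ r₂ r₃ : Fm V} (h : Ctx8 R a r₁ r₂ r₃) :
    LinearMap.ker r₂ ⊔ LinearMap.ker a = ⊤ ∧ LinearMap.ker a ⊓ LinearMap.ker r₂ = ⊥ :=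
  compl₃ hB h.rot.rot

theorem fr_add_fr [Finite V] {A B : Submodule (ZMod 2) V} (h1 : A ⊔ B = ⊤) (h2 : A ⊓ B = ⊥) :
    fr A + fr B = fr V := by
  have h3 := Submodule.finrank_sup_add_finrank_inf_eq A B
  rw [h1, h2, finrank_top, finrank_bot, add_zero] at h3
  exact h3.symm

theorem fr_range_ker [Finite V] (k : Fm V) :
    fr (LinearMap.range k) + fr (LinearMap.ker k) = fr V :=
  LinearMap.finrank_range_add_finrank_ker k

theorem fr_pos [Finite V] {A : Submodule (ZMod 2) V} (h : A ≠ ⊥) : 0 < fr A := by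
  rw [Nat.pos_iff_ne_zero]
  intro h0
  exact h (Submodule.finrank_eq_zero.1 h0)

theorem ne_bot_of_fr_pos [Finite V] {A : Submodule (ZMod 2) V} (h : 0 < fr A) : A ≠ ⊥ := by
  rintro rfl
  have h1 : fr (⊥ : Submodule (ZMod 2) V) = 0 := finrank_bot _ _
  omega

theorem nonzero_of {A : Submodule (ZMod 2) V} (h : A ≠ ⊥) : ∃ v ∈ A, v ≠ 0 :=
  (Submodule.ne_bot_iff _).1 h

/-- dimension of the kernel of `r₃` -/
theorem fr_ker₃ [Finite V] (hB : Stmt_G8B) {R : FS V} {a r₁ r₂ r₃ : Fm V} (h : Ctx8 R a r₁ r₂ r₃) :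
    fr (LinearMap.ker r₃) = fr (LinearMap.range a) := by
  have h1 := fr_add_fr (compl₃ hB h).1 (by rw [inf_comm]; exact (compl₃ hB h).2)
  have h2 := fr_range_ker a
  omega

theorem atom_ne {R : FS V} {a : Fm V} (h : Atom R a) : a ≠ 0 := h.choose_spec.2.2.2.1

theorem atom_mem {R : FS V} {a : Fm V} (h : Atom R a) : a ∈ R := h.choose_spec.2.1

theorem ker₃_ne [Finite V] (hB : Stmt_G8B) {R : FS V} {a r₁ r₂ r₃ : Fm V} (h : Ctx8 R a r₁ r₂ r₃) :
    LinearMap.ker r₃ ≠ ⊥ := by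
  intro hc
  have h1 := (compl₃ hB h).1
  rw [hc, bot_sup_eq] at h1
  exact atom_ne h.atom (ker_top h1)

theorem even_V [Finite V] (hE : Stmt_EVEN) (hB : Stmt_G8B) {R : FS V} {a r₁ r₂ r₃ : Fm V}
    (h : Ctx8 R a r₁ r₂ r₃) : Even (fr V) := by
  rw [← fr_range_ker r₃, fr_ker₃ hB h]
  exact (hE V r₃ (h.ctx.alt _ h.m₃)).add (hE V a (h.ctx.alt _ (atom_mem h.atom)))

/-- `ρ = r₁ + r₂` is nondegenerate -/
theorem ker_rho [Finite V] (hB : Stmt_G8B) {R : FS V} {a r₁ r₂ r₃ : Fm V} (h : Ctx8 R a r₁ r₂ r₃) :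
    LinearMap.ker (a + r₃) = ⊥ := by
  rw [eq_bot_iff]
  intro u hu
  have h1 : a u = r₃ u := by
    have := LinearMap.mem_ker.1 hu
    rw [LinearMap.add_apply] at this
    exact eq_of_add this
  have h2 : a u = 0 := by
    have : a u ∈ LinearMap.range r₃ ⊓ LinearMap.range a := ⟨⟨u, h1.symm⟩, ⟨u, rfl⟩⟩
    rw [h.d₃.eq_bot] at this
    exact this
  have h3 : u ∈ LinearMap.ker a ⊓ LinearMap.ker r₃ := ⟨h2, show r₃ u = 0 by rw [← h1, h2]⟩
  rw [(compl₃ hB h).2] at h3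
  exact h3

end G8CX

open G8CX in
theorem g8c_proof (hB : Stmt_G8B) (hA : Stmt_G8A) (h4 : Stmt_G4) (h5 : Stmt_G5) (h6 : Stmt_G6) (hE : Stmt_EVEN)
    (h1 : Stmt_AU1) (h2 : Stmt_AU2) (h3 : Stmt_AU3) (hG1 : Stmt_G1) : Stmt_G8C := by
  intro V _ _ _ R a r₁ r₂ r₃ h
  have hev := even_V hE hB h
  refine ⟨hev, ?_⟩
  have hR := h.ctx
  have hrho := ker_rho hB h
  set ρ : Fm V := a + r₃ with hρ
  have hρR : ρ ∈ R := R.add_mem (atom_mem h.atom) h.m₃
  have haR := atom_mem h.atom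
  -- a vector in the kernel of `r₁`
  obtain ⟨v, hv, hv0⟩ := nonzero_of (ker₃_ne hB h.rot)
  have hr1v : r₁ v = 0 := hv
  obtain ⟨I, hI, hs, hI2, hI3, hI4⟩ := h3 V R hR v hv0 r₁ ⟨h.m₁, hr1v⟩
  -- an atom below `r₁` and not below `r₃`
  have h13 : LinearMap.ker r₁ ⊓ LinearMap.ker r₃ = ⊥ := hA V R a r₁ r₃ r₂ h.swap.rot
  obtain ⟨b, hb, hb3⟩ : ∃ b ∈ I, ¬ LinearMap.ker r₃ ≤ LinearMap.ker b := by
    by_contra hc
    push Not at hc
    apply ker₃_ne hB h
    rw [eq_bot_iff, ← h13]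
    refine le_inf (fun u hu => ?_) le_rfl
    exact (hI4 u).2 fun b hb => hc b hb hu
  have hbv : At R v b := mem_ats.1 (hI hb)
  have hbR : b ∈ R := hbv.1
  have hbatom : Atom R b := ⟨v, hv0, hbv⟩
  have hbr1 : LinearMap.range b ≤ LinearMap.range r₁ := (hI2 b (hI hb)).1 hb
  have hkerb : LinearMap.ker r₁ ≤ LinearMap.ker b := (range_le_iff (hR.alt b hbR) (hR.alt r₁ h.m₁)).1 hbr1
  have hab : a ≠ b := by
    rintro rfl
    apply range_ne_bot (atom_ne h.atom)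
    rw [eq_bot_iff, ← h.d₁.eq_bot]
    exact le_inf hbr1 le_rfl
  have hbgood : Good R b := h6 V R hR hev b hbatom
  -- the kernels of `a` and `b` are disjoint
  have hker : LinearMap.ker a ⊓ LinearMap.ker b = ⊥ := by
    by_contra hc
    obtain ⟨u, ⟨hua, hub⟩, hu0⟩ := nonzero_of hc
    have hua : a u = 0 := hua
    have hub : b u = 0 := hub
    have hψ0 : ρ u ≠ 0 := by
      intro hz
      have : u ∈ LinearMap.ker ρ := hz
      rw [hrho] at this
      exact hu0 this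
    have hr3u : r₃ u = ρ u := by rw [hρ, LinearMap.add_apply, hua, zero_add]
    obtain ⟨z, hz, hz0⟩ := nonzero_of (ker₃_ne hB h)
    have hz : r₃ z = 0 := hz
    obtain ⟨k, hk, hku, -⟩ := hG1 V R hR (ρ u) hψ0 u (u + z) (fun hc => hz0 (by simpa using hc))
      ⟨ρ, hρR, rfl⟩ ⟨r₃, h.m₃, by rw [map_add, hz, add_zero, hr3u]⟩
    have hP := h5 V R hR a h.atom h.good (ρ u) k u hk ⟨ρ, hρR, rfl⟩ hua
    obtain ⟨S, hS, hSs, hSr⟩ := sum_atoms h2 h3 hR hk.mem h.m₃ hu0 hku hr3u hP hz0 hz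
    -- `ρ + b` is degenerate and disjoint from `b`
    have hd : Disjoint (LinearMap.range (ρ + b)) (LinearMap.range b) := by
      rcases h4 V R hR.alt b hbR hbgood ρ hρR with hd | hd
      · exfalso
        have hrt : LinearMap.range ρ = ⊤ := by
          rw [← an_ker (hR.alt ρ hρR), hrho, an_bot]
        rw [hrt, top_disjoint] at hd
        exact range_ne_bot (atom_ne hbatom) hd
      · exact hd.1
    have hkerρb : LinearMap.ker (ρ + b) ≠ ⊥ := by
      intro hc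
      have h7 := ker_sup_top (hR.alt _ (R.add_mem hρR hbR)) (hR.alt b hbR) hd
      rw [hc, bot_sup_eq] at h7
      exact atom_ne hbatom (ker_top h7)
    obtain ⟨t, ht, ht0⟩ := nonzero_of hkerρb
    obtain ⟨T, hT, hTs, hTr⟩ := sum_atoms h2 h3 hR hk.mem (R.add_mem hρR hbR) hu0 hku
      (show (ρ + b) u = ρ u by rw [LinearMap.add_apply, hub, add_zero]) hP ht0 ht
    have hbS : b ∉ S := by
      intro hbS
      exact hb3 ((range_le_iff (hR.alt b hbR) (hR.alt _ h.m₃)).1 (hSr b hbS))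
    have hbT : b ∉ T := by
      intro hbT
      apply range_ne_bot (atom_ne hbatom)
      rw [eq_bot_iff, ← hd.eq_bot]
      exact le_inf (hTr b hbT) le_rfl
    have hAta : At R u a := by
      obtain ⟨w, hw, haw⟩ := h.atom
      exact h2 V R hR u w a hu0 hw haw hua
    have hAtb : At R u b := h2 V R hR u v b hu0 hv0 hbv hub
    obtain ⟨x, hx1, hx2⟩ := sep (A := ats R u) (fun c hc => hR.alt c (mem_ats.1 hc).1) (h1 V R hR u hu0).1
      (mem_ats.2 hAtb)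
    have e1 : r₃ x = k x := by
      have h8 := sum_eval hS hbS hx2
      rw [← hSs, LinearMap.add_apply] at h8
      exact eq_of_add h8
    have e2 : (ρ + b) x = k x := by
      have h8 := sum_eval hT hbT hx2
      rw [← hTs, LinearMap.add_apply] at h8
      exact eq_of_add h8
    have e3 : a x = 0 := hx2 a (mem_ats.2 hAta) hab
    rw [hρ, LinearMap.add_apply, LinearMap.add_apply, e3, zero_add, e1] at e2
    exact hx1 (by simpa using e2)
  -- hence `ker b = ker r₁`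
  have hkk : LinearMap.ker b ≤ LinearMap.ker r₁ := by
    intro u hu
    have h9 : u ∈ LinearMap.ker r₁ ⊔ LinearMap.ker a := by rw [(compl₁ hB h).1]; trivial
    obtain ⟨p, hp, q, hq, rfl⟩ := Submodule.mem_sup.1 h9
    have h10 : q ∈ LinearMap.ker b := by
      have h11 := (LinearMap.ker b).sub_mem hu (hkerb hp)
      simpa using h11
    have h12 : q ∈ LinearMap.ker a ⊓ LinearMap.ker b := ⟨hq, h10⟩
    rw [hker] at h12
    rw [(Submodule.mem_bot _).1 h12, add_zero]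
    exact hp
  have hfin := hbv.2.2.2 r₁ h.m₁ hr1v ((range_le_iff (hR.alt r₁ h.m₁) (hR.alt b hbR)).2 hkk)
  rcases hfin with h0 | h0
  · exfalso
    apply hbv.2.2.1
    rw [h0, LinearMap.range_zero, le_bot_iff] at hbr1
    exact LinearMap.range_eq_bot.1 hbr1
  · rw [h0]; exact hbatom

end Pool.Agent.ESL
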