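import Pool.Agent.ESL.G8C

/-!
Module G8D: in the context of (G8) all atoms have rank `n / 2` and different atoms have complementary kernels.
-/

set_option linter.unusedVariables false
set_option linter.unusedSectionVars false

namespace Pool.Agent.ESL

namespace G8DX

open G8CX

variable {V : Type} [AddCommGroup V] [Module (ZMod 2) V]

/-- different atoms have disjoint ranges if one of them is good -/
theorem atoms_disjoint [Finite V] (h4 : Stmt_G4) (h2 : Stmt_AU2) {R : FS V} (hR : CtxII R) {b c : Fm V}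
    (hb : Atom R b) (hbg : Good R b) (hc : Atom R c) (hbc : b ≠ c) :
    Disjoint (LinearMap.range c) (LinearMap.range b) := by
  rcases h4 V R hR.alt b (atom_mem hb) hbg c (atom_mem hc) with hd | ⟨-, hd⟩
  · exact hd
  · exfalso
    obtain ⟨w, hw, hcw⟩ := hc
    have h1 : b w = 0 := hd hcw.2.1
    rcases hcw.2.2.2 b (atom_mem hb) h1
      ((range_le_iff (hR.alt b (atom_mem hb)) (hR.alt c hcw.1)).2 hd) with h0 | h0
    · exact atom_ne hb h0
    · exact hbc h0

/-- the main facts on `ρ = a + r₃` and a good atom `b` -/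
theorem rho_add [Finite V] (h4 : Stmt_G4) {R : FS V} (hR : CtxII R) {ρ b : Fm V} (hρR : ρ ∈ R)
    (hrho : LinearMap.ker ρ = ⊥) (hb : Atom R b) (hbg : Good R b) :
    Disjoint (LinearMap.range (ρ + b)) (LinearMap.range b) ∧ LinearMap.ker (ρ + b) ≠ ⊥ ∧
    fr (LinearMap.ker (ρ + b)) = fr (LinearMap.range b) := by
  have hbR := atom_mem hb
  have hd : Disjoint (LinearMap.range (ρ + b)) (LinearMap.range b) := by
    rcases h4 V R hR.alt b hbR hbg ρ hρR with hd | hd
    · exfalso
      have hrt : LinearMap.range ρ = ⊤ := by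
        rw [← an_ker (hR.alt ρ hρR), hrho, an_bot]
      rw [hrt, top_disjoint] at hd
      exact range_ne_bot (atom_ne hb) hd
    · exact hd.1
  have h7 := ker_sup_top (hR.alt _ (R.add_mem hρR hbR)) (hR.alt b hbR) hd
  refine ⟨hd, fun hc => ?_, ?_⟩
  · rw [hc, bot_sup_eq] at h7
    exact atom_ne hb (ker_top h7)
  · have h8 : LinearMap.ker (ρ + b) ⊓ LinearMap.ker b = ⊥ := by
      rw [eq_bot_iff]
      rintro u ⟨h1, h2⟩
      have h1 : (ρ + b) u = 0 := h1
      have h2 : b u = 0 := h2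
      rw [LinearMap.add_apply, h2, add_zero] at h1
      rw [← hrho]
      exact h1
    have h9 := fr_add_fr h7 h8
    have h10 := fr_range_ker b
    omega

theorem fr_le_of_disjoint [Finite V] {S T : Submodule (ZMod 2) (D V)} (h : Disjoint S T) :
    fr S + fr T ≤ fr V := by
  have h1 := Submodule.finrank_add_finrank_le_of_disjoint h
  rw [finrank_D] at h1
  exact h1

end G8DX

open G8CX G8DX in
theorem g8d_proof (hC : Stmt_G8C) (hB : Stmt_G8B) (hA : Stmt_G8A) (h4 : Stmt_G4) (h6 : Stmt_G6) (h2 : Stmt_AU2) :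
    Stmt_G8D := by
  intro V _ _ _ R a r₁ r₂ r₃ h
  have hR := h.ctx
  obtain ⟨hev, ha1⟩ := hC V R a r₁ r₂ r₃ h
  obtain ⟨-, ha2⟩ := hC V R a r₂ r₃ r₁ h.rot
  obtain ⟨-, ha3⟩ := hC V R a r₃ r₁ r₂ h.rot.rot
  have hgood : ∀ b, Atom R b → Good R b := h6 V R hR hev
  have hrho := ker_rho hB h
  have hρR : a + r₃ ∈ R := R.add_mem (atom_mem h.atom) h.m₃
  -- the kernels of the `r_i` are pairwise disjoint
  have k12 : LinearMap.ker r₁ ⊓ LinearMap.ker r₂ = ⊥ := hA V R a r₁ r₂ r₃ h
  have k23 : LinearMap.ker r₂ ⊓ LinearMap.ker r₃ = ⊥ := hA V R a r₂ r₃ r₁ h.rot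
  have k31 : LinearMap.ker r₃ ⊓ LinearMap.ker r₁ = ⊥ := hA V R a r₃ r₁ r₂ h.rot.rot
  have hne1 : LinearMap.ker r₁ ≠ ⊥ := ker₃_ne hB h.rot
  have hne2 : LinearMap.ker r₂ ≠ ⊥ := ker₃_ne hB h.rot.rot
  have hne3 : LinearMap.ker r₃ ≠ ⊥ := ker₃_ne hB h
  have n12 : r₁ ≠ r₂ := fun hc => hne1 (by rw [← hc, inf_idem] at k12; exact k12)
  have n23 : r₂ ≠ r₃ := fun hc => hne2 (by rw [← hc, inf_idem] at k23; exact k23)
  have n31 : r₃ ≠ r₁ := fun hc => hne3 (by rw [← hc, inf_idem] at k31; exact k31)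
  have dd : ∀ b c, Atom R b → Atom R c → b ≠ c → Disjoint (LinearMap.range c) (LinearMap.range b) :=
    fun b c hb hc hbc => atoms_disjoint h4 h2 hR hb (hgood b hb) hc hbc
  have s12 := fr_add_fr (ker_sup_top (hR.alt _ h.m₁) (hR.alt _ h.m₂) (dd r₂ r₁ ha2 ha1 n12.symm)) k12
  have s23 := fr_add_fr (ker_sup_top (hR.alt _ h.m₂) (hR.alt _ h.m₃) (dd r₃ r₂ ha3 ha2 n23.symm)) k23
  have s31 := fr_add_fr (ker_sup_top (hR.alt _ h.m₃) (hR.alt _ h.m₁) (dd r₁ r₃ ha1 ha3 n31.symm)) k31
  have q1 := fr_range_ker r₁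
  have q2 := fr_range_ker r₂
  -- rank of an atom
  have key : ∀ b, Atom R b → 2 * fr (LinearMap.range b) = fr V := by
    intro b hb
    obtain ⟨-, hne, hfr⟩ := rho_add h4 hR hρR hrho hb (hgood b hb)
    by_cases e1 : b = r₁
    · rw [e1]; omega
    by_cases e2 : b = r₂
    · rw [e2]; omega
    have hup : 2 * fr (LinearMap.range b) ≤ fr V := by
      have := fr_le_of_disjoint (dd b r₁ hb ha1 e1)
      omega
    have hρbR : a + r₃ + b ∈ R := R.add_mem hρR (atom_mem hb)
    have main : ∀ c, Atom R c → 2 * fr (LinearMap.range c) = fr V →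
        ¬ LinearMap.ker (a + r₃ + b) ≤ LinearMap.ker c → fr V ≤ 2 * fr (LinearMap.range b) := by
      intro c hc hc2 hnot
      rcases h4 V R hR.alt c (atom_mem hc) (hgood c hc) (a + r₃ + b) hρbR with hd | hd
      · have h9 := ker_sup_top (hR.alt _ hρbR) (hR.alt _ (atom_mem hc)) hd
        have h10 := Submodule.finrank_sup_add_finrank_inf_eq (LinearMap.ker (a + r₃ + b)) (LinearMap.ker c)
        rw [h9, finrank_top] at h10
        have h11 := fr_range_ker c
        have h12 : fr V + Module.finrank (ZMod 2) ↥(LinearMap.ker (a + r₃ + b) ⊓ LinearMap.ker c) =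
          fr (LinearMap.ker (a + r₃ + b)) + fr (LinearMap.ker c) := h10
        omega
      · exact absurd hd.2 hnot
    by_cases c1 : LinearMap.ker (a + r₃ + b) ≤ LinearMap.ker r₁
    · by_cases c2 : LinearMap.ker (a + r₃ + b) ≤ LinearMap.ker r₂
      · exfalso
        apply hne
        rw [eq_bot_iff, ← k12]
        exact le_inf c1 c2
      · have := main r₂ ha2 (by omega) c2
        omega
    · have := main r₁ ha1 (by omega) c1
      omega
  intro b hb
  refine ⟨key b hb, fun c hc hcb => ?_⟩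
  have h9 := ker_sup_top (hR.alt _ (atom_mem hb)) (hR.alt _ (atom_mem hc)) (dd c b hc hb hcb)
  have h10 := Submodule.finrank_sup_add_finrank_inf_eq (LinearMap.ker b) (LinearMap.ker c)
  rw [h9, finrank_top] at h10
  have h12 : fr V + Module.finrank (ZMod 2) ↥(LinearMap.ker b ⊓ LinearMap.ker c) =
          fr (LinearMap.ker b) + fr (LinearMap.ker c) := h10
  have e1 := key b hb
  have e2 := key c hc
  have e3 := fr_range_ker b
  have e4 := fr_range_ker c
  apply Submodule.finrank_eq_zero.1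
  omega

end Pool.Agent.ESL
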