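import Pool.Agent.ESL.G8D

/-!
Module G8E: the final count of (G8).
-/

set_option linter.unusedVariables false
set_option linter.unusedSectionVars false

namespace Pool.Agent.ESL

namespace G8EX

open G8CX G8DX

variable {V : Type} [AddCommGroup V] [Module (ZMod 2) V]

/-- evaluation at `x` -/
def ev (x : V) : Fm V →ₗ[ZMod 2] D V where
  toFun k := k x
  map_add' _ _ := rfl
  map_smul' _ _ := rfl

theorem map_ev (R : FS V) (x : V) : R.map (ev x) = Lx R x := by
  ext ψ
  rw [Submodule.mem_map, mem_Lx]
  rfl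

/-- `|R| = |L_x| |R^x|` -/
theorem card_R [Finite V] (R : FS V) (x : V) : Nat.card R = Nat.card (Lx R x) * Nat.card (fx R x) := by
  have h1 := LinearMap.finrank_range_add_finrank_ker ((ev x).domRestrict R)
  have h2 : LinearMap.range ((ev x).domRestrict R) = Lx R x := by
    rw [← map_ev, LinearMap.range_domRestrict]
  have h3 : fr (LinearMap.ker ((ev x).domRestrict R)) = fr (fx R x) := by
    have h4 : (LinearMap.ker ((ev x).domRestrict R)).map R.subtype = fx R x := by
      ext k
      rw [Submodule.mem_map]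
      constructor
      · rintro ⟨⟨k, hk⟩, h1, rfl⟩
        exact ⟨hk, h1⟩
      · rintro ⟨hk, h1⟩
        exact ⟨⟨k, hk⟩, h1, rfl⟩
    rw [← h4]
    exact (Submodule.finrank_map_subtype_eq R _).symm
  rw [h2] at h1
  rw [card_eq (V := Fm V) R, card_eq (V := D V) (Lx R x), card_eq (V := Fm V) (fx R x), ← pow_add]
  congr 1
  rw [← h1]
  congr 1

open Classical in
/-- the double counting of pairs `(x, φ)`, `φ ∈ L_x`, `φ ≠ 0`, `x ≠ 0` -/
theorem double_count [Fintype V] [Fintype (D V)] (R : FS V) :
    ∑ x ∈ Finset.univ.filter (fun x : V => x ≠ 0),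
      (Finset.univ.filter (fun φ : D V => φ ≠ 0 ∧ φ ∈ Lx R x)).card =
    ∑ φ ∈ Finset.univ.filter (fun φ : D V => φ ≠ 0),
      (Finset.univ.filter (fun x : V => x ≠ 0 ∧ φ ∈ Lx R x)).card := by
  have h := Finset.sum_card_bipartiteAbove_eq_sum_card_bipartiteBelow
    (s := Finset.univ.filter (fun x : V => x ≠ 0)) (t := Finset.univ.filter (fun φ : D V => φ ≠ 0))
    (fun x φ => φ ∈ Lx R x)
  simp only [Finset.bipartiteAbove, Finset.bipartiteBelow, Finset.filter_filter] at h
  exact h

theorem card_nonzero_ker [Fintype V] (b : Fm V) [i1 : DecidablePred (fun x : V => x ≠ 0 ∧ b x = 0)] :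
    (Finset.univ.filter (fun x : V => x ≠ 0 ∧ b x = 0)).card + 1 = 2 ^ fr (LinearMap.ker b) := by
  classical
  have h1 : Nat.card (LinearMap.ker b) = (Finset.univ.filter (fun x : V => b x = 0)).card := by
    rw [Nat.card_eq_fintype_card, ← Fintype.card_subtype]
    exact Fintype.card_congr (Equiv.refl _)
  rw [← card_eq, h1]
  have h2 : Finset.univ.filter (fun x : V => b x = 0) =
      insert 0 (Finset.univ.filter (fun x : V => x ≠ 0 ∧ b x = 0)) := by
    ext x
    simp only [Finset.mem_filter, Finset.mem_univ, true_and, Finset.mem_insert]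
    constructor
    · intro h
      by_cases h0 : x = 0
      · exact Or.inl h0
      · exact Or.inr ⟨h0, h⟩
    · rintro (rfl | h)
      · exact map_zero b
      · exact h.2
  rw [h2, Finset.card_insert_of_notMem (by simp)]

theorem card_nonzero_sub [Finite V] [Fintype (D V)] (L : Submodule (ZMod 2) (D V))
    [i1 : DecidablePred (fun φ : D V => φ ≠ 0 ∧ φ ∈ L)] :
    (Finset.univ.filter (fun φ : D V => φ ≠ 0 ∧ φ ∈ L)).card + 1 = Nat.card L := by
  classical
  have h1 : Nat.card L = (Finset.univ.filter (fun φ : D V => φ ∈ L)).card := by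
    rw [Nat.card_eq_fintype_card, ← Fintype.card_subtype]
  rw [h1]
  have h2 : Finset.univ.filter (fun φ : D V => φ ∈ L) =
      insert 0 (Finset.univ.filter (fun φ : D V => φ ≠ 0 ∧ φ ∈ L)) := by
    ext x
    simp only [Finset.mem_filter, Finset.mem_univ, true_and, Finset.mem_insert]
    constructor
    · intro h
      by_cases h0 : x = 0
      · exact Or.inl h0
      · exact Or.inr ⟨h0, h⟩
    · rintro (rfl | h)
      · exact L.zero_mem
      · exact h.2
  rw [h2, Finset.card_insert_of_notMem (by simp)]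

open Classical in
/-- fibres of a form -/
theorem card_fibre [Fintype V] (b : Fm V) (φ : D V) :
    (Finset.univ.filter (fun x : V => b x = φ)).card ≤ 2 ^ fr (LinearMap.ker b) := by
  by_cases h : ∃ x0, b x0 = φ
  · obtain ⟨x0, hx0⟩ := h
    have h1 : Nat.card (LinearMap.ker b) = (Finset.univ.filter (fun x : V => b x = 0)).card := by
      rw [Nat.card_eq_fintype_card, ← Fintype.card_subtype]
      exact Fintype.card_congr (Equiv.refl _)
    rw [← card_eq, h1]
    apply Finset.card_le_card_of_injOn (fun x => x + x0)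
    · intro x hx
      simp only [Finset.coe_filter, Finset.mem_univ, true_and, Set.mem_ofPred_eq] at hx ⊢
      rw [map_add, hx, hx0, add_self']
    · intro x _ y _ hxy
      exact add_right_cancel hxy
  · have : Finset.univ.filter (fun x : V => b x = φ) = ∅ := by
      ext x
      simp only [Finset.mem_filter, Finset.mem_univ, true_and, Finset.notMem_empty, iff_false]
      exact fun hx => h ⟨x, hx⟩
    rw [this]
    simp

theorem sum_fubini {α β : Type} [Fintype α] (P : α → Prop) [DecidablePred P] (A : Finset β)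
    (Q : β → α → Prop) [∀ b a, Decidable (Q b a)] :
    ∑ x ∈ Finset.univ.filter P, (A.filter (fun b => Q b x)).card =
    ∑ b ∈ A, (Finset.univ.filter (fun x : α => P x ∧ Q b x)).card := by
  have h := Finset.sum_card_bipartiteAbove_eq_sum_card_bipartiteBelow
    (s := Finset.univ.filter P) (t := A) (fun x b => Q b x)
  simp only [Finset.bipartiteAbove, Finset.bipartiteBelow, Finset.filter_filter] at h
  exact h

/-- the arithmetic at the end -/
theorem arith (N u S1 S2 T : ℕ) (hu : 1 ≤ u) (hN : 3 ≤ N)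
    (h1 : S1 + T + N * (N * u) = 2 * N * T) (hT : T = u * (u + 2)) (h2 : S1 ≤ T + u * (N * u)) (h3 : N * u ≤ T) :
    N = u + 2 := by
  subst hT
  have e1 : N ≤ u + 2 := by
    by_contra hc
    push Not at hc
    have : (u + 3) * u ≤ N * u := Nat.mul_le_mul_right _ hc
    nlinarith
  have e2 : 2 * N * (u * (u + 2)) ≤ u * (u + 2) + u * (N * u) + u * (u + 2) + N * (N * u) := by omega
  have e3 : u * (2 * N * (u + 2)) ≤ u * ((u + 2) + N * u + (u + 2) + N * N) := by nlinarith
  have e4 : 2 * N * (u + 2) ≤ (u + 2) + N * u + (u + 2) + N * N := Nat.le_of_mul_le_mul_left e3 hu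
  obtain ⟨M, rfl⟩ : ∃ M, N = M + 3 := ⟨N - 3, by omega⟩
  have e5 : (M + 1) * u ≤ (M + 1) * (M + 1) := by nlinarith
  have e6 : u ≤ M + 1 := Nat.le_of_mul_le_mul_left e5 (by omega)
  omega

end G8EX

open G8CX G8DX G8EX in
theorem g8e_proof (hD : Stmt_G8D) (hC : Stmt_G8C) (hB : Stmt_G8B) (hA : Stmt_G8A) (h4 : Stmt_G4) (h6 : Stmt_G6)
    (h1 : Stmt_AU1) (h2 : Stmt_AU2) (h3 : Stmt_AU3) : Stmt_G8E := by
  intro V _ _ _ R a r₁ r₂ r₃ h
  classical
  have : Fintype V := Fintype.ofFinite V
  have : Fintype (D V) := Fintype.ofFinite (D V)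
  have : Fintype (Fm V) := Fintype.ofFinite (Fm V)
  have hR := h.ctx
  obtain ⟨hev, ha1⟩ := hC V R a r₁ r₂ r₃ h
  obtain ⟨-, ha2⟩ := hC V R a r₂ r₃ r₁ h.rot
  obtain ⟨-, ha3⟩ := hC V R a r₃ r₁ r₂ h.rot.rot
  have hgood : ∀ b, Atom R b → Good R b := h6 V R hR hev
  have hd := hD V R a r₁ r₂ r₃ h
  have kk : ∀ b c, Atom R b → Atom R c → b ≠ c → LinearMap.ker b ⊓ LinearMap.ker c = ⊥ :=
    fun b c hb hc hbc => (hd b hb).2 c hc hbc.symm
  have dd : ∀ b c, Atom R b → Atom R c → b ≠ c → Disjoint (LinearMap.range c) (LinearMap.range b) :=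
    fun b c hb hc hbc => atoms_disjoint h4 h2 hR hb (hgood b hb) hc hbc
  -- distinctness
  have hne1 : LinearMap.ker r₁ ≠ ⊥ := ker₃_ne hB h.rot
  have hne2 : LinearMap.ker r₂ ≠ ⊥ := ker₃_ne hB h.rot.rot
  have hne3 : LinearMap.ker r₃ ≠ ⊥ := ker₃_ne hB h
  have n12 : r₁ ≠ r₂ := fun hc => hne1 (by
    have := hA V R a r₁ r₂ r₃ h
    rwa [← hc, inf_idem] at this)
  have n23 : r₂ ≠ r₃ := fun hc => hne2 (by
    have := hA V R a r₂ r₃ r₁ h.rot
    rwa [← hc, inf_idem] at this)
  have n31 : r₃ ≠ r₁ := fun hc => hne3 (by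
    have := hA V R a r₃ r₁ r₂ h.rot.rot
    rwa [← hc, inf_idem] at this)
  -- degenerate forms are atoms
  have hdeg : ∀ k ∈ R, k ≠ 0 → LinearMap.ker k ≠ ⊥ → Atom R k := by
    intro k hk hk0 hker
    obtain ⟨v, hv, hv0⟩ := nonzero_of hker
    obtain ⟨I, hI, hs, -⟩ := h3 V R hR v hv0 k ⟨hk, hv⟩
    have hIne : I.Nonempty := by
      rw [Finset.nonempty_iff_ne_empty]
      rintro rfl
      rw [Finset.sum_empty] at hs
      exact hk0 hs
    obtain ⟨b, hb⟩ := hIne
    have hbv : At R v b := mem_ats.1 (hI hb)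
    have hone : ∀ c ∈ I, c = b := by
      intro c hc
      by_contra hcb
      have hcv : At R v c := mem_ats.1 (hI hc)
      have h5 := kk b c ⟨v, hv0, hbv⟩ ⟨v, hv0, hcv⟩ (Ne.symm hcb)
      have h6 : v ∈ LinearMap.ker b ⊓ LinearMap.ker c := ⟨hbv.2.1, hcv.2.1⟩
      rw [h5] at h6
      exact hv0 h6
    have hI1 : I = {b} := by
      ext c
      rw [Finset.mem_singleton]
      exact ⟨hone c, fun hc => hc ▸ hb⟩
    rw [hI1, Finset.sum_singleton] at hs
    rw [hs]
    exact ⟨v, hv0, hbv⟩
  -- the set of atoms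
  set A : Finset (Fm V) := Finset.univ.filter (fun b => Atom R b) with hAdef
  have hmemA : ∀ b, b ∈ A ↔ Atom R b := by
    intro b
    rw [hAdef, Finset.mem_filter]
    simp
  have hA3 : 3 ≤ A.card := by
    have h5 : ({r₁, r₂, r₃} : Finset (Fm V)) ⊆ A := by
      intro c hc
      simp only [Finset.mem_insert, Finset.mem_singleton] at hc
      rw [hmemA]
      rcases hc with rfl | rfl | rfl
      · exact ha1
      · exact ha2
      · exact ha3
    have h6 : ({r₁, r₂, r₃} : Finset (Fm V)).card = 3 := by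
      rw [Finset.card_eq_three]
      exact ⟨r₁, r₂, r₃, n12, n31.symm, n23, rfl⟩
    rw [← h6]
    exact Finset.card_le_card h5
  -- `|R| = 2 |A|`
  have hRcard : Nat.card R = 2 * A.card := by
    have h5 : Nat.card R = (Finset.univ.filter (fun k : Fm V => k ∈ R)).card := by
      rw [Nat.card_eq_fintype_card, ← Fintype.card_subtype]
    have h6 : Finset.univ.filter (fun k : Fm V => k ∈ R) = A ∪ A.image (fun b => b + a) := by
      ext k
      rw [Finset.mem_filter, Finset.mem_union, Finset.mem_image, hmemA]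
      constructor
      · rintro ⟨-, hk⟩
        by_cases hk0 : k = 0
        · exact Or.inr ⟨a, (hmemA a).2 h.atom, by rw [hk0, add_self']⟩
        by_cases hker : LinearMap.ker k = ⊥
        · refine Or.inr ⟨k + a, (hmemA _).2 ?_, by rw [add_add_self']⟩
          refine hdeg _ (R.add_mem hk (atom_mem h.atom)) (fun hc => ?_) (rho_add h4 hR hk hker h.atom h.good).2.1
          apply ker_ne_bot_of_atom h.atom
          rw [← eq_of_add hc]
          exact hker
        · exact Or.inl (hdeg k hk hk0 hker)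
      · rintro (hk | ⟨b, hb, rfl⟩)
        · exact ⟨Finset.mem_univ _, atom_mem hk⟩
        · exact ⟨Finset.mem_univ _, R.add_mem (atom_mem ((hmemA b).1 hb)) (atom_mem h.atom)⟩
    have h7 : Disjoint A (A.image (fun b => b + a)) := by
      rw [Finset.disjoint_left]
      intro b hb hb2
      obtain ⟨c, hc, hcb⟩ := Finset.mem_image.1 hb2
      have hb' := (hmemA b).1 hb
      have hc' := (hmemA c).1 hc
      by_cases hca : c = a
      · apply atom_ne hb'
        rw [← hcb, hca, add_self']
      · obtain ⟨v, hv, hv0⟩ := nonzero_of (ker_ne_bot_of_atom hb')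
        have h8 : b v = 0 := hv
        rw [← hcb, LinearMap.add_apply] at h8
        have h9 := eq_of_add h8
        have h10 : c v ∈ LinearMap.range a ⊓ LinearMap.range c := ⟨⟨v, h9.symm⟩, ⟨v, rfl⟩⟩
        rw [(dd c a hc' h.atom hca).eq_bot] at h10
        have h11 : c v = 0 := h10
        have h12 : v ∈ LinearMap.ker c ⊓ LinearMap.ker a := ⟨h11, show a v = 0 by rw [← h9, h11]⟩
        rw [kk c a hc' h.atom hca] at h12
        exact hv0 h12
    rw [h5, h6, Finset.card_union_of_disjoint h7, Finset.card_image_of_injective _ (add_left_injective a)]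
    ring
  -- dimensions
  obtain ⟨g, hg⟩ := hev
  have hrank : ∀ b, Atom R b → fr (LinearMap.range b) = g ∧ fr (LinearMap.ker b) = g := by
    intro b hb
    have e1 := (hd b hb).1
    have e2 := fr_range_ker b
    omega
  have hg1 : 1 ≤ g := by
    have e1 := (hrank a h.atom).2
    have e2 := fr_pos (ker_ne_bot_of_atom h.atom)
    omega
  obtain ⟨u, hu⟩ : ∃ u, 2 ^ g = u + 1 := ⟨2 ^ g - 1, by have := Nat.one_le_two_pow (n := g); omega⟩
  have hu1 : 1 ≤ u := by
    have : 2 ^ 1 ≤ 2 ^ g := Nat.pow_le_pow_right (by norm_num) hg1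
    omega
  set N := A.card with hN
  -- the numbers of nonzero vectors and functionals
  have hTV : (Finset.univ.filter (fun x : V => x ≠ 0)).card = u * (u + 2) := by
    have e1 : Fintype.card V = 2 ^ (g + g) := by
      rw [← Nat.card_eq_fintype_card, card_V]
      congr 1
    have e2 : (Finset.univ.filter (fun x : V => x ≠ 0)).card = Fintype.card V - 1 := by
      rw [Finset.filter_ne' Finset.univ (0 : V), Finset.card_erase_of_mem (Finset.mem_univ _), Finset.card_univ]
    rw [e2, e1, pow_add, hu]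
    have : (u + 1) * (u + 1) = u * (u + 2) + 1 := by ring
    omega
  have hTD : (Finset.univ.filter (fun φ : D V => φ ≠ 0)).card = u * (u + 2) := by
    have e1 : Fintype.card (D V) = 2 ^ (g + g) := by
      rw [← Nat.card_eq_fintype_card, card_V, finrank_D]
      congr 1
    have e2 : (Finset.univ.filter (fun x : D V => x ≠ 0)).card = Fintype.card (D V) - 1 := by
      rw [Finset.filter_ne' Finset.univ (0 : D V), Finset.card_erase_of_mem (Finset.mem_univ _), Finset.card_univ]
    rw [e2, e1, pow_add, hu]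
    have : (u + 1) * (u + 1) = u * (u + 2) + 1 := by ring
    omega
  -- pairs (x, atom killing x)
  have hK : ∑ x ∈ Finset.univ.filter (fun x : V => x ≠ 0), (A.filter (fun b => b x = 0)).card = N * u := by
    rw [sum_fubini (fun x : V => x ≠ 0) A (fun b x => b x = 0)]
    rw [Finset.sum_congr rfl (g := fun _ => u), Finset.sum_const, smul_eq_mul]
    intro b hb
    have e1 := card_nonzero_ker b
    rw [(hrank b ((hmemA b).1 hb)).2, hu] at e1
    exact Nat.succ_injective e1
  -- pairs (φ, atom with φ in the range)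
  have hL : ∑ φ ∈ Finset.univ.filter (fun φ : D V => φ ≠ 0), (A.filter (fun b => φ ∈ LinearMap.range b)).card =
      N * u := by
    rw [sum_fubini (fun φ : D V => φ ≠ 0) A (fun b φ => φ ∈ LinearMap.range b)]
    rw [Finset.sum_congr rfl (g := fun _ => u), Finset.sum_const, smul_eq_mul]
    intro b hb
    have e1 := card_nonzero_sub (LinearMap.range b)
    rw [card_eq (V := D V)] at e1
    have e2 : Module.finrank (ZMod 2) (LinearMap.range b) = g := (hrank b ((hmemA b).1 hb)).1
    rw [e2, hu] at e1
    exact Nat.succ_injective e1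
  have hkap : ∀ x : V, x ≠ 0 → (A.filter (fun b => b x = 0)).card ≤ 1 := by
    intro x hx
    rw [Finset.card_le_one]
    intro b hb c hc
    rw [Finset.mem_filter, hmemA] at hb hc
    by_contra hbc
    have h6 : x ∈ LinearMap.ker b ⊓ LinearMap.ker c := ⟨hb.2, hc.2⟩
    rw [kk b c hb.1 hc.1 hbc] at h6
    exact hx h6
  have hNT : N * u ≤ u * (u + 2) := by
    rw [← hK, ← hTV, Finset.card_eq_sum_ones]
    exact Finset.sum_le_sum fun x hx => hkap x (Finset.mem_filter.1 hx).2
  -- sizes of the `L_x`
  have hLx : ∀ x : V, x ≠ 0 → (Finset.univ.filter (fun φ : D V => φ ≠ 0 ∧ φ ∈ Lx R x)).card + 1 +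
      N * (A.filter (fun b => b x = 0)).card = 2 * N := by
    intro x hx
    have e1 := card_nonzero_sub (Lx R x)
    have e2 := card_R R x
    rw [← e1, hRcard] at e2
    rcases Nat.lt_or_ge 0 (A.filter (fun b => b x = 0)).card with hc | hc
    · have hc1 : (A.filter (fun b => b x = 0)).card = 1 := le_antisymm (hkap x hx) hc
      obtain ⟨b, hb⟩ := Finset.card_pos.1 hc
      rw [Finset.mem_filter, hmemA] at hb
      have e3 : fx R x = Submodule.span (ZMod 2) {b} := by
        ext k
        rw [Submodule.mem_span_singleton]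
        constructor
        · rintro ⟨hk, hkx⟩
          by_cases hk0 : k = 0
          · exact ⟨0, by rw [hk0, zero_smul]⟩
          · have hka := hdeg k hk hk0 (fun hc => hx (by
              have : x ∈ LinearMap.ker k := hkx
              rwa [hc] at this))
            refine ⟨1, ?_⟩
            rw [one_smul]
            by_contra hbk
            have h6 : x ∈ LinearMap.ker b ⊓ LinearMap.ker k := ⟨hb.2, hkx⟩
            rw [kk b k hb.1 hka hbk] at h6
            exact hx h6
        · rintro ⟨c, rfl⟩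
          exact ⟨R.smul_mem c (atom_mem hb.1), by rw [LinearMap.smul_apply, hb.2, smul_zero]⟩
      have e4 : Nat.card (fx R x) = 2 := by
        rw [e3, card_eq (V := Fm V), finrank_span_singleton (atom_ne hb.1), pow_one]
      rw [e4] at e2
      rw [hc1]
      omega
    · have hc0 : (A.filter (fun b => b x = 0)).card = 0 := Nat.le_zero.1 hc
      have e3 : fx R x = ⊥ := by
        rw [eq_bot_iff]
        rintro k ⟨hk, hkx⟩
        rw [Submodule.mem_bot]
        by_contra hk0
        have hka := hdeg k hk hk0 (fun hc => hx (by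
              have : x ∈ LinearMap.ker k := hkx
              rwa [hc] at this))
        rw [Finset.card_eq_zero] at hc0
        have : k ∈ A.filter (fun b => b x = 0) := Finset.mem_filter.2 ⟨(hmemA k).2 hka, hkx⟩
        rw [hc0] at this
        exact absurd this (Finset.notMem_empty k)
      have e4 : Nat.card (fx R x) = 1 := by
        rw [e3, card_eq (V := Fm V), finrank_bot, pow_zero]
      rw [e4] at e2
      rw [hc0]
      omega
  -- sizes of the `P_φ`
  have hPφ : ∀ φ : D V, φ ≠ 0 → (Finset.univ.filter (fun x : V => x ≠ 0 ∧ φ ∈ Lx R x)).card ≤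
      1 + u * (A.filter (fun b => φ ∈ LinearMap.range b)).card := by
    intro φ hφ
    rcases Nat.lt_or_ge 0 (A.filter (fun b => φ ∈ LinearMap.range b)).card with hc | hc
    · obtain ⟨b, hb⟩ := Finset.card_pos.1 hc
      rw [Finset.mem_filter, hmemA] at hb
      have e1 : Finset.univ.filter (fun x : V => x ≠ 0 ∧ φ ∈ Lx R x) ⊆
          Finset.univ.filter (fun x : V => b x = φ) := by
        intro x hx
        rw [Finset.mem_filter] at hx ⊢
        exact ⟨Finset.mem_univ _, hgood b hb.1 φ hb.2 hφ x hx.2.2⟩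
      have e2 := (Finset.card_le_card e1).trans (card_fibre b φ)
      rw [(hrank b hb.1).2, hu] at e2
      have e3 : u * 1 ≤ u * (A.filter (fun b => φ ∈ LinearMap.range b)).card := Nat.mul_le_mul_left _ hc
      omega
    · have hc0 : (A.filter (fun b => φ ∈ LinearMap.range b)).card = 0 := Nat.le_zero.1 hc
      rw [hc0, mul_zero, add_zero, Finset.card_le_one]
      intro x hx y hy
      rw [Finset.mem_filter] at hx hy
      by_contra hxy
      obtain ⟨k, hk, hkx⟩ := hx.2.2
      obtain ⟨k', hk', hky⟩ := hy.2.2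
      obtain ⟨l, hl, hlx, hly⟩ := hR.sl.linked k hk k' hk' x y (hkx.trans hky.symm)
      have hl0 : l ≠ 0 := by
        rintro rfl
        apply hφ
        rw [← hkx, ← hlx]; rfl
      have hla := hdeg l hl hl0 (fun hc => hxy (by
        have : x + y ∈ LinearMap.ker l := by
          rw [LinearMap.mem_ker, map_add, hlx, hly, add_self']
        rw [hc] at this
        exact eq_of_add this))
      rw [Finset.card_eq_zero] at hc0
      have : l ∈ A.filter (fun b => φ ∈ LinearMap.range b) :=
        Finset.mem_filter.2 ⟨(hmemA l).2 hla, ⟨x, hlx.trans hkx⟩⟩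
      rw [hc0] at this
      exact absurd this (Finset.notMem_empty l)
  have hS := double_count (V := V) R
  set S1 := ∑ x ∈ Finset.univ.filter (fun x : V => x ≠ 0),
      (Finset.univ.filter (fun φ : D V => φ ≠ 0 ∧ φ ∈ Lx R x)).card with hS1
  have f1 : S1 + u * (u + 2) + N * (N * u) = 2 * N * (u * (u + 2)) := by
    have e1 : ∑ x ∈ Finset.univ.filter (fun x : V => x ≠ 0),
      ((Finset.univ.filter (fun φ : D V => φ ≠ 0 ∧ φ ∈ Lx R x)).card + 1 +
      N * (A.filter (fun b => b x = 0)).card) = ∑ x ∈ Finset.univ.filter (fun x : V => x ≠ 0), 2 * N :=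
      Finset.sum_congr rfl fun x hx => hLx x (Finset.mem_filter.1 hx).2
    rw [Finset.sum_add_distrib, Finset.sum_add_distrib, ← Finset.mul_sum, hK, Finset.sum_const, Finset.sum_const,
      hTV, smul_eq_mul, smul_eq_mul, mul_one] at e1
    rw [hS1, e1]
    ring
  have f2 : S1 ≤ u * (u + 2) + u * (N * u) := by
    rw [hS]
    refine (Finset.sum_le_sum fun φ hφ => hPφ φ (Finset.mem_filter.1 hφ).2).trans ?_
    rw [Finset.sum_add_distrib, ← Finset.mul_sum, hL, Finset.sum_const, hTD, smul_eq_mul, mul_one]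
  have hfin := arith N u S1 0 (u * (u + 2)) hu1 hA3 f1 rfl f2 hNT
  -- parity
  have hpow : 2 * N = 2 ^ Module.finrank (ZMod 2) R := by
    rw [← hRcard, card_eq (V := Fm V)]
  rcases hm : Module.finrank (ZMod 2) R with _ | _ | m
  · rw [hm] at hpow
    omega
  · rw [hm] at hpow
    omega
  · rw [hm, pow_succ, pow_succ] at hpow
    rcases hgg : g with _ | g'
    · omega
    · rw [hgg, pow_succ] at hu
      omega

end Pool.Agent.ESL
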