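import Pool.Agent.ESL.Stmts

/-!
Module G9: splitting off a good atom.
-/

namespace Pool.Agent.ESL

namespace G9X

variable {V : Type} [AddCommGroup V] [Module (ZMod 2) V]

/-- the forms of `R` with support disjoint from the support of `a` -/
def RR (R : FS V) (a : Fm V)
    (h : ∀ r₁ ∈ R, ∀ r₂ ∈ R, Disjoint (LinearMap.range r₁) (LinearMap.range a) →
      Disjoint (LinearMap.range r₂) (LinearMap.range a) →
      Disjoint (LinearMap.range (r₁ + r₂)) (LinearMap.range a)) : FS V where
  carrier := {r | r ∈ R ∧ Disjoint (LinearMap.range r) (LinearMap.range a)}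
  add_mem' := by
    rintro x y ⟨hx, hx'⟩ ⟨hy, hy'⟩
    exact ⟨R.add_mem hx hy, h x hx y hy hx' hy'⟩
  zero_mem' := ⟨R.zero_mem, by rw [LinearMap.range_zero]; exact disjoint_bot_left⟩
  smul_mem' := by
    rintro c x ⟨hx, hx'⟩
    refine ⟨R.smul_mem c hx, ?_⟩
    rcases zm c with rfl | rfl
    · rw [zero_smul, LinearMap.range_zero]; exact disjoint_bot_left
    · rw [one_smul]; exact hx'

end G9X

open G9X in
theorem g9_proof (h4 : Stmt_G4) (hS : Stmt_SPV) : Stmt_G9 := by
  intro V _ _ _ R hR hSL hIH a ha ha0 hg hadd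
  have mem : ∀ r, r ∈ RR R a hadd ↔ r ∈ R ∧ Disjoint (LinearMap.range r) (LinearMap.range a) :=
    fun r => Iff.rfl
  have dich : ∀ r ∈ R, r ∈ RR R a hadd ∨ r + a ∈ RR R a hadd := by
    intro r hr
    rcases h4 V R hR a ha hg r hr with h | ⟨h, -⟩
    · exact Or.inl ⟨hr, h⟩
    · exact Or.inr ⟨R.add_mem hr ha, h⟩
  have hfx : ∀ v, a v ≠ 0 → ∀ r ∈ R, r v = 0 → r ∈ RR R a hadd := by
    intro v hv r hr hrv
    rcases h4 V R hR a ha hg r hr with h | ⟨-, h⟩
    · exact ⟨hr, h⟩
    · exact absurd (LinearMap.mem_ker.1 (h (LinearMap.mem_ker.2 hrv))) hv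
  have hle : RR R a hadd ≤ R := fun r hr => hr.1
  have hne : RR R a hadd ≠ R := by
    intro h
    have : a ∈ RR R a hadd := by rw [h]; exact ha
    have h2 := this.2
    rw [disjoint_self] at h2
    exact ha0 (LinearMap.range_eq_bot.1 h2)
  have hSL' : SL (RR R a hadd) := by
    intro U b hb
    obtain ⟨k, hk, hkb⟩ := hSL U b (fun u => Lx_mono hle _ (hb u))
    by_cases hU : ∀ u ∈ U, a u = 0
    · rcases dich k hk with h | h
      · exact ⟨k, h, hkb⟩
      · refine ⟨k + a, h, fun u => ?_⟩
        rw [LinearMap.add_apply, hU u u.2, add_zero]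
        exact hkb u
    · push Not at hU
      obtain ⟨u, hu, hau⟩ := hU
      obtain ⟨r, hr, hru⟩ := hb ⟨u, hu⟩
      have h1 : k + r ∈ RR R a hadd := by
        apply hfx u hau _ (R.add_mem hk hr.1)
        have e1 := hkb ⟨u, hu⟩
        have e2 : k u = r u := e1.trans hru.symm
        rw [LinearMap.add_apply, e2]
        exact add_self' _
      refine ⟨k, ?_, hkb⟩
      have h2 := (RR R a hadd).add_mem h1 hr
      rwa [add_add_self'] at h2
  have hET : ET (RR R a hadd) := hIH _ hle hne hSL'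
  have hdis : Disjoint (Sp (RR R a hadd)) (LinearMap.range a) := by
    rw [Submodule.disjoint_def]
    intro φ h1 h2
    obtain ⟨k, hk, u, rfl⟩ := hS V _ hET φ h1
    exact (Submodule.disjoint_def.1 hk.2) _ ⟨u, rfl⟩ h2
  have hR' : R = RR R a hadd ⊔ Submodule.span (ZMod 2) {a} := by
    apply le_antisymm
    · intro r hr
      rcases dich r hr with h | h
      · exact Submodule.mem_sup_left h
      · have h3 := Submodule.add_mem_sup h (Submodule.mem_span_singleton_self a)
        rwa [add_add_self'] at h3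
    · refine sup_le hle ?_
      rw [Submodule.span_singleton_le_iff_mem]
      exact ha
  rw [hR']
  apply ET.sum _ _ hET (ET.loc a (hR a ha))
  rw [Sp_span]
  exact hdis

end Pool.Agent.ESL
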