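import Pool.Agent.ESL.StmtsJ

namespace Pool.Agent.ESL

theorem j2_proof (hA : Stmt_ETALT) (hR : Stmt_J2R) (hL : Stmt_J2L) (hS : Stmt_J2S)
    (hE : Stmt_J2E) : Stmt_J2 := by
  intro V _ _ _ R h
  induction h with
  | loc k h => exact hR V _ (hL V k h)
  | sum R₁ R₂ h₁ h₂ hd ih₁ ih₂ =>
    exact hR V _ (hS V R₁ R₂ (hA V R₁ h₁) (hA V R₂ h₂) hd ih₁ ih₂)
  | ext R L τ h hL' hτ ih => exact hR V _ (hE V R L τ (hA V R h) hL' hτ ih)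

end Pool.Agent.ESL
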