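import Pool.Agent.ESL.J2C

/-!
Module J2E: extensions.
-/

namespace Pool.Agent.ESL

open QS

namespace J2EX

variable {V : Type} [AddCommGroup V] [Module (ZMod 2) V]

/-- `{a : τ (i a) = 0}` -/
def ker' {G : Type} [CommGroup G] (i : G → V) (hi : ∀ a b, i (a * b) = i a + i b)
    (h2 : ∀ a : G, a * a = 1) (τ : D V) : Subgroup G where
  carrier := {a | τ (i a) = 0}
  mul_mem' := by
    intro a b ha hb
    show τ (i (a * b)) = 0
    rw [hi, map_add, show τ (i a) = 0 from ha, show τ (i b) = 0 from hb, add_zero]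
  one_mem' := by
    show τ (i 1) = 0
    rw [J2C.i_one hi, map_zero]
  inv_mem' := by
    intro a ha
    show τ (i a⁻¹) = 0
    rw [inv_eq_of_mul_eq_one_right (h2 a)]
    exact ha

end J2EX

theorem j2e_proof (hp : Stmt_EXTREC) : Stmt_J2E := by
  intro V _ _ _ R L τ hR hL hτ hG S hf hn i hi hsur hnd hq
  have hi1 := J2C.i_one hi
  by_cases hL0 : L = ⊥
  · -- everything vanishes
    have hR0 : ∀ k ∈ R, k = 0 := by
      intro k hk
      apply LinearMap.ext
      intro x
      have h1 := hL (mem_Sp hk x)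
      rw [hL0, Submodule.mem_bot] at h1
      exact h1
    have h0 : ∀ x, x ∈ rad (R ⊔ L.map (wdL τ)) := by
      intro x k hk
      obtain ⟨k₁, hk₁, k₂, hk₂, rfl⟩ := Submodule.mem_sup.1 hk
      obtain ⟨l, hl, rfl⟩ := hk₂
      rw [SetLike.mem_coe, hL0, Submodule.mem_bot] at hl
      rw [hl, hR0 k₁ hk₁, map_zero, add_zero]; rfl
    refine ElemType.L0 S ?_
    rw [Nat.card_eq_one_iff_unique]
    exact ⟨⟨fun x y => by rw [hnd x (h0 _), hnd y (h0 _)]⟩, ⟨1⟩⟩
  obtain ⟨l₀, hl₀, hl₀'⟩ := Submodule.exists_mem_ne_zero_of_ne_bot hL0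
  have hwd : ∀ l ∈ L, wdL τ l ∈ R ⊔ L.map (wdL τ) := fun l hl =>
    Submodule.mem_sup_right (Submodule.mem_map_of_mem hl)
  have hτ0 : τ ≠ 0 := by
    rintro rfl
    exact hτ L.zero_mem
  -- elements of the radical
  have hradτ : ∀ r ∈ rad (R ⊔ L.map (wdL τ)), τ r = 0 := by
    intro r hr
    have h1 : wdL τ l₀ r = 0 := hr _ (hwd l₀ hl₀)
    rw [wdL_apply] at h1
    rcases zm (τ r) with h2 | h2
    · exact h2
    exfalso
    rw [h2, one_smul] at h1
    have h3 : l₀ = l₀ r • τ := eq_of_add h1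
    rcases zm (l₀ r) with h4 | h4
    · rw [h4, zero_smul] at h3
      exact hl₀' h3
    · rw [h4, one_smul] at h3
      rw [h3] at hl₀
      exact hτ hl₀
  have hradL : ∀ r ∈ rad (R ⊔ L.map (wdL τ)), ∀ l ∈ L, l r = 0 := by
    intro r hr l hl
    have h1 : wdL τ l r = 0 := hr _ (hwd l hl)
    rw [wdL_apply, hradτ r hr, zero_smul, zero_add] at h1
    rcases zm (l r) with h2 | h2
    · exact h2
    · rw [h2, one_smul] at h1
      exact absurd h1 hτ0
  -- the forms of R kill co L
  have hco : ∀ k ∈ R, ∀ x y, (∀ l ∈ L, l y = 0) → k x y = 0 := fun k hk x y hy =>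
    hy _ (hL (mem_Sp hk x))
  have hco' : ∀ k ∈ R, ∀ x y, (∀ l ∈ L, l y = 0) → k y x = 0 := by
    intro k hk x y hy
    rw [hR.symm hk]
    exact hco k hk x y hy
  -- elements killed by τ and L
  have hone : ∀ a, τ (i a) = 0 → (∀ l ∈ L, l (i a) = 0) → a = 1 := by
    intro a h1 h2
    apply hnd
    intro k hk
    obtain ⟨k₁, hk₁, k₂, hk₂, rfl⟩ := Submodule.mem_sup.1 hk
    obtain ⟨l, hl, rfl⟩ := hk₂
    apply LinearMap.ext
    intro y
    rw [LinearMap.add_apply, LinearMap.add_apply, hco' k₁ hk₁ y _ h2, zero_add, wdL_apply₂, h1,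
      h2 l hl, zero_mul, zero_mul, add_zero]
    rfl
  -- the element t
  obtain ⟨x, hx, hx1⟩ := exists_cosep hτ
  obtain ⟨t, ht⟩ := hsur x
  have htτ : τ (i t) = 1 := by
    have h1 := hradτ _ ht
    rw [map_add, hx1] at h1
    rcases zm (τ (i t)) with h2 | h2
    · rw [h2, add_zero] at h1
      exact absurd h1 one_ne_zero
    · exact h2
  have htL : ∀ l ∈ L, l (i t) = 0 := by
    intro l hl
    have h1 := hradL _ ht l hl
    rw [map_add, hx l hl, zero_add] at h1
    exact h1
  let H : Subgroup S.G := J2EX.ker' i hi S.exp_two τ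
  have hH : ∀ a, a ∈ H ↔ τ (i a) = 0 := fun a => Iff.rfl
  have htH : t ∉ H := by
    rw [hH, htτ]
    exact one_ne_zero
  have hcov : ∀ g, g ∈ H ∨ g * t ∈ H := by
    intro g
    rcases zm (τ (i g)) with h1 | h1
    · left; exact h1
    · right
      rw [hH, hi, map_add, h1, htτ]
      exact CharTwo.add_self_eq_zero _
  have hHR : ∀ a ∈ H, ∀ b ∈ H, S.q a b = S.zero ↔ ∀ k ∈ R, k (i a) (i b) = 0 := by
    intro a ha b hb
    rw [hq]
    constructor
    · exact fun h k hk => h k (Submodule.mem_sup_left hk)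
    · intro h k hk
      obtain ⟨k₁, hk₁, k₂, hk₂, rfl⟩ := Submodule.mem_sup.1 hk
      obtain ⟨l, hl, rfl⟩ := hk₂
      rw [LinearMap.add_apply, LinearMap.add_apply, h k₁ hk₁, zero_add, wdL_apply₂,
        (hH a).1 ha, (hH b).1 hb, zero_mul, mul_zero, add_zero]
  have hmix : ∀ a ∈ H, ∀ b ∈ H, S.q a (b * t) = S.zero ↔ a = 1 := by
    intro a ha b hb
    constructor
    · intro h
      rw [hq] at h
      apply hone a ha
      intro l hl
      have h1 := h _ (hwd l hl)
      rw [wdL_apply₂, (hH a).1 ha, zero_mul, zero_add, hi, map_add, (hH b).1 hb, htτ, zero_add,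
        mul_one] at h1
      exact h1
    · rintro rfl
      rw [hq, hi1]
      intro k _
      rw [map_zero]; rfl
  have hmix2 : ∀ a ∈ H, ∀ b ∈ H, S.q (a * t) (b * t) = S.zero ↔ a = b := by
    intro a ha b hb
    constructor
    · intro h
      rw [hq] at h
      have hab : a * b = 1 := by
        apply hone
        · rw [hi, map_add, (hH a).1 ha, (hH b).1 hb, add_zero]
        · intro l hl
          have h1 := h _ (hwd l hl)
          rw [wdL_apply₂, hi a t, hi b t, map_add τ, map_add τ, (hH a).1 ha, (hH b).1 hb, htτ, zero_add,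
            map_add l, map_add l, htL l hl, add_zero, add_zero, one_mul, mul_one] at h1
          rw [hi, map_add, add_comm]
          exact h1
      exact (eq_iff_mul S a b).2 hab
    · rintro rfl
      rw [hq]
      intro k hk
      obtain ⟨k₁, hk₁, k₂, hk₂, rfl⟩ := Submodule.mem_sup.1 hk
      obtain ⟨l, hl, rfl⟩ := hk₂
      rw [LinearMap.add_apply, LinearMap.add_apply, hR k₁ hk₁, wdL_alt, add_zero]
  obtain ⟨SH, f, hnH, hqH, hiso⟩ := hp S hn H t htH hcov hmix hmix2
  refine ElemType.iso _ _ hiso (ElemType.ext _ ?_)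
  refine hG SH (Finite.of_equiv _ f.toEquiv.symm) hnH (fun x => i (f x)) ?_ ?_ ?_
  · intro a b
    rw [map_mul]
    exact hi _ _
  · intro v
    obtain ⟨a, ha⟩ := hsur v
    have hle : ∀ r ∈ rad (R ⊔ L.map (wdL τ)), r ∈ rad R := fun r hr k hk =>
      hr k (Submodule.mem_sup_left hk)
    rcases hcov a with h1 | h1
    · refine ⟨f.symm ⟨a, h1⟩, ?_⟩
      rw [MulEquiv.apply_symm_apply]
      exact hle _ ha
    · refine ⟨f.symm ⟨a * t, h1⟩, ?_⟩
      rw [MulEquiv.apply_symm_apply]
      show v + i (a * t) ∈ rad R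
      rw [hi, ← add_assoc]
      refine (rad R).add_mem (hle _ ha) ?_
      intro k hk
      apply LinearMap.ext
      intro y
      exact hco' k hk y _ htL
  · intro a b
    rw [hqH]
    exact hHR _ (f a).2 _ (f b).2

end Pool.Agent.ESL
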