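import Pool.Agent.ESL.J2C

/-!
Module J2L: one form.
-/

namespace Pool.Agent.ESL

open QS

theorem j2l_proof (hp : Stmt_EXTREC) : Stmt_J2L := by
  intro V _ _ _ k hk S hf hn i hi hsur hnd hq
  have hi1 := J2C.i_one hi
  have hsym := symm_of_alt hk
  have hq' : ∀ a b, S.q a b = S.zero ↔ k (i a) (i b) = 0 := by
    intro a b
    rw [hq]
    constructor
    · exact fun h => h k (Submodule.mem_span_singleton_self k)
    · intro h k' hk'
      rcases J2C.mem_span_iff.1 hk' with rfl | rfl
      · rfl
      · exact h
  have hrad : ∀ r, r ∈ rad (Submodule.span (ZMod 2) {k}) ↔ k r = 0 := by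
    intro r
    constructor
    · exact fun h => h k (Submodule.mem_span_singleton_self k)
    · intro h k' hk'
      rcases J2C.mem_span_iff.1 hk' with rfl | rfl
      · rfl
      · exact h
  have hne : ∀ a, a ≠ 1 → k (i a) ≠ 0 := by
    intro a ha h
    exact ha (hnd a ((hrad _).2 h))
  -- common partner
  have hboth : ∀ a c, k (i a) ≠ 0 → k (i c) ≠ 0 → ∃ x, k (i a) (i x) = 1 ∧ k (i c) (i x) = 1 := by
    intro a c ha hc
    obtain ⟨v, h1, h2⟩ := J2C.exists_both ha hc
    obtain ⟨x, hx⟩ := hsur v
    rw [hrad] at hx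
    have h3 : ∀ w, k w v = k w (i x) := by
      intro w
      apply eq_of_add
      rw [← map_add, hsym, hx]; rfl
    exact ⟨x, by rw [← h3, h1], by rw [← h3, h2]⟩
  by_cases h1 : ∀ a : S.G, a = 1
  · refine ElemType.L0 S ?_
    rw [Nat.card_eq_one_iff_unique]
    exact ⟨⟨fun x y => by rw [h1 x, h1 y]⟩, ⟨1⟩⟩
  push Not at h1
  obtain ⟨a, ha⟩ := h1
  obtain ⟨t, ht, -⟩ := hboth a a (hne a ha) (hne a ha)
  have hta : t ∉ Subgroup.zpowers a := by
    rw [J2C.mem_zp S.exp_two]
    rintro (rfl | rfl)
    · rw [hi1, map_zero] at ht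
      exact zero_ne_one ht
    · rw [hk] at ht
      exact zero_ne_one ht
  by_cases hcov : ∀ g, g ∈ Subgroup.zpowers a ∨ g * t ∈ Subgroup.zpowers a
  · -- extension of a structure with two elements
    have ht' : k (i t) (i a) = 1 := by rw [hsym, ht]
    obtain ⟨SH, f, hnH, hqH, hiso⟩ := hp S hn (Subgroup.zpowers a) t hta hcov
      (by
        intro h hh h' hh'
        rw [J2C.mem_zp S.exp_two] at hh hh'
        rw [hq', hi, map_add]
        rcases hh with rfl | rfl <;> rcases hh' with rfl | rfl
        · simp [hi1]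
        · simp [hi1]
        · simp [hi1, ht, ha]
        · simp [hk, ht, ha])
      (by
        intro h hh h' hh'
        rw [J2C.mem_zp S.exp_two] at hh hh'
        rw [hq', hi, hi, map_add, map_add, LinearMap.add_apply, LinearMap.add_apply]
        rcases hh with rfl | rfl <;> rcases hh' with rfl | rfl
        · simp [hi1, hk]
        · simp [hi1, hk, ht', Ne.symm ha]
        · simp [hi1, hk, ht, ha]
        · simp [hk, ht, ht', CharTwo.add_self_eq_zero])
    refine ElemType.iso _ _ hiso (ElemType.ext _ (ElemType.L10 SH ?_ hnH ?_))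
    · rw [Nat.card_congr f.toEquiv]
      exact J2C.card_zp S.exp_two ha
    · intro x y
      rw [hqH, hq']
      have h3 := (f x).2
      have h4 := (f y).2
      rw [J2C.mem_zp S.exp_two] at h3 h4
      rcases h3 with h3 | h3 <;> rcases h4 with h4 | h4 <;> rw [h3, h4]
      · exact hk _
      · rw [hi1, map_zero]; rfl
      · rw [hi1, map_zero]
      · exact hk _
  -- local type
  push Not at hcov
  obtain ⟨s, hs1, hs2⟩ := hcov
  refine ElemType.loc S hf ?_ ?_ ?_
  · -- at least eight elements
    have hmem : ∀ x, x ∈ Subgroup.zpowers a ↔ x = 1 ∨ x = a := fun x => J2C.mem_zp S.exp_two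
    rw [hmem] at hta hs1 hs2
    push Not at hta hs1 hs2
    let F : Bool × Bool × Bool → S.G := fun b =>
      (if b.1 then a else 1) * (if b.2.1 then t else 1) * (if b.2.2 then s else 1)
    have h2 := S.exp_two
    have hinj : Function.Injective F := by
      -- a relation gives an element of the group generated by a, t equal to s
      have hat : a ≠ t := Ne.symm hta.2
      have has : a ≠ s := Ne.symm hs1.2
      have hst1 : s * t ≠ 1 := hs2.1
      have hsta : s * t ≠ a := hs2.2
      have key : ∀ b : Bool × Bool × Bool, F b = 1 → b = (false, false, false) := by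
        rintro ⟨b1, b2, b3⟩ hb
        cases b1 <;> cases b2 <;> cases b3 <;> simp [F] at hb
        · rfl
        · exact absurd hb hs1.1
        · exact absurd hb hta.1
        · exact absurd hb (by rw [mul_comm]; exact hst1)
        · exact absurd hb ha
        · exact absurd ((eq_iff_mul S a s).2 hb) has
        · exact absurd ((eq_iff_mul S a t).2 hb) hat
        · exact absurd ((eq_iff_mul S a (s * t)).2 (by rw [← hb]; ac_rfl)) (Ne.symm hsta)
      intro b c hbc
      have h5 := key (xor b.1 c.1, xor b.2.1 c.2.1, xor b.2.2 c.2.2) (by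
        have h6 : F b * F c = 1 := by rw [hbc]; exact h2 _
        rw [← h6]
        obtain ⟨b1, b2, b3⟩ := b
        obtain ⟨c1, c2, c3⟩ := c
        simp only [F]
        have h7 : ∀ (x y z x' y' z' : S.G), x * y * z * (x' * y' * z') = x * x' * (y * y') * (z * z') := by
          intros; ac_rfl
        rw [h7]
        congr 1
        · congr 1
          · cases b1 <;> cases c1 <;> simp [h2]
          · cases b2 <;> cases c2 <;> simp [h2]
        · cases b3 <;> cases c3 <;> simp [h2])
      clear hbc
      revert h5
      revert b c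
      clear key F
      decide
    have h3 := Nat.card_le_card_of_injective F hinj
    simpa using h3
  · intro b hb
    by_contra hb1
    obtain ⟨x, hx, -⟩ := hboth b b (hne b hb1) (hne b hb1)
    have h3 := (hq' b x).1 (hb x)
    rw [hx] at h3
    exact one_ne_zero h3
  · have hqt : S.q a t ≠ S.zero := by
      rw [Ne, hq', ht]
      exact one_ne_zero
    rw [Nat.card_eq_two_iff]
    refine ⟨S.zero, S.q a t, Ne.symm hqt, ?_⟩
    rw [Set.eq_univ_iff_forall]
    intro β
    obtain ⟨c, d, rfl⟩ := S.surj β
    by_cases hcd : S.q c d = S.zero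
    · left; exact hcd
    right
    rw [Set.mem_singleton_iff]
    have hcd1 : k (i c) (i d) = 1 := zm_ne (fun h => hcd ((hq' c d).2 h))
    have hc : k (i c) ≠ 0 := by
      intro h
      rw [h] at hcd1
      exact zero_ne_one hcd1
    obtain ⟨x, hx1, hx2⟩ := hboth a c (hne a ha) hc
    have e1 : S.q a t = S.q a x := by
      rw [S.qs3, hq', hi, map_add, ht, hx1]
      exact CharTwo.add_self_eq_zero _
    have e2 : S.q c d = S.q c x := by
      rw [S.qs3, hq', hi, map_add, hcd1, hx2]
      exact CharTwo.add_self_eq_zero _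
    have e3 : S.q x a = S.q x c := by
      rw [S.qs3, hq', hi, map_add, hsym (i x), hsym (i x), hx1, hx2]
      exact CharTwo.add_self_eq_zero _
    rw [e2, S.qs2 c x, ← e3, S.qs2 x a, ← e1]

end Pool.Agent.ESL
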