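import Pool.Agent.ESL.StmtsJ

/-!
Module J2R: splitting off the totally degenerate part.
-/

set_option linter.unusedVariables false

namespace Pool.Agent.ESL

namespace J2RX

/-- subgroups of an elementary abelian 2-group have complements -/
theorem exists_compl {G : Type} [CommGroup G] (h2 : ∀ a : G, a * a = 1) (Z : Subgroup G) :
    ∃ W : Subgroup G, IsCompl W Z := by
  let inst : Module (ZMod 2) (Additive G) := AddCommGroup.zmodModule (n := 2) (by
    intro x
    rw [two_nsmul]
    exact h2 (Additive.toMul x))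
  obtain ⟨C, hC⟩ := exists_isCompl (AddSubgroup.toZModSubmodule 2 (Subgroup.toAddSubgroup Z))
  have h := (OrderIso.isCompl_iff ((AddSubgroup.toZModSubmodule 2).symm.trans
    (Subgroup.toAddSubgroup (G := G)).symm)).mp hC
  simp only [OrderIso.trans_apply, OrderIso.symm_apply_apply] at h
  exact ⟨_, h.symm⟩

end J2RX

theorem j2r_proof (hP : Stmt_PRODREC) (hD : Stmt_DEG) : Stmt_J2R := by
  intro V _ _ _ R hN S hfin hneg i hi hsurj hq
  have hi1 : i 1 = 0 := by
    have h := hi 1 1
    rw [mul_one, add_self'] at h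
    exact h
  let Z : Subgroup S.G :=
    { carrier := {a | i a ∈ rad R}
      mul_mem' := fun {a b} ha hb => by
        show i (a * b) ∈ rad R
        rw [hi]; exact (rad R).add_mem ha hb
      one_mem' := by
        show i 1 ∈ rad R
        rw [hi1]; exact (rad R).zero_mem
      inv_mem' := fun {a} ha => by
        show i a⁻¹ ∈ rad R
        have h1 : a⁻¹ = a := inv_eq_of_mul_eq_one_right (S.exp_two a)
        rw [h1]; exact ha }
  have hZ : ∀ a, a ∈ Z ↔ i a ∈ rad R := fun a => Iff.rfl
  -- elements of Z commute with everything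
  have hz1 : ∀ a ∈ Z, ∀ b, S.q a b = S.zero := by
    intro a ha b
    rw [hq]
    intro k hk
    rw [((hZ a).mp ha) k hk]; rfl
  have hz2 : ∀ a ∈ Z, ∀ b, ∀ k ∈ R, k (i b) (i a) = 0 := by
    intro a ha b
    have h := hz1 a ha b
    rw [S.qs2] at h
    exact (hq b a).mp h
  obtain ⟨W, hWZ⟩ := J2RX.exists_compl S.exp_two Z
  have hprod : ∀ a ∈ W, ∀ b ∈ Z, ∀ a' ∈ W, ∀ b' ∈ Z, S.q (a * b) (a' * b') = S.zero ↔
      S.q a a' = S.zero ∧ S.q b b' = S.zero := by
    intro a ha b hb a' ha' b' hb'
    have e : S.q b b' = S.zero := hz1 b hb b'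
    have e2 : S.q (a * b) (a' * b') = S.zero ↔ S.q a a' = S.zero := by
      rw [hq, hq]
      refine forall₂_congr (fun k hk => ?_)
      have e3 : k (i (a * b)) (i (a' * b')) = k (i a) (i a') := by
        have e4 : k (i b) = 0 := ((hZ b).mp hb) k hk
        have e5 : k (i a) (i b') = 0 := hz2 b' hb' a k hk
        have e6 : k (i a + i b) = k (i a) := by rw [map_add k, e4, add_zero]
        rw [hi, hi, e6, map_add, e5, add_zero]
      rw [e3]
    rw [e2]
    simp [e]
  obtain ⟨SA, SB, f, g, hA, hB, hqA, hqB, hiso⟩ := hP S hneg W Z hWZ hprod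
  refine QS.ElemType.iso _ S hiso (QS.ElemType.prod SA SB ?_ ?_)
  · have : Finite S.G := hfin
    refine hN SA (Finite.of_equiv W f.symm.toEquiv) hA (fun x => i (f x)) ?_ ?_ ?_ ?_
    · intro a b
      rw [map_mul, Subgroup.coe_mul, hi]
    · intro v
      obtain ⟨a, ha⟩ := hsurj v
      have hmem : a ∈ W ⊔ Z := by rw [hWZ.sup_eq_top]; trivial
      obtain ⟨w, hw, z, hz, rfl⟩ := Subgroup.mem_sup.mp hmem
      refine ⟨f.symm ⟨w, hw⟩, ?_⟩
      have e : v + i (f (f.symm ⟨w, hw⟩)) = (v + i (w * z)) + i z := by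
        rw [f.apply_symm_apply, hi, add_assoc, add_add_self']
      rw [e]
      exact (rad R).add_mem ha ((hZ z).mp hz)
    · intro a ha
      have h1 : (f a : S.G) ∈ Z := (hZ _).mpr ha
      have h2 : (f a : S.G) ∈ W := (f a).2
      have h3 : (f a : S.G) ∈ W ⊓ Z := ⟨h2, h1⟩
      rw [hWZ.inf_eq_bot, Subgroup.mem_bot] at h3
      have h4 : f a = 1 := Subtype.ext h3
      exact (map_eq_one_iff f f.injective).mp h4
    · intro a b
      rw [hqA, hq]
  · have : Finite S.G := hfin
    refine hD SB (Finite.of_equiv Z g.symm.toEquiv) hB ?_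
    intro a b
    rw [hqB]
    exact hz1 _ (g a).2 _

end Pool.Agent.ESL
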