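import Pool.Agent.ESL.J2C

/-!
Module J2S: sums.
-/

namespace Pool.Agent.ESL

open QS

namespace J2SX

variable {V : Type} [AddCommGroup V] [Module (ZMod 2) V]

/-- `{a : i a ∈ W}` -/
def pre {G : Type} [CommGroup G] (i : G → V) (hi : ∀ a b, i (a * b) = i a + i b)
    (h2 : ∀ a : G, a * a = 1) (W : Submodule (ZMod 2) V) : Subgroup G where
  carrier := {a | i a ∈ W}
  mul_mem' := by
    intro a b ha hb
    show i (a * b) ∈ W
    rw [hi]
    exact W.add_mem ha hb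
  one_mem' := by
    show i 1 ∈ W
    rw [J2C.i_one hi]
    exact W.zero_mem
  inv_mem' := by
    intro a ha
    show i a⁻¹ ∈ W
    rw [inv_eq_of_mul_eq_one_right (h2 a)]
    exact ha

theorem part {R₁ : FS V} {S SA : QStruct} (hf : Finite S.G) {A : Subgroup S.G} {i : S.G → V}
    (hi : ∀ a b, i (a * b) = i a + i b) (hG : GR R₁) (hn : SA.neg = 1) (f : SA.G ≃* A)
    (hsur : ∀ v, ∃ a ∈ A, v + i a ∈ rad R₁)
    (hq : ∀ x y, SA.q x y = SA.zero ↔ S.q (f x) (f y) = S.zero)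
    (hk : ∀ a ∈ A, ∀ b ∈ A, S.q a b = S.zero ↔ ∀ k ∈ R₁, k (i a) (i b) = 0) : ElemType SA := by
  refine hG SA (Finite.of_equiv _ f.toEquiv.symm) hn (fun x => i (f x)) ?_ ?_ ?_
  · intro a b
    rw [map_mul]
    exact hi _ _
  · intro v
    obtain ⟨a, ha, h⟩ := hsur v
    refine ⟨f.symm ⟨a, ha⟩, ?_⟩
    rw [MulEquiv.apply_symm_apply]
    exact h
  · intro a b
    rw [hq]
    exact hk _ (f a).2 _ (f b).2

end J2SX

theorem j2s_proof (hp : Stmt_PRODREC) : Stmt_J2S := by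
  intro V _ _ _ R₁ R₂ hR₁ hR₂ hd hG₁ hG₂ S hf hn i hi hsur hnd hq
  have hrad : rad R₁ ⊔ rad R₂ = ⊤ := by
    rw [← co_Sp hR₁, ← co_Sp hR₂]
    exact co_sup_top hd
  -- the commuting relation
  have hle1 : rad (R₁ ⊔ R₂) ≤ rad R₁ := fun x hx k hk => hx k (Submodule.mem_sup_left hk)
  have hle2 : rad (R₁ ⊔ R₂) ≤ rad R₂ := fun x hx k hk => hx k (Submodule.mem_sup_right hk)
  let W₂ : Subgroup S.G := J2SX.pre i hi S.exp_two (rad R₁)
  let T₁ : Subgroup S.G := J2SX.pre i hi S.exp_two (rad R₂)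
  have htop : W₂ ⊔ T₁ = ⊤ := by
    rw [eq_top_iff]
    intro a _
    have h1 : i a ∈ rad R₁ ⊔ rad R₂ := by rw [hrad]; trivial
    obtain ⟨x, hx, y, hy, hxy⟩ := Submodule.mem_sup.1 h1
    obtain ⟨b, hb⟩ := hsur x
    have hb1 : b ∈ W₂ := by
      show i b ∈ rad R₁
      have h2 := (rad R₁).add_mem hx (hle1 hb)
      rwa [add_add_self] at h2
    have hb2 : b * a ∈ T₁ := by
      show i (b * a) ∈ rad R₂
      rw [hi, ← hxy, ← add_assoc, add_comm (i b) x]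
      exact (rad R₂).add_mem (hle2 hb) hy
    have h3 : a = b * (b * a) := by rw [← mul_assoc, S.exp_two, one_mul]
    rw [h3]
    exact Subgroup.mul_mem_sup hb1 hb2
  obtain ⟨W₁, hW, hWT⟩ := J2C.exists_compl_le S.exp_two W₂ T₁ htop
  have hk1 : ∀ a ∈ W₂, ∀ k ∈ R₁, k (i a) = 0 := fun a ha k hk => ha k hk
  have hk2 : ∀ a ∈ W₁, ∀ k ∈ R₂, k (i a) = 0 := fun a ha k hk => hWT ha k hk
  have hk1' : ∀ a ∈ W₂, ∀ k ∈ R₁, ∀ v, k v (i a) = 0 := by
    intro a ha k hk v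
    rw [hR₁.symm hk, hk1 a ha k hk]; rfl
  have hk2' : ∀ a ∈ W₁, ∀ k ∈ R₂, ∀ v, k v (i a) = 0 := by
    intro a ha k hk v
    rw [hR₂.symm hk, hk2 a ha k hk]; rfl
  have hqq : ∀ a ∈ W₁, ∀ b ∈ W₂, ∀ a' ∈ W₁, ∀ b' ∈ W₂, S.q (a * b) (a' * b') = S.zero ↔
      (∀ k ∈ R₁, k (i a) (i a') = 0) ∧ (∀ k ∈ R₂, k (i b) (i b') = 0) := by
    intro a ha b hb a' ha' b' hb'
    rw [hq]
    constructor
    · intro h
      constructor
      · intro k hk
        have h1 := h k (Submodule.mem_sup_left hk)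
        rw [hi, hi, map_add k, hk1 b hb k hk, add_zero, map_add (k (i a)), hk1' b' hb' k hk,
          add_zero] at h1
        exact h1
      · intro k hk
        have h1 := h k (Submodule.mem_sup_right hk)
        rw [hi, hi, map_add k, hk2 a ha k hk, zero_add, map_add (k (i b)), hk2' a' ha' k hk,
          zero_add] at h1
        exact h1
    · rintro ⟨h1, h2⟩ k hk
      obtain ⟨k₁, hk₁, k₂, hk₂, rfl⟩ := Submodule.mem_sup.1 hk
      rw [LinearMap.add_apply, LinearMap.add_apply, hi, hi]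
      rw [map_add k₁, hk1 b hb _ hk₁, add_zero, map_add (k₁ (i a)), hk1' b' hb' _ hk₁, add_zero]
      rw [map_add k₂, hk2 a ha _ hk₂, zero_add, map_add (k₂ (i b)), hk2' a' ha' _ hk₂, zero_add]
      rw [h1 k₁ hk₁, h2 k₂ hk₂, add_zero]
  have hA : ∀ a ∈ W₁, ∀ a' ∈ W₁, S.q a a' = S.zero ↔ ∀ k ∈ R₁, k (i a) (i a') = 0 := by
    intro a ha a' ha'
    have h1 := hqq a ha 1 W₂.one_mem a' ha' 1 W₂.one_mem
    rw [mul_one, mul_one, J2C.i_one hi] at h1
    rw [h1]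
    constructor
    · exact fun h => h.1
    · exact fun h => ⟨h, fun k _ => map_zero _⟩
  have hB : ∀ a ∈ W₂, ∀ a' ∈ W₂, S.q a a' = S.zero ↔ ∀ k ∈ R₂, k (i a) (i a') = 0 := by
    intro a ha a' ha'
    have h1 := hqq 1 W₁.one_mem a ha 1 W₁.one_mem a' ha'
    rw [one_mul, one_mul, J2C.i_one hi] at h1
    rw [h1]
    constructor
    · exact fun h => h.2
    · exact fun h => ⟨fun k _ => map_zero _, h⟩
  obtain ⟨SA, SB, f, g, hnA, hnB, hqA, hqB, hiso⟩ := hp S hn W₁ W₂ hW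
    (fun a ha b hb a' ha' b' hb' => by
      rw [hqq a ha b hb a' ha' b' hb', hA a ha a' ha', hB b hb b' hb'])
  -- decomposition of elements
  have hdec : ∀ c : S.G, ∃ a ∈ W₁, ∃ b ∈ W₂, a * b = c := by
    intro c
    have h1 : c ∈ W₁ ⊔ W₂ := by rw [hW.codisjoint.eq_top]; trivial
    exact Subgroup.mem_sup.1 h1
  refine ElemType.iso _ _ hiso (ElemType.prod _ _ ?_ ?_)
  · refine J2SX.part (R₁ := R₁) hf hi hG₁ hnA f ?_ hqA hA
    intro v
    obtain ⟨c, hc⟩ := hsur v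
    obtain ⟨a, ha, b, hb, rfl⟩ := hdec c
    refine ⟨a, ha, ?_⟩
    have h1 := (rad R₁).add_mem (hle1 hc) hb
    rwa [hi, ← add_assoc, add_add_self'] at h1
  · refine J2SX.part (R₁ := R₂) hf hi hG₂ hnB g ?_ hqB hB
    intro v
    obtain ⟨c, hc⟩ := hsur v
    obtain ⟨a, ha, b, hb, rfl⟩ := hdec c
    refine ⟨b, hb, ?_⟩
    have h1 := (rad R₂).add_mem (hle2 hc) (hWT ha)
    rwa [hi, add_comm (i a) (i b), ← add_assoc, add_add_self'] at h1

end Pool.Agent.ESL
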