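import Pool.Agent.ESL.Stmts

/-!
Module MET: the forms killing a full `M` are a direct summand of a form space of elementary type.
-/

set_option linter.unusedSectionVars false
set_option linter.unusedVariables false

namespace Pool.Agent.ESL.METX

open Pool.Agent.ESL

variable {V : Type} [AddCommGroup V] [Module (ZMod 2) V]

theorem full_mono {R R' : FS V} (h : R' ≤ R) {M : Submodule (ZMod 2) V} (hF : Full R M) :
    Full R' M := fun m hm k hk h0 => hF m hm k (h hk) h0

/-- `fxs` of a sum with independent supports -/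
theorem fxs_sup {R₁ R₂ : FS V} (h : Disjoint (Sp R₁) (Sp R₂)) (M : Submodule (ZMod 2) V) :
    fxs (R₁ ⊔ R₂) M = fxs R₁ M ⊔ fxs R₂ M := by
  apply le_antisymm
  · rintro k ⟨hk, hkM⟩
    obtain ⟨a, ha, b, hb, rfl⟩ := Submodule.mem_sup.1 hk
    have hab : ∀ m ∈ M, a m = 0 ∧ b m = 0 := by
      intro m hm
      have h1 : a m + b m = 0 := by
        have := hkM m hm
        rwa [LinearMap.add_apply] at this
      have h2 : a m = b m := eq_of_add h1
      have h3 : a m ∈ Sp R₂ := by rw [h2]; exact mem_Sp hb m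
      have h4 : a m = 0 := (Submodule.disjoint_def.1 h) _ (mem_Sp ha m) h3
      exact ⟨h4, by rw [← h2, h4]⟩
    exact Submodule.add_mem_sup ⟨ha, fun m hm => (hab m hm).1⟩ ⟨hb, fun m hm => (hab m hm).2⟩
  · apply sup_le
    · rintro k ⟨hk, hkM⟩
      exact ⟨Submodule.mem_sup_left hk, hkM⟩
    · rintro k ⟨hk, hkM⟩
      exact ⟨Submodule.mem_sup_right hk, hkM⟩

/-- four subspaces -/
theorem disj4 {E : Type} [AddCommGroup E] [Module (ZMod 2) E] {S₁ S₂ A₁ A₂ B₁ B₂ : Submodule (ZMod 2) E}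
    (h : Disjoint S₁ S₂) (a₁ : A₁ ≤ S₁) (a₂ : A₂ ≤ S₂) (b₁ : B₁ ≤ S₁) (b₂ : B₂ ≤ S₂)
    (h₁ : Disjoint A₁ B₁) (h₂ : Disjoint A₂ B₂) : Disjoint (A₁ ⊔ A₂) (B₁ ⊔ B₂) := by
  rw [Submodule.disjoint_def]
  intro x hx hx'
  obtain ⟨p, hp, q, hq, rfl⟩ := Submodule.mem_sup.1 hx
  obtain ⟨r, hr, s, hs, hrs⟩ := Submodule.mem_sup.1 hx'
  have e1 : p + r = q + s := by
    apply eq_of_add
    calc p + r + (q + s) = (p + q) + (r + s) := by abel
      _ = 0 := by rw [hrs, add_self']
  have m1 : p + r ∈ S₁ := S₁.add_mem (a₁ hp) (b₁ hr)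
  have m2 : p + r ∈ S₂ := by rw [e1]; exact S₂.add_mem (a₂ hq) (b₂ hs)
  have z1 : p + r = 0 := (Submodule.disjoint_def.1 h) _ m1 m2
  have z2 : q + s = 0 := by rw [← e1, z1]
  have p0 : p = 0 := by
    have := eq_of_add z1
    exact (Submodule.disjoint_def.1 h₁) _ hp (by rw [this]; exact hr)
  have q0 : q = 0 := by
    have := eq_of_add z2
    exact (Submodule.disjoint_def.1 h₂) _ hq (by rw [this]; exact hs)
  rw [p0, q0, add_zero]

/-- the trivial splittings -/
theorem triv_top {R : FS V} {M : Submodule (ZMod 2) V} (h : ∀ k ∈ R, ∀ m ∈ M, k m = 0) :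
    ∃ R' : FS V, R = fxs R M ⊔ R' ∧ Disjoint (Sp (fxs R M)) (Sp R') := by
  refine ⟨⊥, ?_, ?_⟩
  · rw [sup_bot_eq]
    exact le_antisymm (fun k hk => ⟨hk, h k hk⟩) (fxs_le R M)
  · rw [Sp_bot]; exact disjoint_bot_right

theorem triv_bot {R : FS V} {M : Submodule (ZMod 2) V} (h : fxs R M = ⊥) :
    ∃ R' : FS V, R = fxs R M ⊔ R' ∧ Disjoint (Sp (fxs R M)) (Sp R') := by
  refine ⟨R, ?_, ?_⟩
  · rw [h, bot_sup_eq]
  · rw [h, Sp_bot]; exact disjoint_bot_left

end Pool.Agent.ESL.METX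

namespace Pool.Agent.ESL

open METX

theorem met_proof (ha : Stmt_ETALT) : Stmt_MET := by
  intro V _ _ _ R hR M
  induction hR with
  | loc k h =>
    intro hF
    by_cases hk : ∀ m ∈ M, k m = 0
    · apply triv_top
      intro l hl m hm
      obtain ⟨c, rfl⟩ := Submodule.mem_span_singleton.1 hl
      rw [LinearMap.smul_apply, hk m hm, smul_zero]
    · apply triv_bot
      rw [eq_bot_iff]
      rintro l ⟨hl, hl'⟩
      obtain ⟨c, rfl⟩ := Submodule.mem_span_singleton.1 hl
      rcases zm c with rfl | rfl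
      · rw [zero_smul]; exact Submodule.zero_mem _
      · exfalso
        apply hk
        intro m hm
        have := hl' m hm
        rwa [one_smul] at this
  | sum R₁ R₂ h₁ h₂ h ih₁ ih₂ =>
    intro hF
    obtain ⟨R₁', e₁, d₁⟩ := ih₁ (full_mono le_sup_left hF)
    obtain ⟨R₂', e₂, d₂⟩ := ih₂ (full_mono le_sup_right hF)
    refine ⟨R₁' ⊔ R₂', ?_, ?_⟩
    · rw [fxs_sup h]
      nth_rewrite 1 [e₁]
      nth_rewrite 1 [e₂]
      exact sup_sup_sup_comm _ _ _ _
    · rw [fxs_sup h, Sp_sup, Sp_sup]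
      have r₁ : R₁' ≤ R₁ := by rw [e₁]; exact le_sup_right
      have r₂ : R₂' ≤ R₂ := by rw [e₂]; exact le_sup_right
      exact disj4 h (Sp_mono (fxs_le _ _)) (Sp_mono (fxs_le _ _)) (Sp_mono r₁) (Sp_mono r₂) d₁ d₂
  | ext R L τ h hL hτ ih =>
    intro hF
    set R₀ : FS V := R ⊔ L.map (wdL τ) with hR₀
    have hET : ET R₀ := ET.ext R L τ h hL hτ
    have hAlt : IsAlt R₀ := ha V R₀ hET
    by_cases hM : ∀ k ∈ R₀, ∀ m ∈ M, k m = 0
    · exact triv_top hM
    · push Not at hM
      obtain ⟨k, hk, m, hm, hkm⟩ := hM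
      apply triv_bot
      -- the space `T = L ⊔ ⟨τ⟩`
      set T : Submodule (ZMod 2) (D V) := L ⊔ Submodule.span (ZMod 2) {τ} with hT
      have hτT : τ ∈ T := Submodule.mem_sup_right (Submodule.mem_span_singleton_self τ)
      have hLT : L ≤ T := le_sup_left
      have hstar : ∀ ψ ∈ T, wdL τ ψ ∈ R₀ := by
        intro ψ hψ
        obtain ⟨l, hl, t, ht, rfl⟩ := Submodule.mem_sup.1 hψ
        obtain ⟨c, rfl⟩ := Submodule.mem_span_singleton.1 ht
        rw [map_add, map_smul, wdL_self, smul_zero, add_zero]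
        exact Submodule.mem_sup_right (Submodule.mem_map_of_mem hl)
      have hSp : Sp R₀ ≤ T := by
        rw [hR₀, Sp_sup]
        apply sup_le (hL.trans hLT)
        apply Sp_le.2
        rintro _ ⟨l, hl, rfl⟩ x
        rw [wdL_apply]
        exact T.add_mem (T.smul_mem _ (hLT hl)) (T.smul_mem _ hτT)
      have hτ0 : τ ≠ 0 := by
        rintro rfl
        exact hτ L.zero_mem
      -- a functional of `T` not vanishing on `M`
      obtain ⟨χ, hχ, m', hm', hχm⟩ : ∃ χ ∈ T, ∃ m' ∈ M, χ m' = 1 := by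
        have : ∃ x, k m x ≠ 0 := by
          by_contra hc
          push Not at hc
          exact hkm (LinearMap.ext hc)
        obtain ⟨x, hx⟩ := this
        refine ⟨k x, hSp (mem_Sp hk x), m, hm, ?_⟩
        rw [hAlt.symm hk]
        exact zm_ne hx
      have hdis : ∀ ψ ∈ T, (∀ a ∈ M, ψ a = 0) → ψ = 0 := by
        intro ψ hψ hψM
        by_cases hτM : ∀ a ∈ M, τ a = 0
        · exfalso
          have e : wdL τ χ m' = τ := by
            rw [wdL_apply, hτM m' hm', hχm, zero_smul, one_smul, zero_add]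
          have := hF m' hm' (wdL τ χ) (hstar χ hχ) (by rw [e]; exact hτM)
          rw [e] at this
          exact hτ0 this
        · push Not at hτM
          obtain ⟨m1, hm1, h1⟩ := hτM
          have e : wdL τ ψ m1 = ψ := by
            rw [wdL_apply, zm_ne h1, hψM m1 hm1, zero_smul, one_smul, add_zero]
          have := hF m1 hm1 (wdL τ ψ) (hstar ψ hψ) (by rw [e]; exact hψM)
          rwa [e] at this
      rw [eq_bot_iff]
      rintro l ⟨hl, hl'⟩
      rw [Submodule.mem_bot]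
      apply LinearMap.ext
      intro v
      rw [LinearMap.zero_apply]
      apply hdis (l v) (hSp (mem_Sp hl v))
      intro a haM
      rw [hAlt.symm hl, hl' a haM]
      rfl

end Pool.Agent.ESL
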