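import Pool.Agent.ESL.Stmts

/-!
Module MAIN.
-/

namespace Pool.Agent.ESL

namespace MAINX

variable {V : Type} [AddCommGroup V] [Module (ZMod 2) V]

theorem fx_ne {R : FS V} (h0 : rad R = ⊥) {w : V} (hw : w ≠ 0) : fx R w ≠ R := by
  intro h
  apply hw
  have : w ∈ rad R := by
    intro k hk
    rw [← h] at hk
    exact hk.2
  rwa [h0, Submodule.mem_bot] at this

end MAINX

open MAINX in
theorem main_proof (hRED : Stmt_RED) (hEXT : Stmt_EXT) (hII : Stmt_PARTII) (hI : Stmt_PARTI) :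
    Stmt_MAIN := by
  apply hRED
  intro V _ _ _ R hA hS h0 hIH
  by_cases hext : ∃ τ : D V, τ ≠ 0 ∧ Star R τ = ⊤
  · obtain ⟨τ, hτ, hst⟩ := hext
    exact hEXT V R hA hS h0 hIH τ hτ hst
  push Not at hext
  by_cases hone : ∀ τ : D V, τ ≠ 0 → fr (Star R τ) ≤ 1
  · exact hII V R hA hS h0 hIH hone
  push Not at hone
  obtain ⟨τ₁, hτ₁, hst₁⟩ := hone
  -- maximal star
  obtain ⟨τ, hτ, hmax⟩ := Set.exists_max_image {τ : D V | τ ≠ 0} (fun τ => fr (Star R τ))
    (Set.toFinite _) ⟨τ₁, hτ₁⟩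
  have hτ0 : τ ≠ 0 := hτ
  have h2 : 2 ≤ fr (Star R τ) := le_trans hst₁ (hmax τ₁ hτ₁)
  have hfr := finrank_co (Star R τ)
  refine hI V R τ (co (Star R τ)) ?_ hIH
  refine
    { alt := hA
      sl := hS
      nd := h0
      et := fun w hw => hIH _ (fx_le R w) (fx_ne h0 hw) (hS.fx w)
      star := ?_
      max := ?_
      two := ?_
      ne := ?_
      τ0 := hτ0 }
  · intro ψ
    rw [← mem_Star, ← mem_an, an_co]
  · intro σ hσ
    have h3 : fr (Star R σ) ≤ fr (Star R τ) := hmax σ hσ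
    have h4 : fr (co (Star R τ)) + fr (Star R τ) = fr V := hfr
    omega
  · have h4 : fr (co (Star R τ)) + fr (Star R τ) = fr V := hfr
    omega
  · intro h5
    apply hext τ hτ0
    rw [← an_co (Star R τ), h5, an_bot]

end Pool.Agent.ESL
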