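import Pool.Agent.ESL.C2Aux

set_option autoImplicit false

namespace Pool.Agent.ESL

open C2AuxX

theorem ndm_proof : Stmt_NDM := by
  intro V _ _ _ R M α hR hF h1 k hk m hm θ hkm a ha hab
  have hka : k a = 0 := hF a ha k hk hab
  have h2 := pp_unique (h1 θ 0) (mkQ_zero.2 hm) (mkQ_zero.2 (M.add_mem hm ha))
    ⟨k, hk, hkm⟩ ⟨k, hk, by rw [map_add, hka, add_zero, hkm]⟩
  have h3 : m + (m + a) = a := add_add_self m a
  rw [← h2, add_self'] at h3
  exact h3.symm

end Pool.Agent.ESL
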