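import Pool.Agent.ESL.Stmts

/-!
Module P3: positivity.
-/

set_option linter.unusedVariables false

namespace Pool.Agent.ESL

theorem p3_proof : Stmt_P3 := by
  intro V _ _ _ R M α halt hfull x hx θ h1
  -- an element of the first set
  have hne : Nonempty {z : V // M.mkQ z = 0 ∧ α + θ ∘ₗ M.mkQ ∈ Lx R z} := by
    rw [← not_isEmpty_iff]
    intro he
    have : PP R M α θ 0 = 0 := by
      unfold PP
      exact Nat.card_of_isEmpty
    omega
  obtain ⟨⟨m, hm0, k, hk, hkm⟩⟩ := hne
  have hm : m ∈ M := by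
    rw [← Submodule.ker_mkQ M]
    exact hm0
  obtain ⟨y, hy⟩ := M.mkQ_surjective x
  have ksym : ∀ a b, k a b = k b a := fun a b => halt.symm hk a b
  -- duality on `M`
  have hdual : (k y) ∘ₗ M.subtype ∈ LinearMap.range (pull M.subtype k) := by
    rw [mem_range_iff (fun a => by rw [pull_apply]; exact halt k hk _)]
    intro a ha
    have h2 : k (a : V) = 0 := by
      apply hfull (a : V) a.2 k hk
      intro b hb
      exact congrArg (fun f : D M => f ⟨b, hb⟩) ha
    show k y (a : V) = 0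
    rw [ksym, h2]; rfl
  obtain ⟨a, ha⟩ := hdual
  have hv : ∀ b ∈ M, k (y + a) b = 0 := by
    intro b hb
    have h3 : k (a : V) b = k y b := congrArg (fun f : D M => f ⟨b, hb⟩) ha
    rw [map_add, LinearMap.add_apply, h3, CharTwo.add_self_eq_zero]
  obtain ⟨ψ, hψ⟩ := exists_comp hv
  have hπa : M.mkQ (y + a) = x := by
    have h4 : M.mkQ (a : V) = 0 := by
      have : (a : V) ∈ LinearMap.ker M.mkQ := by rw [Submodule.ker_mkQ]; exact a.2
      exact this
    rw [map_add, h4, add_zero, hy]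
  have hψx : ψ x = 0 := by
    rw [← hπa]
    have h5 : (ψ ∘ₗ M.mkQ) (y + a) = 0 := by
      rw [hψ]; exact halt k hk _
    exact h5
  obtain ⟨κ, hκ, hκx⟩ := hx ψ hψx
  have hN : Nonempty {z : V // M.mkQ z = x ∧ α + θ ∘ₗ M.mkQ ∈ Lx R z} :=
    ⟨⟨m + (y + a), by rw [map_add, hm0, hπa, zero_add],
      k + pull M.mkQ κ, R.add_mem hk hκ, by
        rw [LinearMap.add_apply, pull_apply', map_add M.mkQ, hm0, hπa, zero_add, hκx, hψ, map_add k,
          hkm, add_assoc, ZModModule.add_self, add_zero]⟩⟩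
  unfold PP
  exact Nat.card_pos

end Pool.Agent.ESL
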