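import Pool.Agent.ESL.CountX

namespace Pool.Agent.ESL

open CountX in
theorem pair_proof (hS : Stmt_SPLEQ) : Stmt_PAIR := by
  intro V _ _ _ R M α hR hL v v' _ hspl θ
  classical
  have key : ∀ (θ : D (V ⧸ M)) (v v' : V ⧸ M), ((PP R M α θ v : ℤ) * PP R M α θ v') =
      ∑ w ∈ (Set.toFinite {w : V | M.mkQ w = v + v'}).toFinset, (N R M α w θ v : ℤ) := by
    intro θ v v'
    have h3 : ((PP R M α θ v * PP R M α θ v' : ℕ) : ℤ) = _ := congrArg _ (prod_eq hL M α θ v v')
    push_cast at h3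
    exact h3
  rw [key θ v v']
  unfold sOn
  have key0 : ∀ θ' : D (V ⧸ M), ((PP R M α θ' 0 : ℤ) * PP R M α θ' (v + v')) =
      ∑ w ∈ (Set.toFinite {w : V | M.mkQ w = v + v'}).toFinset, (N R M α w θ' 0 : ℤ) := by
    intro θ'
    rw [key θ' 0 (v + v')]
    simp only [zero_add]
  rw [Finset.sum_congr rfl (fun θ' _ => key0 θ'), Finset.sum_comm]
  apply Finset.sum_congr rfl
  intro w hw
  simp only [Set.Finite.mem_toFinset, Set.mem_ofPred_eq] at hw
  rw [split_eq hS hR M α w (hspl w hw) θ v]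
  push_cast
  simp only [hw]

end Pool.Agent.ESL
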