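import Pool.Agent.ESL.Stmts

/-!
Module PARTII: assembly of Part II.
-/

namespace Pool.Agent.ESL

namespace PARTIIX

variable {V : Type} [AddCommGroup V] [Module (ZMod 2) V]

theorem eq_of_fr_le_one {W : Type} [AddCommGroup W] [Module (ZMod 2) W] [Finite W] (S : Submodule (ZMod 2) W)
    (h : fr S ≤ 1) {a b : W} (ha : a ∈ S) (hb : b ∈ S) (ha0 : a ≠ 0) (hb0 : b ≠ 0) : a = b := by
  obtain ⟨v, hv⟩ := finrank_le_one_iff.1 h
  obtain ⟨c, hc⟩ := hv ⟨a, ha⟩
  obtain ⟨d, hd⟩ := hv ⟨b, hb⟩
  have hc1 : c = 1 := by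
    apply zm_ne
    rintro rfl
    rw [zero_smul] at hc
    exact ha0 (congrArg Subtype.val hc).symm
  have hd1 : d = 1 := by
    apply zm_ne
    rintro rfl
    rw [zero_smul] at hd
    exact hb0 (congrArg Subtype.val hd).symm
  rw [hc1, one_smul] at hc
  rw [hd1, one_smul] at hd
  exact congrArg Subtype.val (hc.symm.trans hd)

/-- an alternating form of rank two is `τ ∧ ψ` -/
theorem rank_two [Finite V] {k : Fm V} (hk : ∀ x, k x x = 0) (h2 : fr (LinearMap.range k) = 2) :
    ∃ τ ψ : D V, τ ≠ 0 ∧ ψ ≠ 0 ∧ τ ≠ ψ ∧ wdL τ ψ = k := by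
  -- two different nonzero values
  have hex : ∃ x₁ x₂, k x₁ ≠ 0 ∧ k x₂ ≠ 0 ∧ k x₁ ≠ k x₂ := by
    by_contra hno
    push Not at hno
    have h3 : fr (LinearMap.range k) ≤ 1 := by
      unfold fr
      rw [finrank_le_one_iff]
      by_cases h : ∃ x, k x ≠ 0
      · obtain ⟨x, hx⟩ := h
        refine ⟨⟨k x, ⟨x, rfl⟩⟩, ?_⟩
        rintro ⟨_, ⟨y, rfl⟩⟩
        by_cases hy : k y = 0
        · refine ⟨0, ?_⟩
          rw [zero_smul]
          exact (Subtype.ext hy).symm
        · refine ⟨1, ?_⟩
          rw [one_smul]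
          exact Subtype.ext (hno x y hx hy)
      · push Not at h
        refine ⟨0, ?_⟩
        rintro ⟨_, ⟨y, rfl⟩⟩
        refine ⟨0, ?_⟩
        rw [zero_smul]
        exact (Subtype.ext (h y)).symm
    omega
  obtain ⟨x₁, x₂, h1, h2', h12⟩ := hex
  refine ⟨k x₁, k x₂, h1, h2', h12, ?_⟩
  -- the span of the two values is the range
  have hspan : Submodule.span (ZMod 2) {k x₁, k x₂} = LinearMap.range k := by
    apply Submodule.eq_of_le_of_finrank_le
    · rw [Submodule.span_le]
      rintro _ (rfl | rfl)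
      · exact ⟨x₁, rfl⟩
      · exact ⟨x₂, rfl⟩
    · have hli : LinearIndependent (ZMod 2) ![k x₁, k x₂] := by
        rw [LinearIndependent.pair_iff]
        intro s t hst
        rcases zm s with rfl | rfl <;> rcases zm t with rfl | rfl
        · exact ⟨rfl, rfl⟩
        · rw [zero_smul, one_smul, zero_add] at hst; exact absurd hst h2'
        · rw [zero_smul, one_smul, add_zero] at hst; exact absurd hst h1
        · rw [one_smul, one_smul] at hst; exact absurd (eq_of_add hst) h12
      have h4 := finrank_span_eq_card hli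
      rw [Matrix.range_cons, Matrix.range_cons, Matrix.range_empty, Set.union_empty] at h4
      have h5 : ({k x₁} ∪ {k x₂} : Set (D V)) = {k x₁, k x₂} := rfl
      rw [h5, Fintype.card_fin] at h4
      rw [h4]
      exact h2.le
  have hker : ∀ x, k x₁ x = 0 → k x₂ x = 0 → k x = 0 := by
    intro x ha hb
    have h3 : x ∈ co (LinearMap.range k) := by
      rw [← hspan]
      intro φ hφ
      obtain ⟨a, b, rfl⟩ := Submodule.mem_span_pair.1 hφ
      rw [LinearMap.add_apply, LinearMap.smul_apply, LinearMap.smul_apply, ha, hb, smul_zero, smul_zero,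
        add_zero]
    rw [co_range hk] at h3
    exact h3
  have hc : k x₁ x₂ = 1 := by
    apply zm_ne
    intro h0
    apply h1
    apply hker x₁ (hk x₁)
    rw [symm_of_alt hk]; exact h0
  have hc' : k x₂ x₁ = 1 := by rw [symm_of_alt hk]; exact hc
  apply LinearMap.ext
  intro x
  have h3 : k (x + k x₁ x • x₂ + k x₂ x • x₁) = 0 := by
    apply hker
    · simp only [map_add, map_smul, hc, hk, smul_eq_mul, mul_one, mul_zero, add_zero]
      exact add_self' _
    · simp only [map_add, map_smul, hc', hk, smul_eq_mul, mul_one, mul_zero, add_zero]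
      exact add_self' _
  rw [map_add, map_add, map_smul, map_smul] at h3
  rw [wdL_apply]
  have h4 : k x + (k x₁ x • k x₂ + k x₂ x • k x₁) = 0 := by rw [← add_assoc]; exact h3
  exact (eq_of_add h4).symm

end PARTIIX

open PARTIIX in
theorem partii_proof (hATB : Stmt_ATB) (h7 : Stmt_G7) (h8 : Stmt_G8) (h9 : Stmt_G9) : Stmt_PARTII := by
  intro V _ _ _ R hR hSL hrad hIH hst
  have hctx : CtxII R := by
    refine ⟨hR, hSL, hrad, fun w hw => ?_⟩
    have hne : fx R w ≠ R := by
      intro h
      apply hw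
      have h3 : w ∈ rad R := by
        intro k hk
        rw [← h] at hk
        exact hk.2
      rw [hrad] at h3
      exact (Submodule.mem_bot _).1 h3
    have hET : ET (fx R w) := hIH _ (fx_le R w) hne (hSL.fx w)
    apply hATB V (fx R w) hET
    intro σ hσ
    have h3 : Star (fx R w) σ ≤ Star R σ := fun ψ hψ => hψ.1
    have h4 := Submodule.finrank_mono h3
    have h5 := hst σ hσ
    have h6 : fr (Star (fx R w) σ) ≤ fr (Star R σ) := h4
    omega
  have hrk : ∀ k ∈ R, fr (LinearMap.range k) ≠ 2 := by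
    intro k hk h2
    obtain ⟨τ, ψ, hτ, hψ, hne, he⟩ := rank_two (hR k hk) h2
    apply hne
    apply eq_of_fr_le_one (Star R τ) (hst τ hτ) (self_mem_Star R τ) _ hτ hψ
    rw [mem_Star, he]; exact hk
  by_cases h2 : 2 ≤ fr R
  · obtain ⟨a, ha, hg⟩ := h7 V R hctx hrk h2
    obtain ⟨w, hw, haR, haw, ha0, -⟩ := id ha
    exact h9 V R hR hSL hIH a haR ha0 hg (h8 V R hctx a ha hg)
  · have h3 : Module.finrank (ZMod 2) R ≤ 1 := by
      have : fr R ≤ 1 := by omega
      exact this
    obtain ⟨v, hv⟩ := finrank_le_one_iff.1 h3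
    have h4 : R = Submodule.span (ZMod 2) {(v : Fm V)} := by
      apply le_antisymm
      · intro k hk
        obtain ⟨c, hc⟩ := hv ⟨k, hk⟩
        rw [Submodule.mem_span_singleton]
        exact ⟨c, congrArg Subtype.val hc⟩
      · rw [Submodule.span_singleton_le_iff_mem]
        exact v.2
    rw [h4]
    exact ET.loc _ (hR v v.2)

end Pool.Agent.ESL
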