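import Pool.Agent.ESL.C2Aux

set_option autoImplicit false

namespace Pool.Agent.ESL

open C2AuxX

namespace PHIX

variable {V : Type} [AddCommGroup V] [Module (ZMod 2) V]

/-- every element is a sum of an element of `M` and an element orthogonal to `M` -/
theorem ortho [Finite V] {R : FS V} {M : Submodule (ZMod 2) V} (hR : IsAlt R) (hF : Full R M)
    {k : Fm V} (hk : k ∈ R) (v : V) : ∃ a ∈ M, ∀ b ∈ M, k (v + a) b = 0 := by
  let kM : Fm M := k.compl₁₂ M.subtype M.subtype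
  have hkM : ∀ x y : M, kM x y = k x y := fun x y => rfl
  have halt : ∀ x : M, kM x x = 0 := fun x => hR k hk x
  have h1 : (k v) ∘ₗ M.subtype ∈ LinearMap.range kM := by
    rw [mem_range_iff halt]
    intro x hx
    have h2 : k x = 0 := by
      apply hF x x.2 k hk
      intro a ha
      have := congrArg (fun f : D M => f ⟨a, ha⟩) hx
      exact this
    show k v x = 0
    rw [hR.symm hk, h2]
    rfl
  obtain ⟨a, ha⟩ := h1
  refine ⟨a, a.2, fun b hb => ?_⟩
  have h3 : kM a ⟨b, hb⟩ = k v b := by rw [ha]; rfl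
  rw [map_add, LinearMap.add_apply, ← h3, hkM]
  exact CharTwo.add_self_eq_zero _

end PHIX

theorem phi_proof : Stmt_PHI := by
  intro V _ _ _ R τ M h hF hd k hk
  obtain ⟨ψ, e₁, e₂, hw, hτ, hψ, h1, h2, h3, h4, hv⟩ := basis2 h hd
  obtain ⟨a₁, ha₁, hn₁⟩ := PHIX.ortho h.alt hF hk e₁
  obtain ⟨a₂, ha₂, hn₂⟩ := PHIX.ortho h.alt hF hk e₂
  set n₁ := e₁ + a₁ with hn1
  set n₂ := e₂ + a₂ with hn2
  have t1 : τ n₁ = 1 := by rw [hn1, map_add, h1, hτ _ ha₁, add_zero]
  have t2 : τ n₂ = 0 := by rw [hn2, map_add, h3, hτ _ ha₂, add_zero]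
  have p1 : ψ n₁ = 0 := by rw [hn1, map_add, h2, hψ _ ha₁, add_zero]
  have p2 : ψ n₂ = 1 := by rw [hn2, map_add, h4, hψ _ ha₂, add_zero]
  have hv' : ∀ v, v + τ v • n₁ + ψ v • n₂ ∈ M := by
    intro v
    have : v + τ v • n₁ + ψ v • n₂ = (v + τ v • e₁ + ψ v • e₂) + (τ v • a₁ + ψ v • a₂) := by
      rw [hn1, hn2, smul_add, smul_add]
      abel
    rw [this]
    exact M.add_mem (hv v) (M.add_mem (M.smul_mem _ ha₁) (M.smul_mem _ ha₂))
  have hdec : ∀ v, v = (τ v • n₁ + ψ v • n₂) + (v + τ v • n₁ + ψ v • n₂) := by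
    intro v
    have e1 := add_add_self (τ v • n₁ + ψ v • n₂) v
    rw [add_comm (τ v • n₁ + ψ v • n₂) v, ← add_assoc v] at e1
    exact e1.symm
  set c := k n₁ n₂ with hc
  set κ : Fm V := c • wdL τ ψ with hκ
  have hκR : κ ∈ R := R.smul_mem _ hw
  have hκM : ∀ m ∈ M, κ m = 0 := by
    intro m hm
    rw [hκ, LinearMap.smul_apply, wdL_apply, hτ m hm, hψ m hm, zero_smul, zero_smul, add_zero,
      smul_zero]
  have k1 : (k + κ) n₁ = 0 := by
    refine LinearMap.ext fun v => ?_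
    rw [hdec v]
    have e1 : (k + κ) n₁ (v + τ v • n₁ + ψ v • n₂) = 0 := by
      rw [LinearMap.add_apply, LinearMap.add_apply, hn₁ _ (hv' v), h.alt.symm hκR,
        hκM _ (hv' v)]
      simp
    have e2 : (k + κ) n₁ n₁ = 0 := by
      rw [LinearMap.add_apply, LinearMap.add_apply, h.alt k hk, h.alt κ hκR, add_zero]
    have e3 : (k + κ) n₁ n₂ = 0 := by
      rw [LinearMap.add_apply, LinearMap.add_apply, hκ, LinearMap.smul_apply,
        LinearMap.smul_apply, wdL_apply₂, t1, p2, t2, mul_one, mul_zero, add_zero, smul_eq_mul,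
        mul_one, ← hc, CharTwo.add_self_eq_zero]
    rw [map_add, e1, map_add, map_smul, map_smul, e2, e3]
    simp
  have k2 : (k + κ) n₂ = 0 := by
    refine LinearMap.ext fun v => ?_
    rw [hdec v]
    have e1 : (k + κ) n₂ (v + τ v • n₁ + ψ v • n₂) = 0 := by
      rw [LinearMap.add_apply, LinearMap.add_apply, hn₂ _ (hv' v), h.alt.symm hκR,
        hκM _ (hv' v)]
      simp
    have e2 : (k + κ) n₂ n₂ = 0 := by
      rw [LinearMap.add_apply, LinearMap.add_apply, h.alt k hk, h.alt κ hκR, add_zero]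
    have e3 : (k + κ) n₂ n₁ = 0 := by
      rw [h.alt.symm (R.add_mem hk hκR), k1]
      rfl
    rw [map_add, e1, map_add, map_smul, map_smul, e2, e3]
    simp
  refine ⟨κ, hκR, hκM, ?_⟩
  rw [eq_top_iff]
  intro v _
  rw [hdec v]
  apply Submodule.add_mem_sup _ (hv' v)
  rw [LinearMap.mem_ker, map_add, map_smul, map_smul, k1, k2, smul_zero, smul_zero, add_zero]

end Pool.Agent.ESL
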