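import Pool.Agent.ESL.COMP

/-!
Module RK2: the component of a form of rank two is a star.
-/

namespace Pool.Agent.ESL

open ETALTX COMPX in
theorem rk2_proof (hdec : Stmt_DEC2) (halt : Stmt_ETALT) : Stmt_RK2 := by
  intro V _ _ _ R h
  induction h with
  | loc k h =>
    intro τ ψ hm h0
    have hk : wdL τ ψ = k := by
      obtain ⟨c, hc⟩ := Submodule.mem_span_singleton.1 hm
      rcases zm c with rfl | rfl
      · rw [zero_smul] at hc
        exact absurd hc.symm h0
      · rw [one_smul] at hc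
        exact hc.symm
    refine ⟨_, ⊥, (sup_bot_eq _).symm, by rw [Sp_bot]; exact disjoint_bot_right, ?_, ?_, τ, ?_, left_ne h0, ?_⟩
    · exact range_le_Sp hm (left_mem_range h0)
    · exact range_le_Sp hm (right_mem_range h0)
    · exact range_le_Sp hm (left_mem_range h0)
    · intro χ hχ
      rw [Sp_span] at hχ
      obtain ⟨v, rfl⟩ := hχ
      rw [← hk, wdL_apply, map_add, map_smul, map_smul, wdL_self, smul_zero, add_zero]
      exact Submodule.smul_mem _ _ (Submodule.mem_span_singleton_self _)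
  | sum R' R'' h' h'' hd ih' ih'' =>
    intro τ ψ hm h0
    obtain ⟨a, ha, b, hb, hab⟩ := Submodule.mem_sup.1 hm
    have hda : Disjoint (LinearMap.range a) (LinearMap.range b) :=
      hd.mono (range_le_Sp ha) (range_le_Sp hb)
    rcases hdec V τ ψ a b (halt V R' h' a ha) (halt V R'' h'' b hb) hda hab.symm with rfl | rfl
    · rw [zero_add] at hab
      subst hab
      obtain ⟨R₁, R₂, hR, hd', h1, h2, ho⟩ := ih'' τ ψ hb h0
      refine ⟨R₁, R₂ ⊔ R', ?_, disj hd.symm hR hd', h1, h2, ho⟩
      rw [← sup_assoc, ← hR, sup_comm]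
    · rw [add_zero] at hab
      subst hab
      obtain ⟨R₁, R₂, hR, hd', h1, h2, ho⟩ := ih' τ ψ ha h0
      refine ⟨R₁, R₂ ⊔ R'', ?_, disj hd hR hd', h1, h2, ho⟩
      rw [← sup_assoc, ← hR]
  | ext R L τ' h hL hτ ih =>
    intro τ ψ hm h0
    have hL0 : L ≠ ⊥ := by
      intro hL0
      rw [ext_bot R L τ' hL hL0] at hm
      exact h0 ((Submodule.mem_bot _).1 hm)
    exact ⟨_, ⊥, (sup_bot_eq _).symm, by rw [Sp_bot]; exact disjoint_bot_right,
      range_le_Sp hm (left_mem_range h0), range_le_Sp hm (right_mem_range h0),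
      τ', tau_mem_Sp R L τ' hτ hL0, tau_ne L τ' hτ, star_ext R L τ' hL⟩

end Pool.Agent.ESL
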