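import Pool.Agent.ESL.Stmts

/-!
Module RED: pull-back of spaces of elementary type, reduction to `rad R = ⊥`.
-/

set_option linter.unusedSectionVars false

namespace Pool.Agent.ESL

namespace REDX

variable {V X : Type} [AddCommGroup V] [Module (ZMod 2) V] [AddCommGroup X] [Module (ZMod 2) X]

/-- composition with `π` -/
def cp (π : V →ₗ[ZMod 2] X) : D X →ₗ[ZMod 2] D V where
  toFun ψ := ψ ∘ₗ π
  map_add' a b := by ext x; rfl
  map_smul' c a := by ext x; rfl

@[simp] theorem cp_apply (π : V →ₗ[ZMod 2] X) (ψ : D X) (x : V) : cp π ψ x = ψ (π x) := rfl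

theorem cp_inj {π : V →ₗ[ZMod 2] X} (h : Function.Surjective π) : Function.Injective (cp π) :=
  fun _ _ hab => comp_inj h hab

theorem Sp_map {π : V →ₗ[ZMod 2] X} (h : Function.Surjective π) (R : FS X) :
    Sp (R.map (pull π)) = (Sp R).map (cp π) := by
  apply le_antisymm
  · apply Sp_le.2
    rintro _ ⟨k, hk, rfl⟩ x
    exact ⟨k (π x), mem_Sp hk _, rfl⟩
  · rw [Submodule.map_le_iff_le_comap]
    apply Sp_le.2
    intro k hk x
    obtain ⟨y, rfl⟩ := h x
    exact mem_Sp (R := R.map (pull π)) (k := pull π k) ⟨k, hk, rfl⟩ y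

theorem pull_wdL (π : V →ₗ[ZMod 2] X) (a b : D X) :
    pull π (wdL a b) = wdL (cp π a) (cp π b) := by
  ext x y
  rfl

theorem disjoint_map {π : V →ₗ[ZMod 2] X} (h : Function.Surjective π)
    {A B : Submodule (ZMod 2) (D X)} (hd : Disjoint A B) : Disjoint (A.map (cp π)) (B.map (cp π)) := by
  rw [Submodule.disjoint_def] at hd ⊢
  rintro _ ⟨a, ha, rfl⟩ ⟨b, hb, hab⟩
  have := cp_inj h hab
  rw [this] at hb
  rw [hd a ha hb, map_zero]

theorem ET_map {π : V →ₗ[ZMod 2] X} (h : Function.Surjective π) {R : FS X} (hR : ET R) :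
    ET (R.map (pull π)) := by
  induction hR with
  | loc k hk =>
    rw [Submodule.map_span, Set.image_singleton]
    exact ET.loc _ (fun x => hk (π x))
  | sum R₁ R₂ _ _ hd ih₁ ih₂ =>
    rw [Submodule.map_sup]
    exact ET.sum _ _ ih₁ ih₂ (by rw [Sp_map h, Sp_map h]; exact disjoint_map h hd)
  | ext R L τ _ hL hτ ih =>
    have e : (R ⊔ L.map (wdL τ)).map (pull π) =
        R.map (pull π) ⊔ (L.map (cp π)).map (wdL (cp π τ)) := by
      rw [Submodule.map_sup]
      congr 1
      rw [← Submodule.map_comp, ← Submodule.map_comp]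
      congr 1
    rw [e]
    refine ET.ext _ _ _ ih ?_ ?_
    · rw [Sp_map h]
      exact Submodule.map_mono hL
    · rintro ⟨a, ha, hab⟩
      rw [cp_inj h hab] at ha
      exact hτ ha

theorem map_R0 {R : FS V} (hR : IsAlt R) : (R0 R (rad R)).map (pull (rad R).mkQ) = R := by
  apply le_antisymm
  · rintro _ ⟨k, hk, rfl⟩
    exact hk
  · intro k hk
    obtain ⟨κ, hκ⟩ := exists_pull (M := rad R) (hR k hk) (fun m hm => hm k hk)
    exact ⟨κ, by show pull _ κ ∈ R; rw [hκ]; exact hk, hκ⟩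

theorem alt_R0 {R : FS V} (hR : IsAlt R) (M : Submodule (ZMod 2) V) : IsAlt (R0 R M) := by
  intro κ hκ x
  obtain ⟨y, rfl⟩ := M.mkQ_surjective x
  exact hR _ hκ y

theorem rad_R0 {R : FS V} (hR : IsAlt R) : rad (R0 R (rad R)) = ⊥ := by
  rw [eq_bot_iff]
  intro x hx
  obtain ⟨y, rfl⟩ := (rad R).mkQ_surjective x
  rw [Submodule.mem_bot]
  show (rad R).mkQ y = 0
  rw [Submodule.mkQ_apply, Submodule.Quotient.mk_eq_zero]
  intro k hk
  obtain ⟨κ, hκ⟩ := exists_pull (M := rad R) (hR k hk) (fun m hm => hm k hk)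
  have hκm : κ ∈ R0 R (rad R) := by show pull _ κ ∈ R; rw [hκ]; exact hk
  rw [← hκ, pull_apply', hx κ hκm]
  rfl

theorem SL_R0 {R : FS V} (hR : IsAlt R) (hS : SL R) : SL (R0 R (rad R)) := by
  intro U b hb
  set π := (rad R).mkQ with hπ
  -- the pulled back map
  let U' : Submodule (ZMod 2) V := U.comap π
  let b' : U' →ₗ[ZMod 2] D V :=
    { toFun := fun u => cp π (b ⟨π u, u.2⟩)
      map_add' := by
        intro x y
        rw [← map_add, ← map_add]
        congr 2
      map_smul' := by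
        intro c x
        rw [RingHom.id_apply, ← map_smul, ← map_smul]
        congr 2 }
  obtain ⟨k, hk, hk'⟩ := hS U' b' (by
    rintro ⟨u, hu⟩
    obtain ⟨κ, hκ, hκ'⟩ := hb ⟨π u, hu⟩
    refine ⟨pull π κ, hκ, ?_⟩
    show cp π (κ (π u)) = cp π (b ⟨π u, hu⟩)
    rw [← hκ'])
  obtain ⟨κ, hκ⟩ := exists_pull (M := rad R) (hR k hk) (fun m hm => hm k hk)
  refine ⟨κ, by show pull _ κ ∈ R; rw [hκ]; exact hk, ?_⟩
  rintro ⟨u, hu⟩
  obtain ⟨v, rfl⟩ := (rad R).mkQ_surjective u
  apply cp_inj (rad R).mkQ_surjective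
  have := hk' ⟨v, hu⟩
  rw [← hκ] at this
  exact this

theorem fr_R0 {R : FS V} (hR : IsAlt R) : fr (R0 R (rad R)) = fr R := by
  have h := map_R0 hR
  have e := (Submodule.equivMapOfInjective (pull (rad R).mkQ) (pull_inj (rad R).mkQ_surjective)
    (R0 R (rad R))).finrank_eq
  rw [h] at e
  exact e

end REDX

open REDX in
theorem red_proof : Stmt_RED := by
  intro H
  have key : ∀ n : ℕ, ∀ (V : Type) [AddCommGroup V] [Module (ZMod 2) V] [Finite V] (R : FS V),
      fr R = n → IsAlt R → SL R → ET R := by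
    intro n
    induction n using Nat.strong_induction_on with
    | _ n ih =>
      intro V _ _ _ R hn hA hS
      rw [← map_R0 hA]
      apply ET_map (rad R).mkQ_surjective
      apply H _ _ (alt_R0 hA _) (SL_R0 hA hS) (rad_R0 hA)
      intro R' hle hne hS'
      have hlt : fr R' < fr (R0 R (rad R)) :=
        Submodule.finrank_lt_finrank_of_lt (lt_of_le_of_ne hle hne)
      rw [fr_R0 hA, hn] at hlt
      exact ih _ hlt _ R' rfl ((alt_R0 hA _).mono hle) hS'
  intro V _ _ _ R hA hS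
  exact key _ V R rfl hA hS

end Pool.Agent.ESL
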