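import Pool.Agent.ESL.Stmts

namespace Pool.Agent.ESL

namespace SPLEQX

variable {V : Type} [AddCommGroup V] [Module (ZMod 2) V]

theorem mk_zero {M : Submodule (ZMod 2) V} {a : V} (ha : a ∈ M) : M.mkQ a = 0 :=
  (Submodule.Quotient.mk_eq_zero M).2 ha

end SPLEQX

open SPLEQX in
theorem spleq_proof : Stmt_SPLEQ := by
  intro V _ _ _ R M C w hR hCM hspl α
  refine ⟨?_, ?_⟩
  · intro θ c hc a ha
    constructor
    · rintro ⟨k, ⟨hk, hkw⟩, hka⟩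
      obtain ⟨κ, hκ, hκM, hκw, hκC⟩ := hspl k hk hkw
      obtain ⟨κ₁, hκ₁⟩ := exists_pull (hR κ hκ) hκM
      have e1 : κ₁ (M.mkQ c) ∘ₗ M.mkQ = k c := by
        rw [hκC c hc, ← hκ₁]; rfl
      refine ⟨θ + κ₁ (M.mkQ c), ⟨κ₁, ⟨?_, ?_⟩, ?_⟩, ⟨k, ⟨hk, hkw⟩, ?_⟩⟩
      · rw [mem_R0, hκ₁]; exact hκ
      · apply comp_inj M.mkQ_surjective
        have : κ₁ (M.mkQ w) ∘ₗ M.mkQ = κ w := by rw [← hκ₁]; rfl
        rw [this, hκw]; rfl
      · have : θ + κ₁ (M.mkQ c) + θ = κ₁ (M.mkQ c) + (θ + θ) := by abel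
        rw [this, add_self', add_zero]
      · have h1 : (θ + κ₁ (M.mkQ c)) ∘ₗ M.mkQ = θ ∘ₗ M.mkQ + k c := by
          rw [LinearMap.add_comp, e1]
        rw [h1, ← add_assoc, ← hka, map_add]
        have : k c + k a + k c = k a + (k c + k c) := by abel
        rw [this, add_self', add_zero]
    · rintro ⟨θ', ⟨κ₁, ⟨hκ₁, hκ₁w⟩, hκ₁c⟩, ⟨k, ⟨hk, hkw⟩, hka⟩⟩
      obtain ⟨κ, hκ, hκM, hκw, hκC⟩ := hspl k hk hkw
      refine ⟨k + κ + pull M.mkQ κ₁, ⟨R.add_mem (R.add_mem hk hκ) hκ₁, ?_⟩, ?_⟩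
      · rw [LinearMap.add_apply, LinearMap.add_apply, hkw, hκw, pull_apply', hκ₁w]
        rfl
      · rw [LinearMap.add_apply, LinearMap.add_apply, map_add k, map_add κ, hκM a ha, ← hκC c hc,
          pull_apply', map_add M.mkQ, mk_zero ha, add_zero, add_zero, hκ₁c, hka, LinearMap.add_comp]
        have : k c + (α + θ' ∘ₗ M.mkQ) + k c + (θ' ∘ₗ M.mkQ + θ ∘ₗ M.mkQ) =
            (k c + k c) + (θ' ∘ₗ M.mkQ + θ' ∘ₗ M.mkQ) + (α + θ ∘ₗ M.mkQ) := by abel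
        rw [this, add_self', add_self', add_zero, zero_add]
  · rintro θ θ' a ha a' ha' ⟨k, ⟨hk, hkw⟩, hka⟩ ⟨k', ⟨hk', hkw'⟩, hka'⟩
    have key : ∀ l ∈ R, l w = 0 → ∀ m ∈ M, ∀ c ∈ C, l m c = 0 := by
      intro l hl hlw m hm c hc
      obtain ⟨κ, hκ, hκM, hκw, hκC⟩ := hspl l hl hlw
      rw [hR.symm hl, hκC c hc, hR.symm hκ, hκM m hm]; rfl
    apply comp_inj M.mkQ_surjective
    ext v
    have hv : v ∈ C ⊔ M := by rw [hCM]; trivial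
    obtain ⟨c, hc, m, hm, rfl⟩ := Submodule.mem_sup.1 hv
    simp only [LinearMap.comp_apply, map_add, mk_zero hm, map_zero, add_zero]
    have h1 : k a c = α c + θ (M.mkQ c) := by rw [hka]; rfl
    have h2 : k' a' c = α c + θ' (M.mkQ c) := by rw [hka']; rfl
    rw [key k hk hkw a ha c hc] at h1
    rw [key k' hk' hkw' a' ha' c hc] at h2
    have h3 : α c + θ (M.mkQ c) = α c + θ' (M.mkQ c) := by rw [← h1, ← h2]
    exact add_left_cancel h3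

end Pool.Agent.ESL
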