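import Pool.Agent.ESL.ETALT

/-!
Module SPV: every functional in the support of an ET space is a value.
-/

namespace Pool.Agent.ESL

open ETALTX in
theorem spv_proof (halt : Stmt_ETALT) : Stmt_SPV := by
  intro V _ _ _ R h
  induction h with
  | loc k h =>
    intro φ hφ
    rw [Sp_span] at hφ
    obtain ⟨u, rfl⟩ := hφ
    exact ⟨k, Submodule.mem_span_singleton_self k, u, rfl⟩
  | sum R₁ R₂ h₁ h₂ hd ih₁ ih₂ =>
    intro φ hφ
    rw [Sp_sup] at hφ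
    obtain ⟨φ₁, hφ₁, φ₂, hφ₂, rfl⟩ := Submodule.mem_sup.1 hφ
    obtain ⟨k₁, hk₁, u₁, rfl⟩ := ih₁ φ₁ hφ₁
    obtain ⟨k₂, hk₂, u₂, rfl⟩ := ih₂ φ₂ hφ₂
    have hr : rad R₁ ⊔ rad R₂ = ⊤ := by
      rw [← co_Sp (halt V R₁ h₁), ← co_Sp (halt V R₂ h₂)]
      exact co_sup_top hd
    obtain ⟨r₁, hr₁, r₂, hr₂, hr⟩ := Submodule.mem_sup.1 (show u₁ + u₂ ∈ _ by rw [hr]; trivial)
    have hu : u₁ + r₁ = u₂ + r₂ := by
      apply eq_of_add
      calc u₁ + r₁ + (u₂ + r₂) = (u₁ + u₂) + (r₁ + r₂) := by abel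
        _ = 0 := by rw [hr, add_self']
    refine ⟨k₁ + k₂, Submodule.add_mem_sup hk₁ hk₂, u₁ + r₁, ?_⟩
    rw [LinearMap.add_apply]
    nth_rewrite 2 [hu]
    rw [map_add k₁, map_add k₂, hr₁ k₁ hk₁, hr₂ k₂ hk₂, add_zero, add_zero]
  | ext R L τ h hL hτ ih =>
    intro φ hφ
    have hτ0 := tau_ne L τ hτ
    by_cases hL0 : L = ⊥
    · rw [ext_bot R L τ hL hL0, Sp_bot, Submodule.mem_bot] at hφ
      exact ⟨0, Submodule.zero_mem _, 0, by rw [hφ]; rfl⟩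
    obtain ⟨l, hl, m, hm, rfl⟩ := Submodule.mem_sup.1 (Sp_ext_le R L τ hL hφ)
    obtain ⟨c, rfl⟩ := Submodule.mem_span_singleton.1 hm
    by_cases hl0 : l = 0
    · subst hl0
      rcases zm c with rfl | rfl
      · exact ⟨0, Submodule.zero_mem _, 0, by simp⟩
      · obtain ⟨χ, hχ, hχ0⟩ := Submodule.exists_mem_ne_zero_of_ne_bot hL0
        obtain ⟨x, h1, h2⟩ := sep2 (τ := χ) (ψ := τ) hχ0 (by rintro rfl; exact hτ hχ)
        refine ⟨_, wd_mem R L τ hχ, x, ?_⟩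
        simp [wdL_apply, h1, h2]
    · have hlτ : l ≠ τ := by rintro rfl; exact hτ hl
      rcases zm c with rfl | rfl
      · obtain ⟨x, h1, h2⟩ := sep2 (τ := τ) (ψ := l) hτ0 (Ne.symm hlτ)
        refine ⟨_, wd_mem R L τ hl, x, ?_⟩
        simp [wdL_apply, h1, h2]
      · obtain ⟨x, h1, h2⟩ := sep2 (τ := l) (ψ := l + τ) hl0 (by
          intro he
          exact hτ0 (left_eq_add.1 he))
        rw [LinearMap.add_apply, h1] at h2
        have h3 : τ x = 1 := by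
          revert h2; generalize τ x = p; revert p; decide
        refine ⟨_, wd_mem R L τ hl, x, ?_⟩
        simp [wdL_apply, h1, h3]

end Pool.Agent.ESL
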