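import Pool.Agent.ESL.C2Aux

set_option autoImplicit false

namespace Pool.Agent.ESL

open C2AuxX

theorem x_proof (hA : Stmt_C2A) (hN : Stmt_NDM) : Stmt_X := by
  intro V _ _ _ R τ M h hF hd k hk k' hk' κ hκ h1 h2 hM hκ0 h3
  obtain ⟨v, hv⟩ : ∃ v, κ v ≠ 0 := by
    by_contra hcon
    push Not at hcon
    exact hκ0 (LinearMap.ext hcon)
  obtain ⟨u, hu, a, ha, rfl⟩ := Submodule.mem_sup.1
    (show v ∈ LinearMap.ker (k + k' + κ) ⊔ M by rw [h3]; trivial)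
  rw [map_add, hM a ha, add_zero] at hv
  rw [LinearMap.mem_ker, LinearMap.add_apply, LinearMap.add_apply] at hu
  obtain ⟨m, hm, hkm⟩ := ker_sup_lift h1 u
  obtain ⟨m', hm', hkm'⟩ := ker_sup_lift h2 u
  obtain ⟨θ, hθ⟩ := exists_comp (M := M) (ψ := κ u) (by
    intro b hb
    rw [h.alt.symm hκ, hM b hb]
    rfl)
  have hθ0 : θ ≠ 0 := by
    intro h0
    rw [h0, LinearMap.zero_comp] at hθ
    exact hv hθ.symm
  have e1 : k m = k m + (0 : D (V ⧸ M)) ∘ₗ M.mkQ := by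
    rw [LinearMap.zero_comp, add_zero]
  have e2 : k' m' = k m + θ ∘ₗ M.mkQ := by
    rw [hθ, ← hkm, ← hkm']
    have := eq_of_add hu
    rw [← this, add_add_self]
  have hone := hA V R τ M h hF hd (k m) 0 θ (Ne.symm hθ0) (pp_pos (mkQ_zero.2 hm) hk e1)
    (pp_pos (mkQ_zero.2 hm') hk' e2)
  constructor
  · rw [eq_bot_iff]
    rintro b ⟨hb1, hb2⟩
    rw [Submodule.mem_bot]
    refine hN V R M (k m) h.alt hF hone k hk m hm 0 e1 b hb2 fun c _ => ?_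
    rw [LinearMap.mem_ker.1 hb1]
    rfl
  · rw [eq_bot_iff]
    rintro b ⟨hb1, hb2⟩
    rw [Submodule.mem_bot]
    refine hN V R M (k m) h.alt hF hone k' hk' m' hm' θ e2 b hb2 fun c _ => ?_
    rw [LinearMap.mem_ker.1 hb1]
    rfl

end Pool.Agent.ESL
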