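import Pool.Agent.ESL.ATB
import Pool.Agent.ESL.AU
import Pool.Agent.ESL.AU1
import Pool.Agent.ESL.AU2
import Pool.Agent.ESL.AU3
import Pool.Agent.ESL.C2
import Pool.Agent.ESL.C2A
import Pool.Agent.ESL.C2B
import Pool.Agent.ESL.C2C
import Pool.Agent.ESL.C2II
import Pool.Agent.ESL.C3
import Pool.Agent.ESL.C3D
import Pool.Agent.ESL.C3E
import Pool.Agent.ESL.C3Y
import Pool.Agent.ESL.COMP
import Pool.Agent.ESL.CONST
import Pool.Agent.ESL.CROSS
import Pool.Agent.ESL.CTXC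
import Pool.Agent.ESL.DEC2
import Pool.Agent.ESL.DEG
import Pool.Agent.ESL.DIAG
import Pool.Agent.ESL.ENDD
import Pool.Agent.ESL.ETALT
import Pool.Agent.ESL.EVEN
import Pool.Agent.ESL.EXT
import Pool.Agent.ESL.EXTREC
import Pool.Agent.ESL.F1
import Pool.Agent.ESL.F2
import Pool.Agent.ESL.F3
import Pool.Agent.ESL.F3A
import Pool.Agent.ESL.F3B
import Pool.Agent.ESL.F4A
import Pool.Agent.ESL.F4B
import Pool.Agent.ESL.F4C
import Pool.Agent.ESL.FOUR
import Pool.Agent.ESL.G1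
import Pool.Agent.ESL.G1A
import Pool.Agent.ESL.G2
import Pool.Agent.ESL.G3
import Pool.Agent.ESL.G4
import Pool.Agent.ESL.G5
import Pool.Agent.ESL.G6
import Pool.Agent.ESL.G7
import Pool.Agent.ESL.G7A
import Pool.Agent.ESL.G7B
import Pool.Agent.ESL.G7C
import Pool.Agent.ESL.G8
import Pool.Agent.ESL.G8A
import Pool.Agent.ESL.G8B
import Pool.Agent.ESL.G8C
import Pool.Agent.ESL.G8D
import Pool.Agent.ESL.G8E
import Pool.Agent.ESL.G9
import Pool.Agent.ESL.ISOC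
import Pool.Agent.ESL.J1
import Pool.Agent.ESL.J2
import Pool.Agent.ESL.J2E
import Pool.Agent.ESL.J2L
import Pool.Agent.ESL.J2R
import Pool.Agent.ESL.J2S
import Pool.Agent.ESL.J3
import Pool.Agent.ESL.J3E
import Pool.Agent.ESL.J3I
import Pool.Agent.ESL.J3L
import Pool.Agent.ESL.J3P
import Pool.Agent.ESL.MET
import Pool.Agent.ESL.Main
import Pool.Agent.ESL.NDM
import Pool.Agent.ESL.OC
import Pool.Agent.ESL.P3
import Pool.Agent.ESL.PAIR
import Pool.Agent.ESL.PARTI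
import Pool.Agent.ESL.PARTII
import Pool.Agent.ESL.PHI
import Pool.Agent.ESL.PRODREC
import Pool.Agent.ESL.PZ
import Pool.Agent.ESL.RK2
import Pool.Agent.ESL.Red
import Pool.Agent.ESL.SAT
import Pool.Agent.ESL.SIGN
import Pool.Agent.ESL.SPLEQ
import Pool.Agent.ESL.SPV
import Pool.Agent.ESL.X
import Pool.Agent.ESL.Eight

/-!
Assembly of the modules: strongly linked form spaces are of elementary type, and the results on quaternionic
structures with `-1 = 1`.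
-/

namespace Pool.Agent.ESL

theorem p_ETALT : Stmt_ETALT := etalt_proof
theorem p_ATB : Stmt_ATB := atb_proof p_ETALT
theorem p_AU : Stmt_AU := au_proof
theorem p_AU1 : Stmt_AU1 := au1_proof p_AU
theorem p_AU2 : Stmt_AU2 := au2_proof p_AU p_AU1
theorem p_AU3 : Stmt_AU3 := au3_proof p_AU1
theorem p_PZ : Stmt_PZ := pz_proof
theorem p_SPLEQ : Stmt_SPLEQ := spleq_proof
theorem p_DIAG : Stmt_DIAG := diag_proof p_SPLEQ
theorem p_PAIR : Stmt_PAIR := pair_proof p_SPLEQ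
theorem p_P3 : Stmt_P3 := p3_proof
theorem p_DEC2 : Stmt_DEC2 := dec2_proof
theorem p_RK2 : Stmt_RK2 := rk2_proof p_DEC2 p_ETALT
theorem p_F1 : Stmt_F1 := f1_proof p_RK2 p_DEC2
theorem p_SPV : Stmt_SPV := spv_proof p_ETALT
theorem p_F4B : Stmt_F4B := f4b_proof p_SPV
theorem p_C2A : Stmt_C2A := c2a_proof p_PZ p_DIAG p_PAIR p_P3 p_F1 p_F4B
theorem p_NDM : Stmt_NDM := ndm_proof
theorem p_PHI : Stmt_PHI := phi_proof
theorem p_C2B : Stmt_C2B := c2b_proof p_NDM p_PHI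
theorem p_C2II : Stmt_C2II := c2ii_proof p_ATB
theorem p_X : Stmt_X := x_proof p_C2A p_NDM
theorem p_C2C : Stmt_C2C := c2c_proof p_C2II p_F4B p_PHI p_X
theorem p_G1A : Stmt_G1A := g1a_proof p_AU1 p_AU2 p_AU3
theorem p_G1 : Stmt_G1 := g1_proof p_AU1 p_AU2 p_AU3
theorem p_G2 : Stmt_G2 := g2_proof p_G1 p_AU3
theorem p_EVEN : Stmt_EVEN := even_proof
theorem p_G2A : Stmt_G2A := g2a_proof p_AU1 p_EVEN
theorem p_G3 : Stmt_G3 := g3_proof p_G1A p_G2 p_G2A
theorem p_G4 : Stmt_G4 := g4_proof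
theorem p_G5 : Stmt_G5 := g5_proof p_AU2 p_G1 p_G4
theorem p_GG : Stmt_GG := gg_proof p_G1A p_G2 p_G2A p_G3 p_G5
theorem p_F3A : Stmt_F3A := f3a_proof
theorem p_F3B : Stmt_F3B := f3b_proof
theorem p_COMP : Stmt_COMP := comp_proof
theorem p_F3 : Stmt_F3 := f3_proof p_F3A p_F3B p_COMP
theorem p_C2 : Stmt_C2 := c2_proof p_C2A p_C2B p_C2C p_C2II p_GG p_F3
theorem p_C3Y : Stmt_C3Y := c3y_proof
theorem p_CONST : Stmt_CONST := const_proof
theorem p_SIGN : Stmt_SIGN := sign_proof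
theorem p_FOUR : Stmt_FOUR := four_proof
theorem p_C3D : Stmt_C3D := c3d_proof p_C3Y p_FOUR
theorem p_C3E : Stmt_C3E := c3e_proof p_C3Y p_FOUR
theorem p_C3 : Stmt_C3 := c3_proof p_C3Y p_CONST p_SIGN p_C3D p_C3E
theorem p_CROSS : Stmt_CROSS := cross_proof
theorem p_F4A : Stmt_F4A := f4a_proof p_RK2 p_DEC2
theorem p_MET : Stmt_MET := met_proof p_ETALT
theorem p_F4C : Stmt_F4C := f4c_proof p_MET
theorem p_CTXC : Stmt_CTXC := ctxc_proof p_PZ p_DIAG p_PAIR p_P3 p_F1 p_F4A p_F4C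
theorem p_ISOC : Stmt_ISOC := isoc_proof
theorem p_PRODREC : Stmt_PRODREC := prodrec_proof p_ISOC
theorem p_DEG : Stmt_DEG := deg_proof p_PRODREC
theorem p_ENDD : Stmt_ENDD := endd_proof
theorem p_EXT : Stmt_EXT := ext_proof
theorem p_EXTREC : Stmt_EXTREC := extrec_proof p_ISOC
theorem p_F2 : Stmt_F2 := f2_proof
theorem p_G6 : Stmt_G6 := g6_proof p_GG p_EVEN
theorem p_G7A : Stmt_G7A := g7a_proof p_AU1
theorem p_G7B : Stmt_G7B := g7b_proof
theorem p_G7C : Stmt_G7C := g7c_proof p_EVEN p_AU1 p_G2A p_G3 p_GG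
theorem p_G7 : Stmt_G7 := g7_proof p_G6 p_G7A p_G7B p_G7C
theorem p_G8A : Stmt_G8A := g8a_proof p_AU1 p_AU2 p_AU3
theorem p_G8B : Stmt_G8B := g8b_proof p_G8A p_G5 p_G1 p_AU1 p_AU2 p_AU3
theorem p_G8C : Stmt_G8C := g8c_proof p_G8B p_G8A p_G4 p_G5 p_G6 p_EVEN p_AU1 p_AU2 p_AU3 p_G1
theorem p_G8D : Stmt_G8D := g8d_proof p_G8C p_G8B p_G8A p_G4 p_G6 p_AU2
theorem p_G8E : Stmt_G8E := g8e_proof p_G8D p_G8C p_G8B p_G8A p_G4 p_G6 p_AU1 p_AU2 p_AU3
theorem p_G8 : Stmt_G8 := g8_proof p_G8E p_G4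
theorem p_G9 : Stmt_G9 := g9_proof p_G4 p_SPV
theorem p_RED : Stmt_RED := red_proof
theorem p_PARTII : Stmt_PARTII := partii_proof p_ATB p_G7 p_G8 p_G9
theorem p_OC : Stmt_OC := oc_proof
theorem p_SAT : Stmt_SAT := sat_proof
theorem p_PARTI : Stmt_PARTI := parti_proof p_F1 p_F2 p_F3 p_CTXC p_C3 p_C2 p_OC p_SAT p_CROSS p_ENDD
theorem p_MAIN : Stmt_MAIN := main_proof p_RED p_EXT p_PARTII p_PARTI
theorem p_J2R : Stmt_J2R := j2r_proof p_PRODREC p_DEG
theorem p_J2L : Stmt_J2L := j2l_proof p_EXTREC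
theorem p_J2S : Stmt_J2S := j2s_proof p_PRODREC
theorem p_J2E : Stmt_J2E := j2e_proof p_EXTREC
theorem p_J2 : Stmt_J2 := j2_proof p_ETALT p_J2R p_J2L p_J2S p_J2E
theorem p_J1 : Stmt_J1 := j1_proof p_MAIN p_J2
theorem p_J3P : Stmt_J3P := j3p_proof
theorem p_J3E : Stmt_J3E := j3e_proof
theorem p_J3L : Stmt_J3L := j3l_proof
theorem p_J3I : Stmt_J3I := j3i_proof
theorem p_J3 : Stmt_J3 := j3_proof p_J3P p_J3E p_J3L p_J3I

/-- finite structures with `-1 = 1`: elementary type iff the extension property -/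
theorem elemType_iff (S : QS.QStruct) (hf : Finite S.G) (h : S.neg = 1) :
    QS.ElemType S ↔ ExtProp S :=
  ⟨fun hS => p_J3 S hS h, fun hS => p_J1 S hf h hS⟩

/-- the elementary type conjecture for `-1 = 1` is equivalent to the extension property for subgroups of
order at most eight -/
theorem conj_iff :
    (∀ S : QS.QStruct, Finite S.G → S.neg = 1 → QS.ElemType S) ↔
      ∀ S : QS.QStruct, Finite S.G → S.neg = 1 → Ext8 S := by
  constructor
  · intro H S hf h U _ β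
    exact p_J3 S (H S hf h) h U β
  · intro H S hf h
    exact p_J1 S hf h (extProp_of_ext8 H S hf h)

end Pool.Agent.ESL
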