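import Pool.Agent.ESL.Defs

/-!
Basic facts about form spaces.
-/

set_option linter.unusedSectionVars false
set_option linter.unusedVariables false

namespace Pool.Agent.ESL

variable {V X : Type} [AddCommGroup V] [Module (ZMod 2) V] [AddCommGroup X] [Module (ZMod 2) X]

theorem zm (a : ZMod 2) : a = 0 ∨ a = 1 := by revert a; decide

theorem zm_ne {a : ZMod 2} (h : a ≠ 0) : a = 1 := by revert a; decide

theorem zm_ne' {a : ZMod 2} (h : a ≠ 1) : a = 0 := by revert a; decide

theorem add_self' (x : V) : x + x = 0 := ZModModule.add_self x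

theorem add_add_self (x y : V) : x + (x + y) = y := by
  rw [← add_assoc, ZModModule.add_self, zero_add]

theorem add_add_self' (x y : V) : x + y + y = x := by
  rw [add_assoc, ZModModule.add_self, add_zero]

theorem eq_of_add {x y : V} (h : x + y = 0) : x = y := by
  have := congrArg (· + y) h
  simpa [add_add_self'] using this

theorem add_eq_zero_iff' {x y : V} : x + y = 0 ↔ x = y :=
  ⟨eq_of_add, fun h => by rw [h, add_self']⟩

@[simp] theorem wdL_apply (τ ψ : D V) (x : V) : wdL τ ψ x = τ x • ψ + ψ x • τ := rfl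

theorem wdL_apply₂ (τ ψ : D V) (x y : V) : wdL τ ψ x y = τ x * ψ y + ψ x * τ y := rfl

theorem wdL_self (τ : D V) : wdL τ τ = 0 := by
  ext x y
  rw [wdL_apply₂, CharTwo.add_self_eq_zero]; rfl

theorem wdL_comm (τ ψ : D V) : wdL τ ψ = wdL ψ τ := by
  ext x y
  rw [wdL_apply₂, wdL_apply₂, add_comm]

theorem wdL_alt (τ ψ : D V) (x : V) : wdL τ ψ x x = 0 := by
  rw [wdL_apply₂, mul_comm, CharTwo.add_self_eq_zero]

/-! ### annihilators -/

@[simp] theorem mem_an {W : Submodule (ZMod 2) V} {φ : D V} : φ ∈ an W ↔ ∀ x ∈ W, φ x = 0 := Iff.rfl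

@[simp] theorem mem_co {T : Submodule (ZMod 2) (D V)} {x : V} : x ∈ co T ↔ ∀ φ ∈ T, φ x = 0 := Iff.rfl

theorem an_eq (W : Submodule (ZMod 2) V) : an W = W.dualAnnihilator := by
  ext φ
  rw [mem_an, Submodule.mem_dualAnnihilator]

theorem co_eq (T : Submodule (ZMod 2) (D V)) : co T = T.dualCoannihilator := by
  ext x
  rw [mem_co, Submodule.mem_dualCoannihilator]

theorem an_anti {W W' : Submodule (ZMod 2) V} (h : W ≤ W') : an W' ≤ an W :=
  fun _ hφ x hx => hφ x (h hx)

theorem co_anti {T T' : Submodule (ZMod 2) (D V)} (h : T ≤ T') : co T' ≤ co T :=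
  fun _ hx φ hφ => hx φ (h hφ)

theorem le_an_co (T : Submodule (ZMod 2) (D V)) : T ≤ an (co T) := fun φ hφ x hx => hx φ hφ

theorem le_co_an (W : Submodule (ZMod 2) V) : W ≤ co (an W) := fun x hx φ hφ => hφ x hx

theorem exists_sep {W : Submodule (ZMod 2) V} {x : V} (hx : x ∉ W) : ∃ f ∈ an W, f x = 1 := by
  obtain ⟨f, hf, hp⟩ := Submodule.exists_dual_map_eq_bot_of_notMem hx inferInstance
  refine ⟨f, fun y hy => ?_, zm_ne hf⟩
  have : f y ∈ W.map f := Submodule.mem_map_of_mem hy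
  rw [hp] at this
  simpa using this

theorem exists_dual {x : V} (hx : x ≠ 0) : ∃ f : D V, f x = 1 := by
  obtain ⟨f, -, h⟩ := exists_sep (W := ⊥) (x := x) (by simpa using hx)
  exact ⟨f, h⟩

@[simp] theorem co_an (W : Submodule (ZMod 2) V) : co (an W) = W := by
  apply le_antisymm _ (le_co_an W)
  intro x hx
  by_contra h
  obtain ⟨f, hf, h1⟩ := exists_sep h
  rw [hx f hf] at h1
  exact zero_ne_one h1

section finite
variable [Finite V]

@[simp] theorem an_co (T : Submodule (ZMod 2) (D V)) : an (co T) = T := by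
  rw [an_eq, co_eq]
  exact Subspace.dualCoannihilator_dualAnnihilator_eq

theorem finrank_D : Module.finrank (ZMod 2) (D V) = Module.finrank (ZMod 2) V :=
  Subspace.dual_finrank_eq

theorem finrank_an (W : Submodule (ZMod 2) V) :
    Module.finrank (ZMod 2) (an W) + Module.finrank (ZMod 2) W = Module.finrank (ZMod 2) V := by
  rw [an_eq, add_comm]
  exact Subspace.finrank_add_finrank_dualAnnihilator_eq W

theorem finrank_co (T : Submodule (ZMod 2) (D V)) :
    Module.finrank (ZMod 2) (co T) + Module.finrank (ZMod 2) T = Module.finrank (ZMod 2) V := by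
  have := finrank_an (co T)
  rw [an_co] at this
  omega

theorem exists_cosep {T : Submodule (ZMod 2) (D V)} {φ : D V} (h : φ ∉ T) :
    ∃ x ∈ co T, φ x = 1 := by
  by_contra hc
  push Not at hc
  apply h
  rw [← an_co T]
  intro x hx
  exact zm_ne' (hc x hx)

end finite

theorem an_sup (A B : Submodule (ZMod 2) V) : an (A ⊔ B) = an A ⊓ an B := by
  ext φ
  constructor
  · intro h
    exact ⟨fun x hx => h x (Submodule.mem_sup_left hx), fun x hx => h x (Submodule.mem_sup_right hx)⟩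
  · rintro ⟨h1, h2⟩ x hx
    obtain ⟨a, ha, b, hb, rfl⟩ := Submodule.mem_sup.1 hx
    rw [map_add, h1 a ha, h2 b hb, add_zero]

theorem co_sup (A B : Submodule (ZMod 2) (D V)) : co (A ⊔ B) = co A ⊓ co B := by
  ext x
  constructor
  · intro h
    exact ⟨fun φ hφ => h φ (Submodule.mem_sup_left hφ), fun φ hφ => h φ (Submodule.mem_sup_right hφ)⟩
  · rintro ⟨h1, h2⟩ φ hφ
    obtain ⟨a, ha, b, hb, rfl⟩ := Submodule.mem_sup.1 hφ
    rw [LinearMap.add_apply, h1 a ha, h2 b hb, add_zero]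

@[simp] theorem an_bot : an (⊥ : Submodule (ZMod 2) V) = ⊤ := by
  ext φ; simp

@[simp] theorem co_bot : co (⊥ : Submodule (ZMod 2) (D V)) = ⊤ := by
  ext x; simp

@[simp] theorem an_top : an (⊤ : Submodule (ZMod 2) V) = ⊥ := by
  ext φ
  simp only [mem_an, Submodule.mem_top, true_implies, Submodule.mem_bot]
  exact ⟨fun h => LinearMap.ext h, fun h x => by rw [h]; rfl⟩

@[simp] theorem co_top : co (⊤ : Submodule (ZMod 2) (D V)) = ⊥ := by
  rw [← an_bot, co_an]

section finite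
variable [Finite V]

theorem an_inf (A B : Submodule (ZMod 2) V) : an (A ⊓ B) = an A ⊔ an B := by
  have h : co (an A ⊔ an B) = A ⊓ B := by rw [co_sup, co_an, co_an]
  rw [← h, an_co]

theorem co_inf (A B : Submodule (ZMod 2) (D V)) : co (A ⊓ B) = co A ⊔ co B := by
  have h : an (co A ⊔ co B) = A ⊓ B := by rw [an_sup, an_co, an_co]
  rw [← h, co_an]

theorem co_sup_top {A B : Submodule (ZMod 2) (D V)} (h : Disjoint A B) : co A ⊔ co B = ⊤ := by
  rw [← co_inf, h.eq_bot, co_bot]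

theorem an_sup_top {A B : Submodule (ZMod 2) V} (h : Disjoint A B) : an A ⊔ an B = ⊤ := by
  rw [← an_inf, h.eq_bot, an_bot]

theorem disjoint_of_co {A B : Submodule (ZMod 2) (D V)} (h : co A ⊔ co B = ⊤) : Disjoint A B := by
  rw [disjoint_iff, ← an_co A, ← an_co B, ← an_sup, h, an_top]

theorem disjoint_an {A B : Submodule (ZMod 2) V} (h : A ⊔ B = ⊤) : Disjoint (an A) (an B) := by
  rw [disjoint_iff, ← an_sup, h, an_top]

end finite

/-! ### forms -/

theorem symm_of_alt {k : Fm V} (h : ∀ x, k x x = 0) (x y : V) : k x y = k y x := by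
  have h1 := h (x + y)
  simp only [map_add, LinearMap.add_apply, h x, h y, zero_add, add_zero] at h1
  rw [add_comm] at h1
  exact (CharTwo.add_eq_zero.1 h1)

theorem IsAlt.symm {R : FS V} (hR : IsAlt R) {k : Fm V} (hk : k ∈ R) (x y : V) : k x y = k y x :=
  symm_of_alt (hR k hk) x y

theorem IsAlt.mono {R R' : FS V} (hR : IsAlt R) (h : R' ≤ R) : IsAlt R' := fun k hk => hR k (h hk)

section finite
variable [Finite V]

/-- `ker k = (k V)^⊥` for symmetric `k` -/
theorem co_range {k : Fm V} (h : ∀ x, k x x = 0) : co (LinearMap.range k) = LinearMap.ker k := by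
  ext x
  rw [mem_co, LinearMap.mem_ker]
  constructor
  · intro hx
    ext y
    rw [symm_of_alt h]
    exact hx _ ⟨y, rfl⟩
  · rintro hx φ ⟨y, rfl⟩
    rw [symm_of_alt h, hx]; rfl

theorem an_ker {k : Fm V} (h : ∀ x, k x x = 0) : an (LinearMap.ker k) = LinearMap.range k := by
  rw [← co_range h, an_co]

theorem mem_range_iff {k : Fm V} (h : ∀ x, k x x = 0) {φ : D V} :
    φ ∈ LinearMap.range k ↔ ∀ x, k x = 0 → φ x = 0 := by
  rw [← an_ker h]; rfl

theorem range_le_iff {k l : Fm V} (hk : ∀ x, k x x = 0) (hl : ∀ x, l x x = 0) :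
    LinearMap.range k ≤ LinearMap.range l ↔ LinearMap.ker l ≤ LinearMap.ker k := by
  rw [← an_ker hk, ← an_ker hl]
  constructor
  · intro h
    have := co_anti h
    rwa [co_an, co_an] at this
  · exact an_anti

theorem ker_sup_top {k l : Fm V} (hk : ∀ x, k x x = 0) (hl : ∀ x, l x x = 0)
    (h : Disjoint (LinearMap.range k) (LinearMap.range l)) :
    LinearMap.ker k ⊔ LinearMap.ker l = ⊤ := by
  rw [← co_range hk, ← co_range hl]
  exact co_sup_top h

end finite

theorem mem_Lx {R : FS V} {x : V} {ψ : D V} : ψ ∈ Lx R x ↔ ∃ k ∈ R, k x = ψ := Iff.rfl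

theorem Lx_mem {R : FS V} {k : Fm V} (hk : k ∈ R) (x : V) : k x ∈ Lx R x := ⟨k, hk, rfl⟩

theorem Lx_mono {R R' : FS V} (h : R' ≤ R) (x : V) : Lx R' x ≤ Lx R x := by
  rintro _ ⟨k, hk, rfl⟩
  exact ⟨k, h hk, rfl⟩

theorem mem_Vx {R : FS V} {x v : V} : v ∈ Vx R x ↔ ∀ k ∈ R, k x v = 0 := by
  constructor
  · intro h k hk
    exact h _ ⟨k, hk, rfl⟩
  · rintro h _ ⟨k, hk, rfl⟩
    exact h k hk

theorem Lx_zero (R : FS V) : Lx R 0 = ⊥ := by
  ext ψ
  constructor
  · rintro ⟨k, -, rfl⟩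
    simp
  · intro h
    rw [Submodule.mem_bot] at h
    rw [h]; exact Submodule.zero_mem _

theorem Lx_self {R : FS V} (hR : IsAlt R) {x : V} {ψ : D V} (h : ψ ∈ Lx R x) : ψ x = 0 := by
  obtain ⟨k, hk, rfl⟩ := h
  exact hR k hk x

theorem an_Vx [Finite V] (R : FS V) (x : V) : an (Vx R x) = Lx R x := an_co _

theorem mem_Lx_iff [Finite V] {R : FS V} {x : V} {ψ : D V} :
    ψ ∈ Lx R x ↔ ∀ v, (∀ k ∈ R, k x v = 0) → ψ v = 0 := by
  rw [← an_Vx]
  constructor
  · intro h v hv
    exact h v (mem_Vx.2 hv)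
  · intro h v hv
    exact h v (mem_Vx.1 hv)

theorem mem_fx {R : FS V} {w : V} {k : Fm V} : k ∈ fx R w ↔ k ∈ R ∧ k w = 0 := Iff.rfl

theorem fx_le (R : FS V) (w : V) : fx R w ≤ R := fun _ h => h.1

theorem mem_fxs {R : FS V} {W : Submodule (ZMod 2) V} {k : Fm V} :
    k ∈ fxs R W ↔ k ∈ R ∧ ∀ w ∈ W, k w = 0 := Iff.rfl

theorem fxs_le (R : FS V) (W : Submodule (ZMod 2) V) : fxs R W ≤ R := fun _ h => h.1

theorem mem_rad {R : FS V} {x : V} : x ∈ rad R ↔ ∀ k ∈ R, k x = 0 := Iff.rfl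

theorem mem_Sp {R : FS V} {k : Fm V} (hk : k ∈ R) (x : V) : k x ∈ Sp R :=
  Submodule.subset_span ⟨k, hk, x, rfl⟩

theorem range_le_Sp {R : FS V} {k : Fm V} (hk : k ∈ R) : LinearMap.range k ≤ Sp R := by
  rintro _ ⟨x, rfl⟩
  exact mem_Sp hk x

theorem Sp_le {R : FS V} {T : Submodule (ZMod 2) (D V)} :
    Sp R ≤ T ↔ ∀ k ∈ R, ∀ x, k x ∈ T := by
  constructor
  · intro h k hk x
    exact h (mem_Sp hk x)
  · intro h
    apply Submodule.span_le.2
    rintro _ ⟨k, hk, x, rfl⟩
    exact h k hk x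

theorem Sp_mono {R R' : FS V} (h : R ≤ R') : Sp R ≤ Sp R' :=
  Sp_le.2 fun _ hk x => mem_Sp (h hk) x

theorem Sp_sup (R R' : FS V) : Sp (R ⊔ R') = Sp R ⊔ Sp R' := by
  apply le_antisymm
  · apply Sp_le.2
    intro k hk x
    obtain ⟨a, ha, b, hb, rfl⟩ := Submodule.mem_sup.1 hk
    exact Submodule.add_mem_sup (mem_Sp ha x) (mem_Sp hb x)
  · exact sup_le (Sp_mono le_sup_left) (Sp_mono le_sup_right)

theorem Sp_span (k : Fm V) : Sp (Submodule.span (ZMod 2) {k}) = LinearMap.range k := by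
  apply le_antisymm
  · apply Sp_le.2
    intro l hl x
    obtain ⟨c, rfl⟩ := Submodule.mem_span_singleton.1 hl
    exact ⟨c • x, by simp⟩
  · exact range_le_Sp (Submodule.mem_span_singleton_self k)

@[simp] theorem Sp_bot : Sp (⊥ : FS V) = ⊥ := by
  rw [eq_bot_iff]
  apply Sp_le.2
  intro k hk x
  rw [Submodule.mem_bot] at hk
  rw [hk]; exact Submodule.zero_mem _

theorem co_Sp {R : FS V} (hR : IsAlt R) : co (Sp R) = rad R := by
  ext x
  constructor
  · intro h k hk
    ext y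
    rw [hR.symm hk]
    exact h _ (mem_Sp hk y)
  · intro h
    have : Sp R ≤ an (Submodule.span (ZMod 2) {x}) := by
      apply Sp_le.2
      intro k hk y z hz
      obtain ⟨c, rfl⟩ := Submodule.mem_span_singleton.1 hz
      rw [map_smul, hR.symm hk, h k hk]
      simp
    intro φ hφ
    exact this hφ x (Submodule.mem_span_singleton_self x)

theorem an_rad [Finite V] {R : FS V} (hR : IsAlt R) : an (rad R) = Sp R := by
  rw [← co_Sp hR, an_co]

theorem mem_Star {R : FS V} {τ ψ : D V} : ψ ∈ Star R τ ↔ wdL τ ψ ∈ R := Iff.rfl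

theorem self_mem_Star (R : FS V) (τ : D V) : τ ∈ Star R τ := by
  rw [mem_Star, wdL_self]; exact R.zero_mem

/-! ### linkage -/

theorem SL.univ {R : FS V} (h : SL R) {b : Fm V} (hb : ∀ x, b x ∈ Lx R x) : b ∈ R := by
  obtain ⟨k, hk, hk'⟩ := h ⊤ (b ∘ₗ Submodule.subtype ⊤) (fun u => hb u)
  have : k = b := by
    apply LinearMap.ext
    intro x
    exact hk' ⟨x, trivial⟩
  rwa [← this]

theorem SL.linked {R : FS V} (h : SL R) : Linked R := by
  intro k hk k' hk' x x' hx
  by_cases hxx : x = x'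
  · subst hxx
    exact ⟨k, hk, rfl, rfl⟩
  by_cases h0 : x = 0
  · subst h0
    exact ⟨0, R.zero_mem, by simp, by simp⟩
  by_cases h0' : x' = 0
  · subst h0'
    rw [map_zero] at hx
    exact ⟨0, R.zero_mem, by simp [hx], by simp [hx]⟩
  -- a functional equal to one at `x` and `x'`
  obtain ⟨f, hf, hf1⟩ := exists_sep (W := Submodule.span (ZMod 2) {x + x'}) (x := x) (by
    intro hm
    obtain ⟨c, hc⟩ := Submodule.mem_span_singleton.1 hm
    rcases zm c with rfl | rfl
    · rw [zero_smul] at hc; exact h0 hc.symm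
    · rw [one_smul] at hc
      apply h0'
      have := congrArg (x + ·) hc
      simpa [add_add_self, add_self'] using this)
  have hf2 : f x' = 1 := by
    have h1 := hf (x + x') (Submodule.mem_span_singleton_self _)
    rw [map_add, hf1] at h1
    exact (CharTwo.add_eq_zero.1 h1).symm
  let U : Submodule (ZMod 2) V := Submodule.span (ZMod 2) {x, x'}
  obtain ⟨l, hl, hl'⟩ := h U ((f.smulRight (k x)) ∘ₗ U.subtype) (by
    rintro ⟨u, hu⟩
    obtain ⟨a, b, rfl⟩ := Submodule.mem_span_pair.1 hu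
    simp only [LinearMap.comp_apply, Submodule.subtype_apply, LinearMap.smulRight_apply, map_add,
      map_smul, hf1, hf2, smul_eq_mul, mul_one]
    rcases zm a with rfl | rfl <;> rcases zm b with rfl | rfl
    · simp
    · simp only [zero_add, one_smul, zero_smul]
      rw [hx]; exact Lx_mem hk' _
    · simp only [add_zero, one_smul, zero_smul]
      exact Lx_mem hk _
    · simp only [one_smul]
      rw [ZModModule.add_self]
      exact Submodule.zero_mem _)
  have e1 := hl' ⟨x, Submodule.subset_span (by simp)⟩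
  have e2 := hl' ⟨x', Submodule.subset_span (by simp)⟩
  simp only [LinearMap.comp_apply, Submodule.subtype_apply, LinearMap.smulRight_apply, hf1, hf2,
    one_smul] at e1 e2
  exact ⟨l, hl, e1, e2⟩

/-- extension of a linear map by zero on a subspace -/
theorem extend_zero {E : Type} [AddCommGroup E] [Module (ZMod 2) E] (U W : Submodule (ZMod 2) V)
    (b : U →ₗ[ZMod 2] E) (h : ∀ u : U, (u : V) ∈ W → b u = 0) :
    ∃ g : V →ₗ[ZMod 2] E, (∀ u : U, g u = b u) ∧ ∀ w ∈ W, g w = 0 := by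
  obtain ⟨g, hg⟩ := LinearMap.exists_extend
    ((LinearPMap.mk U b).sup (LinearPMap.mk W 0) (by
      intro x y hxy
      have h1 : ((x : U) : V) ∈ W := by rw [hxy]; exact y.2
      show b x = 0
      exact h x h1)).toFun
  have key : ∀ (u : U) (w : W), g ((u : V) + w) = b u := by
    intro u w
    have h2 := LinearPMap.sup_apply (f := LinearPMap.mk U b) (g := LinearPMap.mk W 0) (by
      intro x y hxy
      have h1 : ((x : U) : V) ∈ W := by rw [hxy]; exact y.2
      show b x = 0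
      exact h x h1) u w ⟨(u : V) + w, Submodule.add_mem_sup u.2 w.2⟩ rfl
    have h3 := congrArg (fun F => F ⟨(u : V) + w, Submodule.add_mem_sup u.2 w.2⟩) hg
    refine h3.trans (h2.trans ?_)
    show b u + 0 = b u
    rw [add_zero]
  refine ⟨g, fun u => ?_, fun w hw => ?_⟩
  · have := key u 0
    simpa using this
  · have := key 0 ⟨w, hw⟩
    simpa using this

theorem SL.fxs {R : FS V} (h : SL R) (W : Submodule (ZMod 2) V) : SL (fxs R W) := by
  intro U b hb
  obtain ⟨g, hg, hgW⟩ := extend_zero U W b (by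
    intro u hu
    obtain ⟨k, hk, hk'⟩ := hb u
    rw [← hk']; exact hk.2 _ hu)
  obtain ⟨k, hk, hk'⟩ := h (U ⊔ W) (g ∘ₗ (U ⊔ W).subtype) (by
    rintro ⟨u, hu⟩
    obtain ⟨a, ha, b', hb', rfl⟩ := Submodule.mem_sup.1 hu
    obtain ⟨l, hl, hl'⟩ := hb ⟨a, ha⟩
    refine ⟨l, hl.1, ?_⟩
    show l (a + b') = g (a + b')
    rw [map_add, map_add, hl.2 _ hb', hgW _ hb', add_zero, add_zero]
    exact hl'.trans (hg ⟨a, ha⟩).symm)
  refine ⟨k, ⟨hk, fun w hw => ?_⟩, fun u => ?_⟩
  · have := hk' ⟨w, Submodule.mem_sup_right hw⟩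
    rw [this]; exact hgW w hw
  · have := hk' ⟨u, Submodule.mem_sup_left u.2⟩
    rw [this]; exact hg u

theorem fxs_span (R : FS V) (w : V) : ESL.fxs R (Submodule.span (ZMod 2) {w}) = fx R w := by
  ext k
  constructor
  · rintro ⟨h1, h2⟩
    exact ⟨h1, h2 w (Submodule.mem_span_singleton_self w)⟩
  · rintro ⟨h1, h2⟩
    refine ⟨h1, fun x hx => ?_⟩
    obtain ⟨c, rfl⟩ := Submodule.mem_span_singleton.1 hx
    rw [map_smul, h2, smul_zero]

theorem SL.fx {R : FS V} (h : SL R) (w : V) : SL (fx R w) := by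
  rw [← fxs_span]
  exact h.fxs _

/-- linkage, primal form: if `q(a,b) = q(c,d)` then there is a common slot `x` -/
theorem Linked.primal [Finite V] {R : FS V} (hR : IsAlt R) (h : Linked R) (a b c d : V)
    (hq : ∀ k ∈ R, k a b = k c d) :
    ∃ x, (∀ k ∈ R, k a b = k a x) ∧ (∀ k ∈ R, k c d = k c x) ∧ ∀ k ∈ R, k (a + c) x = 0 := by
  have h1 : b + d ∈ Vx R a ⊔ Vx R c := by
    unfold Vx
    rw [← co_inf]
    rintro ψ ⟨⟨k, hk, h1⟩, ⟨k', hk', h2⟩⟩
    obtain ⟨l, hl, e1, e2⟩ := h k hk k' hk' a c (h1.trans h2.symm)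
    rw [h1] at e1 e2
    rw [map_add]
    nth_rewrite 1 [← e1]
    rw [← e2, hq l hl, CharTwo.add_self_eq_zero]
  obtain ⟨s, hs, t, ht, hst⟩ := Submodule.mem_sup.1 h1
  have hb : b + s = d + t := by
    have : b + s + (d + t) = 0 := by
      calc b + s + (d + t) = (b + d) + (s + t) := by abel
        _ = 0 := by rw [hst, add_self']
    exact eq_of_add this
  have e1 : ∀ k ∈ R, k a (b + s) = k a b := by
    intro k hk
    rw [map_add, mem_Vx.1 hs k hk, add_zero]
  have e2 : ∀ k ∈ R, k c (b + s) = k c d := by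
    intro k hk
    rw [hb, map_add, mem_Vx.1 ht k hk, add_zero]
  refine ⟨b + s, fun k hk => (e1 k hk).symm, fun k hk => (e2 k hk).symm, fun k hk => ?_⟩
  rw [map_add k, LinearMap.add_apply, e1 k hk, e2 k hk, hq k hk, CharTwo.add_self_eq_zero]

/-! ### cardinalities -/

theorem card_eq [Finite V] (W : Submodule (ZMod 2) V) :
    Nat.card W = 2 ^ Module.finrank (ZMod 2) W := by
  rw [Module.natCard_eq_pow_finrank (K := ZMod 2), Nat.card_zmod]

theorem card_V [Finite V] : Nat.card V = 2 ^ Module.finrank (ZMod 2) V := by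
  rw [Module.natCard_eq_pow_finrank (K := ZMod 2), Nat.card_zmod]

/-! ### pull-back -/

@[simp] theorem pull_apply (π : V →ₗ[ZMod 2] X) (κ : Fm X) (x y : V) :
    pull π κ x y = κ (π x) (π y) := rfl

theorem pull_apply' (π : V →ₗ[ZMod 2] X) (κ : Fm X) (x : V) :
    pull π κ x = κ (π x) ∘ₗ π := rfl

theorem pull_inj {π : V →ₗ[ZMod 2] X} (h : Function.Surjective π) : Function.Injective (pull π) := by
  intro a b hab
  ext x y
  obtain ⟨x, rfl⟩ := h x
  obtain ⟨y, rfl⟩ := h y
  exact congrArg (fun k : Fm V => k x y) hab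

theorem comp_inj {π : V →ₗ[ZMod 2] X} (h : Function.Surjective π) {a b : D X}
    (hab : a ∘ₗ π = b ∘ₗ π) : a = b := by
  ext x
  obtain ⟨x, rfl⟩ := h x
  exact congrArg (fun f : D V => f x) hab

/-- a functional vanishing on `M` comes from `V / M` -/
theorem exists_comp {M : Submodule (ZMod 2) V} {ψ : D V} (h : ∀ m ∈ M, ψ m = 0) :
    ∃ θ : D (V ⧸ M), θ ∘ₗ M.mkQ = ψ :=
  ⟨M.liftQ ψ (fun m hm => h m hm), Submodule.liftQ_mkQ _ _ _⟩

/-- an alternating form vanishing on `M` comes from `V / M` -/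
theorem exists_pull {M : Submodule (ZMod 2) V} {k : Fm V} (ha : ∀ x, k x x = 0)
    (h : ∀ m ∈ M, k m = 0) : ∃ κ : Fm (V ⧸ M), pull M.mkQ κ = k := by
  let f : V →ₗ[ZMod 2] D (V ⧸ M) :=
    { toFun := fun x => M.liftQ (k x) (fun m hm => by
        rw [LinearMap.mem_ker, symm_of_alt ha, h m hm]; rfl)
      map_add' := by
        intro x y
        apply comp_inj M.mkQ_surjective
        rw [Submodule.liftQ_mkQ, LinearMap.add_comp, Submodule.liftQ_mkQ, Submodule.liftQ_mkQ,
          map_add]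
      map_smul' := by
        intro c x
        apply comp_inj M.mkQ_surjective
        rw [Submodule.liftQ_mkQ, LinearMap.smul_comp, RingHom.id_apply, Submodule.liftQ_mkQ,
          map_smul] }
  refine ⟨M.liftQ f (fun m hm => ?_), ?_⟩
  · rw [LinearMap.mem_ker]
    apply comp_inj M.mkQ_surjective
    show M.liftQ (k m) _ ∘ₗ M.mkQ = _
    rw [Submodule.liftQ_mkQ, h m hm]; rfl
  · ext x y
    rfl

theorem mem_R0 {R : FS V} {M : Submodule (ZMod 2) V} {κ : Fm (V ⧸ M)} :
    κ ∈ R0 R M ↔ pull M.mkQ κ ∈ R := Iff.rfl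

theorem pull_ker {M : Submodule (ZMod 2) V} (κ : Fm (V ⧸ M)) {m : V} (hm : m ∈ M) :
    pull M.mkQ κ m = 0 := by
  ext y
  rw [pull_apply, (Submodule.Quotient.mk_eq_zero M).2 hm |> (fun h => (show M.mkQ m = 0 from h)),
    map_zero]
  rfl

end Pool.Agent.ESL
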