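import Pool.Agent.ESL.Stmts

/-!
Auxiliary lemmas for the modules NDM, PHI, X, C2B, C2II, C2C, C2.
-/

set_option autoImplicit false
set_option linter.unusedVariables false

namespace Pool.Agent.ESL.C2AuxX

open Pool.Agent.ESL

variable {V : Type} [AddCommGroup V] [Module (ZMod 2) V]

/-- a basis of `an M` for `dim V / M = 2` -/
theorem basis2 [Finite V] {R : FS V} {τ : D V} {M : Submodule (ZMod 2) V} (h : CtxI R τ M)
    (hd : fr V = fr M + 2) : ∃ ψ : D V, ∃ e₁ e₂ : V, wdL τ ψ ∈ R ∧ (∀ m ∈ M, τ m = 0) ∧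
      (∀ m ∈ M, ψ m = 0) ∧ τ e₁ = 1 ∧ ψ e₁ = 0 ∧ τ e₂ = 0 ∧ ψ e₂ = 1 ∧
      ∀ v, v + τ v • e₁ + ψ v • e₂ ∈ M := by
  have hτ : ∀ m ∈ M, τ m = 0 := by
    rw [← h.star τ, wdL_self]
    exact R.zero_mem
  have h2 := finrank_an M
  have hfa : Module.finrank (ZMod 2) (an M) = 2 := by
    change Module.finrank (ZMod 2) (an M) + fr M = fr V at h2
    omega
  -- a second functional
  obtain ⟨ψ, hψ, hψτ⟩ : ∃ ψ ∈ an M, ψ ∉ Submodule.span (ZMod 2) {τ} := by
    by_contra hcon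
    push Not at hcon
    have h3 : an M ≤ Submodule.span (ZMod 2) {τ} := hcon
    have h4 := Submodule.finrank_mono h3
    have h5 : Module.finrank (ZMod 2) (Submodule.span (ZMod 2) {τ}) ≤ 1 :=
      (finrank_span_le_card _).trans (by simp)
    omega
  -- an element where τ is one and ψ is zero
  obtain ⟨e₁, he₁, h1⟩ : ∃ x ∈ co (Submodule.span (ZMod 2) {ψ}), τ x = 1 := by
    apply exists_cosep
    intro hm
    obtain ⟨c, hc⟩ := Submodule.mem_span_singleton.1 hm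
    rcases zm c with rfl | rfl
    · rw [zero_smul] at hc
      exact h.τ0 hc.symm
    · rw [one_smul] at hc
      rw [hc] at hψτ
      exact hψτ (Submodule.mem_span_singleton_self τ)
  obtain ⟨e₂, he₂, h2'⟩ := exists_cosep hψτ
  have e1 : ψ e₁ = 0 := he₁ ψ (Submodule.mem_span_singleton_self ψ)
  have e2 : τ e₂ = 0 := he₂ τ (Submodule.mem_span_singleton_self τ)
  have han : an M = Submodule.span (ZMod 2) {τ, ψ} := by
    symm
    apply Submodule.eq_of_le_of_finrank_le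
    · rw [Submodule.span_le]
      intro φ hφ
      rcases hφ with rfl | hφ
      · exact hτ
      · rw [Set.mem_singleton_iff] at hφ
        rw [hφ]
        exact hψ
    · rw [hfa]
      have hli : LinearIndependent (ZMod 2) ![τ, ψ] := by
        rw [LinearIndependent.pair_iff]
        intro s t hst
        have h3 := congrArg (fun f : D V => f e₁) hst
        have h4 := congrArg (fun f : D V => f e₂) hst
        simp only [LinearMap.add_apply, LinearMap.smul_apply, h1, e1, e2, h2', smul_eq_mul,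
          mul_one, mul_zero, add_zero, zero_add, LinearMap.zero_apply] at h3 h4
        exact ⟨h3, h4⟩
      have h5 := finrank_span_eq_card hli
      rw [Fintype.card_fin] at h5
      have h6 : Set.range ![τ, ψ] = {τ, ψ} := by
        simp [Matrix.range_cons, Set.pair_comm]
      rw [h6] at h5
      rw [h5]
  refine ⟨ψ, e₁, e₂, (h.star ψ).2 hψ, hτ, hψ, h1, e1, e2, h2', fun v => ?_⟩
  rw [← co_an M, han]
  intro φ hφ
  obtain ⟨a, b, rfl⟩ := Submodule.mem_span_pair.1 hφ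
  simp only [LinearMap.add_apply, LinearMap.smul_apply, map_add, map_smul, h1, e1, e2, h2',
    smul_eq_mul, mul_one, mul_zero, add_zero]
  have e3 : ∀ a b s t : ZMod 2, a * s + b * t + s * a + t * (0 + b) = 0 := by decide
  exact e3 _ _ _ _

/-- a form killing `M` is a multiple of `τ ∧ ψ` -/
theorem kill_form {M : Submodule (ZMod 2) V} {τ ψ : D V} {e₁ e₂ : V} {κ : Fm V}
    (ha : ∀ x, κ x x = 0) (hM : ∀ m ∈ M, κ m = 0) (h : ∀ v, v + τ v • e₁ + ψ v • e₂ ∈ M) :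
    κ = κ e₁ e₂ • wdL τ ψ := by
  have key : ∀ v, κ v = τ v • κ e₁ + ψ v • κ e₂ := by
    intro v
    have h1 := hM _ (h v)
    rw [map_add, map_add, map_smul, map_smul, add_assoc] at h1
    exact eq_of_add h1
  ext x y
  rw [key x, LinearMap.add_apply, LinearMap.smul_apply, LinearMap.smul_apply,
    symm_of_alt ha e₁ y, symm_of_alt ha e₂ y, key y]
  simp only [LinearMap.add_apply, LinearMap.smul_apply, smul_eq_mul, ha, wdL_apply₂]
  rw [symm_of_alt ha e₂ e₁]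
  ring

/-- a nonzero form killing `M` has kernel `M` -/
theorem kill_ker {M : Submodule (ZMod 2) V} {τ ψ : D V} {e₁ e₂ : V} {κ : Fm V}
    (ha : ∀ x, κ x x = 0) (hM : ∀ m ∈ M, κ m = 0) (h : ∀ v, v + τ v • e₁ + ψ v • e₂ ∈ M)
    (h1 : τ e₁ = 1) (h2 : ψ e₁ = 0) (h3 : τ e₂ = 0) (h4 : ψ e₂ = 1)
    (hκ : κ ≠ 0) {u : V} (hu : κ u = 0) : u ∈ M := by
  have e := kill_form ha hM h
  have hc : κ e₁ e₂ = 1 := by
    apply zm_ne
    intro h0
    rw [h0, zero_smul] at e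
    exact hκ e
  rw [hc, one_smul] at e
  have f1 : ψ u = 0 := by
    have : wdL τ ψ u e₁ = 0 := by rw [← e, hu]; rfl
    rw [wdL_apply₂, h2, h1, mul_zero, zero_add, mul_one] at this
    exact this
  have f2 : τ u = 0 := by
    have : wdL τ ψ u e₂ = 0 := by rw [← e, hu]; rfl
    rw [wdL_apply₂, h4, h3, mul_one, mul_zero, add_zero] at this
    exact this
  have := h u
  rwa [f1, f2, zero_smul, zero_smul, add_zero, add_zero] at this

/-- uniqueness of the form killing `M` -/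
theorem uniq {R : FS V} {M : Submodule (ZMod 2) V} (hR : IsAlt R) (hF : Full R M) {k κ : Fm V}
    (hk : k ∈ R) (hκ : κ ∈ R) (hM : ∀ m ∈ M, κ m = 0) (h1 : LinearMap.ker k ⊔ M = ⊤)
    (h2 : LinearMap.ker (k + κ) ⊔ M = ⊤) : κ = 0 := by
  refine LinearMap.ext fun v => ?_
  obtain ⟨u, hu, a, ha, rfl⟩ := Submodule.mem_sup.1 (show v ∈ LinearMap.ker (k + κ) ⊔ M by
    rw [h2]; trivial)
  obtain ⟨u', hu', a', ha', hua⟩ := Submodule.mem_sup.1 (show u ∈ LinearMap.ker k ⊔ M by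
    rw [h1]; trivial)
  rw [LinearMap.mem_ker] at hu hu'
  rw [LinearMap.add_apply] at hu
  have e1 : k u = κ u := eq_of_add hu
  have e2 : k u = k a' := by rw [← hua, map_add, hu', zero_add]
  have e3 : k a' = 0 := by
    apply hF a' ha' k hk
    intro b hb
    rw [← e2, e1, hR.symm hκ, hM b hb]
    rfl
  rw [map_add, hM a ha, add_zero, ← e1, e2, e3]
  rfl

theorem ker_sup_lift {M : Submodule (ZMod 2) V} {k : Fm V} (h1 : LinearMap.ker k ⊔ M = ⊤) (v : V) :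
    ∃ a ∈ M, k v = k a := by
  obtain ⟨u, hu, a, ha, rfl⟩ := Submodule.mem_sup.1 (show v ∈ LinearMap.ker k ⊔ M by
    rw [h1]; trivial)
  rw [LinearMap.mem_ker] at hu
  exact ⟨a, ha, by rw [map_add, hu, zero_add]⟩

theorem ker_sup_lift' {M : Submodule (ZMod 2) V} {k : Fm V} (h1 : LinearMap.ker k ⊔ M = ⊤)
    (x : V ⧸ M) : ∃ c, M.mkQ c = x ∧ k c = 0 := by
  obtain ⟨v, rfl⟩ := M.mkQ_surjective x
  obtain ⟨u, hu, a, ha, rfl⟩ := Submodule.mem_sup.1 (show v ∈ LinearMap.ker k ⊔ M by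
    rw [h1]; trivial)
  rw [LinearMap.mem_ker] at hu
  refine ⟨u, ?_, hu⟩
  rw [map_add, (Submodule.Quotient.mk_eq_zero M).2 ha |> (fun h => (show M.mkQ a = 0 from h)),
    add_zero]

theorem mkQ_zero {M : Submodule (ZMod 2) V} {m : V} : M.mkQ m = 0 ↔ m ∈ M :=
  Submodule.Quotient.mk_eq_zero M

/-- positivity of `PP` at `0` -/
theorem pp_pos [Finite V] {R : FS V} {M : Submodule (ZMod 2) V} {α : D V} {θ : D (V ⧸ M)}
    {x : V ⧸ M} {z : V} (hz : M.mkQ z = x) {k : Fm V} (hk : k ∈ R)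
    (hkz : k z = α + θ ∘ₗ M.mkQ) : 1 ≤ PP R M α θ x := by
  unfold PP
  rw [Nat.one_le_iff_ne_zero]
  have : Nonempty {z : V // M.mkQ z = x ∧ α + θ ∘ₗ M.mkQ ∈ Lx R z} := ⟨⟨z, hz, k, hk, hkz⟩⟩
  exact Nat.card_pos.ne'

theorem pp_exists {R : FS V} {M : Submodule (ZMod 2) V} {α : D V} {θ : D (V ⧸ M)}
    {x : V ⧸ M} (h : 1 ≤ PP R M α θ x) : ∃ z, M.mkQ z = x ∧ ∃ k ∈ R, k z = α + θ ∘ₗ M.mkQ := by
  unfold PP at h
  have h1 : Nat.card {z : V // M.mkQ z = x ∧ α + θ ∘ₗ M.mkQ ∈ Lx R z} ≠ 0 := by omega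
  obtain ⟨⟨z, hz, hz'⟩⟩ := (Nat.card_ne_zero.1 h1).1
  exact ⟨z, hz, hz'⟩

theorem pp_unique {R : FS V} {M : Submodule (ZMod 2) V} {α : D V} {θ : D (V ⧸ M)}
    {x : V ⧸ M} (h : PP R M α θ x = 1) {z z' : V} (hz : M.mkQ z = x) (hz' : M.mkQ z' = x)
    (h1 : α + θ ∘ₗ M.mkQ ∈ Lx R z) (h2 : α + θ ∘ₗ M.mkQ ∈ Lx R z') : z = z' := by
  unfold PP at h
  rw [Nat.card_eq_one_iff_unique] at h
  obtain ⟨h3, -⟩ := h
  have e := Subsingleton.elim (⟨z, hz, h1⟩ : {z : V // M.mkQ z = x ∧ α + θ ∘ₗ M.mkQ ∈ Lx R z})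
    ⟨z', hz', h2⟩
  exact congrArg Subtype.val e

end Pool.Agent.ESL.C2AuxX
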