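import Pool.Agent.ESL.Stmts

/-!
CTXC: the counting context holds in Part I, `d ≥ 3`.
-/

set_option linter.unusedVariables false

namespace Pool.Agent.ESL

theorem ctxc_proof (hPZ : Stmt_PZ) (hDIAG : Stmt_DIAG) (hPAIR : Stmt_PAIR) (hP3 : Stmt_P3)
    (hF1 : Stmt_F1) (hF4A : Stmt_F4A) (hF4C : Stmt_F4C) : Stmt_CTXC := by
  intro V _ _ _ R τ M hC hFull hd α
  have hτM : ∀ m ∈ M, τ m = 0 := by
    rw [← hC.star, wdL_self]
    exact R.zero_mem
  obtain ⟨τ', hτ'⟩ := exists_comp (M := M) hτM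
  have hτ'' : ∀ x, τ' (M.mkQ x) = τ x := fun x => congrArg (fun f : D V => f x) hτ'
  have hsurj := M.mkQ_surjective
  have hmem : ∀ x : V, M.mkQ x = 0 ↔ x ∈ M := fun x => by
    rw [← LinearMap.mem_ker, Submodule.ker_mkQ]
  have halt : IsAlt (R0 R M) := by
    intro κ hκ x
    obtain ⟨x, rfl⟩ := hsurj x
    exact hC.alt _ hκ x
  have hstar : ∀ ψ, wdL τ' ψ ∈ R0 R M := by
    intro ψ
    rw [mem_R0]
    have h1 : pull M.mkQ (wdL τ' ψ) = wdL τ (ψ ∘ₗ M.mkQ) := by
      ext x y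
      rw [pull_apply, wdL_apply₂, wdL_apply₂, hτ'', hτ'']
      rfl
    rw [h1, hC.star]
    intro m hm
    rw [LinearMap.comp_apply, (hmem m).2 hm, map_zero]
  have hlink := hC.sl.linked
  refine ⟨τ', halt, ?_, hstar, ?_, ?_, ?_, ?_, ?_⟩
  · rintro rfl
    apply hC.τ0
    rw [← hτ']
    rfl
  · intro κ hκ θ x
    exact hPZ V R M α κ hκ θ x
  · intro θ x
    exact hDIAG V R M α hC.alt hlink (hF1 V R τ M hC) θ x
  · intro θ v v' hne hv
    refine hPAIR V R M α hC.alt hlink v v' hne (fun w hw => ?_) θ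
    apply hF4A V R τ M hC hFull hd w
    · rw [← hmem, hw]
      intro h
      apply hne
      exact eq_of_add h
    · rw [← hτ'', hw, hv]
  · intro hsep θ v v' hv
    have hne : v ≠ v' := by
      rintro rfl
      rw [add_self', map_zero] at hv
      exact zero_ne_one hv
    refine hPAIR V R M α hC.alt hlink v v' hne (fun w hw => ?_) θ
    apply hF4C V R τ M hC hFull w
    · rw [← hτ'', hw, hv]
    · intro x hxM hx
      obtain ⟨κ, hκ, hκy, hκx⟩ := hsep (M.mkQ w) (M.mkQ x) (by rw [hw, hv])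
        (by rw [hτ'', hx]) (fun h => hxM ((hmem x).1 h))
      refine ⟨pull M.mkQ κ, hκ, fun m hm => pull_ker κ hm, ?_, ?_⟩
      · rw [pull_apply', hκy]
        rfl
      · rw [pull_apply']
        intro h
        apply hκx
        apply comp_inj hsurj
        rw [h]
        rfl
  · intro θ y hy h1
    refine hP3 V R M α hC.alt hFull y (fun ψ hψ => ?_) θ h1
    refine ⟨wdL τ' ψ, hstar ψ, ?_⟩
    rw [wdL_apply, hy, hψ, one_smul, zero_smul, add_zero]

end Pool.Agent.ESL
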