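import Mathlib

/-!
Form spaces over `F_2` (linear spaces of alternating forms on a finite `F_2`-space `V`), linked and strongly linked
form spaces, form spaces of elementary type.  Problem MP_d26ff6_al.
-/

namespace Pool.Agent.ESL

variable {V X : Type} [AddCommGroup V] [Module (ZMod 2) V] [AddCommGroup X] [Module (ZMod 2) X]

/-- the dual space -/
abbrev D (V : Type) [AddCommGroup V] [Module (ZMod 2) V] : Type := V →ₗ[ZMod 2] ZMod 2

instance (priority := 5000) instD : AddCommGroup (D V) := LinearMap.addCommGroup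

instance (priority := 5000) instD' : AddCommMonoid (D V) := AddCommGroup.toAddCommMonoid

/-- bilinear forms, `k x` is the functional `v ↦ k x v` -/
abbrev Fm (V : Type) [AddCommGroup V] [Module (ZMod 2) V] : Type := V →ₗ[ZMod 2] D V

instance (priority := 5000) instF : AddCommGroup (Fm V) := LinearMap.addCommGroup

instance (priority := 5000) instF' : AddCommMonoid (Fm V) := AddCommGroup.toAddCommMonoid

/-- spaces of forms -/
abbrev FS (V : Type) [AddCommGroup V] [Module (ZMod 2) V] : Type := Submodule (ZMod 2) (Fm V)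

/-- all forms of `R` are alternating -/
def IsAlt (R : FS V) : Prop := ∀ k ∈ R, ∀ x, k x x = 0

instance [Finite V] : Finite (D V) := DFunLike.finite _

instance [Finite V] : Finite (Fm V) := by
  have : Finite (V → D V) := inferInstance
  exact Finite.of_injective (fun k : Fm V => (k : V → D V)) DFunLike.coe_injective

instance [Finite V] (M : Submodule (ZMod 2) V) : Finite (V ⧸ M) :=
  Finite.of_surjective M.mkQ M.mkQ_surjective

/-- dimension -/
noncomputable abbrev fr (W : Type) [AddCommGroup W] [Module (ZMod 2) W] : ℕ := Module.finrank (ZMod 2) W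

/-- the form `τ ∧ ψ`, linear in `ψ`: `x ↦ τ x • ψ + ψ x • τ` -/
def wdL (τ : D V) : D V →ₗ[ZMod 2] Fm V where
  toFun ψ := τ.smulRight ψ + ψ.smulRight τ
  map_add' a b := by
    ext x y
    simp [LinearMap.smulRight_apply]
    ring
  map_smul' c a := by
    ext x y
    simp [LinearMap.smulRight_apply]
    ring

/-- annihilator of a subspace of `V` in the dual -/
def an (W : Submodule (ZMod 2) V) : Submodule (ZMod 2) (D V) where
  carrier := {φ | ∀ x ∈ W, φ x = 0}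
  add_mem' := fun {a b} ha hb x hx => by simp [ha x hx, hb x hx]
  zero_mem' := fun x _ => rfl
  smul_mem' := fun c a ha x hx => by simp [ha x hx]

/-- annihilator in `V` of a subspace of the dual -/
def co (T : Submodule (ZMod 2) (D V)) : Submodule (ZMod 2) V where
  carrier := {x | ∀ φ ∈ T, φ x = 0}
  add_mem' := fun {a b} ha hb φ hφ => by simp [ha φ hφ, hb φ hφ]
  zero_mem' := fun φ _ => map_zero φ
  smul_mem' := fun c a ha φ hφ => by simp [ha φ hφ]

/-- `L_x = {k x : k ∈ R}` -/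
def Lx (R : FS V) (x : V) : Submodule (ZMod 2) (D V) where
  carrier := {ψ | ∃ k ∈ R, k x = ψ}
  add_mem' := by
    rintro a b ⟨k, hk, rfl⟩ ⟨l, hl, rfl⟩
    exact ⟨k + l, R.add_mem hk hl, rfl⟩
  zero_mem' := ⟨0, R.zero_mem, rfl⟩
  smul_mem' := by
    rintro c a ⟨k, hk, rfl⟩
    exact ⟨c • k, R.smul_mem c hk, rfl⟩

/-- `V_x = {v : k x v = 0 for all k in R}` -/
def Vx (R : FS V) (x : V) : Submodule (ZMod 2) V := co (Lx R x)

/-- `R^w = {k ∈ R : k w = 0}` -/
def fx (R : FS V) (w : V) : FS V where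
  carrier := {k | k ∈ R ∧ k w = 0}
  add_mem' := by
    rintro a b ⟨ha, ha'⟩ ⟨hb, hb'⟩
    exact ⟨R.add_mem ha hb, by simp [ha', hb']⟩
  zero_mem' := ⟨R.zero_mem, rfl⟩
  smul_mem' := by
    rintro c a ⟨ha, ha'⟩
    exact ⟨R.smul_mem c ha, by simp [ha']⟩

/-- `R^W = {k ∈ R : k w = 0 for all w in W}` -/
def fxs (R : FS V) (W : Submodule (ZMod 2) V) : FS V where
  carrier := {k | k ∈ R ∧ ∀ w ∈ W, k w = 0}
  add_mem' := by
    rintro a b ⟨ha, ha'⟩ ⟨hb, hb'⟩
    exact ⟨R.add_mem ha hb, fun w hw => by simp [ha' w hw, hb' w hw]⟩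
  zero_mem' := ⟨R.zero_mem, fun _ _ => rfl⟩
  smul_mem' := by
    rintro c a ⟨ha, ha'⟩
    exact ⟨R.smul_mem c ha, fun w hw => by simp [ha' w hw]⟩

/-- the support of `R`: span of all `k x` -/
def Sp (R : FS V) : Submodule (ZMod 2) (D V) :=
  Submodule.span (ZMod 2) {φ | ∃ k ∈ R, ∃ x, k x = φ}

/-- the radical of `R` -/
def rad (R : FS V) : Submodule (ZMod 2) V where
  carrier := {x | ∀ k ∈ R, k x = 0}
  add_mem' := fun {a b} ha hb k hk => by simp [ha k hk, hb k hk]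
  zero_mem' := fun k _ => map_zero k
  smul_mem' := fun c a ha k hk => by simp [ha k hk]

/-- `{ψ : τ ∧ ψ ∈ R}` -/
def Star (R : FS V) (τ : D V) : Submodule (ZMod 2) (D V) := R.comap (wdL τ)

/-- `R` is linked -/
def Linked (R : FS V) : Prop :=
  ∀ k ∈ R, ∀ k' ∈ R, ∀ x x', k x = k' x' → ∃ l ∈ R, l x = k x ∧ l x' = k x

/-- `R` is strongly linked: every pointwise inner linear map on a subspace is inner -/
def SL (R : FS V) : Prop :=
  ∀ (U : Submodule (ZMod 2) V) (b : U →ₗ[ZMod 2] D V), (∀ u : U, b u ∈ Lx R u) →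
    ∃ k ∈ R, ∀ u : U, k u = b u

/-- form spaces of elementary type (radicals are allowed) -/
inductive ET : FS V → Prop
  | loc (k : Fm V) (h : ∀ x, k x x = 0) : ET (Submodule.span (ZMod 2) {k})
  | sum (R₁ R₂ : FS V) (h₁ : ET R₁) (h₂ : ET R₂) (h : Disjoint (Sp R₁) (Sp R₂)) : ET (R₁ ⊔ R₂)
  | ext (R : FS V) (L : Submodule (ZMod 2) (D V)) (τ : D V) (h : ET R) (hL : Sp R ≤ L) (hτ : τ ∉ L) :
      ET (R ⊔ L.map (wdL τ))

/-- pull-back of forms -/
def pull (π : V →ₗ[ZMod 2] X) : Fm X →ₗ[ZMod 2] Fm V where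
  toFun κ := κ.compl₁₂ π π
  map_add' a b := by ext x y; simp
  map_smul' c a := by ext x y; simp

/-- the forms on `V / M` whose pull-back is in `R` -/
def R0 (R : FS V) (M : Submodule (ZMod 2) V) : FS (V ⧸ M) := R.comap (pull M.mkQ)

/-- `w` is split with respect to `M` -/
def Spl (R : FS V) (M : Submodule (ZMod 2) V) (w : V) : Prop :=
  ∃ C : Submodule (ZMod 2) V, C ⊔ M = ⊤ ∧ ∀ k ∈ R, k w = 0 →
    ∃ κ ∈ R, (∀ m ∈ M, κ m = 0) ∧ κ w = 0 ∧ ∀ c ∈ C, k c = κ c

/-- `M` is full: `L_m ∩ M^⊥ = 0` for `m` in `M` -/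
def Full (R : FS V) (M : Submodule (ZMod 2) V) : Prop :=
  ∀ m ∈ M, ∀ k ∈ R, (∀ a ∈ M, k m a = 0) → k m = 0

/-- the hypothesis of Part I: `M^⊥ = Star(τ)` has the maximal dimension `d`, `2 ≤ d < dim V` -/
structure CtxI (R : FS V) (τ : D V) (M : Submodule (ZMod 2) V) : Prop where
  alt : IsAlt R
  sl : SL R
  nd : rad R = ⊥
  et : ∀ w, w ≠ 0 → ET (fx R w)
  star : ∀ ψ, wdL τ ψ ∈ R ↔ ∀ m ∈ M, ψ m = 0
  max : ∀ σ : D V, σ ≠ 0 →
    fr (Star R σ) + fr M ≤ fr V
  two : fr M + 2 ≤ fr V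
  ne : M ≠ ⊥
  τ0 : τ ≠ 0

/-- number of `z` in the coset `x` of `M` with `α + θ ∈ L_z` -/
noncomputable def PP (R : FS V) (M : Submodule (ZMod 2) V) (α : D V) (θ : D (V ⧸ M)) (x : V ⧸ M) : ℕ :=
  Nat.card {z : V // M.mkQ z = x ∧ α + θ ∘ₗ M.mkQ ∈ Lx R z}

/-- the induction hypothesis -/
def IH (R : FS V) : Prop := ∀ R' : FS V, R' ≤ R → R' ≠ R → SL R' → ET R'

/-! ### atoms -/

/-- `a` is an atom of `R^w` -/
def At (R : FS V) (w : V) (a : Fm V) : Prop :=
  a ∈ R ∧ a w = 0 ∧ a ≠ 0 ∧ ∀ k ∈ R, k w = 0 → LinearMap.range k ≤ LinearMap.range a → k = 0 ∨ k = a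

/-- the finite set of atoms of `R^w` -/
noncomputable def ats [Finite V] (R : FS V) (w : V) : Finset (Fm V) :=
  (Set.toFinite {a : Fm V | At R w a}).toFinset

/-- `a` is an atom of some `R^w`, `w ≠ 0` -/
def Atom (R : FS V) (a : Fm V) : Prop := ∃ w, w ≠ 0 ∧ At R w a

/-- `a` is good -/
def Good (R : FS V) (a : Fm V) : Prop :=
  ∀ φ ∈ LinearMap.range a, φ ≠ 0 → ∀ x, φ ∈ Lx R x → a x = φ

/-- independent supports -/
def IndB (A : Finset (Fm V)) : Prop :=
  (∀ a ∈ A, a ≠ 0) ∧ iSupIndep (fun a : A => LinearMap.range (a : Fm V))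

/-- the hypothesis of Part II: every `R^w`, `w ≠ 0`, has a basis with independent supports -/
structure CtxII (R : FS V) : Prop where
  alt : IsAlt R
  sl : SL R
  nd : rad R = ⊥
  at' : ∀ w, w ≠ 0 → ∃ A : Finset (Fm V), IndB A ∧ Submodule.span (ZMod 2) (A : Set (Fm V)) = fx R w

/-- `k` is the form of a block of `P_ψ` (the block is `{z | k z = ψ}`) -/
structure Blk (R : FS V) (ψ : D V) (k : Fm V) : Prop where
  mem : k ∈ R
  ne : ψ ≠ 0
  ex : ∃ z, k z = ψ
  deg : ∃ u, u ≠ 0 ∧ k u = 0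
  all : ∀ u, u ≠ 0 → k u = 0 → ∀ z, ψ ∈ Lx R z → ψ ∈ Lx R (z + u) → k z = ψ
  at' : ∀ u, u ≠ 0 → k u = 0 → ∀ a, At R u a → LinearMap.range a ≤ LinearMap.range k →
    ∀ z, k z = ψ → a z ≠ 0

end Pool.Agent.ESL
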