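import Pool.Agent.ESL.Stmts

/-!
Module PARTI: assembly of Part I.
-/

set_option linter.unusedVariables false

namespace Pool.Agent.ESL

theorem parti_proof (hF1 : Stmt_F1) (hF2 : Stmt_F2) (hF3 : Stmt_F3) (hCTXC : Stmt_CTXC)
    (hC3 : Stmt_C3) (hC2 : Stmt_C2) (hOC : Stmt_OC) (hSAT : Stmt_SAT) (hCROSS : Stmt_CROSS)
    (hENDD : Stmt_ENDD) : Stmt_PARTI := by
  intro V _ _ _ R τ M h hIH
  have h2 : 2 ≤ fr M := hF3 V R τ M h
  have hspl : ∀ w ∈ M, w ≠ 0 → Spl R M w := hF1 V R τ M h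
  have hfull : Full R M := hF2 V R τ M h hspl h2
  have hone : ∀ α : D V, ∀ θ θ', 1 ≤ PP R M α θ 0 → 1 ≤ PP R M α θ' 0 → θ = θ' := by
    intro α
    by_cases hd : fr M + 3 ≤ fr V
    · obtain ⟨τ', hτ'⟩ := hCTXC V R τ M h hfull hd α
      have hq : fr (V ⧸ M) + fr M = fr V := Submodule.finrank_quotient_add_finrank M
      exact hC3 (V ⧸ M) (R0 R M) τ' (PP R M α) hτ' (by omega)
    · have h3 : fr V = fr M + 2 := by
        have := h.two
        omega
      exact hC2 V R τ M h hfull h3 α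
  have hoc : OC R M := hOC V R M hone
  have hsat : M ⊔ cent R M = ⊤ := hSAT V R M h.alt h.sl.linked hoc
  have hτM : ∀ m ∈ M, τ m = 0 := (h.star τ).1 (by rw [wdL_self]; exact R.zero_mem)
  have hcross := hCROSS V R τ M h.alt h.sl.linked h.nd h.τ0 (fun ψ hψ => (h.star ψ).2 hψ) hτM hsat
  have hne : M ≠ ⊤ := by
    rintro rfl
    have h4 : fr (⊤ : Submodule (ZMod 2) V) = fr V := finrank_top (ZMod 2) V
    have := h.two
    omega
  exact hENDD V R M h.alt h.sl h.nd hIH h.ne hne hsat hcross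

end Pool.Agent.ESL
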